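import Pool.Agent.T2h80.R5.ALq

set_option autoImplicit false

/-!
# ALGR: the tuples attached to a class of order dividing five
-/

namespace Pool.Agent.T2h80.R5

open Finset NumberField Pool.Agent.T2h80.F5

namespace ALGRaux

open MERaux ALaux

variable {K : Type} [Field K] [NumberField K]

open Classical in
/-- the class attached to a tuple -/
noncomputable def kapR (ω : 𝓞 K) (t : ℕ × ℤ × ℤ × ℤ × ℤ × ℤ × ℤ) : ClassGroup (𝓞 K) :=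
  if h : ∃ Pf : Ideal (𝓞 K), Pf ≠ ⊥ ∧ IDT ω Pf t then
    ClassGroup.mk0 ⟨h.choose, mem_nonZeroDivisors_of_ne_zero h.choose_spec.1⟩ else 1

theorem kapR_eq (ω : 𝓞 K) (t : ℕ × ℤ × ℤ × ℤ × ℤ × ℤ × ℤ) (ht : t.2.2.1 ≠ 0)
    (Pf : Ideal (𝓞 K)) (hPf : Pf ≠ ⊥) (h : IDT ω Pf t) :
    kapR ω t = ClassGroup.mk0 ⟨Pf, mem_nonZeroDivisors_of_ne_zero hPf⟩ := by
  have hex : ∃ Pf : Ideal (𝓞 K), Pf ≠ ⊥ ∧ IDT ω Pf t := ⟨Pf, hPf, h⟩
  unfold kapR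
  rw [dif_pos hex]
  congr 1
  apply Subtype.ext
  have h1 := hex.choose_spec.2
  have h2 := h.symm.trans h1
  have hne : (Ideal.span {((t.2.2.1 : ℤ) : 𝓞 K)} ^ 2 : Ideal (𝓞 K)) ≠ 0 := by
    apply pow_ne_zero
    rw [Ne, Ideal.zero_eq_bot, Ideal.span_singleton_eq_bot]
    exact_mod_cast ht
  exact (pow5_injR _ _ (mul_left_cancel₀ hne h2)).symm

theorem cls_quot (Pf J : Ideal (𝓞 K)) (hPf : Pf ≠ ⊥) (hJ : J ≠ ⊥) (z : 𝓞 K)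
    (h : Pf * J = Ideal.span {z}) :
    ClassGroup.mk0 ⟨Pf, mem_nonZeroDivisors_of_ne_zero hPf⟩ *
      ClassGroup.mk0 ⟨J, mem_nonZeroDivisors_of_ne_zero hJ⟩ = 1 := by
  rw [← map_mul]
  have : (⟨Pf, mem_nonZeroDivisors_of_ne_zero hPf⟩ : nonZeroDivisors (Ideal (𝓞 K))) *
      ⟨J, mem_nonZeroDivisors_of_ne_zero hJ⟩ =
      ⟨Pf * J, mul_mem (mem_nonZeroDivisors_of_ne_zero hPf) (mem_nonZeroDivisors_of_ne_zero hJ)⟩ :=
    rfl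
  rw [this, ClassGroup.mk0_eq_one_iff, h]
  exact ⟨⟨_, rfl⟩⟩

theorem el_ne {D : ℕ} {ω : 𝓞 K} {σ : 𝓞 K →+* 𝓞 K} (hQ : IsQR K D ω σ) (x : ℤ × ℤ) (hx : x ≠ 0) :
    el ω x ≠ 0 := by
  intro h
  apply hx
  exact el_inj hQ x 0 (by rw [h]; unfold el; simp)

theorem el_neg (ω : 𝓞 K) (x : ℤ × ℤ) : el ω (-x) = - el ω x := by
  unfold el
  rw [Prod.fst_neg, Prod.snd_neg]
  push_cast
  ring

theorem el_pm {D : ℕ} {ω : 𝓞 K} {σ : 𝓞 K →+* 𝓞 K} (hQ : IsQR K D ω σ) (x y : ℤ × ℤ)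
    (h : el ω x = el ω y ∨ el ω x = - el ω y) : x = y ∨ x = -y := by
  rcases h with h | h
  · exact Or.inl (el_inj hQ _ _ h)
  · exact Or.inr (el_inj hQ _ _ (by rw [h, el_neg]))

/-- the assembly -/
theorem asm (D : ℕ) (κ : ℕ × ℤ × ℤ × ℤ × ℤ × ℤ × ℤ → ClassGroup (𝓞 K)) (c : ClassGroup (𝓞 K))
    (x x' : ℤ × ℤ) (v₁ v₂ z₁ z₂ : ℝ) (hx0 : 0 < nn D v₁ v₂ x)
    (hle : nn D v₁ v₂ x ≤ nn D z₁ z₂ x') (hx' : nn D z₁ z₂ x' ^ 2 ≤ 3 / 2 * Real.sqrt D)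
    (Ys : Finset (ℤ × ℤ)) (hcard : Real.sqrt D / nn D z₁ z₂ x' ^ 2 ≤ Ys.card)
    (hY : ∀ y ∈ Ys, -y ∉ Ys ∧
      Real.sqrt D / nn D z₁ z₂ x' ≤ 10 * (z₁ * |E1 D y.1 y.2|) ∧
      Real.sqrt D / nn D z₁ z₂ x' ≤ 10 * (z₂ * |E2 D y.1 y.2|) ∧
      z₁ * |E1 D y.1 y.2| ≤ 10 * (Real.sqrt D / nn D z₁ z₂ x') ∧
      z₂ * |E2 D y.1 y.2| ≤ 10 * (Real.sqrt D / nn D z₁ z₂ x'))
    (T : ℤ × ℤ → ℕ × ℤ × ℤ × ℤ × ℤ × ℤ × ℤ)
    (hT : ∀ y ∈ Ys,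
      RELR D (T y).1 (T y).2.1 (T y).2.2.1 (T y).2.2.2.1 (T y).2.2.2.2.1 (T y).2.2.2.2.2.1
        (T y).2.2.2.2.2.2 ∧
      (SZE D (T y).1 (T y).2.1 (T y).2.2.1 (T y).2.2.2.1 (T y).2.2.2.2.1 (T y).2.2.2.2.2.1
        (T y).2.2.2.2.2.2 (v₁ * |E1 D x.1 x.2|) (v₂ * |E2 D x.1 x.2|) (z₁ * |E1 D y.1 y.2|)
        (z₂ * |E2 D y.1 y.2|) ∨
      SZE D (T y).1 (T y).2.1 (T y).2.2.1 (T y).2.2.2.1 (T y).2.2.2.2.1 (T y).2.2.2.2.2.1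
        (T y).2.2.2.2.2.2 (v₁ * |E1 D x.1 x.2|) (v₂ * |E2 D x.1 x.2|) (z₂ * |E2 D y.1 y.2|)
        (z₁ * |E1 D y.1 y.2|)) ∧ κ (T y) = c)
    (hinj : ∀ y ∈ Ys, ∀ y' ∈ Ys, T y = T y' → y = y' ∨ y = -y') :
    ∃ F Y : ℝ, 0 < F ∧ 0 < Y ∧ F ^ 2 ≤ 2 * Real.sqrt D ∧ F * Y ≤ Real.sqrt D ∧
      Real.sqrt D ≤ 2 * Y ^ 2 ∧
    ∃ B : Finset (ℕ × ℤ × ℤ × ℤ × ℤ × ℤ × ℤ), Y ^ 2 / Real.sqrt D ≤ B.card ∧ ∀ t ∈ B,
      RELR D t.1 t.2.1 t.2.2.1 t.2.2.2.1 t.2.2.2.2.1 t.2.2.2.2.2.1 t.2.2.2.2.2.2 ∧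
      SIZ 1 10 D F Y t.1 t.2.1 t.2.2.1 t.2.2.2.1 t.2.2.2.2.1 t.2.2.2.2.2.1 t.2.2.2.2.2.2 ∧
      κ t = c := by
  classical
  obtain ⟨nA, hnA⟩ : ∃ nA, nA = nn D z₁ z₂ x' := ⟨_, rfl⟩
  rw [← hnA] at hle hx' hcard hY
  have hA0 : 0 < nA := lt_of_lt_of_le hx0 hle
  have hs0 : 0 < Real.sqrt D := by
    have : 0 < nA ^ 2 := by positivity
    linarith
  refine ⟨nn D v₁ v₂ x, Real.sqrt D / nA, hx0, by positivity, ?_, ?_, ?_, Ys.image T, ?_, ?_⟩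
  · have h1 : nn D v₁ v₂ x ^ 2 ≤ nA ^ 2 := pow_le_pow_left₀ hx0.le hle 2
    linarith
  · rw [← mul_div_assoc, div_le_iff₀ hA0, mul_comm]
    exact mul_le_mul_of_nonneg_left hle hs0.le
  · rw [div_pow, ← mul_div_assoc, le_div_iff₀ (by positivity)]
    nlinarith
  · have h1 : (Ys.image T).card = Ys.card := by
      apply Finset.card_image_of_injOn
      intro y hy y' hy' h
      rcases hinj y hy y' hy' h with h2 | h2
      · exact h2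
      · exact absurd hy (by rw [h2]; exact (hY y' hy').1)
    rw [h1]
    refine le_trans (le_of_eq ?_) hcard
    field_simp
  · intro t ht
    obtain ⟨y, hy, rfl⟩ := Finset.mem_image.1 ht
    obtain ⟨h1, h2, h3⟩ := hT y hy
    obtain ⟨-, g1, g2, g3, g4⟩ := hY y hy
    have f1 : v₁ * |E1 D x.1 x.2| ≤ nn D v₁ v₂ x := le_max_left _ _
    have f2 : v₂ * |E2 D x.1 x.2| ≤ nn D v₁ v₂ x := le_max_right _ _
    have f3 : nn D v₁ v₂ x ≤ 1 * (v₁ * |E1 D x.1 x.2|) ∨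
        nn D v₁ v₂ x ≤ 1 * (v₂ * |E2 D x.1 x.2|) := by
      rw [one_mul, one_mul]
      exact le_max_iff.1 (le_of_eq rfl)
    refine ⟨h1, ?_, h3⟩
    rcases h2 with h2 | h2
    · exact ⟨_, _, _, _, h2, f1, f2, f3, g1, g2, g3, g4⟩
    · exact ⟨_, _, _, _, h2, f1, f2, f3, g2, g1, g4, g3⟩

theorem w_exists (r : ℝ) (hr : 0 < r) : ∃ w : ℝ, 0 < w ∧ w ^ 5 * r = 1 := by
  refine ⟨(r⁻¹) ^ ((1 : ℝ) / 5), by positivity, ?_⟩
  rw [← Real.rpow_natCast, ← Real.rpow_mul (by positivity)]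
  norm_num
  exact inv_mul_cancel₀ hr.ne'

theorem nn_pos {D : ℕ} {ω : 𝓞 K} {σ : 𝓞 K →+* 𝓞 K} (hQ : IsQR K D ω σ)
    (hD4 : D % 4 = 0 ∨ D % 4 = 1) (w₁ w₂ : ℝ) (hw₁ : 0 < w₁) (x : ℤ × ℤ) (hx : x ≠ 0) :
    0 < nn D w₁ w₂ x := by
  obtain ⟨e₁, e₂, he1, he2, hσ1, hσ2, hen⟩ := emb hQ hD4
  have h0 := el_ne hQ x hx
  have h1 := nrm_quot (ω := ω) e₁ e₂ hen (Ideal.span {el ω x}) 1 (el ω x) (mul_one _)
  rw [map_one] at h1
  have h2 : (0 : ℝ) < Ideal.absNorm (Ideal.span {el ω x}) := by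
    exact_mod_cast Nat.pos_of_ne_zero (by
      rw [Ne, Ideal.absNorm_eq_zero_iff, Ideal.span_singleton_eq_bot]
      exact h0)
  have h3 : 0 < |e₁ (el ω x)| := lt_of_le_of_ne (abs_nonneg _) (fun h => by
    rw [← h, zero_mul] at h1
    push_cast at h1
    linarith)
  rw [he1] at h3
  exact lt_of_lt_of_le (by positivity) (le_max_left _ _)

end ALGRaux

open MERaux ALaux ALGRaux in
/-- **ALGR.** -/
theorem t_ALGR (hOMR : S_OMR) (hLAT1 : S_LAT1) (hLAT2 : S_LAT2) (hMER : S_MER) : S_ALGR := by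
  intro K _ _ D hK2 hdisc hD0
  obtain ⟨hD4, ω, σ, hQ⟩ := hOMR K D hK2 hdisc hD0
  refine ⟨hD4, kapR ω, fun c hc => ?_⟩
  obtain ⟨⟨I, hI⟩, hIc⟩ := ClassGroup.mk0_surjective c⁻¹
  have hI0 : I ≠ ⊥ := nonZeroDivisors.ne_zero hI
  have hI20 : I ^ 2 ≠ ⊥ := by
    rw [← Ideal.zero_eq_bot] at hI0 ⊢
    exact pow_ne_zero _ hI0
  have hI50 : I ^ 5 ≠ ⊥ := by
    rw [← Ideal.zero_eq_bot] at hI0 ⊢
    exact pow_ne_zero _ hI0
  have hpr : (I ^ 5).IsPrincipal := by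
    have hmem : I ^ 5 ∈ nonZeroDivisors (Ideal (𝓞 K)) := pow_mem hI 5
    rw [← ClassGroup.mk0_eq_one_iff hmem]
    have : (⟨I ^ 5, hmem⟩ : nonZeroDivisors (Ideal (𝓞 K))) = ⟨I, hI⟩ ^ 5 := rfl
    rw [this, map_pow, hIc, inv_pow, hc, inv_one]
  obtain ⟨⟨b, hb⟩⟩ := hpr
  obtain ⟨p, q, hpq⟩ := hQ.2.2.1 b
  have hI5 : I ^ 5 = Ideal.span {el ω (p, q)} := by
    rw [hb, hpq]
    rfl
  obtain ⟨e₁, e₂, he1, he2, hσ1, hσ2, hen⟩ := emb hQ hD4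
  have hnβ := nrm_quot (ω := ω) e₁ e₂ hen (I ^ 5) 1 (el ω (p, q)) (by rw [mul_one, hI5])
  rw [map_one] at hnβ
  have hN5 : (0 : ℝ) < Ideal.absNorm (I ^ 5) := by
    exact_mod_cast Nat.pos_of_ne_zero (by rwa [Ne, Ideal.absNorm_eq_zero_iff])
  push_cast at hnβ
  rw [mul_one] at hnβ
  have hβ1 : 0 < |e₁ (el ω (p, q))| := lt_of_le_of_ne (abs_nonneg _) (fun h => by
    rw [← h, zero_mul] at hnβ
    linarith)
  have hβ2 : 0 < |e₂ (el ω (p, q))| := lt_of_le_of_ne (abs_nonneg _) (fun h => by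
    rw [← h, mul_zero] at hnβ
    linarith)
  rw [he1] at hβ1
  rw [he2] at hβ2
  obtain ⟨w₁, hw₁, hb1⟩ := w_exists _ hβ1
  obtain ⟨w₂, hw₂, hb2⟩ := w_exists _ hβ2
  have hww := ww e₁ e₂ he1 he2 hen I (p, q) hI5 w₁ w₂ hw₁ hw₂ hb1 hb2
  have hww2 : w₁ ^ 2 * w₂ ^ 2 * (Ideal.absNorm (I ^ 2) : ℝ) = 1 := by
    rw [map_pow, Nat.cast_pow, ← mul_pow, ← mul_pow, hww, one_pow]
  obtain ⟨xP, hxP, hnP⟩ := hLAT1 K D ω σ hQ hD0 I hI0 w₁ w₂ hw₁ hw₂ hww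
  obtain ⟨xA, hxA, hnA⟩ := hLAT1 K D ω σ hQ hD0 (I ^ 2) hI20 (w₁ ^ 2) (w₂ ^ 2) (by positivity)
    (by positivity) hww2
  have hP0 := nn_pos hQ hD4 w₁ w₂ hw₁ xP hxP.1
  have hA0 := nn_pos hQ hD4 (w₁ ^ 2) (w₂ ^ 2) (by positivity) xA hxA.1
  have hIc' : ClassGroup.mk0 ⟨I, mem_nonZeroDivisors_of_ne_zero hI0⟩ = c⁻¹ := hIc
  have hI2c : ClassGroup.mk0 ⟨I ^ 2, mem_nonZeroDivisors_of_ne_zero hI20⟩ = (c ^ 2)⁻¹ := by
    have : (⟨I ^ 2, mem_nonZeroDivisors_of_ne_zero hI20⟩ : nonZeroDivisors (Ideal (𝓞 K))) =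
      ⟨I, hI⟩ ^ 2 := rfl
    rw [this, map_pow, hIc, inv_pow]
  have hNI : Ideal.absNorm I ≠ 0 := by rwa [Ne, Ideal.absNorm_eq_zero_iff]
  have hNI0 : (Ideal.absNorm I : 𝓞 K) ≠ 0 := by exact_mod_cast hNI
  rcases le_total (nn D w₁ w₂ xP) (nn D (w₁ ^ 2) (w₂ ^ 2) xA) with hle | hle
  · obtain ⟨Ys, hcard, hYs⟩ := hLAT2 K D ω σ hQ hD0 (I ^ 2) hI20 (w₁ ^ 2) (w₂ ^ 2) (by positivity)
      (by positivity) hww2 xA hxA hnA
    choose! T hT using fun (y : ℤ × ℤ) (hy : y ∈ Ys) =>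
      al1q hMER K D ω σ hQ hD4 I (p, q) hI0 hI5 w₁ w₂ hw₁ hw₂ hb1 hb2 xP y hxP (hYs y hy).1
    obtain ⟨F, Y, h1, h2, h3, h4, h5, B, h6, h7⟩ := asm (K := K) D (kapR ω) c xP xA w₁ w₂
      (w₁ ^ 2) (w₂ ^ 2) hP0 hle hnA Ys hcard (fun y hy => (hYs y hy).2) T (fun y hy => by
        obtain ⟨t1, t2, ⟨Pf, t3, t4⟩, t5⟩ := hT y hy
        refine ⟨t1, Or.inl t2, ?_⟩
        have hPf0 : Pf ≠ ⊥ := by
          rintro rfl
          rw [Ideal.bot_mul] at t3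
          exact el_ne hQ xP hxP.1 (Ideal.span_singleton_eq_bot.1 t3.symm)
        rw [kapR_eq ω (T y) t1.2.2.1 Pf hPf0 t4]
        have h8 := cls_quot Pf I hPf0 hI0 _ t3
        rw [hIc'] at h8
        exact mul_inv_eq_one.1 h8) (fun y hy y' hy' h => by
        obtain ⟨-, -, -, t5⟩ := hT y hy
        obtain ⟨-, -, -, t5'⟩ := hT y' hy'
        rw [h] at t5
        have hx20 : el ω xP ^ 2 ≠ 0 := pow_ne_zero _ (el_ne hQ xP hxP.1)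
        have hpm : el ω xP ^ 2 * σ (el ω y) = el ω xP ^ 2 * σ (el ω y') ∨
            el ω xP ^ 2 * σ (el ω y) = el ω xP ^ 2 * (-σ (el ω y')) := by
          rcases t5 with t5 | t5 <;> rcases t5' with t5' | t5'
          · left; rw [← t5, t5']
          · right; rw [← t5, t5']; ring
          · right
            have := t5.symm.trans t5'
            linear_combination -this
          · left
            have := t5.symm.trans t5'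
            linear_combination -this
        have hinv := hQ.2.2.2.2.1
        apply el_pm hQ
        rcases hpm with hpm | hpm
        · left
          have := congrArg σ (mul_left_cancel₀ hx20 hpm)
          rwa [hinv, hinv] at this
        · right
          have := congrArg σ (mul_left_cancel₀ hx20 hpm)
          rwa [map_neg, hinv, hinv] at this)
    exact ⟨F, Y, h1, h2, h3, h4, h5, B, h6, fun t ht =>
      ⟨(h7 t ht).1, (h7 t ht).2.1, Or.inl (h7 t ht).2.2⟩⟩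
  · obtain ⟨Ys, hcard, hYs⟩ := hLAT2 K D ω σ hQ hD0 I hI0 w₁ w₂ hw₁ hw₂ hww xP hxP hnP
    choose! T hT using fun (y : ℤ × ℤ) (hy : y ∈ Ys) =>
      al2q hMER K D ω σ hQ hD4 I (p, q) hI0 hI5 w₁ w₂ hw₁ hw₂ hb1 hb2 xA y hxA (hYs y hy).1
    obtain ⟨F, Y, h1, h2, h3, h4, h5, B, h6, h7⟩ := asm (K := K) D (kapR ω) (c ^ 2) xA xP
      (w₁ ^ 2) (w₂ ^ 2) w₁ w₂ hA0 hle hnP Ys hcard (fun y hy => (hYs y hy).2) T (fun y hy => by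
        obtain ⟨t1, t2, ⟨Pf, t3, t4⟩, t5⟩ := hT y hy
        refine ⟨t1, Or.inr t2, ?_⟩
        have hPf0 : Pf ≠ ⊥ := by
          rintro rfl
          rw [Ideal.bot_mul] at t3
          exact el_ne hQ xA hxA.1 (Ideal.span_singleton_eq_bot.1 t3.symm)
        rw [kapR_eq ω (T y) t1.2.2.1 Pf hPf0 t4]
        have h8 := cls_quot Pf (I ^ 2) hPf0 hI20 _ t3
        rw [hI2c] at h8
        exact mul_inv_eq_one.1 h8) (fun y hy y' hy' h => by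
        obtain ⟨-, -, -, t5⟩ := hT y hy
        obtain ⟨-, -, -, t5'⟩ := hT y' hy'
        rw [h] at t5
        have hx20 : el ω xA ^ 2 ≠ 0 := pow_ne_zero _ (el_ne hQ xA hxA.1)
        have hpm : el ω xA ^ 2 * el ω y = el ω xA ^ 2 * el ω y' ∨
            el ω xA ^ 2 * el ω y = el ω xA ^ 2 * (-el ω y') := by
          rcases t5 with t5 | t5 <;> rcases t5' with t5' | t5'
          · left; rw [← t5, t5']
          · right; rw [← t5, t5']; ring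
          · right
            have := t5.symm.trans t5'
            linear_combination -this
          · left
            have := t5.symm.trans t5'
            linear_combination -this
        apply el_pm hQ
        rcases hpm with hpm | hpm
        · exact Or.inl (mul_left_cancel₀ hx20 hpm)
        · exact Or.inr (mul_left_cancel₀ hx20 hpm))
    exact ⟨F, Y, h1, h2, h3, h4, h5, B, h6, fun t ht =>
      ⟨(h7 t ht).1, (h7 t ht).2.1, Or.inr (h7 t ht).2.2⟩⟩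

end Pool.Agent.T2h80.R5
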