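import Pool.Agent.T2h80.R5.MER

set_option autoImplicit false

/-!
# AL1 and AL2 (with `D` congruent to `0` or `1` modulo `4`)
-/

namespace Pool.Agent.T2h80.R5

open Finset NumberField Pool.Agent.T2h80.F5

namespace ALaux

open MERaux

variable {K : Type} [Field K] [NumberField K]

theorem four_n0R (D : ℕ) (hD : D % 4 = 0 ∨ D % 4 = 1) : thR D ^ 2 - 4 * n0R D = (D : ℤ) := by
  unfold n0R thR
  rcases hD with h | h
  · have h2 : D % 2 = 0 := by omega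
    rw [h2]
    push_cast
    omega
  · have h2 : D % 2 = 1 := by omega
    rw [h2]
    push_cast
    omega

/-- the embedding given by a square root of `D` -/
theorem emb_one {D : ℕ} {ω : 𝓞 K} {σ : 𝓞 K →+* 𝓞 K} (hQ : IsQR K D ω σ)
    (hD4 : D % 4 = 0 ∨ D % 4 = 1) (s : ℝ) (hs : s * s = D) :
    ∃ e : 𝓞 K →+* ℝ, ∀ a b : ℤ, e ((a : 𝓞 K) + (b : 𝓞 K) * ω) = a + b * (((thR D : ℤ) : ℝ) + s) / 2 := by
  obtain ⟨hω2, hσω, hrep, huni, hinv, hnorm, hxσ, hIσ, hnσ⟩ := hQ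
  choose a b hab using hrep
  have huq : ∀ p q p' q' : ℤ, (p : 𝓞 K) + (q : 𝓞 K) * ω = (p' : 𝓞 K) + (q' : 𝓞 K) * ω →
      p = p' ∧ q = q' := by
    intro p q p' q' h
    have h3 : ((p - p' : ℤ) : 𝓞 K) + ((q - q' : ℤ) : 𝓞 K) * ω = 0 := by
      push_cast
      linear_combination h
    have h4 := huni _ _ h3
    constructor <;> linarith [h4.1, h4.2]
  have hc : ∀ (z : 𝓞 K) (p q : ℤ), z = (p : 𝓞 K) + (q : 𝓞 K) * ω → a z = p ∧ b z = q := by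
    intro z p q h
    exact huq _ _ _ _ ((hab z).symm.trans h)
  have hDr : ((thR D : ℤ) : ℝ) ^ 2 - 4 * ((n0R D : ℤ) : ℝ) = s * s := by
    rw [hs]
    exact_mod_cast congrArg (Int.cast : ℤ → ℝ) (four_n0R D hD4)
  have key : ∀ (z : 𝓞 K) (p q : ℤ), z = (p : 𝓞 K) + (q : 𝓞 K) * ω →
      (a z : ℝ) + b z * (((thR D : ℤ) : ℝ) + s) / 2 = p + q * (((thR D : ℤ) : ℝ) + s) / 2 := by
    intro z p q h
    obtain ⟨h1, h2⟩ := hc z p q h
    rw [h1, h2]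
  refine ⟨{ toFun := fun z => (a z : ℝ) + b z * (((thR D : ℤ) : ℝ) + s) / 2
            map_one' := ?_, map_mul' := ?_, map_zero' := ?_, map_add' := ?_ }, ?_⟩
  · rw [key 1 1 0 (by push_cast; ring)]
    push_cast
    ring
  · intro x y
    rw [key (x * y) (a x * a y - n0R D * (b x * b y)) (a x * b y + a y * b x + thR D * (b x * b y))]
    · push_cast
      linear_combination ((b x : ℝ) * b y / 4) * hDr
    · conv_lhs => rw [hab x, hab y]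
      push_cast
      linear_combination ((b x : 𝓞 K) * b y) * hω2
  · show (a 0 : ℝ) + b 0 * (((thR D : ℤ) : ℝ) + s) / 2 = 0
    rw [key 0 0 0 (by push_cast; ring)]
    push_cast
    ring
  · intro x y
    show (a (x + y) : ℝ) + b (x + y) * (((thR D : ℤ) : ℝ) + s) / 2 =
      ((a x : ℝ) + b x * (((thR D : ℤ) : ℝ) + s) / 2) +
      ((a y : ℝ) + b y * (((thR D : ℤ) : ℝ) + s) / 2)
    rw [key (x + y) (a x + a y) (b x + b y)]
    · push_cast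
      ring
    · conv_lhs => rw [hab x, hab y]
      push_cast
      ring
  · intro p q
    exact key _ p q rfl

/-- the two embeddings -/
theorem emb {D : ℕ} {ω : 𝓞 K} {σ : 𝓞 K →+* 𝓞 K} (hQ : IsQR K D ω σ)
    (hD4 : D % 4 = 0 ∨ D % 4 = 1) :
    ∃ e₁ e₂ : 𝓞 K →+* ℝ, (∀ x : ℤ × ℤ, e₁ (el ω x) = E1 D x.1 x.2) ∧
      (∀ x : ℤ × ℤ, e₂ (el ω x) = E2 D x.1 x.2) ∧ (∀ z, e₁ (σ z) = e₂ z) ∧
      (∀ z, e₂ (σ z) = e₁ z) ∧ ∀ z, e₁ z * e₂ z = ((Algebra.norm ℤ z : ℤ) : ℝ) := by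
  have hss : Real.sqrt D * Real.sqrt D = (D : ℝ) := Real.mul_self_sqrt (Nat.cast_nonneg _)
  obtain ⟨e₁, h1⟩ := emb_one hQ hD4 (Real.sqrt D) hss
  obtain ⟨e₂, h2⟩ := emb_one hQ hD4 (-Real.sqrt D) (by rw [neg_mul_neg, hss])
  obtain ⟨hω2, hσω, hrep, huni, hinv, hnorm, hxσ, hIσ, hnσ⟩ := hQ
  have hσ : ∀ p q : ℤ, σ ((p : 𝓞 K) + (q : 𝓞 K) * ω) =
      ((p + q * thR D : ℤ) : 𝓞 K) + ((-q : ℤ) : 𝓞 K) * ω := by
    intro p q
    rw [map_add, map_mul, map_intCast, map_intCast, hσω]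
    push_cast
    ring
  refine ⟨e₁, e₂, fun x => h1 _ _, fun x => ?_, fun z => ?_, fun z => ?_, fun z => ?_⟩
  · have := h2 x.1 x.2
    unfold el E2
    rw [this]
    ring
  · obtain ⟨p, q, rfl⟩ := hrep z
    rw [hσ, h1, h2]
    push_cast
    ring
  · obtain ⟨p, q, rfl⟩ := hrep z
    rw [hσ, h1, h2]
    push_cast
    ring
  · obtain ⟨p, q, rfl⟩ := hrep z
    rw [h1, h2, hnorm]
    have hDr : ((thR D : ℤ) : ℝ) ^ 2 - 4 * ((n0R D : ℤ) : ℝ) = Real.sqrt D * Real.sqrt D := by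
      rw [hss]
      exact_mod_cast congrArg (Int.cast : ℤ → ℝ) (four_n0R D hD4)
    push_cast
    linear_combination ((q : ℝ) ^ 2 / 4) * hDr

theorem el_inj {D : ℕ} {ω : 𝓞 K} {σ : 𝓞 K →+* 𝓞 K} (hQ : IsQR K D ω σ) (x y : ℤ × ℤ)
    (h : el ω x = el ω y) : x = y := by
  unfold el at h
  have h3 : ((x.1 - y.1 : ℤ) : 𝓞 K) + ((x.2 - y.2 : ℤ) : 𝓞 K) * ω = 0 := by
    push_cast
    linear_combination h
  have h4 := hQ.2.2.2.1 _ _ h3
  exact Prod.ext (by linarith [h4.1]) (by linarith [h4.2])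

/-- the quotient ideal of a primitive element -/
theorem prm_quot {D : ℕ} {ω : 𝓞 K} {σ : 𝓞 K →+* 𝓞 K} (hQ : IsQR K D ω σ) (I : Ideal (𝓞 K))
    (x : ℤ × ℤ) (hx : Prm ω I x) :
    ∃ Pf : Ideal (𝓞 K), Pf * I = Ideal.span {el ω x} ∧ Pf ≠ ⊥ ∧
      ∀ n : ℕ, 2 ≤ n → ¬ Pf ≤ Ideal.span {(n : 𝓞 K)} := by
  obtain ⟨hx0, hxI, hxp⟩ := hx
  have hel0 : el ω x ≠ 0 := by
    intro h
    apply hx0
    exact el_inj hQ x 0 (by rw [h]; unfold el; push_cast; simp)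
  have h1 : Ideal.span {el ω x} ≤ I := by
    rw [Ideal.span_singleton_le_iff_mem]
    exact hxI
  obtain ⟨Pf, hPf⟩ := Ideal.dvd_iff_le.2 h1
  refine ⟨Pf, by rw [hPf, mul_comm], ?_, ?_⟩
  · rintro rfl
    apply hel0
    rw [← Ideal.span_singleton_eq_bot, hPf]
    exact Ideal.mul_bot _
  · intro n hn hle
    have hn0 : ((n : ℕ) : 𝓞 K) ≠ 0 := by exact_mod_cast (by omega : n ≠ 0)
    have hspn : (Ideal.span {((n : ℕ) : 𝓞 K)} : Ideal (𝓞 K)) ≠ ⊥ := by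
      rw [Ne, Ideal.span_singleton_eq_bot]; exact hn0
    obtain ⟨J, hJ⟩ := Ideal.dvd_iff_le.2 hle
    have h2 : Ideal.span {el ω x} = Ideal.span {((n : ℕ) : 𝓞 K)} * (I * J) := by
      rw [hPf, hJ]; ring
    have h3 : el ω x ∈ Ideal.span {((n : ℕ) : 𝓞 K)} := by
      have h0 : el ω x ∈ Ideal.span {el ω x} := Ideal.mem_span_singleton_self _
      rw [h2] at h0
      exact Ideal.mul_le_left (I := Ideal.span {((n : ℕ) : 𝓞 K)}) (J := I * J) h0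
    obtain ⟨z, hz⟩ := Ideal.mem_span_singleton.mp h3
    have h4 : Ideal.span {z} = I * J := by
      have : Ideal.span {((n : ℕ) : 𝓞 K)} * Ideal.span {z} =
          Ideal.span {((n : ℕ) : 𝓞 K)} * (I * J) := by
        rw [← h2, hz, Ideal.span_singleton_mul_span_singleton]
      exact mul_left_cancel₀ hspn this
    have h5 : z ∈ I := by
      have h0 : z ∈ Ideal.span {z} := Ideal.mem_span_singleton_self _
      rw [h4] at h0
      exact Ideal.mul_le_right (I := J) (J := I) (by rwa [mul_comm] at h0)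
    obtain ⟨p, q, hpq⟩ := hQ.2.2.1 z
    refine hxp n hn (p, q) (by rw [← hpq]; exact h5) ?_
    have h6 : el ω x = el ω (n * p, n * q) := by
      rw [hz, hpq]
      unfold el
      push_cast
      ring
    have h7 := el_inj hQ _ _ h6
    exact ⟨congrArg Prod.fst h7, congrArg Prod.snd h7⟩

/-- the product of the weights -/
theorem ww {D : ℕ} {ω : 𝓞 K} (e₁ e₂ : 𝓞 K →+* ℝ)
    (he1 : ∀ x : ℤ × ℤ, e₁ (el ω x) = E1 D x.1 x.2)
    (he2 : ∀ x : ℤ × ℤ, e₂ (el ω x) = E2 D x.1 x.2)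
    (hen : ∀ z, e₁ z * e₂ z = ((Algebra.norm ℤ z : ℤ) : ℝ)) (I : Ideal (𝓞 K)) (β : ℤ × ℤ)
    (hI5 : I ^ 5 = Ideal.span {el ω β}) (w₁ w₂ : ℝ) (hw₁ : 0 < w₁) (hw₂ : 0 < w₂)
    (hb1 : w₁ ^ 5 * |E1 D β.1 β.2| = 1) (hb2 : w₂ ^ 5 * |E2 D β.1 β.2| = 1) :
    w₁ * w₂ * Ideal.absNorm I = 1 := by
  have h1 : |e₁ (el ω β)| * |e₂ (el ω β)| = (Ideal.absNorm I : ℝ) ^ 5 := by
    rw [← abs_mul, hen]
    have : (Ideal.absNorm (I ^ 5) : ℕ) = (Algebra.norm ℤ (el ω β)).natAbs := by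
      rw [hI5, Ideal.absNorm_span_singleton]
    rw [map_pow] at this
    rw [← Int.cast_abs, Int.abs_eq_natAbs, ← this]
    push_cast
    rfl
  rw [he1, he2] at h1
  have h2 : (w₁ * w₂ * Ideal.absNorm I) ^ 5 = 1 ^ 5 := by
    rw [mul_pow, ← h1, mul_pow, one_pow]
    linear_combination (w₂ ^ 5 * |E2 D β.1 β.2|) * hb1 + hb2
  exact (pow_left_inj₀ (by positivity) zero_le_one (by norm_num)).1 h2

/-- the norm of an element of an ideal -/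
theorem nrm_quot {ω : 𝓞 K} (e₁ e₂ : 𝓞 K →+* ℝ)
    (hen : ∀ z, e₁ z * e₂ z = ((Algebra.norm ℤ z : ℤ) : ℝ)) (Pf I : Ideal (𝓞 K)) (z : 𝓞 K)
    (h : Pf * I = Ideal.span {z}) :
    |e₁ z| * |e₂ z| = (Ideal.absNorm Pf : ℝ) * Ideal.absNorm I := by
  rw [← abs_mul, hen]
  have : (Ideal.absNorm (Pf * I) : ℕ) = (Algebra.norm ℤ z).natAbs := by
    rw [h, Ideal.absNorm_span_singleton]
  rw [map_mul] at this
  rw [← Int.cast_abs, Int.abs_eq_natAbs, ← this]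
  push_cast
  rfl

/-- divide an element by another one -/
theorem exists_quot (a b : 𝓞 K) (ha : a ≠ 0) (J : Ideal (𝓞 K))
    (h : Ideal.span {b} = Ideal.span {a} * J) : ∃ α : 𝓞 K, b = a * α ∧ Ideal.span {α} = J := by
  have hsp : (Ideal.span {a} : Ideal (𝓞 K)) ≠ ⊥ := by
    rw [Ne, Ideal.span_singleton_eq_bot]; exact ha
  have h3 : b ∈ Ideal.span {a} := by
    have h0 : b ∈ Ideal.span {b} := Ideal.mem_span_singleton_self _
    rw [h] at h0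
    exact Ideal.mul_le_left (I := Ideal.span {a}) (J := J) h0
  obtain ⟨z, hz⟩ := Ideal.mem_span_singleton.mp h3
  refine ⟨z, hz, ?_⟩
  have : Ideal.span {a} * Ideal.span {z} = Ideal.span {a} * J := by
    rw [← h, hz, Ideal.span_singleton_mul_span_singleton]
  exact mul_left_cancel₀ hsp this

end ALaux

open ALaux MERaux in
/-- **AL1.** -/
theorem al1q (hMER : S_MER) (K : Type) [Field K] [NumberField K] (D : ℕ) (ω : 𝓞 K)
    (σ : 𝓞 K →+* 𝓞 K) (hQ : IsQR K D ω σ) (hD4 : D % 4 = 0 ∨ D % 4 = 1) (I : Ideal (𝓞 K))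
    (β : ℤ × ℤ) (hI0 : I ≠ ⊥) (hI5 : I ^ 5 = Ideal.span {el ω β}) (w₁ w₂ : ℝ) (hw₁ : 0 < w₁)
    (hw₂ : 0 < w₂) (hb1 : w₁ ^ 5 * |E1 D β.1 β.2| = 1) (hb2 : w₂ ^ 5 * |E2 D β.1 β.2| = 1)
    (x y : ℤ × ℤ) (hx : Prm ω I x) (hy : Prm ω (I ^ 2) y) :
    ∃ t : ℕ × ℤ × ℤ × ℤ × ℤ × ℤ × ℤ,
    RELR D t.1 t.2.1 t.2.2.1 t.2.2.2.1 t.2.2.2.2.1 t.2.2.2.2.2.1 t.2.2.2.2.2.2 ∧
    SZE D t.1 t.2.1 t.2.2.1 t.2.2.2.1 t.2.2.2.2.1 t.2.2.2.2.2.1 t.2.2.2.2.2.2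
      (w₁ * |E1 D x.1 x.2|) (w₂ * |E2 D x.1 x.2|) (w₁ ^ 2 * |E1 D y.1 y.2|)
      (w₂ ^ 2 * |E2 D y.1 y.2|) ∧
    (∃ Pf : Ideal (𝓞 K), Pf * I = Ideal.span {el ω x} ∧ IDT ω Pf t) ∧
    ((Ideal.absNorm I : 𝓞 K) ^ 2 * ((t.1 : 𝓞 K) * ((t.2.2.2.1 : 𝓞 K) + (t.2.2.2.2.1 : 𝓞 K) * ω)) =
        el ω x ^ 2 * σ (el ω y) ∨
      (Ideal.absNorm I : 𝓞 K) ^ 2 * ((t.1 : 𝓞 K) * ((t.2.2.2.1 : 𝓞 K) + (t.2.2.2.2.1 : 𝓞 K) * ω)) =
        -(el ω x ^ 2 * σ (el ω y))) := by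
  obtain ⟨e₁, e₂, he1, he2, hσ1, hσ2, hen⟩ := emb hQ hD4
  obtain ⟨Pf, hPI, hPf0, hPfp⟩ := prm_quot hQ I x hx
  obtain ⟨Af, hAI, hAf0, hAfp⟩ := prm_quot hQ (I ^ 2) y hy
  have hww := ww e₁ e₂ he1 he2 hen I β hI5 w₁ w₂ hw₁ hw₂ hb1 hb2
  have hQ' := hQ
  obtain ⟨hω2, hσω, hrep, huni, hinv, hnorm, hxσ, hIσ, hnσ⟩ := hQ'
  have hNI : 0 < Ideal.absNorm I := Nat.pos_of_ne_zero (by rwa [Ne, Ideal.absNorm_eq_zero_iff])
  have hNI0 : (Ideal.absNorm I : 𝓞 K) ≠ 0 := by exact_mod_cast hNI.ne'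
  have hNIr : (0 : ℝ) < Ideal.absNorm I := by exact_mod_cast hNI
  have hβ0 : el ω β ≠ 0 := by
    intro h
    have h1 : I ^ 5 = ⊥ := by rw [hI5, h]; exact Ideal.span_singleton_eq_bot.2 rfl
    exact hI0 (by
      rw [← Ideal.zero_eq_bot] at h1 ⊢
      exact pow_eq_zero_iff (by norm_num) |>.1 h1)
  have hII : I * I.map σ = Ideal.span {(Ideal.absNorm I : 𝓞 K)} := hIσ I
  -- the two elements
  obtain ⟨α₁, h11, h12⟩ := exists_quot ((Ideal.absNorm I : 𝓞 K) ^ 2) (el ω x ^ 2 * σ (el ω y))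
    (pow_ne_zero _ hNI0) (Pf ^ 2 * Af.map σ) (by
      rw [← Ideal.span_singleton_mul_span_singleton, ← Ideal.span_singleton_pow,
        ← Ideal.span_singleton_pow, ← hPI, ← map_span_singR, ← hAI, ← hII, Ideal.map_mul,
        Ideal.map_pow]
      ring)
  obtain ⟨α₂, h21, h22⟩ := exists_quot (el ω β) (el ω y ^ 2 * el ω x) hβ0 (Af ^ 2 * Pf) (by
      rw [← Ideal.span_singleton_mul_span_singleton, ← Ideal.span_singleton_pow, ← hPI, ← hAI,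
        ← hI5]
      ring)
  obtain ⟨ρ, m, a, x₁, u₁, x₂, u₂, hrel, hx1, hx2, hnm, hna, hid⟩ :=
    hMER K D ω σ hQ Pf Af hPf0 hAf0 hPfp hAfp α₁ α₂ h12 h22
  refine ⟨(ρ, m, a, x₁, u₁, x₂, u₂), hrel, ?_, ⟨Pf, hPI, hid⟩, ?_⟩
  · -- sizes
    have nP := nrm_quot (ω := ω) e₁ e₂ hen Pf I _ hPI
    have nA := nrm_quot (ω := ω) e₁ e₂ hen Af (I ^ 2) _ hAI
    rw [map_pow, Nat.cast_pow] at nA
    have hP0 : (0 : ℝ) < Ideal.absNorm Pf := by
      exact_mod_cast Nat.pos_of_ne_zero (by rwa [Ne, Ideal.absNorm_eq_zero_iff])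
    have hA0 : (0 : ℝ) < Ideal.absNorm Af := by
      exact_mod_cast Nat.pos_of_ne_zero (by rwa [Ne, Ideal.absNorm_eq_zero_iff])
    have hnm' : (ρ : ℝ) * |(m : ℝ)| = Ideal.absNorm Pf := by exact_mod_cast hnm
    have hna' : (ρ : ℝ) * |(a : ℝ)| = Ideal.absNorm Af := by exact_mod_cast hna
    have a1 : ∀ e : 𝓞 K →+* ℝ, (ρ : ℝ) * |e (el ω (x₁, u₁))| = |e α₁| := by
      intro e
      have h1 : (ρ : ℝ) * |e (el ω (x₁, u₁))| = |e ((ρ : 𝓞 K) * el ω (x₁, u₁))| := by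
        rw [map_mul, abs_mul, map_natCast, Nat.abs_cast]
      rw [h1]
      unfold el
      rcases hx1 with h | h
      · rw [h]
      · rw [h, map_neg, abs_neg]
    have a2 : ∀ e : 𝓞 K →+* ℝ, (ρ : ℝ) * |e (el ω (x₂, u₂))| = |e α₂| := by
      intro e
      have h1 : (ρ : ℝ) * |e (el ω (x₂, u₂))| = |e ((ρ : 𝓞 K) * el ω (x₂, u₂))| := by
        rw [map_mul, abs_mul, map_natCast, Nat.abs_cast]
      rw [h1]
      unfold el
      rcases hx2 with h | h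
      · rw [h]
      · rw [h, map_neg, abs_neg]
    have b1 : |e₁ (el ω x)| ^ 2 * |e₂ (el ω y)| = (Ideal.absNorm I : ℝ) ^ 2 * |e₁ α₁| := by
      have h := congrArg (fun z => |e₁ z|) h11
      simp only [map_mul, map_pow, hσ1, abs_mul, abs_pow, map_natCast, Nat.abs_cast] at h
      exact h
    have b2 : |e₂ (el ω x)| ^ 2 * |e₁ (el ω y)| = (Ideal.absNorm I : ℝ) ^ 2 * |e₂ α₁| := by
      have h := congrArg (fun z => |e₂ z|) h11
      simp only [map_mul, map_pow, hσ2, abs_mul, abs_pow, map_natCast, Nat.abs_cast] at h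
      exact h
    have b3 : |e₁ (el ω y)| ^ 2 * |e₁ (el ω x)| = |e₁ (el ω β)| * |e₁ α₂| := by
      have h := congrArg (fun z => |e₁ z|) h21
      simp only [map_mul, map_pow, abs_mul, abs_pow] at h
      exact h
    have b4 : |e₂ (el ω y)| ^ 2 * |e₂ (el ω x)| = |e₂ (el ω β)| * |e₂ α₂| := by
      have h := congrArg (fun z => |e₂ z|) h21
      simp only [map_mul, map_pow, abs_mul, abs_pow] at h
      exact h
    have c1 := a1 e₁
    have c2 := a1 e₂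
    have c3 := a2 e₁
    have c4 := a2 e₂
    rw [← he1] at hb1
    rw [← he2] at hb2
    rw [he1] at c1 c3
    rw [he2] at c2 c4
    have ww2 : w₁ ^ 2 * w₂ ^ 2 * (Ideal.absNorm I : ℝ) ^ 2 = 1 := by
      rw [← mul_pow, ← mul_pow, hww, one_pow]
    have px : 0 < |e₁ (el ω x)| * |e₂ (el ω x)| := by rw [nP]; positivity
    have py : 0 < |e₁ (el ω y)| * |e₂ (el ω y)| := by rw [nA]; positivity
    have px1 : 0 < |e₁ (el ω x)| := lt_of_le_of_ne (abs_nonneg _) (fun h => by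
      rw [← h, zero_mul] at px; exact lt_irrefl _ px)
    have px2 : 0 < |e₂ (el ω x)| := lt_of_le_of_ne (abs_nonneg _) (fun h => by
      rw [← h, mul_zero] at px; exact lt_irrefl _ px)
    have py1 : 0 < |e₁ (el ω y)| := lt_of_le_of_ne (abs_nonneg _) (fun h => by
      rw [← h, zero_mul] at py; exact lt_irrefl _ py)
    have py2 : 0 < |e₂ (el ω y)| := lt_of_le_of_ne (abs_nonneg _) (fun h => by
      rw [← h, mul_zero] at py; exact lt_irrefl _ py)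
    rw [← he1, ← he2, ← he1, ← he2]
    refine ⟨by positivity, by positivity, by positivity, by positivity, ?_, ?_, ?_, ?_, ?_, ?_⟩
    · dsimp only
      rw [hnm']
      linear_combination (w₁ * w₂) * nP + (Ideal.absNorm Pf : ℝ) * hww
    · dsimp only
      rw [hna']
      linear_combination (w₁ ^ 2 * w₂ ^ 2) * nA + (Ideal.absNorm Af : ℝ) * ww2
    · dsimp only
      rw [c1]
      linear_combination (-(w₁ ^ 2 * w₂ ^ 2)) * b1 - |e₁ α₁| * ww2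
    · dsimp only
      rw [c2]
      linear_combination (-(w₁ ^ 2 * w₂ ^ 2)) * b2 - |e₂ α₁| * ww2
    · dsimp only
      rw [c3]
      linear_combination (-(w₁ ^ 5)) * b3 - |e₁ α₂| * hb1
    · dsimp only
      rw [c4]
      linear_combination (-(w₂ ^ 5)) * b4 - |e₂ α₂| * hb2
  · rcases hx1 with h | h
    · left
      dsimp only
      rw [h, h11]
    · right
      dsimp only
      rw [h, h11]
      ring

open ALaux MERaux in
/-- **AL2.** -/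
theorem al2q (hMER : S_MER) (K : Type) [Field K] [NumberField K] (D : ℕ) (ω : 𝓞 K)
    (σ : 𝓞 K →+* 𝓞 K) (hQ : IsQR K D ω σ) (hD4 : D % 4 = 0 ∨ D % 4 = 1) (I : Ideal (𝓞 K))
    (β : ℤ × ℤ) (hI0 : I ≠ ⊥) (hI5 : I ^ 5 = Ideal.span {el ω β}) (w₁ w₂ : ℝ) (hw₁ : 0 < w₁)
    (hw₂ : 0 < w₂) (hb1 : w₁ ^ 5 * |E1 D β.1 β.2| = 1) (hb2 : w₂ ^ 5 * |E2 D β.1 β.2| = 1)
    (x y : ℤ × ℤ) (hx : Prm ω (I ^ 2) x) (hy : Prm ω I y) :
    ∃ t : ℕ × ℤ × ℤ × ℤ × ℤ × ℤ × ℤ,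
    RELR D t.1 t.2.1 t.2.2.1 t.2.2.2.1 t.2.2.2.2.1 t.2.2.2.2.2.1 t.2.2.2.2.2.2 ∧
    SZE D t.1 t.2.1 t.2.2.1 t.2.2.2.1 t.2.2.2.2.1 t.2.2.2.2.2.1 t.2.2.2.2.2.2
      (w₁ ^ 2 * |E1 D x.1 x.2|) (w₂ ^ 2 * |E2 D x.1 x.2|) (w₂ * |E2 D y.1 y.2|)
      (w₁ * |E1 D y.1 y.2|) ∧
    (∃ Pf : Ideal (𝓞 K), Pf * I ^ 2 = Ideal.span {el ω x} ∧ IDT ω Pf t) ∧
    (el ω β * ((t.1 : 𝓞 K) * ((t.2.2.2.1 : 𝓞 K) + (t.2.2.2.2.1 : 𝓞 K) * ω)) =
        el ω x ^ 2 * el ω y ∨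
      el ω β * ((t.1 : 𝓞 K) * ((t.2.2.2.1 : 𝓞 K) + (t.2.2.2.2.1 : 𝓞 K) * ω)) =
        -(el ω x ^ 2 * el ω y)) := by
  obtain ⟨e₁, e₂, he1, he2, hσ1, hσ2, hen⟩ := emb hQ hD4
  obtain ⟨Pf, hPI, hPf0, hPfp⟩ := prm_quot hQ (I ^ 2) x hx
  obtain ⟨A', hAI, hA'0, hA'p⟩ := prm_quot hQ I y hy
  have hww := ww e₁ e₂ he1 he2 hen I β hI5 w₁ w₂ hw₁ hw₂ hb1 hb2
  have hQ' := hQ
  obtain ⟨hω2, hσω, hrep, huni, hinv, hnorm, hxσ, hIσ, hnσ⟩ := hQ'
  have hNI : 0 < Ideal.absNorm I := Nat.pos_of_ne_zero (by rwa [Ne, Ideal.absNorm_eq_zero_iff])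
  have hNI0 : (Ideal.absNorm I : 𝓞 K) ≠ 0 := by exact_mod_cast hNI.ne'
  have hNIr : (0 : ℝ) < Ideal.absNorm I := by exact_mod_cast hNI
  have hβ0 : el ω β ≠ 0 := by
    intro h
    have h1 : I ^ 5 = ⊥ := by rw [hI5, h]; exact Ideal.span_singleton_eq_bot.2 rfl
    exact hI0 (by
      rw [← Ideal.zero_eq_bot] at h1 ⊢
      exact pow_eq_zero_iff (by norm_num) |>.1 h1)
  have hII : I * I.map σ = Ideal.span {(Ideal.absNorm I : 𝓞 K)} := hIσ I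
  have hσσ : ∀ J : Ideal (𝓞 K), (J.map σ).map σ = J := by
    intro J
    rw [Ideal.map_map]
    have : σ.comp σ = RingHom.id (𝓞 K) := RingHom.ext hinv
    rw [this, Ideal.map_id]
  have hAf0 : A'.map σ ≠ ⊥ := by
    rw [Ne, ← Ideal.absNorm_eq_zero_iff, hnσ, Ideal.absNorm_eq_zero_iff]; exact hA'0
  have hAfp : ∀ n : ℕ, 2 ≤ n → ¬ A'.map σ ≤ Ideal.span {(n : 𝓞 K)} := by
    intro n hn h
    apply hA'p n hn
    have h1 := Ideal.map_mono (f := σ) h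
    rw [hσσ, map_span_singR, map_natCast] at h1
    exact h1
  -- the two elements
  obtain ⟨α₁, h11, h12⟩ := exists_quot (el ω β) (el ω x ^ 2 * el ω y) hβ0
    (Pf ^ 2 * (A'.map σ).map σ) (by
      rw [hσσ, ← Ideal.span_singleton_mul_span_singleton, ← Ideal.span_singleton_pow, ← hPI,
        ← hAI, ← hI5]
      ring)
  obtain ⟨α₂, h21, h22⟩ := exists_quot ((Ideal.absNorm I : 𝓞 K) ^ 2) (σ (el ω y) ^ 2 * el ω x)
    (pow_ne_zero _ hNI0) ((A'.map σ) ^ 2 * Pf) (by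
      rw [← Ideal.span_singleton_mul_span_singleton, ← Ideal.span_singleton_pow,
        ← Ideal.span_singleton_pow, ← hPI, ← map_span_singR, ← hAI, ← hII, Ideal.map_mul]
      ring)
  obtain ⟨ρ, m, a, x₁, u₁, x₂, u₂, hrel, hx1, hx2, hnm, hna, hid⟩ :=
    hMER K D ω σ hQ Pf (A'.map σ) hPf0 hAf0 hPfp hAfp α₁ α₂ h12 h22
  refine ⟨(ρ, m, a, x₁, u₁, x₂, u₂), hrel, ?_, ⟨Pf, hPI, hid⟩, ?_⟩
  · -- sizes
    have nP := nrm_quot (ω := ω) e₁ e₂ hen Pf (I ^ 2) _ hPI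
    have nA := nrm_quot (ω := ω) e₁ e₂ hen A' I _ hAI
    rw [map_pow, Nat.cast_pow] at nP
    rw [hnσ] at hna
    have hP0 : (0 : ℝ) < Ideal.absNorm Pf := by
      exact_mod_cast Nat.pos_of_ne_zero (by rwa [Ne, Ideal.absNorm_eq_zero_iff])
    have hA0 : (0 : ℝ) < Ideal.absNorm A' := by
      exact_mod_cast Nat.pos_of_ne_zero (by rwa [Ne, Ideal.absNorm_eq_zero_iff])
    have hnm' : (ρ : ℝ) * |(m : ℝ)| = Ideal.absNorm Pf := by exact_mod_cast hnm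
    have hna' : (ρ : ℝ) * |(a : ℝ)| = Ideal.absNorm A' := by exact_mod_cast hna
    have a1 : ∀ e : 𝓞 K →+* ℝ, (ρ : ℝ) * |e (el ω (x₁, u₁))| = |e α₁| := by
      intro e
      have h1 : (ρ : ℝ) * |e (el ω (x₁, u₁))| = |e ((ρ : 𝓞 K) * el ω (x₁, u₁))| := by
        rw [map_mul, abs_mul, map_natCast, Nat.abs_cast]
      rw [h1]
      unfold el
      rcases hx1 with h | h
      · rw [h]
      · rw [h, map_neg, abs_neg]
    have a2 : ∀ e : 𝓞 K →+* ℝ, (ρ : ℝ) * |e (el ω (x₂, u₂))| = |e α₂| := by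
      intro e
      have h1 : (ρ : ℝ) * |e (el ω (x₂, u₂))| = |e ((ρ : 𝓞 K) * el ω (x₂, u₂))| := by
        rw [map_mul, abs_mul, map_natCast, Nat.abs_cast]
      rw [h1]
      unfold el
      rcases hx2 with h | h
      · rw [h]
      · rw [h, map_neg, abs_neg]
    have b1 : |e₁ (el ω x)| ^ 2 * |e₁ (el ω y)| = |e₁ (el ω β)| * |e₁ α₁| := by
      have h := congrArg (fun z => |e₁ z|) h11
      simp only [map_mul, map_pow, abs_mul, abs_pow] at h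
      exact h
    have b2 : |e₂ (el ω x)| ^ 2 * |e₂ (el ω y)| = |e₂ (el ω β)| * |e₂ α₁| := by
      have h := congrArg (fun z => |e₂ z|) h11
      simp only [map_mul, map_pow, abs_mul, abs_pow] at h
      exact h
    have b3 : |e₂ (el ω y)| ^ 2 * |e₁ (el ω x)| = (Ideal.absNorm I : ℝ) ^ 2 * |e₁ α₂| := by
      have h := congrArg (fun z => |e₁ z|) h21
      simp only [map_mul, map_pow, hσ1, abs_mul, abs_pow, map_natCast, Nat.abs_cast] at h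
      exact h
    have b4 : |e₁ (el ω y)| ^ 2 * |e₂ (el ω x)| = (Ideal.absNorm I : ℝ) ^ 2 * |e₂ α₂| := by
      have h := congrArg (fun z => |e₂ z|) h21
      simp only [map_mul, map_pow, hσ2, abs_mul, abs_pow, map_natCast, Nat.abs_cast] at h
      exact h
    have c1 := a1 e₁
    have c2 := a1 e₂
    have c3 := a2 e₁
    have c4 := a2 e₂
    rw [← he1] at hb1
    rw [← he2] at hb2
    rw [he1] at c1 c3
    rw [he2] at c2 c4
    have ww2 : w₁ ^ 2 * w₂ ^ 2 * (Ideal.absNorm I : ℝ) ^ 2 = 1 := by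
      rw [← mul_pow, ← mul_pow, hww, one_pow]
    have px : 0 < |e₁ (el ω x)| * |e₂ (el ω x)| := by rw [nP]; positivity
    have py : 0 < |e₁ (el ω y)| * |e₂ (el ω y)| := by rw [nA]; positivity
    have px1 : 0 < |e₁ (el ω x)| := lt_of_le_of_ne (abs_nonneg _) (fun h => by
      rw [← h, zero_mul] at px; exact lt_irrefl _ px)
    have px2 : 0 < |e₂ (el ω x)| := lt_of_le_of_ne (abs_nonneg _) (fun h => by
      rw [← h, mul_zero] at px; exact lt_irrefl _ px)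
    have py1 : 0 < |e₁ (el ω y)| := lt_of_le_of_ne (abs_nonneg _) (fun h => by
      rw [← h, zero_mul] at py; exact lt_irrefl _ py)
    have py2 : 0 < |e₂ (el ω y)| := lt_of_le_of_ne (abs_nonneg _) (fun h => by
      rw [← h, mul_zero] at py; exact lt_irrefl _ py)
    rw [← he1, ← he2, ← he1, ← he2]
    refine ⟨by positivity, by positivity, by positivity, by positivity, ?_, ?_, ?_, ?_, ?_, ?_⟩
    · dsimp only
      rw [hnm']
      linear_combination (w₁ ^ 2 * w₂ ^ 2) * nP + (Ideal.absNorm Pf : ℝ) * ww2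
    · dsimp only
      rw [hna']
      linear_combination (w₁ * w₂) * nA + (Ideal.absNorm A' : ℝ) * hww
    · dsimp only
      rw [c1]
      linear_combination (-(w₁ ^ 5)) * b1 - |e₁ α₁| * hb1
    · dsimp only
      rw [c2]
      linear_combination (-(w₂ ^ 5)) * b2 - |e₂ α₁| * hb2
    · dsimp only
      rw [c3]
      linear_combination (-(w₁ ^ 2 * w₂ ^ 2)) * b3 - |e₁ α₂| * ww2
    · dsimp only
      rw [c4]
      linear_combination (-(w₁ ^ 2 * w₂ ^ 2)) * b4 - |e₂ α₂| * ww2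
  · rcases hx1 with h | h
    · left
      dsimp only
      rw [h, h11]
    · right
      dsimp only
      rw [h, h11]
      ring

end Pool.Agent.T2h80.R5
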