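import Pool.Agent.T2h80.F5.Stm

set_option autoImplicit false

/-!
# The average of the 5-torsion of the class groups of real quadratic fields: statements

Target: `∑_{0<D<X fundamental} |Cl(K_D)[5]| ≤ C X ^ (1 + ε)`.
-/

namespace Pool.Agent.T2h80.R5

open Finset NumberField Pool.Agent.T2h80.F5

/-! ## The coefficient vectors -/

/-- **DEGR.** (from F5.DIV) the coefficient vectors with resultant zero, without the two families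
`k = l = 0` and `j = r = 0` -/
def S_DEGR : Prop := ∀ ε : ℝ, 0 < ε → ∃ C : ℝ, 0 < C ∧ ∀ K L J R Z : ℕ, 1 ≤ Z → K ≤ Z → L ≤ Z →
  J ≤ Z → R ≤ Z →
  (((BX K L J R).filter (fun x => RS x.1 x.2.1 x.2.2.1 x.2.2.2 = 0 ∧ ¬ (x.1 = 0 ∧ x.2.1 = 0) ∧
    ¬ (x.2.2.1 = 0 ∧ x.2.2.2 = 0))).card : ℝ) ≤
  C * (Z : ℝ) ^ ε * ((1 + K) * (1 + R) + (1 + L) * (1 + J))

/-- the pairs `(x, y)` in a box with `e ∣ x z ^ 3` and `e ∣ 5 y z ^ 5` -/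
noncomputable def FM (A B e z : ℕ) : ℕ :=
  (((Icc (-(A : ℤ)) A) ×ˢ (Icc (-(B : ℤ)) B)).filter (fun x : ℤ × ℤ =>
    ¬ (x.1 = 0 ∧ x.2 = 0) ∧ (e : ℤ) ∣ x.1 * (z : ℤ) ^ 3 ∧ (e : ℤ) ∣ 5 * x.2 * (z : ℤ) ^ 5)).card

/-- **FAM.** (from F5.DIV, F5.SMO) -/
def S_FAM : Prop := ∀ ε : ℝ, 0 < ε → ∃ C : ℝ, 0 < C ∧ ∀ G H ρ A B z Z : ℕ, 1 ≤ G → 1 ≤ H → 1 ≤ ρ →
  1 ≤ z → G ≤ Z → H ≤ Z → ρ ≤ Z → A ≤ Z → B ≤ Z → z ≤ Z →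
  ∑ g ∈ Ico G (2 * G), ∑ h ∈ Icc 1 H, Real.sqrt (FM A B (h * g * ρ) z) ≤
  C * (Z : ℝ) ^ ε * (Real.sqrt ((A : ℝ) * B) + Real.sqrt ((G : ℝ) * H) *
    (Real.sqrt A + Real.sqrt B))

/-- **AVGR.** (from F5.RES, F5.ROO, F5.CON, F5.RAD, F5.DIV, DEGR, FAM) -/
def S_AVGR : Prop := ∀ ε : ℝ, 0 < ε → ∃ C : ℝ, 0 < C ∧ ∀ G H V W ρ K L J R Y : ℕ,
  1 ≤ G → 1 ≤ H → 1 ≤ V → 1 ≤ W → 1 ≤ ρ → G ≤ Y → H ≤ Y → V ≤ Y → W ≤ Y → ρ ≤ Y → K ≤ Y → L ≤ Y →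
  J ≤ Y → R ≤ Y →
  ∑ g ∈ Ico G (2 * G), ∑ h ∈ Icc 1 H, ∑ v ∈ Ico V (2 * V),
    ∑ w ∈ (Ico W (2 * W)).filter (fun w => Nat.Coprime v w),
      Real.sqrt (KK K L J R (h * g * ρ) v w) ≤
  C * (Y : ℝ) ^ ε * (Real.sqrt ((V : ℝ) * W) *
      Real.sqrt (((V : ℝ) * W + G * H * ρ) * ((1 + K) * (1 + L) * (1 + J) * (1 + R))) +
    Real.sqrt ((G : ℝ) * H) * (V * W) *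
      Real.sqrt ((1 + K) * (1 + R) + (1 + L) * (1 + J)))

/-! ## The boxes -/

/-- the conditions on the parameters of a box -/
def PBX (ρ M G V W S T : ℕ) : Prop :=
  1 ≤ ρ ∧ 1 ≤ M ∧ 1 ≤ G ∧ 1 ≤ V ∧ 1 ≤ W ∧ 1 ≤ S ∧ 1 ≤ T ∧ G ≤ S ∧ G ≤ T ∧ G ≤ M

noncomputable def rH (M G V W : ℕ) : ℝ := (G : ℝ) * V ^ 3 * W / M
noncomputable def rK (ρ M G W S T : ℕ) : ℝ := (G : ℝ) * (ρ * W * T / M + W ^ 3 / S)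
noncomputable def rL (ρ M G V W S T : ℕ) : ℝ :=
  (G : ℝ) * (ρ * W * S / M + V ^ 2 * W / S + W ^ 3 / T)
noncomputable def rJ (ρ M G V W S T : ℕ) : ℝ :=
  (G : ℝ) * (ρ * V * S / M + V ^ 3 / S + W ^ 2 * V / T)
noncomputable def rR (G V T : ℕ) : ℝ := (G : ℝ) * V ^ 3 / T

noncomputable def cK (ρ M G W S T : ℕ) : ℕ := ⌊4000 * rK ρ M G W S T⌋₊
noncomputable def cL (ρ M G V W S T : ℕ) : ℕ := ⌊4000 * rL ρ M G V W S T⌋₊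
noncomputable def cJ (ρ M G V W S T : ℕ) : ℕ := ⌊4000 * rJ ρ M G V W S T⌋₊
noncomputable def cR (G V T : ℕ) : ℕ := ⌊4000 * rR G V T⌋₊

/-- `KK` with the sizes of the box -/
noncomputable def KPR (ρ M G V W S T e v w : ℕ) : ℕ :=
  KK (cK ρ M G W S T) (cL ρ M G V W S T) (cJ ρ M G V W S T) (cR G V T) e v w

/-- the length of the intervals -/
def iR (S G : ℕ) : ℕ := 3 * S / G + 1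

/-- **DCR.** (from F5.DUA) the dual count -/
def S_DCR : Prop := ∀ ρ M G V W S T : ℕ, PBX ρ M G V W S T → ∀ g v w h : ℕ,
  G ≤ g → g < 2 * G → V ≤ v → v < 2 * V → W ≤ w → w < 2 * W → v.Coprime w → 1 ≤ h →
  h * M ≤ g * v ^ 3 * w → ∀ α β E₁ E₂ : ℤ,
  (v : ℤ) ^ 3 ∣ w * α - 1 → (w : ℤ) ∣ v * β - 1 → (v : ℤ) ^ 3 ∣ E₁ - 1 → (w : ℤ) ∣ E₁ →
  (w : ℤ) ∣ E₂ - 1 → (v : ℤ) ^ 3 ∣ E₂ →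
  DW (((h * g * ρ : ℕ) : ℝ) * E₂ * β ^ 2 / (v ^ 3 * w)) (-(((h * g * ρ : ℕ) : ℝ) * E₁ * α ^ 2 / (v ^ 3 * w)))
      (((h * g * ρ : ℕ) : ℝ) * E₁ * v ^ 2 * α ^ 4 / (v ^ 3 * w)) (iR S G) (iR T G) ≤
    1 + KPR ρ M G V W S T (h * g * ρ) v w

/-- **INNR.** (from F5.FEJ, F5.WEY, DCR) -/
def S_INNR : Prop := ∃ C : ℝ, 0 < C ∧ ∀ ρ M G V W S T : ℕ, PBX ρ M G V W S T → ∀ g v w : ℕ,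
  G ≤ g → g < 2 * G → V ≤ v → v < 2 * V → W ≤ w → w < 2 * W → v.Coprime w → g.Coprime (v * w) →
  ∀ σ τ μ : ℤ, ∀ F : Finset (ℤ × ℤ × ℤ),
  (∀ x ∈ F, |x.1| ≤ (S : ℤ) ∧ |x.2.1| ≤ (T : ℤ) ∧ |x.2.2| ≤ (M : ℤ) ∧
    (g : ℤ) ∣ x.1 - σ ∧ (g : ℤ) ∣ x.2.1 - τ ∧
    (g : ℤ) ∣ x.2.2 - μ ∧ Cong ρ v w x.1 x.2.1 x.2.2) →
  (F.card : ℝ) ≤ C * ((M : ℝ) / (g * v ^ 3 * w)) * ((S : ℝ) * T / (G : ℝ) ^ 2 +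
    (1 + Real.log S) * (1 + Real.log T) * (Real.sqrt ((S : ℝ) * T) / G) *
      ∑ h ∈ Icc 1 (g * v ^ 3 * w / M), Real.sqrt (1 + (KPR ρ M G V W S T (h * g * ρ) v w : ℝ)))

/-- the bound for a box -/
noncomputable def BBx (ρ M G V W S T : ℕ) : ℝ :=
  (M : ℝ) * S * T / V ^ 2 + (G : ℝ) ^ 2 * V * W * Real.sqrt ((S : ℝ) * T) +
  (M : ℝ) / (V ^ 3 * W) * Real.sqrt ((S : ℝ) * T) *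
    (Real.sqrt ((V : ℝ) * W) * Real.sqrt (((V : ℝ) * W + G * rH M G V W * ρ) *
      ((1 + rK ρ M G W S T) * (1 + rL ρ M G V W S T) * (1 + rJ ρ M G V W S T) * (1 + rR G V T))) +
    Real.sqrt ((G : ℝ) * rH M G V W) * (V * W) *
      Real.sqrt ((1 + rK ρ M G W S T) * (1 + rR G V T) +
        (1 + rL ρ M G V W S T) * (1 + rJ ρ M G V W S T)))

/-- **BOXR.** (from INNR, AVGR) the tuples are `(g, v, w, s, t, m)` -/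
def S_BOXR : Prop := ∀ ε : ℝ, 0 < ε → ∃ C : ℝ, 0 < C ∧ ∀ ρ M G V W S T Z : ℕ,
  PBX ρ M G V W S T → ρ ≤ Z → M ≤ Z → G ≤ Z → V ≤ Z → W ≤ Z → S ≤ Z → T ≤ Z →
  ∀ F : Finset (ℕ × ℕ × ℕ × ℤ × ℤ × ℤ),
  (∀ x ∈ F, match x with
    | (g, v, w, s, t, m) => G ≤ g ∧ g < 2 * G ∧ V ≤ v ∧ v < 2 * V ∧ W ≤ w ∧ w < 2 * W ∧
      v.Coprime w ∧ g.Coprime (v * w) ∧ g.Coprime ρ ∧ |s| ≤ (S : ℤ) ∧ |t| ≤ (T : ℤ) ∧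
      |m| ≤ (M : ℤ) ∧ Cong ρ v w s t m ∧
      ∃ e f : ℤ, IsCoprime e g ∧ IsCoprime f g ∧ (g : ℤ) ∣ ρ * m - f ^ 2 ∧
        (g : ℤ) ∣ ρ * e * s - f * (f * w + e * v) ∧ (g : ℤ) ∣ ρ * f * t - e * (e * v - f * w)) →
  (F.card : ℝ) ≤ C * (Z : ℝ) ^ ε * BBx ρ M G V W S T

/-! ## The tuples -/

/-- the algebraic conditions on `(ρ, m, a, g, v, w, s, t)` -/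
def GoodA (ρ : ℕ) (m a : ℤ) (g v w : ℕ) (s t : ℤ) : Prop :=
  0 < ρ ∧ m ≠ 0 ∧ a ≠ 0 ∧ 0 < g ∧ 0 < v ∧ 0 < w ∧ v.Coprime w ∧ g.Coprime ρ ∧
  a * v ^ 2 - m * w ^ 2 = ρ * s * t ∧
  (v : ℤ) ∣ ρ * t ^ 2 - a * w ^ 2 ∧ (w : ℤ) ∣ ρ * s ^ 2 - m * v ^ 2 ∧
  (∃ e f : ℤ, IsCoprime e g ∧ IsCoprime f g ∧ (g : ℤ) ∣ ρ * m - f ^ 2 ∧ (g : ℤ) ∣ ρ * a - e ^ 2 ∧
    (g : ℤ) ∣ ρ * e * s - f * (f * w + e * v) ∧ (g : ℤ) ∣ ρ * f * t - e * (e * v - f * w))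

/-- a large constant -/
noncomputable def kap : ℝ := 10 ^ 10

/-- the sizes of the parameters -/
def PFY (N : ℕ) (F Y : ℝ) : Prop :=
  1 ≤ N ∧ 0 < F ∧ 0 < Y ∧ F ^ 2 ≤ kap * Real.sqrt N ∧ Real.sqrt N ≤ kap * Y ^ 2 ∧
    F * Y ≤ kap * Real.sqrt N

/-- the sizes -/
def SzC (N : ℕ) (F Y : ℝ) (ρ : ℕ) (m a : ℤ) (g v w : ℕ) (s t : ℤ) : Prop :=
  (ρ : ℝ) * |(m : ℝ)| ≤ kap * F ^ 2 ∧ (ρ : ℝ) * |(a : ℝ)| ≤ kap * Y ^ 2 ∧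
  (ρ : ℝ) * (g * v) * Real.sqrt N ≤ kap * (F ^ 2 * Y) ∧
  (ρ : ℝ) * (g * w) * Real.sqrt N ≤ kap * (F * Y ^ 2) ∧
  (ρ : ℝ) * |(s : ℝ)| * Y ≤ kap * (F * (F * w + Y * v)) ∧
  (ρ : ℝ) * |(t : ℝ)| * F ≤ kap * (Y * (F * w + Y * v))

/-- the tuples -/
def GoodR (N : ℕ) (F Y : ℝ) (x : ℕ × ℤ × ℤ × ℕ × ℕ × ℕ × ℤ × ℤ) : Prop :=
  match x with
  | (ρ, m, a, g, v, w, s, t) => GoodA ρ m a g v w s t ∧ SzC N F Y ρ m a g v w s t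

/-- **NUB1.** the numerical inequality, `F w ≤ Y v` -/
def S_NUB1 : Prop := ∃ C : ℝ, 0 < C ∧ ∀ (N : ℕ) (F Y : ℝ) (ρ M G V W S T : ℕ), PFY N F Y →
  1 ≤ ρ → 1 ≤ G → 1 ≤ V → 1 ≤ W → (ρ : ℝ) ≤ kap * F ^ 2 →
  (ρ : ℝ) * (G * V) * Real.sqrt N ≤ kap * (F ^ 2 * Y) →
  (ρ : ℝ) * (G * W) * Real.sqrt N ≤ kap * (F * Y ^ 2) → F * W ≤ 2 * (Y * V) →
  kap ^ 3 * F ^ 2 ≤ ρ * M → (ρ : ℝ) * M ≤ 2 * (kap ^ 3 * F ^ 2) →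
  kap ^ 3 * (F * V) ≤ (ρ : ℝ) * S → (ρ : ℝ) * S ≤ 2 * (kap ^ 3 * (F * V)) →
  kap ^ 3 * (Y ^ 2 * V) ≤ (ρ : ℝ) * F * T → (ρ : ℝ) * F * T ≤ 2 * (kap ^ 3 * (Y ^ 2 * V)) →
  BBx ρ M G V W S T ≤ C * (Y ^ 2 * Real.sqrt N / ρ)

/-- **NUB2.** the numerical inequality, `Y v ≤ F w` (note the order `W V` and `T S`) -/
def S_NUB2 : Prop := ∃ C : ℝ, 0 < C ∧ ∀ (N : ℕ) (F Y : ℝ) (ρ M G V W S T : ℕ), PFY N F Y →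
  1 ≤ ρ → 1 ≤ G → 1 ≤ V → 1 ≤ W → (ρ : ℝ) ≤ kap * F ^ 2 →
  (ρ : ℝ) * (G * V) * Real.sqrt N ≤ kap * (F ^ 2 * Y) →
  (ρ : ℝ) * (G * W) * Real.sqrt N ≤ kap * (F * Y ^ 2) → Y * V ≤ 2 * (F * W) →
  kap ^ 3 * Y ^ 2 ≤ ρ * M → (ρ : ℝ) * M ≤ 2 * (kap ^ 3 * Y ^ 2) →
  kap ^ 3 * (F ^ 2 * W) ≤ (ρ : ℝ) * Y * S → (ρ : ℝ) * Y * S ≤ 2 * (kap ^ 3 * (F ^ 2 * W)) →
  kap ^ 3 * (Y * W) ≤ (ρ : ℝ) * T → (ρ : ℝ) * T ≤ 2 * (kap ^ 3 * (Y * W)) →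
  BBx ρ M G W V T S ≤ C * (Y ^ 2 * Real.sqrt N / ρ)

/-- **CNX.** (from BOXR) summation over the boxes -/
def S_CNX : Prop := ∀ ε : ℝ, 0 < ε → ∀ C₀ : ℝ, 0 < C₀ → ∃ C : ℝ, 0 < C ∧ ∀ N : ℕ, 1 ≤ N →
  ∀ Y : ℝ, 0 < Y → ∀ fM fS fT : ℕ → ℕ → ℕ → ℕ → ℕ,
  ∀ F : Finset (ℕ × ℤ × ℤ × ℕ × ℕ × ℕ × ℤ × ℤ), (∀ x ∈ F, match x with
    | (ρ, m, a, g, v, w, s, t) => GoodA ρ m a g v w s t ∧ g.Coprime (v * w) ∧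
      ∃ G V W : ℕ, G = 2 ^ Nat.log 2 g ∧ V = 2 ^ Nat.log 2 v ∧ W = 2 ^ Nat.log 2 w ∧
        PBX ρ (fM ρ G V W) G V W (fS ρ G V W) (fT ρ G V W) ∧
        |m| ≤ (fM ρ G V W : ℤ) ∧ |s| ≤ (fS ρ G V W : ℤ) ∧ |t| ≤ (fT ρ G V W : ℤ) ∧
        ρ ≤ 10 ^ 200 * N ^ 10 ∧ g ≤ 10 ^ 200 * N ^ 10 ∧ v ≤ 10 ^ 200 * N ^ 10 ∧
        w ≤ 10 ^ 200 * N ^ 10 ∧ fM ρ G V W ≤ 10 ^ 200 * N ^ 10 ∧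
        fS ρ G V W ≤ 10 ^ 200 * N ^ 10 ∧ fT ρ G V W ≤ 10 ^ 200 * N ^ 10 ∧
        BBx ρ (fM ρ G V W) G V W (fS ρ G V W) (fT ρ G V W) ≤ C₀ * (Y ^ 2 * Real.sqrt N / ρ)) →
  (F.card : ℝ) ≤ C * (N : ℝ) ^ ε * (Y ^ 2 * Real.sqrt N)

/-- **CNB1.** (from CNX, NUB1) -/
def S_CNB1 : Prop := ∀ ε : ℝ, 0 < ε → ∃ C : ℝ, 0 < C ∧ ∀ (N : ℕ) (F Y : ℝ), PFY N F Y →
  ∀ Fs : Finset (ℕ × ℤ × ℤ × ℕ × ℕ × ℕ × ℤ × ℤ), (∀ x ∈ Fs, match x with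
    | (ρ, m, a, g, v, w, s, t) => GoodA ρ m a g v w s t ∧ SzC N F Y ρ m a g v w s t ∧
      g.Coprime (v * w) ∧ F * w ≤ Y * v) →
  (Fs.card : ℝ) ≤ C * (N : ℝ) ^ ε * (Y ^ 2 * Real.sqrt N)

/-- **CNB2.** (from CNX, NUB2) -/
def S_CNB2 : Prop := ∀ ε : ℝ, 0 < ε → ∃ C : ℝ, 0 < C ∧ ∀ (N : ℕ) (F Y : ℝ), PFY N F Y →
  ∀ Fs : Finset (ℕ × ℤ × ℤ × ℕ × ℕ × ℕ × ℤ × ℤ), (∀ x ∈ Fs, match x with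
    | (ρ, m, a, g, v, w, s, t) => GoodA ρ m a g v w s t ∧ SzC N F Y ρ m a g v w s t ∧
      g.Coprime (v * w) ∧ Y * v ≤ F * w) →
  (Fs.card : ℝ) ≤ C * (N : ℝ) ^ ε * (Y ^ 2 * Real.sqrt N)

/-- **CNTR.** (from CNB1, CNB2, F5.SMO) -/
def S_CNTR : Prop := ∀ ε : ℝ, 0 < ε → ∃ C : ℝ, 0 < C ∧ ∀ (N : ℕ) (F Y : ℝ), PFY N F Y →
  ∀ Fs : Finset (ℕ × ℤ × ℤ × ℕ × ℕ × ℕ × ℤ × ℤ), (∀ x ∈ Fs, GoodR N F Y x) →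
  (Fs.card : ℝ) ≤ C * (N : ℝ) ^ ε * (Y ^ 2 * Real.sqrt N)

/-! ## The relations -/

/-- `0` or `1` -/
def thR (D : ℕ) : ℤ := ((D % 2 : ℕ) : ℤ)

/-- `(thR D - D) / 4` -/
def n0R (D : ℕ) : ℤ := (thR D - D) / 4

/-- the relations satisfied by the coordinates of the generators -/
def RELR (D ρ : ℕ) (m a x₁ u₁ x₂ u₂ : ℤ) : Prop :=
  0 < ρ ∧ m ≠ 0 ∧ a ≠ 0 ∧ 0 ≤ u₁ ∧ 0 ≤ u₂ ∧ IsCoprime (ρ : ℤ) (m * a) ∧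
  IsCoprime (ρ * m * a) (Int.gcd u₁ u₂ : ℤ) ∧
  x₁ ^ 2 + thR D * x₁ * u₁ + n0R D * u₁ ^ 2 = ρ * m ^ 2 * a ∧
  x₂ ^ 2 + thR D * x₂ * u₂ + n0R D * u₂ ^ 2 = ρ * a ^ 2 * m ∧
  ρ * a ∣ x₁ * u₂ + x₂ * u₁ + thR D * u₁ * u₂ ∧
  ρ * m ∣ x₂ * u₁ - x₁ * u₂ ∧
  ρ * m ^ 2 ∣ u₁ * x₂ ^ 2 - 2 * x₁ * x₂ * u₂ - thR D * x₁ * u₂ ^ 2 - n0R D * u₁ * u₂ ^ 2 ∧
  ρ * a ^ 2 ∣ x₁ ^ 2 * u₂ + 2 * x₁ * x₂ * u₁ + 2 * thR D * x₁ * u₁ * u₂ + thR D * x₂ * u₁ ^ 2 +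
      thR D * u₁ ^ 2 * u₂ - n0R D * u₁ ^ 2 * u₂

/-- the two real embeddings of `x + u ω` -/
noncomputable def E1 (D : ℕ) (x u : ℤ) : ℝ := x + u * (((thR D : ℤ) : ℝ) + Real.sqrt D) / 2
noncomputable def E2 (D : ℕ) (x u : ℤ) : ℝ := x + u * (((thR D : ℤ) : ℝ) - Real.sqrt D) / 2

/-- the sizes of the two generators in terms of the sizes `f₁, f₂` and `g₁, g₂` -/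
def SZE (D ρ : ℕ) (m a x₁ u₁ x₂ u₂ : ℤ) (f₁ f₂ g₁ g₂ : ℝ) : Prop :=
  0 < f₁ ∧ 0 < f₂ ∧ 0 < g₁ ∧ 0 < g₂ ∧ f₁ * f₂ = ρ * |(m : ℝ)| ∧ g₁ * g₂ = ρ * |(a : ℝ)| ∧
  ρ * |E1 D x₁ u₁| = f₁ ^ 2 * g₂ ∧ ρ * |E2 D x₁ u₁| = f₂ ^ 2 * g₁ ∧
  ρ * |E1 D x₂ u₂| = g₁ ^ 2 * f₁ ∧ ρ * |E2 D x₂ u₂| = g₂ ^ 2 * f₂

/-- the sizes: `max (f₁, f₂)` is about `F`, and `g₁, g₂` are about `Y` -/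
def SIZ (c₁ c₂ : ℝ) (D : ℕ) (F Y : ℝ) (ρ : ℕ) (m a x₁ u₁ x₂ u₂ : ℤ) : Prop :=
  ∃ f₁ f₂ g₁ g₂ : ℝ, SZE D ρ m a x₁ u₁ x₂ u₂ f₁ f₂ g₁ g₂ ∧ f₁ ≤ F ∧ f₂ ≤ F ∧
    (F ≤ c₁ * f₁ ∨ F ≤ c₁ * f₂) ∧ Y ≤ c₂ * g₁ ∧ Y ≤ c₂ * g₂ ∧ g₁ ≤ c₂ * Y ∧ g₂ ≤ c₂ * Y

/-- the tuples `(D, ρ, m, a, x₁, u₁, x₂, u₂)` with `N < D ≤ 2N` -/
def RelTR (N : ℕ) (F Y : ℝ) (x : ℕ × ℕ × ℤ × ℤ × ℤ × ℤ × ℤ × ℤ) : Prop :=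
  match x with
  | (D, ρ, m, a, x₁, u₁, x₂, u₂) => N < D ∧ D ≤ 2 * N ∧ (D % 4 = 0 ∨ D % 4 = 1) ∧
      RELR D ρ m a x₁ u₁ x₂ u₂ ∧ SIZ 2 20 D F Y ρ m a x₁ u₁ x₂ u₂

/-- **DERR.** -/
def S_DERR : Prop := ∀ (N : ℕ) (F Y : ℝ), PFY N F Y →
  ∃ Φ : ℕ × ℕ × ℤ × ℤ × ℤ × ℤ × ℤ × ℤ → ℕ × ℤ × ℤ × ℕ × ℕ × ℕ × ℤ × ℤ,
    Set.InjOn Φ {x | RelTR N F Y x ∧ x.2.2.2.2.2.1 ≠ 0 ∧ x.2.2.2.2.2.2.2 ≠ 0} ∧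
    ∀ x, RelTR N F Y x → x.2.2.2.2.2.1 ≠ 0 → x.2.2.2.2.2.2.2 ≠ 0 → GoodR N F Y (Φ x)

/-- **ZAR.** the structure when `u₁ = 0` -/
def S_ZAR : Prop := ∀ (D ρ : ℕ) (m a x₁ x₂ u₂ : ℤ), (D % 4 = 0 ∨ D % 4 = 1) →
  RELR D ρ m a x₁ 0 x₂ u₂ → u₂ ≠ 0 →
  ρ = 1 ∧ ∃ (b q D' : ℕ) (y : ℤ), 0 < b ∧ 0 < q ∧ |m| = b * q ∧ a = (b : ℤ) ^ 2 ∧
    x₁ ^ 2 = ((b : ℤ) ^ 2 * q) ^ 2 ∧ 2 * x₂ + thR D * u₂ = q * y ∧ D = q * D' ∧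
    4 * (b : ℤ) ^ 4 * m = q * (q * y ^ 2 - D' * u₂ ^ 2) ∧ u₂.natAbs.Coprime (b * q)

/-- **ROOT.** the square roots modulo `u ^ 2` in an interval -/
def S_ROOT : Prop := ∀ u q L : ℕ, 0 < u → q.Coprime u → ∀ S : Finset ℤ,
  (∀ y ∈ S, |y| ≤ (L : ℤ)) → (∀ y ∈ S, Int.gcd y u ∣ 2) →
  (∀ y ∈ S, ∀ y' ∈ S, (u : ℤ) ^ 2 ∣ q * (y ^ 2 - y' ^ 2)) →
  (S.card : ℝ) ≤ ((u ^ 2).divisors.card : ℝ) * (16 * L / (u : ℝ) ^ 2 + 1)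

/-- **ZBR.** (from ROOT, F5.DIV) the tuples are `(b, q, y, u, D')` -/
def S_ZBR : Prop := ∀ ε : ℝ, 0 < ε → ∃ C : ℝ, 0 < C ∧ ∀ N Z : ℕ, 1 ≤ N → N ≤ Z → ∀ E : ℝ, 1 ≤ E →
  E ≤ Z → ∀ Γ : Finset (ℕ × ℕ), (∀ z ∈ Γ, 0 < z.1 ∧ 0 < z.2) →
  ∀ F : Finset (ℕ × ℕ × ℤ × ℕ × ℕ), (∀ x ∈ F, match x with
    | (b, q, y, u, D') => (b, q) ∈ Γ ∧ 0 < u ∧ u.Coprime (b * q) ∧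
      (4 * (b : ℤ) ^ 5 = q * y ^ 2 - D' * u ^ 2 ∨ -(4 * (b : ℤ) ^ 5) = q * y ^ 2 - D' * u ^ 2) ∧
      (q : ℝ) * |(y : ℝ)| ≤ E ∧ (u : ℝ) * Real.sqrt N ≤ E) →
  (F.card : ℝ) ≤ C * (Z : ℝ) ^ ε * (E * ∑ z ∈ Γ, 1 / (z.2 : ℝ) + E / Real.sqrt N * Γ.card)

/-- **ZERR.** (from ZAR, ZBR) -/
def S_ZERR : Prop := ∀ ε : ℝ, 0 < ε → ∃ C : ℝ, 0 < C ∧ ∀ (N : ℕ) (F Y : ℝ), PFY N F Y →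
  ∀ Fs : Finset (ℕ × ℕ × ℤ × ℤ × ℤ × ℤ × ℤ × ℤ),
  (∀ x ∈ Fs, RelTR N F Y x ∧ (x.2.2.2.2.2.1 = 0 ∨ x.2.2.2.2.2.2.2 = 0)) →
  (Fs.card : ℝ) ≤ C * (N : ℝ) ^ ε * (Y ^ 2 * Real.sqrt N)

/-- **INTR.** (from DERR, CNTR, ZERR) -/
def S_INTR : Prop := ∀ ε : ℝ, 0 < ε → ∃ C : ℝ, 0 < C ∧ ∀ (N : ℕ) (F Y : ℝ), PFY N F Y →
  ∀ Fs : Finset (ℕ × ℕ × ℤ × ℤ × ℤ × ℤ × ℤ × ℤ), (∀ x ∈ Fs, RelTR N F Y x) →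
  (Fs.card : ℝ) ≤ C * (N : ℝ) ^ ε * (Y ^ 2 * Real.sqrt N)

/-! ## Ideals -/

/-- `1, ω` is a basis of `𝓞 K` and `σ` is the conjugation -/
def IsQR (K : Type) [Field K] [NumberField K] (D : ℕ) (ω : 𝓞 K) (σ : 𝓞 K →+* 𝓞 K) : Prop :=
  ω ^ 2 = (thR D : 𝓞 K) * ω - (n0R D : 𝓞 K) ∧ σ ω = (thR D : 𝓞 K) - ω ∧
  (∀ x : 𝓞 K, ∃ a b : ℤ, x = (a : 𝓞 K) + (b : 𝓞 K) * ω) ∧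
  (∀ a b : ℤ, (a : 𝓞 K) + (b : 𝓞 K) * ω = 0 → a = 0 ∧ b = 0) ∧
  (∀ x : 𝓞 K, σ (σ x) = x) ∧
  (∀ a b : ℤ, Algebra.norm ℤ ((a : 𝓞 K) + (b : 𝓞 K) * ω) =
    a ^ 2 + thR D * a * b + n0R D * b ^ 2) ∧
  (∀ x : 𝓞 K, x * σ x = ((Algebra.norm ℤ x : ℤ) : 𝓞 K)) ∧
  (∀ I : Ideal (𝓞 K), I * I.map σ = Ideal.span {((Ideal.absNorm I : ℕ) : 𝓞 K)}) ∧
  (∀ I : Ideal (𝓞 K), Ideal.absNorm (I.map σ) = Ideal.absNorm I)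

/-- **OMR.** -/
def S_OMR : Prop := ∀ (K : Type) [Field K] [NumberField K] (D : ℕ), Module.finrank ℚ K = 2 →
  discr K = (D : ℤ) → 0 < D →
  (D % 4 = 0 ∨ D % 4 = 1) ∧ ∃ (ω : 𝓞 K) (σ : 𝓞 K →+* 𝓞 K), IsQR K D ω σ

/-- **SPLR.** (`Spl` is defined in F5) -/
def S_SPLR : Prop := ∀ (K : Type) [Field K] [NumberField K] (D : ℕ) (ω : 𝓞 K) (σ : 𝓞 K →+* 𝓞 K),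
  IsQR K D ω σ → ∀ Pf Af : Ideal (𝓞 K), Pf ≠ ⊥ → Af ≠ ⊥ →
  (∀ n : ℕ, 2 ≤ n → ¬ Pf ≤ Ideal.span {(n : 𝓞 K)}) →
  (∀ n : ℕ, 2 ≤ n → ¬ Af ≤ Ideal.span {(n : 𝓞 K)}) →
  ∃ (R P A : Ideal (𝓞 K)) (ρ : ℕ), Spl σ Pf Af R P A ρ

/-- **COPR.** -/
def S_COPR : Prop := ∀ (K : Type) [Field K] [NumberField K] (D : ℕ) (ω : 𝓞 K) (σ : 𝓞 K →+* 𝓞 K),
  IsQR K D ω σ → ∀ (Pf Af R P A : Ideal (𝓞 K)) (ρ : ℕ), Spl σ Pf Af R P A ρ →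
  ∀ x₁ u₁ x₂ u₂ : ℤ,
  Ideal.span {(x₁ : 𝓞 K) + (u₁ : 𝓞 K) * ω} = P ^ 2 * A.map σ * R →
  Ideal.span {(x₂ : 𝓞 K) + (u₂ : 𝓞 K) * ω} = A ^ 2 * P * R →
  (ρ * Ideal.absNorm P * Ideal.absNorm A).Coprime (Int.gcd u₁ u₂)

/-- the tuple determines the ideal -/
def IDT {K : Type} [Field K] [NumberField K] (ω : 𝓞 K) (Pf : Ideal (𝓞 K))
    (t : ℕ × ℤ × ℤ × ℤ × ℤ × ℤ × ℤ) : Prop :=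
  Ideal.span {((t.1 : ℕ) : 𝓞 K) *
        (((t.2.2.2.1 : ℤ) : 𝓞 K) + ((t.2.2.2.2.1 : ℤ) : 𝓞 K) * ω) ^ 2 *
        (((t.2.2.2.2.2.1 : ℤ) : 𝓞 K) + ((t.2.2.2.2.2.2 : ℤ) : 𝓞 K) * ω)} =
      Ideal.span {((t.2.2.1 : ℤ) : 𝓞 K)} ^ 2 * Pf ^ 5

/-- **MER.** (from SPLR, COPR) -/
def S_MER : Prop := ∀ (K : Type) [Field K] [NumberField K] (D : ℕ) (ω : 𝓞 K) (σ : 𝓞 K →+* 𝓞 K),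
  IsQR K D ω σ → ∀ Pf Af : Ideal (𝓞 K), Pf ≠ ⊥ → Af ≠ ⊥ →
  (∀ n : ℕ, 2 ≤ n → ¬ Pf ≤ Ideal.span {(n : 𝓞 K)}) →
  (∀ n : ℕ, 2 ≤ n → ¬ Af ≤ Ideal.span {(n : 𝓞 K)}) → ∀ α₁ α₂ : 𝓞 K,
  Ideal.span {α₁} = Pf ^ 2 * Af.map σ → Ideal.span {α₂} = Af ^ 2 * Pf →
  ∃ (ρ : ℕ) (m a x₁ u₁ x₂ u₂ : ℤ), RELR D ρ m a x₁ u₁ x₂ u₂ ∧
    ((ρ : 𝓞 K) * ((x₁ : 𝓞 K) + (u₁ : 𝓞 K) * ω) = α₁ ∨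
      (ρ : 𝓞 K) * ((x₁ : 𝓞 K) + (u₁ : 𝓞 K) * ω) = -α₁) ∧
    ((ρ : 𝓞 K) * ((x₂ : 𝓞 K) + (u₂ : 𝓞 K) * ω) = α₂ ∨
      (ρ : 𝓞 K) * ((x₂ : 𝓞 K) + (u₂ : 𝓞 K) * ω) = -α₂) ∧
    (ρ : ℤ) * |m| = Ideal.absNorm Pf ∧ (ρ : ℤ) * |a| = Ideal.absNorm Af ∧
    IDT ω Pf (ρ, m, a, x₁, u₁, x₂, u₂)

/-- the weighted sup norm -/
noncomputable def nn (D : ℕ) (w₁ w₂ : ℝ) (x : ℤ × ℤ) : ℝ :=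
  max (w₁ * |E1 D x.1 x.2|) (w₂ * |E2 D x.1 x.2|)

/-- `x` gives a primitive element of the ideal `I` -/
def Prm {K : Type} [Field K] [NumberField K] (ω : 𝓞 K) (I : Ideal (𝓞 K)) (x : ℤ × ℤ) : Prop :=
  x ≠ 0 ∧ (x.1 : 𝓞 K) + (x.2 : 𝓞 K) * ω ∈ I ∧
  ∀ n : ℕ, 2 ≤ n → ∀ y : ℤ × ℤ, (y.1 : 𝓞 K) + (y.2 : 𝓞 K) * ω ∈ I →
    ¬ (x.1 = n * y.1 ∧ x.2 = n * y.2)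

/-- **LAT1.** -/
def S_LAT1 : Prop := ∀ (K : Type) [Field K] [NumberField K] (D : ℕ) (ω : 𝓞 K) (σ : 𝓞 K →+* 𝓞 K),
  IsQR K D ω σ → 0 < D → ∀ I : Ideal (𝓞 K), I ≠ ⊥ → ∀ w₁ w₂ : ℝ, 0 < w₁ → 0 < w₂ →
  w₁ * w₂ * Ideal.absNorm I = 1 →
  ∃ x : ℤ × ℤ, Prm ω I x ∧ nn D w₁ w₂ x ^ 2 ≤ 3 / 2 * Real.sqrt D

/-- **LAT2.** -/
def S_LAT2 : Prop := ∀ (K : Type) [Field K] [NumberField K] (D : ℕ) (ω : 𝓞 K) (σ : 𝓞 K →+* 𝓞 K),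
  IsQR K D ω σ → 0 < D → ∀ I : Ideal (𝓞 K), I ≠ ⊥ → ∀ w₁ w₂ : ℝ, 0 < w₁ → 0 < w₂ →
  w₁ * w₂ * Ideal.absNorm I = 1 → ∀ x : ℤ × ℤ, Prm ω I x →
  nn D w₁ w₂ x ^ 2 ≤ 3 / 2 * Real.sqrt D →
  ∃ Ys : Finset (ℤ × ℤ), Real.sqrt D / nn D w₁ w₂ x ^ 2 ≤ Ys.card ∧ ∀ y ∈ Ys, Prm ω I y ∧
    -y ∉ Ys ∧
    Real.sqrt D / nn D w₁ w₂ x ≤ 10 * (w₁ * |E1 D y.1 y.2|) ∧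
    Real.sqrt D / nn D w₁ w₂ x ≤ 10 * (w₂ * |E2 D y.1 y.2|) ∧
    w₁ * |E1 D y.1 y.2| ≤ 10 * (Real.sqrt D / nn D w₁ w₂ x) ∧
    w₂ * |E2 D y.1 y.2| ≤ 10 * (Real.sqrt D / nn D w₁ w₂ x)

/-- the element with the coordinates `x` -/
def el {K : Type} [Field K] [NumberField K] (ω : 𝓞 K) (x : ℤ × ℤ) : 𝓞 K :=
  (x.1 : 𝓞 K) + (x.2 : 𝓞 K) * ω

/-- **AL1.** (from MER) `I` in the class `c⁻¹`, `x ∈ I` and `y ∈ I ^ 2` -/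
def S_AL1 : Prop := ∀ (K : Type) [Field K] [NumberField K] (D : ℕ) (ω : 𝓞 K) (σ : 𝓞 K →+* 𝓞 K),
  IsQR K D ω σ → 0 < D → ∀ (I : Ideal (𝓞 K)) (β : ℤ × ℤ), I ≠ ⊥ → I ^ 5 = Ideal.span {el ω β} →
  ∀ w₁ w₂ : ℝ, 0 < w₁ → 0 < w₂ → w₁ ^ 5 * |E1 D β.1 β.2| = 1 → w₂ ^ 5 * |E2 D β.1 β.2| = 1 →
  ∀ x y : ℤ × ℤ, Prm ω I x → Prm ω (I ^ 2) y →
  ∃ t : ℕ × ℤ × ℤ × ℤ × ℤ × ℤ × ℤ,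
    RELR D t.1 t.2.1 t.2.2.1 t.2.2.2.1 t.2.2.2.2.1 t.2.2.2.2.2.1 t.2.2.2.2.2.2 ∧
    SZE D t.1 t.2.1 t.2.2.1 t.2.2.2.1 t.2.2.2.2.1 t.2.2.2.2.2.1 t.2.2.2.2.2.2
      (w₁ * |E1 D x.1 x.2|) (w₂ * |E2 D x.1 x.2|) (w₁ ^ 2 * |E1 D y.1 y.2|)
      (w₂ ^ 2 * |E2 D y.1 y.2|) ∧
    (∃ Pf : Ideal (𝓞 K), Pf * I = Ideal.span {el ω x} ∧ IDT ω Pf t) ∧
    ((Ideal.absNorm I : 𝓞 K) ^ 2 * ((t.1 : 𝓞 K) * ((t.2.2.2.1 : 𝓞 K) + (t.2.2.2.2.1 : 𝓞 K) * ω)) =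
        el ω x ^ 2 * σ (el ω y) ∨
      (Ideal.absNorm I : 𝓞 K) ^ 2 * ((t.1 : 𝓞 K) * ((t.2.2.2.1 : 𝓞 K) + (t.2.2.2.2.1 : 𝓞 K) * ω)) =
        -(el ω x ^ 2 * σ (el ω y)))

/-- **AL2.** (from MER) `I` in the class `c⁻¹`, `x ∈ I ^ 2` and `y ∈ I` -/
def S_AL2 : Prop := ∀ (K : Type) [Field K] [NumberField K] (D : ℕ) (ω : 𝓞 K) (σ : 𝓞 K →+* 𝓞 K),
  IsQR K D ω σ → 0 < D → ∀ (I : Ideal (𝓞 K)) (β : ℤ × ℤ), I ≠ ⊥ → I ^ 5 = Ideal.span {el ω β} →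
  ∀ w₁ w₂ : ℝ, 0 < w₁ → 0 < w₂ → w₁ ^ 5 * |E1 D β.1 β.2| = 1 → w₂ ^ 5 * |E2 D β.1 β.2| = 1 →
  ∀ x y : ℤ × ℤ, Prm ω (I ^ 2) x → Prm ω I y →
  ∃ t : ℕ × ℤ × ℤ × ℤ × ℤ × ℤ × ℤ,
    RELR D t.1 t.2.1 t.2.2.1 t.2.2.2.1 t.2.2.2.2.1 t.2.2.2.2.2.1 t.2.2.2.2.2.2 ∧
    SZE D t.1 t.2.1 t.2.2.1 t.2.2.2.1 t.2.2.2.2.1 t.2.2.2.2.2.1 t.2.2.2.2.2.2
      (w₁ ^ 2 * |E1 D x.1 x.2|) (w₂ ^ 2 * |E2 D x.1 x.2|) (w₂ * |E2 D y.1 y.2|)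
      (w₁ * |E1 D y.1 y.2|) ∧
    (∃ Pf : Ideal (𝓞 K), Pf * I ^ 2 = Ideal.span {el ω x} ∧ IDT ω Pf t) ∧
    (el ω β * ((t.1 : 𝓞 K) * ((t.2.2.2.1 : 𝓞 K) + (t.2.2.2.2.1 : 𝓞 K) * ω)) =
        el ω x ^ 2 * el ω y ∨
      el ω β * ((t.1 : 𝓞 K) * ((t.2.2.2.1 : 𝓞 K) + (t.2.2.2.2.1 : 𝓞 K) * ω)) =
        -(el ω x ^ 2 * el ω y))

/-- **ALGR.** (from OMR, LAT1, LAT2, AL1, AL2) -/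
def S_ALGR : Prop := ∀ (K : Type) [Field K] [NumberField K] (D : ℕ), Module.finrank ℚ K = 2 →
  discr K = (D : ℤ) → 0 < D →
  (D % 4 = 0 ∨ D % 4 = 1) ∧
  ∃ κ : ℕ × ℤ × ℤ × ℤ × ℤ × ℤ × ℤ → ClassGroup (𝓞 K), ∀ c : ClassGroup (𝓞 K), c ^ 5 = 1 →
    ∃ F Y : ℝ, 0 < F ∧ 0 < Y ∧ F ^ 2 ≤ 2 * Real.sqrt D ∧ F * Y ≤ Real.sqrt D ∧
      Real.sqrt D ≤ 2 * Y ^ 2 ∧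
    ∃ B : Finset (ℕ × ℤ × ℤ × ℤ × ℤ × ℤ × ℤ), Y ^ 2 / Real.sqrt D ≤ B.card ∧ ∀ t ∈ B,
      RELR D t.1 t.2.1 t.2.2.1 t.2.2.2.1 t.2.2.2.2.1 t.2.2.2.2.2.1 t.2.2.2.2.2.2 ∧
      SIZ 1 10 D F Y t.1 t.2.1 t.2.2.1 t.2.2.2.1 t.2.2.2.2.1 t.2.2.2.2.2.1 t.2.2.2.2.2.2 ∧
      (κ t = c ∨ κ t = c ^ 2)

open Classical in
/-- **FINR.** (from ALGR, INTR) -/
def S_FINR : Prop := ∀ ε : ℝ, 0 < ε → ∃ C : ℝ, 0 < C ∧ ∀ X : ℕ, 1 ≤ X →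
  ∀ (K : ℤ → Type) [∀ D, Field (K D)] [∀ D, NumberField (K D)],
  (∀ D : ℤ, 0 < D → FDp D → Module.finrank ℚ (K D) = 2 ∧ discr (K D) = D) →
  ∑ D ∈ (Finset.Ioo (0 : ℤ) (X : ℤ)).filter (fun D : ℤ => FDp D),
    (Nat.card {c : ClassGroup (𝓞 (K D)) // c ^ 5 = 1} : ℝ) ≤ C * (X : ℝ) ^ (1 + ε)

end Pool.Agent.T2h80.R5
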