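import Pool.Agent.T2h80.F5.AVG1
import Pool.Agent.T2h80.R5.Stm

set_option autoImplicit false

/-! Task AVGR of project R5 (helper58). -/

namespace Pool.Agent.T2h80.R5

open Finset Pool.Agent.T2h80.F5 Pool.Agent.T2h80.F5.H97

namespace H58

/-- the degenerate vectors with `k = l = 0` -/
noncomputable def D1 (K L J R : ℕ) : Finset (ℤ × ℤ × ℤ × ℤ) :=
  (BX K L J R).filter (fun x => x.1 = 0 ∧ x.2.1 = 0)

/-- the degenerate vectors with `j = r = 0` -/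
noncomputable def D2 (K L J R : ℕ) : Finset (ℤ × ℤ × ℤ × ℤ) :=
  (BX K L J R).filter (fun x => x.2.2.1 = 0 ∧ x.2.2.2 = 0)

/-- the other degenerate vectors -/
noncomputable def D3 (K L J R : ℕ) : Finset (ℤ × ℤ × ℤ × ℤ) :=
  (BX K L J R).filter (fun x => RS x.1 x.2.1 x.2.2.1 x.2.2.2 = 0 ∧ ¬ (x.1 = 0 ∧ x.2.1 = 0) ∧
    ¬ (x.2.2.1 = 0 ∧ x.2.2.2 = 0))

theorem KK_split4 (K L J R e v w : ℕ) : KK K L J R e v w ≤
    CN (BN K L J R) e v w + (CN (D3 K L J R) e v w + (CN (D1 K L J R) e v w +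
      CN (D2 K L J R) e v w)) := by
  classical
  unfold KK CN
  refine (card_le_card ?_).trans ((card_union_le _ _).trans (Nat.add_le_add_left
    ((card_union_le _ _).trans (Nat.add_le_add_left (card_union_le _ _) _)) _))
  intro x hx
  rw [mem_filter] at hx
  rw [mem_union, mem_union, mem_union, mem_filter, mem_filter, mem_filter, mem_filter, BN, D1, D2,
    D3, mem_filter, mem_filter, mem_filter, mem_filter]
  by_cases h : RS x.1 x.2.1 x.2.2.1 x.2.2.2 = 0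
  · by_cases h1 : x.1 = 0 ∧ x.2.1 = 0
    · exact Or.inr (Or.inr (Or.inl ⟨⟨hx.1, h1⟩, hx.2⟩))
    · by_cases h2 : x.2.2.1 = 0 ∧ x.2.2.2 = 0
      · exact Or.inr (Or.inr (Or.inr ⟨⟨hx.1, h2⟩, hx.2⟩))
      · exact Or.inr (Or.inl ⟨⟨hx.1, h, h1, h2⟩, hx.2⟩)
  · exact Or.inl ⟨⟨hx.1, h⟩, hx.2⟩

theorem CN_D1 (K L J R e v w : ℕ) : CN (D1 K L J R) e v w ≤ FM J R e w := by
  classical
  unfold CN FM
  refine card_le_card_of_injOn (fun x => (x.2.2.1, x.2.2.2)) ?_ ?_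
  · intro x hx
    obtain ⟨hx1, hx2⟩ := mem_filter.1 (mem_coe.1 hx)
    obtain ⟨hx3, hk, hl⟩ := mem_filter.1 hx1
    unfold BX at hx3
    rw [mem_product, mem_product, mem_product] at hx3
    obtain ⟨-, -, hj, hr⟩ := hx3
    obtain ⟨h1, h2, h3⟩ := hx2
    rw [hk, hl] at h1 h2 h3
    rw [mem_coe, mem_filter, mem_product]
    refine ⟨⟨hj, hr⟩, ?_, ?_, ?_⟩
    · rintro ⟨z1, z2⟩
      apply h3
      have z1' : x.2.2.1 = 0 := z1
      have z2' : x.2.2.2 = 0 := z2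
      rw [z1', z2']
      constructor
      · unfold G1; ring
      · unfold G2; ring
    · have : x.2.2.1 * (w : ℤ) ^ 3 = -(G2 0 0 x.2.2.1 x.2.2.2 v w) := by
        unfold G2; ring
      show (e : ℤ) ∣ x.2.2.1 * (w : ℤ) ^ 3
      rw [this]
      exact (dvd_neg).2 h2
    · have : 5 * x.2.2.2 * (w : ℤ) ^ 5 = -((w : ℤ) ^ 2 * G1 0 0 x.2.2.1 x.2.2.2 v w) +
          2 * (v : ℤ) ^ 2 * G2 0 0 x.2.2.1 x.2.2.2 v w := by
        unfold G1 G2; ring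
      show (e : ℤ) ∣ 5 * x.2.2.2 * (w : ℤ) ^ 5
      rw [this]
      exact dvd_add ((dvd_neg).2 (Dvd.dvd.mul_left h1 _)) (Dvd.dvd.mul_left h2 _)
  · intro x hx y hy hxy
    obtain ⟨hx1, -⟩ := mem_filter.1 (mem_coe.1 hx)
    obtain ⟨-, hk, hl⟩ := mem_filter.1 hx1
    obtain ⟨hy1, -⟩ := mem_filter.1 (mem_coe.1 hy)
    obtain ⟨-, hk', hl'⟩ := mem_filter.1 hy1
    have h := Prod.ext_iff.1 hxy
    exact Prod.ext (hk.trans hk'.symm) (Prod.ext (hl.trans hl'.symm) (Prod.ext h.1 h.2))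

theorem CN_D2 (K L J R e v w : ℕ) : CN (D2 K L J R) e v w ≤ FM L K e v := by
  classical
  unfold CN FM
  refine card_le_card_of_injOn (fun x => (x.2.1, x.1)) ?_ ?_
  · intro x hx
    obtain ⟨hx1, hx2⟩ := mem_filter.1 (mem_coe.1 hx)
    obtain ⟨hx3, hj, hr⟩ := mem_filter.1 hx1
    unfold BX at hx3
    rw [mem_product, mem_product, mem_product] at hx3
    obtain ⟨hk, hl, -, -⟩ := hx3
    obtain ⟨h1, h2, h3⟩ := hx2
    rw [hj, hr] at h1 h2 h3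
    rw [mem_coe, mem_filter, mem_product]
    refine ⟨⟨hl, hk⟩, ?_, ?_, ?_⟩
    · rintro ⟨z1, z2⟩
      apply h3
      have z1' : x.2.1 = 0 := z1
      have z2' : x.1 = 0 := z2
      rw [z1', z2']
      constructor
      · unfold G1; ring
      · unfold G2; ring
    · have : x.2.1 * (v : ℤ) ^ 3 = G1 x.1 x.2.1 0 0 v w := by
        unfold G1; ring
      show (e : ℤ) ∣ x.2.1 * (v : ℤ) ^ 3
      rw [this]
      exact h1
    · have : 5 * x.1 * (v : ℤ) ^ 5 = (v : ℤ) ^ 2 * G2 x.1 x.2.1 0 0 v w +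
          2 * (w : ℤ) ^ 2 * G1 x.1 x.2.1 0 0 v w := by
        unfold G1 G2; ring
      show (e : ℤ) ∣ 5 * x.1 * (v : ℤ) ^ 5
      rw [this]
      exact dvd_add (Dvd.dvd.mul_left h2 _) (Dvd.dvd.mul_left h1 _)
  · intro x hx y hy hxy
    obtain ⟨hx1, -⟩ := mem_filter.1 (mem_coe.1 hx)
    obtain ⟨-, hj, hr⟩ := mem_filter.1 hx1
    obtain ⟨hy1, -⟩ := mem_filter.1 (mem_coe.1 hy)
    obtain ⟨-, hj', hr'⟩ := mem_filter.1 hy1
    have h := Prod.ext_iff.1 hxy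
    exact Prod.ext h.2 (Prod.ext h.1 (Prod.ext (hj.trans hj'.symm) (hr.trans hr'.symm)))

theorem sum_D3 (hDEG : S_DEGR) (hDIV : F5.S_DIV) (δ : ℝ) (hδ : 0 < δ) :
    ∃ C : ℝ, 0 < C ∧ ∀ G H V W ρ K L J R Y : ℕ,
  1 ≤ G → 1 ≤ H → 1 ≤ V → 1 ≤ W → 1 ≤ ρ → G ≤ Y → H ≤ Y → V ≤ Y → W ≤ Y → ρ ≤ Y → K ≤ Y → L ≤ Y →
  J ≤ Y → R ≤ Y →
  ∑ p ∈ GA G H, ∑ q ∈ LA V W, (CN (D3 K L J R) (p.2 * p.1 * ρ) q.1 q.2 : ℝ) ≤
  C * ((Y : ℝ) ^ δ) ^ 3 * ((V : ℝ) * W * ((1 + K) * (1 + R) + (1 + L) * (1 + J))) := by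
  classical
  obtain ⟨C₁, hC₁, h₁⟩ := hDEG δ hδ
  obtain ⟨C₂, hC₂, h₂⟩ := tau_bd hDIV δ hδ 64 (by norm_num) 4 (by norm_num)
  refine ⟨C₂ ^ 2 * C₁, by positivity, ?_⟩
  intro G H V W ρ K L J R Y hG hH hV hW hρ hGY hHY hVY hWY hρY hKY hLY hJY hRY
  have hY : 1 ≤ Y := hG.trans hGY
  have hY1 : (1 : ℝ) ≤ Y := by exact_mod_cast hY
  set T : ℝ := (Y : ℝ) ^ δ with hT
  have hT1 : 1 ≤ T := Real.one_le_rpow hY1 hδ.le
  -- exchange
  have e1 : ∑ p ∈ GA G H, ∑ q ∈ LA V W, (CN (D3 K L J R) (p.2 * p.1 * ρ) q.1 q.2 : ℝ) =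
      ∑ x ∈ D3 K L J R, ∑ q ∈ LA V W,
        (((GA G H).filter (fun p => PP (p.2 * p.1 * ρ) q.1 q.2 x)).card : ℝ) := by
    have h1 : ∀ p q : ℕ × ℕ, (CN (D3 K L J R) (p.2 * p.1 * ρ) q.1 q.2 : ℝ) =
        ∑ x ∈ D3 K L J R, if PP (p.2 * p.1 * ρ) q.1 q.2 x then (1 : ℝ) else 0 := by
      intro p q
      unfold CN
      rw [card_filter]
      push_cast
      rfl
    have h2 : ∀ (q : ℕ × ℕ) (x : ℤ × ℤ × ℤ × ℤ),
        (((GA G H).filter (fun p => PP (p.2 * p.1 * ρ) q.1 q.2 x)).card : ℝ) =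
        ∑ p ∈ GA G H, if PP (p.2 * p.1 * ρ) q.1 q.2 x then (1 : ℝ) else 0 := by
      intro q x
      rw [card_filter]
      push_cast
      rfl
    simp only [h1, h2]
    rw [sum_comm]
    conv_rhs => rw [sum_comm]
    refine sum_congr rfl fun q _ => ?_
    rw [sum_comm]
  rw [e1]
  have hx : ∀ x ∈ D3 K L J R, ∀ q ∈ LA V W,
      (((GA G H).filter (fun p => PP (p.2 * p.1 * ρ) q.1 q.2 x)).card : ℝ) ≤ (C₂ * T) ^ 2 := by
    intro x hx q hq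
    obtain ⟨hxB, hxR⟩ := mem_filter.1 hx
    obtain ⟨b1, b2, b3, b4⟩ := mem_BX hKY hLY hJY hRY hxB
    rw [LA, mem_filter, mem_product, mem_Ico, mem_Ico] at hq
    obtain ⟨⟨⟨v1, v2⟩, w1, w2⟩, hc⟩ := hq
    have hv : |(q.1 : ℤ)| ≤ 2 * (Y : ℤ) := by
      rw [Nat.abs_cast]; omega
    have hw : |(q.2 : ℤ)| ≤ 2 * (Y : ℤ) := by
      rw [Nat.abs_cast]; omega
    have a1 := abs_G1 Y x.1 x.2.1 x.2.2.1 x.2.2.2 q.1 q.2 b2 b3 b4 hv hw
    have a2 := abs_G2 Y x.1 x.2.1 x.2.2.1 x.2.2.2 q.1 q.2 b1 b2 b3 hv hw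
    have key : ∀ n : ℤ, n ≠ 0 → |n| ≤ 64 * (Y : ℤ) ^ 4 →
        (∀ p ∈ (GA G H).filter (fun p => PP (p.2 * p.1 * ρ) q.1 q.2 x),
          ((p.2 * p.1 * ρ : ℕ) : ℤ) ∣ n) →
        (((GA G H).filter (fun p => PP (p.2 * p.1 * ρ) q.1 q.2 x)).card : ℝ) ≤
          (C₂ * T) ^ 2 := by
      intro n hn hnb hdv
      have c1 := card_pairs _ n hn (fun p hp => ⟨ρ, hdv p hp⟩)
      have c2 : (n.natAbs.divisors.card : ℝ) ≤ C₂ * T := by
        refine (h₂ Y _ hY (Nat.pos_of_ne_zero (Int.natAbs_ne_zero.2 hn)) ?_).1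
        have : ((n.natAbs : ℤ) : ℝ) ≤ ((64 * (Y : ℤ) ^ 4 : ℤ) : ℝ) := by
          rw [Int.cast_le, Int.natCast_natAbs]
          exact hnb
        push_cast at this
        simpa using this
      calc (((GA G H).filter (fun p => PP (p.2 * p.1 * ρ) q.1 q.2 x)).card : ℝ)
          ≤ (n.natAbs.divisors.card : ℝ) * (n.natAbs.divisors.card : ℝ) := by exact_mod_cast c1
        _ ≤ (C₂ * T) * (C₂ * T) := mul_le_mul c2 c2 (by positivity) (by positivity)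
        _ = (C₂ * T) ^ 2 := by ring
    by_cases hz1 : G1 x.1 x.2.1 x.2.2.1 x.2.2.2 q.1 q.2 = 0
    · by_cases hz2 : G2 x.1 x.2.1 x.2.2.1 x.2.2.2 q.1 q.2 = 0
      · have : (GA G H).filter (fun p => PP (p.2 * p.1 * ρ) q.1 q.2 x) = ∅ := by
          rw [filter_eq_empty_iff]
          intro p _ hp
          exact hp.2.2 ⟨hz1, hz2⟩
        rw [this]
        simp only [card_empty, Nat.cast_zero]
        positivity
      · exact key _ hz2 a2 (fun p hp => (mem_filter.1 hp).2.2.1)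
    · exact key _ hz1 a1 (fun p hp => (mem_filter.1 hp).2.1)
  have e2 : ∑ x ∈ D3 K L J R, ∑ q ∈ LA V W,
        (((GA G H).filter (fun p => PP (p.2 * p.1 * ρ) q.1 q.2 x)).card : ℝ) ≤
      (D3 K L J R).card * ((LA V W).card * (C₂ * T) ^ 2) := by
    calc _ ≤ ∑ x ∈ D3 K L J R, ∑ q ∈ LA V W, (C₂ * T) ^ 2 :=
          sum_le_sum fun x hx' => sum_le_sum fun q hq' => hx x hx' q hq'
      _ = _ := by rw [sum_const, sum_const, nsmul_eq_mul, nsmul_eq_mul]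
  refine e2.trans ?_
  have d1 : ((D3 K L J R).card : ℝ) ≤ C₁ * T * ((1 + K) * (1 + R) + (1 + L) * (1 + J)) :=
    h₁ K L J R Y hY hKY hLY hJY hRY
  have d2 : ((LA V W).card : ℝ) ≤ V * W := by exact_mod_cast card_LA V W
  calc ((D3 K L J R).card : ℝ) * ((LA V W).card * (C₂ * T) ^ 2)
      ≤ (C₁ * T * ((1 + K) * (1 + R) + (1 + L) * (1 + J))) * (V * W * (C₂ * T) ^ 2) := by gcongr
    _ = C₂ ^ 2 * C₁ * T ^ 3 * (V * W * ((1 + K) * (1 + R) + (1 + L) * (1 + J))) := by ring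

theorem sqrt_add_le' (a b : ℝ) (ha : 0 ≤ a) (hb : 0 ≤ b) :
    Real.sqrt (a + b) ≤ Real.sqrt a + Real.sqrt b := by
  rw [Real.sqrt_le_left (by positivity)]
  have u1 := Real.sq_sqrt ha
  have u2 := Real.sq_sqrt hb
  have u3 : 0 ≤ Real.sqrt a * Real.sqrt b := by positivity
  nlinarith

theorem num_QQ (k l j r : ℝ) (hk : 0 ≤ k) (hl : 0 ≤ l) (hj : 0 ≤ j) (hr : 0 ≤ r) :
    j * r ≤ (1 + k) * (1 + l) * (1 + j) * (1 + r) ∧ l * k ≤ (1 + k) * (1 + l) * (1 + j) * (1 + r) := by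
  have h1 : (1 : ℝ) ≤ (1 + k) * (1 + l) := by
    have := mul_nonneg hk hl
    linarith [(by ring : (1 + k) * (1 + l) = 1 + k + l + k * l)]
  have h2 : (1 : ℝ) ≤ (1 + j) * (1 + r) := by
    have := mul_nonneg hj hr
    linarith [(by ring : (1 + j) * (1 + r) = 1 + j + r + j * r)]
  have h3 : j * r ≤ (1 + j) * (1 + r) := by
    linarith [(by ring : (1 + j) * (1 + r) = 1 + j + r + j * r)]
  have h4 : l * k ≤ (1 + k) * (1 + l) := by
    linarith [(by ring : (1 + k) * (1 + l) = 1 + k + l + l * k)]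
  have h5 : (1 + k) * (1 + l) * (1 + j) * (1 + r) = ((1 + k) * (1 + l)) * ((1 + j) * (1 + r)) := by
    ring
  rw [h5]
  constructor
  · calc j * r ≤ 1 * ((1 + j) * (1 + r)) := by rw [one_mul]; exact h3
      _ ≤ _ := mul_le_mul_of_nonneg_right h1 (by positivity)
  · calc l * k ≤ ((1 + k) * (1 + l)) * 1 := by rw [mul_one]; exact h4
      _ ≤ _ := mul_le_mul_of_nonneg_left h2 (by positivity)

theorem num_PP (k l j r : ℝ) (hk : 0 ≤ k) (hl : 0 ≤ l) (hj : 0 ≤ j) (hr : 0 ≤ r) :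
    j ≤ (1 + k) * (1 + r) + (1 + l) * (1 + j) ∧ r ≤ (1 + k) * (1 + r) + (1 + l) * (1 + j) ∧
    l ≤ (1 + k) * (1 + r) + (1 + l) * (1 + j) ∧ k ≤ (1 + k) * (1 + r) + (1 + l) * (1 + j) := by
  have h1 : (1 + k) * (1 + r) + (1 + l) * (1 + j) = 2 + k + r + l + j + k * r + l * j := by ring
  have h2 := mul_nonneg hk hr
  have h3 := mul_nonneg hl hj
  rw [h1]
  refine ⟨?_, ?_, ?_, ?_⟩ <;> linarith

theorem num_fin (a c d A B t : ℝ) (ha : 0 ≤ a) (hc : 0 ≤ c) (ht : 0 ≤ t) (hA : 0 ≤ A)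
    (hB : 0 ≤ B) : a * t * A + (c * t * B + (2 * d * t * (A + B) + 2 * d * t * (A + B))) ≤
    (a + c + 4 * d) * t * (A + B) := by
  have m1 : 0 ≤ c * t * A := by positivity
  have m2 : 0 ≤ a * t * B := by positivity
  linarith [(by ring : (a + c + 4 * d) * t * (A + B) = a * t * A + (c * t * B +
    (2 * d * t * (A + B) + 2 * d * t * (A + B))) + c * t * A + a * t * B)]

/-- the sum over one of the two families -/
theorem sum_fam (hFAM : S_FAM) (ε : ℝ) (hε : 0 < ε) : ∃ C : ℝ, 0 < C ∧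
    ∀ G H V W ρ A B Y : ℕ, 1 ≤ G → 1 ≤ H → 1 ≤ V → 1 ≤ W → 1 ≤ ρ → G ≤ Y → H ≤ Y → V ≤ Y →
      W ≤ Y → ρ ≤ Y → A ≤ Y → B ≤ Y → ∀ f : ℕ × ℕ → ℕ, (∀ q ∈ LA V W, 1 ≤ f q ∧ f q ≤ 2 * Y) →
    ∑ z ∈ GA G H ×ˢ LA V W, Real.sqrt (FM A B (z.1.2 * z.1.1 * ρ) (f z.2)) ≤
      C * (Y : ℝ) ^ ε * ((V * W) * (Real.sqrt ((A : ℝ) * B) + Real.sqrt ((G : ℝ) * H) *
        (Real.sqrt A + Real.sqrt B))) := by
  classical
  obtain ⟨C, hC, h⟩ := hFAM ε hε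
  refine ⟨C * 2 ^ ε, by positivity, ?_⟩
  intro G H V W ρ A B Y hG hH hV hW hρ hGY hHY hVY hWY hρY hAY hBY f hf
  rw [sum_product, sum_comm]
  have h1 : ∀ q ∈ LA V W, ∑ p ∈ GA G H, Real.sqrt (FM A B (p.2 * p.1 * ρ) (f q)) ≤
      C * 2 ^ ε * (Y : ℝ) ^ ε * (Real.sqrt ((A : ℝ) * B) + Real.sqrt ((G : ℝ) * H) *
        (Real.sqrt A + Real.sqrt B)) := by
    intro q hq
    rw [GA, sum_product]
    refine (h G H ρ A B (f q) (2 * Y) hG hH hρ (hf q hq).1 (by omega) (by omega) (by omega)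
      (by omega) (by omega) (hf q hq).2).trans (le_of_eq ?_)
    push_cast
    rw [Real.mul_rpow (by norm_num) (by positivity)]
    ring
  refine (sum_le_sum h1).trans ?_
  rw [sum_const, nsmul_eq_mul]
  have hcL : ((LA V W).card : ℝ) ≤ V * W := by exact_mod_cast card_LA V W
  calc ((LA V W).card : ℝ) * (C * 2 ^ ε * (Y : ℝ) ^ ε * (Real.sqrt ((A : ℝ) * B) +
        Real.sqrt ((G : ℝ) * H) * (Real.sqrt A + Real.sqrt B)))
      ≤ (V * W) * (C * 2 ^ ε * (Y : ℝ) ^ ε * (Real.sqrt ((A : ℝ) * B) +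
        Real.sqrt ((G : ℝ) * H) * (Real.sqrt A + Real.sqrt B))) := by gcongr
    _ = _ := by ring

end H58

open H58 in
theorem t_AVGR (hRES : F5.S_RES) (hROO : F5.S_ROO) (hCON : F5.S_CON) (hRAD : F5.S_RAD)
    (hDIV : F5.S_DIV) (hDEGR : S_DEGR) (hFAM : S_FAM) : S_AVGR := by
  classical
  intro ε hε
  obtain ⟨C₁, hC₁, h₁⟩ := sum_rad hDIV hRAD (ε / 3) (by positivity)
  obtain ⟨C₂, hC₂, h₂⟩ := sum_ND hRES hROO hCON hDIV (ε / 3) (by positivity)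
  obtain ⟨C₃, hC₃, h₃⟩ := sum_D3 hDEGR hDIV (ε / 3) (by positivity)
  obtain ⟨C₄, hC₄, h₄⟩ := sum_fam hFAM ε hε
  refine ⟨Real.sqrt (C₁ * C₂) + Real.sqrt C₃ + 4 * C₄, by positivity, ?_⟩
  intro G H V W ρ K L J R Y hG hH hV hW hρ hGY hHY hVY hWY hρY hKY hLY hJY hRY
  have hY : 1 ≤ Y := hG.trans hGY
  have hY1 : (1 : ℝ) ≤ Y := by exact_mod_cast hY
  set T : ℝ := (Y : ℝ) ^ (ε / 3) with hT
  have hT1 : 1 ≤ T := Real.one_le_rpow hY1 (by positivity)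
  have hTε : (Y : ℝ) ^ ε = T ^ 3 := by
    rw [hT, ← Real.rpow_natCast, ← Real.rpow_mul (by positivity)]
    congr 1
    push_cast
    ring
  have k₁ := h₁ G H Y hG hH hGY hHY
  have k₂ := h₂ G H V W ρ K L J R Y hG hH hV hW hρ hGY hHY hVY hWY hρY hKY hLY hJY hRY
  have k₃ := h₃ G H V W ρ K L J R Y hG hH hV hW hρ hGY hHY hVY hWY hρY hKY hLY hJY hRY
  have hmemLA : ∀ q ∈ LA V W, (1 ≤ q.1 ∧ q.1 ≤ 2 * Y) ∧ (1 ≤ q.2 ∧ q.2 ≤ 2 * Y) := by
    intro q hq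
    rw [LA, mem_filter, mem_product, mem_Ico, mem_Ico] at hq
    omega
  have k₄ := h₄ G H V W ρ J R Y hG hH hV hW hρ hGY hHY hVY hWY hρY hJY hRY (fun q => q.2)
    (fun q hq => (hmemLA q hq).2)
  have k₅ := h₄ G H V W ρ L K Y hG hH hV hW hρ hGY hHY hVY hWY hρY hLY hKY (fun q => q.1)
    (fun q hq => (hmemLA q hq).1)
  set QQ : ℝ := (1 + K) * (1 + L) * (1 + J) * (1 + R) with hQQ
  have hQQ0 : 0 ≤ QQ := by positivity
  set PP' : ℝ := (1 + K) * (1 + R) + (1 + L) * (1 + J) with hPP'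
  have hPP0 : 0 ≤ PP' := by positivity
  -- rewrite the sum
  have e1 : ∑ g ∈ Ico G (2 * G), ∑ h ∈ Icc 1 H, ∑ v ∈ Ico V (2 * V),
      ∑ w ∈ (Ico W (2 * W)).filter (fun w => Nat.Coprime v w),
        Real.sqrt (KK K L J R (h * g * ρ) v w) =
      ∑ p ∈ GA G H, ∑ q ∈ LA V W, Real.sqrt (KK K L J R (p.2 * p.1 * ρ) q.1 q.2) := by
    rw [GA, sum_product]
    refine sum_congr rfl fun g _ => sum_congr rfl fun h _ => ?_
    rw [LA, sum_filter, sum_product]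
    refine sum_congr rfl fun v _ => ?_
    rw [sum_filter]
  rw [e1, ← sum_product']
  set Ω := GA G H ×ˢ LA V W with hΩ
  rw [← sum_product'] at k₂ k₃
  -- splitting
  have e2 : ∑ z ∈ Ω, Real.sqrt (KK K L J R (z.1.2 * z.1.1 * ρ) z.2.1 z.2.2) ≤
      ∑ z ∈ Ω, Real.sqrt (CN (BN K L J R) (z.1.2 * z.1.1 * ρ) z.2.1 z.2.2) +
      (∑ z ∈ Ω, Real.sqrt (CN (D3 K L J R) (z.1.2 * z.1.1 * ρ) z.2.1 z.2.2) +
      (∑ z ∈ Ω, Real.sqrt (FM J R (z.1.2 * z.1.1 * ρ) z.2.2) +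
      ∑ z ∈ Ω, Real.sqrt (FM L K (z.1.2 * z.1.1 * ρ) z.2.1))) := by
    rw [← sum_add_distrib, ← sum_add_distrib, ← sum_add_distrib]
    refine sum_le_sum fun z _ => ?_
    have h1 : (KK K L J R (z.1.2 * z.1.1 * ρ) z.2.1 z.2.2 : ℝ) ≤
        CN (BN K L J R) (z.1.2 * z.1.1 * ρ) z.2.1 z.2.2 +
        (CN (D3 K L J R) (z.1.2 * z.1.1 * ρ) z.2.1 z.2.2 +
        (FM J R (z.1.2 * z.1.1 * ρ) z.2.2 + FM L K (z.1.2 * z.1.1 * ρ) z.2.1)) := by
      have i0 := KK_split4 K L J R (z.1.2 * z.1.1 * ρ) z.2.1 z.2.2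
      have i1 := CN_D1 K L J R (z.1.2 * z.1.1 * ρ) z.2.1 z.2.2
      have i2 := CN_D2 K L J R (z.1.2 * z.1.1 * ρ) z.2.1 z.2.2
      exact_mod_cast i0.trans (Nat.add_le_add_left (Nat.add_le_add_left (Nat.add_le_add i1 i2) _) _)
    refine (Real.sqrt_le_sqrt h1).trans ((sqrt_add_le' _ _ (by positivity) (by positivity)).trans
      (add_le_add_right ((sqrt_add_le' _ _ (by positivity) (by positivity)).trans
      (add_le_add_right (sqrt_add_le' _ _ (by positivity) (by positivity)) _)) _))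
  refine e2.trans ?_
  have hcL : ((LA V W).card : ℝ) ≤ V * W := by exact_mod_cast card_LA V W
  -- non-degenerate part
  have n1 : ∑ z ∈ Ω, Real.sqrt (CN (BN K L J R) (z.1.2 * z.1.1 * ρ) z.2.1 z.2.2) ≤
      Real.sqrt (C₁ * C₂) * T ^ 3 * (Real.sqrt ((V : ℝ) * W) *
        Real.sqrt (((V : ℝ) * W + G * H * ρ) * QQ)) := by
    have a1 : ∑ z ∈ Ω, Real.sqrt (CN (BN K L J R) (z.1.2 * z.1.1 * ρ) z.2.1 z.2.2) =
        ∑ z ∈ Ω, Real.sqrt (1 / (rad (z.1.2 * z.1.1 * ρ) : ℝ)) *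
          Real.sqrt ((rad (z.1.2 * z.1.1 * ρ) : ℝ) *
            (CN (BN K L J R) (z.1.2 * z.1.1 * ρ) z.2.1 z.2.2 : ℝ)) := by
      refine sum_congr rfl fun z _ => ?_
      have hr : (0 : ℝ) < rad (z.1.2 * z.1.1 * ρ) := by exact_mod_cast rad_pos _
      rw [← Real.sqrt_mul (by positivity), ← mul_assoc, one_div, inv_mul_cancel₀ hr.ne',
        one_mul]
    rw [a1]
    refine (Real.sum_sqrt_mul_sqrt_le Ω (fun z => by positivity)
      (fun z => by positivity)).trans ?_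
    have a2 : ∑ z ∈ Ω, 1 / (rad (z.1.2 * z.1.1 * ρ) : ℝ) ≤ (V * W) * (C₁ * T ^ 2) := by
      rw [hΩ, sum_product]
      have a3 : ∀ p ∈ GA G H, ∑ q ∈ LA V W, 1 / (rad (p.2 * p.1 * ρ) : ℝ) ≤
          (V * W) * (1 / (rad (p.2 * p.1) : ℝ)) := by
        intro p hp
        rw [GA, mem_product, mem_Ico, mem_Icc] at hp
        obtain ⟨⟨g1, g2⟩, g3, g4⟩ := hp
        have hpg : 0 < p.1 := by omega
        have he0 : 0 < p.2 * p.1 * ρ := by positivity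
        have hr : (0 : ℝ) < rad (p.2 * p.1) := by exact_mod_cast rad_pos _
        have hr2 : (rad (p.2 * p.1) : ℝ) ≤ rad (p.2 * p.1 * ρ) := by
          exact_mod_cast rad_mono _ _ he0.ne' (Dvd.intro _ rfl)
        rw [sum_const, nsmul_eq_mul]
        refine mul_le_mul hcL (one_div_le_one_div_of_le hr hr2) (by positivity) (by positivity)
      refine (sum_le_sum a3).trans ?_
      rw [← mul_sum]
      exact mul_le_mul_of_nonneg_left k₁ (by positivity)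
    refine (mul_le_mul (Real.sqrt_le_sqrt a2) (Real.sqrt_le_sqrt k₂) (Real.sqrt_nonneg _)
      (Real.sqrt_nonneg _)).trans ?_
    rw [← Real.sqrt_mul (by positivity)]
    refine le_of_eq ?_
    have a4 : (V : ℝ) * W * (C₁ * T ^ 2) * (C₂ * T ^ 4 * ((V * W + G * H * ρ) * QQ)) =
        (C₁ * C₂) * (T ^ 3) ^ 2 * ((V * W) * ((V * W + G * H * ρ) * QQ)) := by ring
    rw [a4, Real.sqrt_mul (by positivity), Real.sqrt_mul (by positivity),
      Real.sqrt_sq (by positivity), Real.sqrt_mul (by positivity : (0 : ℝ) ≤ V * W)]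
  -- degenerate part
  have n2 : ∑ z ∈ Ω, Real.sqrt (CN (D3 K L J R) (z.1.2 * z.1.1 * ρ) z.2.1 z.2.2) ≤
      Real.sqrt C₃ * T ^ 3 * (Real.sqrt ((G : ℝ) * H) * (V * W) * Real.sqrt PP') := by
    have a1 : ∑ z ∈ Ω, Real.sqrt (CN (D3 K L J R) (z.1.2 * z.1.1 * ρ) z.2.1 z.2.2) =
        ∑ z ∈ Ω, Real.sqrt ((fun _ => (1 : ℝ)) z) *
          Real.sqrt (CN (D3 K L J R) (z.1.2 * z.1.1 * ρ) z.2.1 z.2.2 : ℝ) := by
      refine sum_congr rfl fun z _ => ?_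
      simp
    rw [a1]
    refine (Real.sum_sqrt_mul_sqrt_le Ω (fun z => by positivity)
      (fun z => by positivity)).trans ?_
    have a2 : ∑ z ∈ Ω, (fun _ => (1 : ℝ)) z ≤ (G * H) * (V * W) := by
      rw [sum_const, nsmul_eq_mul, mul_one, hΩ, card_product, card_GA]
      push_cast
      exact mul_le_mul_of_nonneg_left hcL (by positivity)
    refine (mul_le_mul (Real.sqrt_le_sqrt a2) (Real.sqrt_le_sqrt k₃) (Real.sqrt_nonneg _)
      (Real.sqrt_nonneg _)).trans ?_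
    rw [← Real.sqrt_mul (by positivity)]
    have a4 : (G : ℝ) * H * (V * W) * (C₃ * T ^ 3 * (V * W * PP')) =
        C₃ * T ^ 3 * (G * H) * (V * W) ^ 2 * PP' := by ring
    rw [a4, Real.sqrt_mul (by positivity), Real.sqrt_mul (by positivity),
      Real.sqrt_sq (by positivity), Real.sqrt_mul (by positivity), Real.sqrt_mul (by positivity)]
    have a5 : Real.sqrt (T ^ 3) ≤ T ^ 3 := by
      rw [Real.sqrt_le_left (by positivity)]
      have : 1 ≤ T ^ 3 := one_le_pow₀ hT1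
      nlinarith
    calc Real.sqrt C₃ * Real.sqrt (T ^ 3) * Real.sqrt ((G : ℝ) * H) *
          (V * W) * Real.sqrt PP'
        ≤ Real.sqrt C₃ * T ^ 3 * Real.sqrt ((G : ℝ) * H) *
          (V * W) * Real.sqrt PP' := by gcongr
      _ = _ := by ring
  rw [hTε] at k₄ k₅ ⊢
  set A := Real.sqrt ((V : ℝ) * W) * Real.sqrt (((V : ℝ) * W + G * H * ρ) * QQ) with hAdef
  set B := Real.sqrt ((G : ℝ) * H) * (V * W) * Real.sqrt PP' with hBdef
  have hA : 0 ≤ A := by positivity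
  have hB : 0 ≤ B := by positivity
  have hVW : (0 : ℝ) ≤ V * W := by positivity
  -- domination
  have dA : ∀ x : ℝ, 0 ≤ x → x ≤ QQ → (V * W) * Real.sqrt x ≤ A := by
    intro x hx0 hx
    have h1 : (V : ℝ) * W = Real.sqrt (V * W) * Real.sqrt (V * W) :=
      (Real.mul_self_sqrt hVW).symm
    have h2 : Real.sqrt (V * W) * Real.sqrt x ≤ Real.sqrt (((V : ℝ) * W + G * H * ρ) * QQ) := by
      rw [← Real.sqrt_mul hVW]
      apply Real.sqrt_le_sqrt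
      have : (0 : ℝ) ≤ G * H * ρ := by positivity
      nlinarith [mul_le_mul_of_nonneg_left hx hVW, mul_nonneg this hQQ0]
    calc (V * W) * Real.sqrt x = Real.sqrt (V * W) * (Real.sqrt (V * W) * Real.sqrt x) := by
          rw [← mul_assoc, ← h1]
      _ ≤ A := by rw [hAdef]; exact mul_le_mul_of_nonneg_left h2 (Real.sqrt_nonneg _)
  have dB : ∀ x : ℝ, x ≤ PP' → (V * W) * (Real.sqrt ((G : ℝ) * H) * Real.sqrt x) ≤ B := by
    intro x hx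
    rw [hBdef]
    have h2 := Real.sqrt_le_sqrt hx
    calc (V * W) * (Real.sqrt ((G : ℝ) * H) * Real.sqrt x)
        ≤ (V * W) * (Real.sqrt ((G : ℝ) * H) * Real.sqrt PP') := by gcongr
      _ = _ := by ring
  have hK0 : (0 : ℝ) ≤ K := by positivity
  have hL0 : (0 : ℝ) ≤ L := by positivity
  have hJ0 : (0 : ℝ) ≤ J := by positivity
  have hR0 : (0 : ℝ) ≤ R := by positivity
  obtain ⟨qJR, qLK⟩ := num_QQ (K : ℝ) L J R hK0 hL0 hJ0 hR0
  obtain ⟨pJ, pR, pL, pK⟩ := num_PP (K : ℝ) L J R hK0 hL0 hJ0 hR0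
  have hT3 : 0 ≤ T ^ 3 := by positivity
  have n3 : ∑ z ∈ Ω, Real.sqrt (FM J R (z.1.2 * z.1.1 * ρ) z.2.2) ≤ 2 * C₄ * T ^ 3 * (A + B) := by
    refine k₄.trans ?_
    have j1 := dA _ (mul_nonneg hJ0 hR0) qJR
    have j2 := dB _ pJ
    have j3 := dB _ pR
    have j4 : (V * W) * (Real.sqrt ((J : ℝ) * R) + Real.sqrt ((G : ℝ) * H) *
        (Real.sqrt J + Real.sqrt R)) ≤ 2 * (A + B) := by
      linarith [(by ring : (V * W : ℝ) * (Real.sqrt ((J : ℝ) * R) + Real.sqrt ((G : ℝ) * H) *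
        (Real.sqrt J + Real.sqrt R)) = (V * W) * Real.sqrt ((J : ℝ) * R) +
        ((V * W) * (Real.sqrt ((G : ℝ) * H) * Real.sqrt J) +
        (V * W) * (Real.sqrt ((G : ℝ) * H) * Real.sqrt R)))]
    calc C₄ * T ^ 3 * ((V * W) * (Real.sqrt ((J : ℝ) * R) + Real.sqrt ((G : ℝ) * H) *
        (Real.sqrt J + Real.sqrt R))) ≤ C₄ * T ^ 3 * (2 * (A + B)) := by gcongr
      _ = _ := by ring
  have n4 : ∑ z ∈ Ω, Real.sqrt (FM L K (z.1.2 * z.1.1 * ρ) z.2.1) ≤ 2 * C₄ * T ^ 3 * (A + B) := by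
    refine k₅.trans ?_
    have j1 := dA _ (mul_nonneg hL0 hK0) qLK
    have j2 := dB _ pL
    have j3 := dB _ pK
    have j4 : (V * W) * (Real.sqrt ((L : ℝ) * K) + Real.sqrt ((G : ℝ) * H) *
        (Real.sqrt L + Real.sqrt K)) ≤ 2 * (A + B) := by
      linarith [(by ring : (V * W : ℝ) * (Real.sqrt ((L : ℝ) * K) + Real.sqrt ((G : ℝ) * H) *
        (Real.sqrt L + Real.sqrt K)) = (V * W) * Real.sqrt ((L : ℝ) * K) +
        ((V * W) * (Real.sqrt ((G : ℝ) * H) * Real.sqrt L) +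
        (V * W) * (Real.sqrt ((G : ℝ) * H) * Real.sqrt K)))]
    calc C₄ * T ^ 3 * ((V * W) * (Real.sqrt ((L : ℝ) * K) + Real.sqrt ((G : ℝ) * H) *
        (Real.sqrt L + Real.sqrt K))) ≤ C₄ * T ^ 3 * (2 * (A + B)) := by gcongr
      _ = _ := by ring
  have hc1 : 0 ≤ Real.sqrt (C₁ * C₂) := Real.sqrt_nonneg _
  have hc3 : 0 ≤ Real.sqrt C₃ := Real.sqrt_nonneg _
  exact (add_le_add n1 (add_le_add n2 (add_le_add n3 n4))).trans
    (num_fin _ _ _ _ _ _ hc1 hc3 hT3 hA hB)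

end Pool.Agent.T2h80.R5
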