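import Pool.Agent.T2h80.R5.Stm
import Pool.Agent.T2h80.F5.BOX

/-! Task BOXR of project R5 (helper47). -/

set_option autoImplicit false
set_option linter.all false

namespace Pool.Agent.T2h80.R5

open Finset Pool.Agent.T2h80.F5

namespace BoxrAux

open BoxAux (det sqrt_one_add_le log_bound)

/-- the type of the tuples `(g, v, w, s, t, m)` -/
abbrev Tu : Type := ℕ × ℕ × ℕ × ℤ × ℤ × ℤ

/-- the conditions, with the pair `(e, f)` -/
def PC (ρ M G V W S T : ℕ) (x : Tu) (p : ℤ × ℤ) : Prop :=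
  G ≤ x.1 ∧ x.1 < 2 * G ∧ V ≤ x.2.1 ∧ x.2.1 < 2 * V ∧ W ≤ x.2.2.1 ∧ x.2.2.1 < 2 * W ∧
  x.2.1.Coprime x.2.2.1 ∧ x.1.Coprime (x.2.1 * x.2.2.1) ∧ x.1.Coprime ρ ∧
  |x.2.2.2.1| ≤ (S : ℤ) ∧ |x.2.2.2.2.1| ≤ (T : ℤ) ∧ |x.2.2.2.2.2| ≤ (M : ℤ) ∧
  Cong ρ x.2.1 x.2.2.1 x.2.2.2.1 x.2.2.2.2.1 x.2.2.2.2.2 ∧
  IsCoprime p.1 x.1 ∧ IsCoprime p.2 x.1 ∧ (x.1 : ℤ) ∣ ρ * x.2.2.2.2.2 - p.2 ^ 2 ∧
  (x.1 : ℤ) ∣ ρ * p.1 * x.2.2.2.1 - p.2 * (p.2 * x.2.2.1 + p.1 * x.2.1) ∧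
  (x.1 : ℤ) ∣ ρ * p.2 * x.2.2.2.2.1 - p.1 * (p.1 * x.2.1 - p.2 * x.2.2.1)

/-- decomposition into fibres -/
lemma fibres (ρ M G V W S T : ℕ) (hG : 0 < G) (B : ℕ → ℕ → ℕ → ℝ) (hB0 : ∀ g v w, 0 ≤ B g v w)
    (hB : ∀ g v w : ℕ, G ≤ g → g < 2 * G → V ≤ v → v < 2 * V → W ≤ w → w < 2 * W → v.Coprime w →
      g.Coprime (v * w) → ∀ σ τ μ : ℤ, ∀ F : Finset (ℤ × ℤ × ℤ),
      (∀ x ∈ F, |x.1| ≤ (S : ℤ) ∧ |x.2.1| ≤ (T : ℤ) ∧ |x.2.2| ≤ (M : ℤ) ∧
        (g : ℤ) ∣ x.1 - σ ∧ (g : ℤ) ∣ x.2.1 - τ ∧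
        (g : ℤ) ∣ x.2.2 - μ ∧ Cong ρ v w x.1 x.2.1 x.2.2) → (F.card : ℝ) ≤ B g v w)
    (F : Finset Tu) (hF : ∀ x ∈ F, ∃ p : ℤ × ℤ, PC ρ M G V W S T x p) :
    (F.card : ℝ) ≤ ∑ g ∈ Ico G (2 * G), ∑ v ∈ Ico V (2 * V),
      ∑ w ∈ (Ico W (2 * W)).filter (fun w => Nat.Coprime v w), 4 * (G : ℝ) ^ 2 * B g v w := by
  classical
  choose! ef hef using hF
  set φ : Tu → ℕ × ℕ × ℕ × ℕ × ℕ := fun x =>
    (x.1, x.2.1, x.2.2.1, ((ef x).1 % x.1).toNat, ((ef x).2 % x.1).toNat) with hφ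
  set U : Finset (ℕ × ℕ × ℕ × ℕ × ℕ) := Ico G (2 * G) ×ˢ Ico V (2 * V) ×ˢ Ico W (2 * W) ×ˢ
    range (2 * G) ×ˢ range (2 * G) with hU
  have hmaps : ∀ x ∈ F, φ x ∈ U := by
    intro x hx
    obtain ⟨h1, h2, h3, h4, h5, h6, -⟩ := hef x hx
    have hg : (0 : ℤ) < x.1 := by exact_mod_cast (lt_of_lt_of_le hG h1)
    simp only [hφ, hU, Finset.mem_product, Finset.mem_Ico, Finset.mem_range]
    refine ⟨⟨h1, h2⟩, ⟨h3, h4⟩, ⟨h5, h6⟩, ?_, ?_⟩
    · have ha := Int.emod_lt_of_pos (ef x).1 hg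
      have hb := Int.emod_nonneg (ef x).1 hg.ne'
      omega
    · have ha := Int.emod_lt_of_pos (ef x).2 hg
      have hb := Int.emod_nonneg (ef x).2 hg.ne'
      omega
  have hcard := Finset.card_eq_sum_card_fiberwise (f := φ) (s := F) (t := U) hmaps
  have hfib : ∀ u ∈ U, ((F.filter (fun x => φ x = u)).card : ℝ) ≤
      if Nat.Coprime u.2.1 u.2.2.1 then B u.1 u.2.1 u.2.2.1 else 0 := by
    rintro ⟨g, v, w, a, b⟩ hu
    simp only
    rcases Finset.eq_empty_or_nonempty (F.filter (fun x => φ x = (g, v, w, a, b))) with he | hne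
    · rw [he]
      simp only [Finset.card_empty, Nat.cast_zero]
      split_ifs
      · exact hB0 _ _ _
      · exact le_refl _
    · obtain ⟨x0, hx0⟩ := hne
      have hx0' := hx0
      rw [Finset.mem_filter] at hx0
      obtain ⟨hx0F, hx0φ⟩ := hx0
      have hP0 := hef x0 hx0F
      have hx0' : x0.1 = g ∧ x0.2.1 = v ∧ x0.2.2.1 = w ∧ ((ef x0).1 % x0.1).toNat = a ∧
          ((ef x0).2 % x0.1).toNat = b := by
        simp only [hφ, Prod.mk.injEq] at hx0φ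
        exact hx0φ
      obtain ⟨q1, q2, q3, q4, q5⟩ := hx0'
      obtain ⟨h1, h2, h3, h4, h5, h6, h7, h8, h9, h11, h12, h13, h14, h15, h16, h17, h18, h19⟩ :=
        hP0
      rw [q1] at h1 h2 h8 h9 h15 h16 h17 h18 h19 q4 q5
      rw [q2] at h3 h4 h7 h8 h14 h18 h19
      rw [q3] at h5 h6 h7 h8 h14 h18 h19
      rw [if_pos h7]
      have hg : (0 : ℤ) < g := by exact_mod_cast (lt_of_lt_of_le hG h1)
      set F3 : Finset (ℤ × ℤ × ℤ) := (F.filter (fun x => φ x = (g, v, w, a, b))).image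
        (fun x : Tu => (x.2.2.2.1, x.2.2.2.2.1, x.2.2.2.2.2)) with hF3
      have hcardF3 : F3.card = (F.filter (fun x => φ x = (g, v, w, a, b))).card := by
        rw [hF3]
        apply Finset.card_image_of_injOn
        rintro ⟨g1, v1, w1, s1, t1, m1⟩ hx ⟨g2, v2, w2, s2, t2, m2⟩ hy hxy
        rw [Finset.mem_coe, Finset.mem_filter] at hx hy
        have hx2 := hx.2
        have hy2 := hy.2
        simp only [hφ, Prod.mk.injEq] at hx2 hy2 hxy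
        obtain ⟨x1, x2, x3, -⟩ := hx2
        obtain ⟨y1, y2, y3, -⟩ := hy2
        obtain ⟨z1, z2, z3⟩ := hxy
        simp only [Prod.mk.injEq]
        exact ⟨x1.trans y1.symm, x2.trans y2.symm, x3.trans y3.symm, z1, z2, z3⟩
      rw [← hcardF3]
      refine hB g v w h1 h2 h3 h4 h5 h6 h7 h8 x0.2.2.2.1 x0.2.2.2.2.1 x0.2.2.2.2.2 F3 ?_
      intro y hy
      rw [hF3, Finset.mem_image] at hy
      obtain ⟨x, hx, rfl⟩ := hy
      rw [Finset.mem_filter] at hx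
      obtain ⟨hxF, hxφ⟩ := hx
      have hx' : x.1 = g ∧ x.2.1 = v ∧ x.2.2.1 = w ∧ ((ef x).1 % x.1).toNat = a ∧
          ((ef x).2 % x.1).toNat = b := by
        simp only [hφ, Prod.mk.injEq] at hxφ
        exact hxφ
      obtain ⟨r1, r2, r3, r4, r5⟩ := hx'
      obtain ⟨k1, k2, k3, k4, k5, k6, k7, k8, k9, k11, k12, k13, k14, k15, k16, k17, k18,
        k19⟩ := hef x hxF
      rw [r1] at k1 k2 k8 k9 k15 k16 k17 k18 k19 r4 r5
      rw [r2] at k3 k4 k7 k8 k14 k18 k19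
      rw [r3] at k5 k6 k7 k8 k14 k18 k19
      have hmod : ∀ y z : ℤ, (y % g).toNat = (z % g).toNat → (g : ℤ) ∣ y - z := by
        intro y z hyz
        have ha := Int.emod_nonneg y hg.ne'
        have hb := Int.emod_nonneg z hg.ne'
        have hc : y % g = z % g := by omega
        exact Int.ModEq.dvd (show z ≡ y [ZMOD g] from hc.symm)
      have hde := hmod _ _ (r4.trans q4.symm)
      have hdf := hmod _ _ (r5.trans q5.symm)
      have hρg : IsCoprime (ρ : ℤ) (g : ℤ) := by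
        rw [Nat.isCoprime_iff_coprime]
        exact k9.symm
      obtain ⟨d1, d2, d3⟩ := det hρg k15 k16 hde hdf k17 h17 k18 h18 k19 h19
      exact ⟨k11, k12, k13, d1, d2, d3, k14⟩
  have hsum : (F.card : ℝ) ≤ ∑ u ∈ U, (if Nat.Coprime u.2.1 u.2.2.1 then B u.1 u.2.1 u.2.2.1 else 0) := by
    rw [hcard]
    push_cast
    exact Finset.sum_le_sum hfib
  refine hsum.trans (le_of_eq ?_)
  rw [hU, Finset.sum_product]
  refine Finset.sum_congr rfl fun g _ => ?_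
  rw [Finset.sum_product]
  refine Finset.sum_congr rfl fun v _ => ?_
  rw [Finset.sum_product, Finset.sum_filter]
  refine Finset.sum_congr rfl fun w _ => ?_
  rw [Finset.sum_product]
  simp only [Finset.sum_const, Finset.card_range, nsmul_eq_mul]
  push_cast
  split_ifs
  · ring
  · ring

lemma one_add_floor {x : ℝ} (hx : 0 ≤ x) : (1 : ℝ) + (⌊4000 * x⌋₊ : ℝ) ≤ 4000 * (1 + x) := by
  have := Nat.floor_le (show 0 ≤ 4000 * x by positivity)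
  linarith

lemma div_le_one_le {a b z : ℝ} (ha : 0 ≤ a) (hb : 1 ≤ b) (h : a ≤ z) : a / b ≤ z :=
  (div_le_self ha hb).trans h

/-- the bound for the sum of square roots -/
lemma avg_bd {vw gHr gH k l j r K L J R X rh : ℝ} (hvw : 0 ≤ vw) (hX : 0 ≤ X) (hrh : 0 ≤ rh)
    (hgHr0 : 0 ≤ gHr) (hgH0 : 0 ≤ gH)
    (hgHr : gHr ≤ 32 * X) (hgH : gH ≤ 32 * rh) (k0 : 0 ≤ k) (l0 : 0 ≤ l) (j0 : 0 ≤ j) (r0 : 0 ≤ r)
    (hk : 1 + K ≤ 4000 * (1 + k)) (hl : 1 + L ≤ 4000 * (1 + l)) (hj : 1 + J ≤ 4000 * (1 + j))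
    (hr : 1 + R ≤ 4000 * (1 + r)) (K0 : 0 ≤ K) (L0 : 0 ≤ L) (J0 : 0 ≤ J) (R0 : 0 ≤ R) :
    Real.sqrt vw * Real.sqrt ((vw + gHr) * ((1 + K) * (1 + L) * (1 + J) * (1 + R))) +
      Real.sqrt gH * vw * Real.sqrt ((1 + K) * (1 + R) + (1 + L) * (1 + J)) ≤
    10 ^ 8 * (Real.sqrt vw * Real.sqrt ((vw + X) * ((1 + k) * (1 + l) * (1 + j) * (1 + r))) +
      Real.sqrt rh * vw * Real.sqrt ((1 + k) * (1 + r) + (1 + l) * (1 + j))) := by
  have e1 : Real.sqrt ((vw + gHr) * ((1 + K) * (1 + L) * (1 + J) * (1 + R))) ≤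
      10 ^ 8 * Real.sqrt ((vw + X) * ((1 + k) * (1 + l) * (1 + j) * (1 + r))) := by
    have h8 : (10 ^ 8 : ℝ) = Real.sqrt ((10 ^ 8) ^ 2) := by rw [Real.sqrt_sq (by norm_num)]
    rw [h8, ← Real.sqrt_mul (by norm_num)]
    apply Real.sqrt_le_sqrt
    have h1 : vw + gHr ≤ 32 * (vw + X) := by linarith
    have h2 : (vw + gHr) * ((1 + K) * (1 + L) * (1 + J) * (1 + R)) ≤
        (32 * (vw + X)) * ((4000 * (1 + k)) * (4000 * (1 + l)) * (4000 * (1 + j)) *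
          (4000 * (1 + r))) := by gcongr
    refine h2.trans ?_
    have h3 : 0 ≤ (vw + X) * ((1 + k) * (1 + l) * (1 + j) * (1 + r)) := by positivity
    calc _ = (32 * 4000 ^ 4) * ((vw + X) * ((1 + k) * (1 + l) * (1 + j) * (1 + r))) := by ring
      _ ≤ _ := mul_le_mul_of_nonneg_right (by norm_num) h3
  have e2 : Real.sqrt gH ≤ 6 * Real.sqrt rh := by
    have h6 : (6 : ℝ) = Real.sqrt (6 ^ 2) := by rw [Real.sqrt_sq (by norm_num)]
    rw [h6, ← Real.sqrt_mul (by norm_num)]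
    apply Real.sqrt_le_sqrt
    linarith
  have e3 : Real.sqrt ((1 + K) * (1 + R) + (1 + L) * (1 + J)) ≤
      4000 * Real.sqrt ((1 + k) * (1 + r) + (1 + l) * (1 + j)) := by
    have h6 : (4000 : ℝ) = Real.sqrt (4000 ^ 2) := by rw [Real.sqrt_sq (by norm_num)]
    nth_rewrite 1 [h6]
    rw [← Real.sqrt_mul (by norm_num)]
    apply Real.sqrt_le_sqrt
    have h2 : (1 + K) * (1 + R) + (1 + L) * (1 + J) ≤
      (4000 * (1 + k)) * (4000 * (1 + r)) + (4000 * (1 + l)) * (4000 * (1 + j)) := by gcongr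
    refine h2.trans (le_of_eq ?_)
    ring
  have e4 : Real.sqrt gH * vw * Real.sqrt ((1 + K) * (1 + R) + (1 + L) * (1 + J)) ≤
      10 ^ 8 * (Real.sqrt rh * vw * Real.sqrt ((1 + k) * (1 + r) + (1 + l) * (1 + j))) := by
    calc _ ≤ (6 * Real.sqrt rh) * vw *
          (4000 * Real.sqrt ((1 + k) * (1 + r) + (1 + l) * (1 + j))) := by gcongr
      _ = 24000 * (Real.sqrt rh * vw * Real.sqrt ((1 + k) * (1 + r) + (1 + l) * (1 + j))) := by ring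
      _ ≤ _ := mul_le_mul_of_nonneg_right (by norm_num) (by positivity)
  have e5 : Real.sqrt vw * Real.sqrt ((vw + gHr) * ((1 + K) * (1 + L) * (1 + J) * (1 + R))) ≤
      10 ^ 8 * (Real.sqrt vw * Real.sqrt ((vw + X) * ((1 + k) * (1 + l) * (1 + j) * (1 + r)))) := by
    calc _ ≤ Real.sqrt vw *
          (10 ^ 8 * Real.sqrt ((vw + X) * ((1 + k) * (1 + l) * (1 + j) * (1 + r)))) := by gcongr
      _ = _ := by ring
  linarith

/-- the final computation -/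
lemma fin_bd {C₁ M G V W S T L H Sg y A B C₃ cnt : ℝ} (hC₁ : 0 ≤ C₁) (hM : 1 ≤ M) (hG : 1 ≤ G)
    (hV : 1 ≤ V) (hW : 1 ≤ W) (hS : 1 ≤ S) (hT : 1 ≤ T) (hL : 0 ≤ L) (hH : 0 ≤ H)
    (hcnt : cnt ≤ G * V * W) (hcnt0 : 0 ≤ cnt)
    (hHM : H * M ≤ 32 * (G * V ^ 3 * W)) (hSg : Sg ≤ B * A) (hA : 0 ≤ A) (hB : 0 ≤ B) :
    4 * G ^ 2 * (C₁ * (M / (G * V ^ 3 * W))) * (cnt * (S * T / G ^ 2) +
      L * (Real.sqrt (S * T) / G) * (cnt * H + Sg)) ≤
    4 * C₁ * (M * S * T / V ^ 2) + 128 * C₁ * L * (G ^ 2 * V * W * Real.sqrt (S * T)) +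
      4 * C₁ * L * B * (M / (V ^ 3 * W) * Real.sqrt (S * T) * A) := by
  have M0 : 0 < M := by linarith
  have G0 : 0 < G := by linarith
  have V0 : 0 < V := by linarith
  have W0 : 0 < W := by linarith
  have S0 : 0 < S := by linarith
  have T0 : 0 < T := by linarith
  have q1 : 4 * G ^ 2 * (C₁ * (M / (G * V ^ 3 * W))) * (cnt * (S * T / G ^ 2) +
      L * (Real.sqrt (S * T) / G) * (cnt * H + Sg)) ≤
      4 * G ^ 2 * (C₁ * (M / (G * V ^ 3 * W))) * ((G * V * W) * (S * T / G ^ 2) +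
      L * (Real.sqrt (S * T) / G) * ((G * V * W) * H + B * A)) := by gcongr
  refine q1.trans ?_
  have t1 : 4 * G ^ 2 * (C₁ * (M / (G * V ^ 3 * W))) * ((G * V * W) * (S * T / G ^ 2)) =
      4 * C₁ * (M * S * T / V ^ 2) := by field_simp
  have t2 : 4 * G ^ 2 * (C₁ * (M / (G * V ^ 3 * W))) * (L * (Real.sqrt (S * T) / G) *
      ((G * V * W) * H)) = 4 * C₁ * L * (G ^ 2 * V * W * Real.sqrt (S * T)) *
        (H * M / (G * V ^ 3 * W)) := by field_simp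
  have t2' : H * M / (G * V ^ 3 * W) ≤ 32 := by
    rw [div_le_iff₀ (by positivity)]
    exact hHM
  have t2'' : 4 * C₁ * L * (G ^ 2 * V * W * Real.sqrt (S * T)) *
        (H * M / (G * V ^ 3 * W)) ≤ 4 * C₁ * L * (G ^ 2 * V * W * Real.sqrt (S * T)) * 32 := by
    gcongr
  have t3 : 4 * G ^ 2 * (C₁ * (M / (G * V ^ 3 * W))) * (L * (Real.sqrt (S * T) / G) *
      (B * A)) = 4 * C₁ * L * B * (M / (V ^ 3 * W) * Real.sqrt (S * T) * A) := by field_simp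
  calc _ = 4 * G ^ 2 * (C₁ * (M / (G * V ^ 3 * W))) * ((G * V * W) * (S * T / G ^ 2)) +
        4 * G ^ 2 * (C₁ * (M / (G * V ^ 3 * W))) * (L * (Real.sqrt (S * T) / G) *
          ((G * V * W) * H)) + 4 * G ^ 2 * (C₁ * (M / (G * V ^ 3 * W))) *
          (L * (Real.sqrt (S * T) / G) * (B * A)) := by ring
    _ ≤ _ := by
      rw [t1, t2, t3]
      linarith

end BoxrAux

open BoxrAux BoxAux in
theorem t_BOXR (hINN : S_INNR) (hAVG : S_AVGR) : S_BOXR := by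
  intro ε hε
  obtain ⟨C₁, hC₁, hI⟩ := hINN
  obtain ⟨C₃, hC₃, hA⟩ := hAVG (ε / 10) (by positivity)
  set C₃' : ℝ := C₃ * (12000 : ℝ) ^ (ε / 10) with hC₃'
  have hC₃'pos : 0 < C₃' := by positivity
  set c : ℝ := 1 + 1 / (ε / 4) with hc
  have hc0 : 0 < c := by positivity
  refine ⟨4 * C₁ + 128 * C₁ * c ^ 2 + 4 * C₁ * c ^ 2 * (C₃' * 10 ^ 8), by positivity,
    fun ρ M G V W S T Z hPB hZρ hZM hZG hZV hZW hZS hZT F hF => ?_⟩
  have hPB' := hPB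
  obtain ⟨hρ, hM, hG, hV, hW, hS, hT, hGS, hGT, hGM⟩ := hPB'
  have hρr : (1 : ℝ) ≤ ρ := by exact_mod_cast hρ
  have hMr : (1 : ℝ) ≤ M := by exact_mod_cast hM
  have hGr : (1 : ℝ) ≤ G := by exact_mod_cast hG
  have hVr : (1 : ℝ) ≤ V := by exact_mod_cast hV
  have hWr : (1 : ℝ) ≤ W := by exact_mod_cast hW
  have hSr : (1 : ℝ) ≤ S := by exact_mod_cast hS
  have hTr : (1 : ℝ) ≤ T := by exact_mod_cast hT
  have zρ : (ρ : ℝ) ≤ Z := by exact_mod_cast hZρ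
  have zM : (M : ℝ) ≤ Z := by exact_mod_cast hZM
  have zG : (G : ℝ) ≤ Z := by exact_mod_cast hZG
  have zV : (V : ℝ) ≤ Z := by exact_mod_cast hZV
  have zW : (W : ℝ) ≤ Z := by exact_mod_cast hZW
  have zS : (S : ℝ) ≤ Z := by exact_mod_cast hZS
  have zT : (T : ℝ) ≤ Z := by exact_mod_cast hZT
  have hZ1 : 1 ≤ Z := hρ.trans hZρ
  have hZr : (1 : ℝ) ≤ Z := by exact_mod_cast hZ1
  have hlogS : 0 ≤ Real.log S := Real.log_nonneg hSr
  have hlogT : 0 ≤ Real.log T := Real.log_nonneg hTr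
  set H : ℕ := 32 * (G * V ^ 3 * W) / M with hH
  set Lg : ℝ := (1 + Real.log S) * (1 + Real.log T) with hLg
  have hLg0 : 0 ≤ Lg := by positivity
  set TT : ℕ → ℕ → ℕ → ℕ → ℝ := fun g h v w =>
    Real.sqrt (KPR ρ M G V W S T (h * g * ρ) v w : ℝ) with hTT
  set B : ℕ → ℕ → ℕ → ℝ := fun g v w => C₁ * ((M : ℝ) / (G * V ^ 3 * W)) *
    ((S : ℝ) * T / (G : ℝ) ^ 2 +
    Lg * (Real.sqrt ((S : ℝ) * T) / G) * ∑ h ∈ Icc 1 H, (1 + TT g h v w)) with hB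
  have hT0 : ∀ g h v w, 0 ≤ TT g h v w := fun g h v w => Real.sqrt_nonneg _
  have hB0 : ∀ g v w, 0 ≤ B g v w := by
    intro g v w
    have : 0 ≤ ∑ h ∈ Icc 1 H, (1 + TT g h v w) :=
      Finset.sum_nonneg fun h _ => by linarith [hT0 g h v w]
    simp only [hB]
    positivity
  have hBB : ∀ g v w : ℕ, G ≤ g → g < 2 * G → V ≤ v → v < 2 * V → W ≤ w → w < 2 * W → v.Coprime w →
      g.Coprime (v * w) → ∀ σ τ μ : ℤ, ∀ F : Finset (ℤ × ℤ × ℤ),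
      (∀ x ∈ F, |x.1| ≤ (S : ℤ) ∧ |x.2.1| ≤ (T : ℤ) ∧ |x.2.2| ≤ (M : ℤ) ∧
        (g : ℤ) ∣ x.1 - σ ∧ (g : ℤ) ∣ x.2.1 - τ ∧
        (g : ℤ) ∣ x.2.2 - μ ∧ Cong ρ v w x.1 x.2.1 x.2.2) → (F.card : ℝ) ≤ B g v w := by
    intro g v w g1 g2 g3 g4 g5 g6 g7 g8 σ τ μ F3 hF3
    refine (hI ρ M G V W S T hPB g v w g1 g2 g3 g4 g5 g6 g7 g8 σ τ μ F3 hF3).trans ?_
    have r1 : (G : ℝ) ≤ g := by exact_mod_cast g1
    have r2 : (V : ℝ) ≤ v := by exact_mod_cast g3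
    have r3 : (W : ℝ) ≤ w := by exact_mod_cast g5
    have hsub : Icc 1 (g * v ^ 3 * w / M) ⊆ Icc 1 H := by
      apply Finset.Icc_subset_Icc_right
      rw [hH]
      apply Nat.div_le_div_right
      calc g * v ^ 3 * w ≤ (2 * G) * (2 * V) ^ 3 * (2 * W) := by gcongr
        _ = 32 * (G * V ^ 3 * W) := by ring
    have hs : ∑ h ∈ Icc 1 (g * v ^ 3 * w / M),
        Real.sqrt (1 + (KPR ρ M G V W S T (h * g * ρ) v w : ℝ)) ≤
        ∑ h ∈ Icc 1 H, (1 + TT g h v w) := by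
      calc _ ≤ ∑ h ∈ Icc 1 (g * v ^ 3 * w / M), (1 + TT g h v w) :=
            Finset.sum_le_sum fun h _ => sqrt_one_add_le (Nat.cast_nonneg _)
        _ ≤ _ := Finset.sum_le_sum_of_subset_of_nonneg hsub fun h _ _ => by
            linarith [hT0 g h v w]
    simp only [hB]
    gcongr
  have hfib := fibres ρ M G V W S T (lt_of_lt_of_le one_pos hG) B hB0 hBB F (by
    rintro ⟨g, v, w, s, t, m⟩ hx
    have := hF (g, v, w, s, t, m) hx
    obtain ⟨a1, a2, a3, a4, a5, a6, a7, a8, a9, a11, a12, a13, a14, e, f, a15, a16, a17, a18,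
      a19⟩ := this
    exact ⟨(e, f), a1, a2, a3, a4, a5, a6, a7, a8, a9, a11, a12, a13, a14, a15, a16, a17, a18,
      a19⟩)
  -- the sizes
  have rK0 : 0 ≤ rK ρ M G W S T := by unfold rK; positivity
  have rL0 : 0 ≤ rL ρ M G V W S T := by unfold rL; positivity
  have rJ0 : 0 ≤ rJ ρ M G V W S T := by unfold rJ; positivity
  have rR0 : 0 ≤ rR G V T := by unfold rR; positivity
  have rH0 : 0 ≤ rH M G V W := by unfold rH; positivity
  have hHM : (H : ℝ) * M ≤ 32 * ((G : ℝ) * V ^ 3 * W) := by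
    have h1 : H * M ≤ 32 * (G * V ^ 3 * W) := Nat.div_mul_le_self _ _
    exact_mod_cast h1
  have hHr : (H : ℝ) ≤ 32 * rH M G V W := by
    unfold rH
    rw [← mul_div_assoc, le_div_iff₀ (by linarith)]
    exact hHM
  set AA : ℝ := Real.sqrt ((V : ℝ) * W) * Real.sqrt (((V : ℝ) * W + G * rH M G V W * ρ) *
      ((1 + rK ρ M G W S T) * (1 + rL ρ M G V W S T) * (1 + rJ ρ M G V W S T) * (1 + rR G V T))) +
    Real.sqrt ((G : ℝ) * rH M G V W) * (V * W) *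
      Real.sqrt ((1 + rK ρ M G W S T) * (1 + rR G V T) +
        (1 + rL ρ M G V W S T) * (1 + rJ ρ M G V W S T)) with hAA
  have hAA0 : 0 ≤ AA := by rw [hAA]; positivity
  -- the sum of `TT`
  set Sm : ℝ := ∑ g ∈ Ico G (2 * G), ∑ v ∈ Ico V (2 * V),
    ∑ w ∈ (Ico W (2 * W)).filter (fun w => Nat.Coprime v w), ∑ h ∈ Icc 1 H, TT g h v w with hSm
  have hSb : Sm ≤ (C₃' * 10 ^ 8) * (Z : ℝ) ^ (ε / 2) * AA := by
    rcases Nat.eq_zero_or_pos H with hH0 | hH0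
    · have : Sm = 0 := by
        rw [hSm, hH0]
        simp
      rw [this]
      positivity
    · have hZ5 : Z ≤ Z ^ 5 := Nat.le_self_pow (by norm_num) _
      have hY1 : ∀ x : ℕ, x ≤ Z → x ≤ 12000 * Z ^ 5 := by
        intro x hx
        omega
      have hYH : H ≤ 12000 * Z ^ 5 := by
        calc H ≤ 32 * (G * V ^ 3 * W) := Nat.div_le_self _ _
          _ ≤ 32 * (Z * Z ^ 3 * Z) := by gcongr
          _ = 32 * Z ^ 5 := by ring
          _ ≤ 12000 * Z ^ 5 := by gcongr; norm_num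
      have hYb : ∀ x : ℝ, x ≤ 3 * (Z : ℝ) ^ 4 → ⌊4000 * x⌋₊ ≤ 12000 * Z ^ 5 := by
        intro x hx
        apply Nat.floor_le_of_le
        push_cast
        have h1 : (Z : ℝ) ^ 4 ≤ (Z : ℝ) ^ 5 := pow_le_pow_right₀ hZr (by norm_num)
        linarith
      have dv : ∀ a b : ℝ, 0 ≤ a → 1 ≤ b → a ≤ (Z : ℝ) ^ 3 → a / b ≤ (Z : ℝ) ^ 3 :=
        fun a b ha hb h => div_le_one_le ha hb h
      have m3 : ∀ a b d : ℝ, 0 ≤ a → 0 ≤ b → 0 ≤ d → a ≤ Z → b ≤ Z → d ≤ Z →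
          a * b * d ≤ (Z : ℝ) ^ 3 := by
        intro a b d ha hb hd h1 h2 h3
        calc a * b * d ≤ Z * Z * Z := by gcongr
          _ = (Z : ℝ) ^ 3 := by ring
      have bK : rK ρ M G W S T ≤ 3 * (Z : ℝ) ^ 4 := by
        unfold rK
        have h1 : (ρ : ℝ) * W * T / M ≤ (Z : ℝ) ^ 3 := dv _ _ (by positivity) hMr
          (m3 _ _ _ (by positivity) (by positivity) (by positivity) zρ zW zT)
        have h2 : (W : ℝ) ^ 3 / S ≤ (Z : ℝ) ^ 3 := dv _ _ (by positivity) hSr (by gcongr)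
        calc (G : ℝ) * (ρ * W * T / M + W ^ 3 / S) ≤ Z * ((Z : ℝ) ^ 3 + (Z : ℝ) ^ 3) := by gcongr
          _ = 2 * (Z : ℝ) ^ 4 := by ring
          _ ≤ _ := by gcongr; norm_num
      have bL : rL ρ M G V W S T ≤ 3 * (Z : ℝ) ^ 4 := by
        unfold rL
        have h1 : (ρ : ℝ) * W * S / M ≤ (Z : ℝ) ^ 3 := dv _ _ (by positivity) hMr
          (m3 _ _ _ (by positivity) (by positivity) (by positivity) zρ zW zS)
        have h2 : (V : ℝ) ^ 2 * W / S ≤ (Z : ℝ) ^ 3 := dv _ _ (by positivity) hSr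
          (by calc (V : ℝ) ^ 2 * W ≤ (Z : ℝ) ^ 2 * Z := by gcongr
                _ = _ := by ring)
        have h3 : (W : ℝ) ^ 3 / T ≤ (Z : ℝ) ^ 3 := dv _ _ (by positivity) hTr (by gcongr)
        calc (G : ℝ) * (ρ * W * S / M + V ^ 2 * W / S + W ^ 3 / T) ≤
            Z * ((Z : ℝ) ^ 3 + (Z : ℝ) ^ 3 + (Z : ℝ) ^ 3) := by gcongr
          _ = 3 * (Z : ℝ) ^ 4 := by ring
      have bJ : rJ ρ M G V W S T ≤ 3 * (Z : ℝ) ^ 4 := by
        unfold rJ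
        have h1 : (ρ : ℝ) * V * S / M ≤ (Z : ℝ) ^ 3 := dv _ _ (by positivity) hMr
          (m3 _ _ _ (by positivity) (by positivity) (by positivity) zρ zV zS)
        have h2 : (V : ℝ) ^ 3 / S ≤ (Z : ℝ) ^ 3 := dv _ _ (by positivity) hSr (by gcongr)
        have h3 : (W : ℝ) ^ 2 * V / T ≤ (Z : ℝ) ^ 3 := dv _ _ (by positivity) hTr
          (by calc (W : ℝ) ^ 2 * V ≤ (Z : ℝ) ^ 2 * Z := by gcongr
                _ = _ := by ring)
        calc (G : ℝ) * (ρ * V * S / M + V ^ 3 / S + W ^ 2 * V / T) ≤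
            Z * ((Z : ℝ) ^ 3 + (Z : ℝ) ^ 3 + (Z : ℝ) ^ 3) := by gcongr
          _ = 3 * (Z : ℝ) ^ 4 := by ring
      have bR : rR G V T ≤ 3 * (Z : ℝ) ^ 4 := by
        unfold rR
        have h1 : (G : ℝ) * V ^ 3 / T ≤ (G : ℝ) * V ^ 3 := div_le_self (by positivity) hTr
        calc (G : ℝ) * V ^ 3 / T ≤ (G : ℝ) * V ^ 3 := h1
          _ ≤ Z * (Z : ℝ) ^ 3 := by gcongr
          _ = 1 * (Z : ℝ) ^ 4 := by ring
          _ ≤ _ := by gcongr; norm_num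
      have h1 := hA G H V W ρ (cK ρ M G W S T) (cL ρ M G V W S T) (cJ ρ M G V W S T) (cR G V T)
        (12000 * Z ^ 5) hG hH0 hV hW hρ (hY1 _ hZG) hYH (hY1 _ hZV) (hY1 _ hZW) (hY1 _ hZρ)
        (hYb _ bK) (hYb _ bL) (hYb _ bJ) (hYb _ bR)
      have h2 : Sm = ∑ g ∈ Ico G (2 * G), ∑ h ∈ Icc 1 H, ∑ v ∈ Ico V (2 * V),
          ∑ w ∈ (Ico W (2 * W)).filter (fun w => Nat.Coprime v w),
            Real.sqrt (KK (cK ρ M G W S T) (cL ρ M G V W S T) (cJ ρ M G V W S T) (cR G V T)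
              (h * g * ρ) v w) := by
        rw [hSm]
        refine Finset.sum_congr rfl fun g _ => ?_
        calc ∑ v ∈ Ico V (2 * V), ∑ w ∈ (Ico W (2 * W)).filter (fun w => Nat.Coprime v w),
              ∑ h ∈ Icc 1 H, TT g h v w =
            ∑ v ∈ Ico V (2 * V), ∑ h ∈ Icc 1 H,
              ∑ w ∈ (Ico W (2 * W)).filter (fun w => Nat.Coprime v w), TT g h v w :=
              Finset.sum_congr rfl fun v _ => Finset.sum_comm
          _ = ∑ h ∈ Icc 1 H, ∑ v ∈ Ico V (2 * V),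
              ∑ w ∈ (Ico W (2 * W)).filter (fun w => Nat.Coprime v w), TT g h v w :=
              Finset.sum_comm
          _ = _ := rfl
      rw [h2]
      refine h1.trans ?_
      have h3 : ((12000 * Z ^ 5 : ℕ) : ℝ) ^ (ε / 10) = (12000 : ℝ) ^ (ε / 10) * (Z : ℝ) ^ (ε / 2) := by
        push_cast
        rw [Real.mul_rpow (by positivity) (by positivity), ← Real.rpow_natCast_mul (by positivity)]
        congr 2
        push_cast
        ring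
      rw [h3]
      have h4 := avg_bd (vw := (V : ℝ) * W) (gHr := (G : ℝ) * H * ρ) (gH := (G : ℝ) * H)
        (k := rK ρ M G W S T) (l := rL ρ M G V W S T) (j := rJ ρ M G V W S T) (r := rR G V T)
        (K := (cK ρ M G W S T : ℝ)) (L := (cL ρ M G V W S T : ℝ)) (J := (cJ ρ M G V W S T : ℝ))
        (R := (cR G V T : ℝ)) (X := (G : ℝ) * rH M G V W * ρ) (rh := (G : ℝ) * rH M G V W)
        (by positivity) (by positivity) (by positivity) (by positivity) (by positivity)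
        (by
          calc (G : ℝ) * H * ρ ≤ G * (32 * rH M G V W) * ρ := by gcongr
            _ = _ := by ring)
        (by
          calc (G : ℝ) * H ≤ G * (32 * rH M G V W) := by gcongr
            _ = _ := by ring)
        rK0 rL0 rJ0 rR0 (one_add_floor rK0) (one_add_floor rL0) (one_add_floor rJ0)
        (one_add_floor rR0) (Nat.cast_nonneg _) (Nat.cast_nonneg _) (Nat.cast_nonneg _)
        (Nat.cast_nonneg _)
      calc _ ≤ C₃ * ((12000 : ℝ) ^ (ε / 10) * (Z : ℝ) ^ (ε / 2)) * (10 ^ 8 * AA) :=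
            mul_le_mul_of_nonneg_left h4 (by positivity)
        _ = _ := by rw [hC₃']; ring
  -- the sum of `B`
  set cnt : ℝ := ∑ g ∈ Ico G (2 * G), ∑ v ∈ Ico V (2 * V),
    ∑ w ∈ (Ico W (2 * W)).filter (fun w => Nat.Coprime v w), (1 : ℝ) with hcnt
  have hcnt0 : 0 ≤ cnt := by
    rw [hcnt]
    exact Finset.sum_nonneg fun _ _ => Finset.sum_nonneg fun _ _ => Finset.sum_nonneg fun _ _ =>
      zero_le_one
  have hcnt1 : cnt ≤ (G : ℝ) * V * W := by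
    calc cnt ≤ ∑ g ∈ Ico G (2 * G), ∑ v ∈ Ico V (2 * V), (W : ℝ) := by
          refine Finset.sum_le_sum fun g _ => Finset.sum_le_sum fun v _ => ?_
          simp only [Finset.sum_const, nsmul_eq_mul, mul_one]
          have h1 := Finset.card_filter_le (Ico W (2 * W)) (fun w => Nat.Coprime v w)
          have h2 : (Ico W (2 * W)).card = W := by
            rw [Nat.card_Ico]
            omega
          rw [h2] at h1
          exact_mod_cast h1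
      _ = (G : ℝ) * V * W := by
          simp only [Finset.sum_const, nsmul_eq_mul, Nat.card_Ico]
          rw [show 2 * G - G = G by omega, show 2 * V - V = V by omega]
          ring
  have hsumB : ∑ g ∈ Ico G (2 * G), ∑ v ∈ Ico V (2 * V),
      ∑ w ∈ (Ico W (2 * W)).filter (fun w => Nat.Coprime v w), 4 * (G : ℝ) ^ 2 * B g v w =
      4 * (G : ℝ) ^ 2 * (C₁ * ((M : ℝ) / (G * V ^ 3 * W))) * (cnt * ((S : ℝ) * T / (G : ℝ) ^ 2) +
        Lg * (Real.sqrt ((S : ℝ) * T) / G) * (cnt * H + Sm)) := by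
    have h1 : ∀ g v w, 4 * (G : ℝ) ^ 2 * B g v w =
        (4 * (G : ℝ) ^ 2 * (C₁ * ((M : ℝ) / (G * V ^ 3 * W))) * ((S : ℝ) * T / (G : ℝ) ^ 2) +
        4 * (G : ℝ) ^ 2 * (C₁ * ((M : ℝ) / (G * V ^ 3 * W))) *
          (Lg * (Real.sqrt ((S : ℝ) * T) / G)) * H) * 1 +
        4 * (G : ℝ) ^ 2 * (C₁ * ((M : ℝ) / (G * V ^ 3 * W))) *
          (Lg * (Real.sqrt ((S : ℝ) * T) / G)) * ∑ h ∈ Icc 1 H, TT g h v w := by
      intro g v w
      simp only [hB]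
      rw [Finset.sum_add_distrib]
      simp only [Finset.sum_const, nsmul_eq_mul, Nat.card_Icc, mul_one, Nat.add_sub_cancel]
      ring
    simp only [h1, Finset.sum_add_distrib, ← Finset.mul_sum]
    rw [← hcnt, ← hSm]
    ring
  have hmain := fin_bd (C₁ := C₁) (M := M) (G := G) (V := V) (W := W) (S := S) (T := T)
    (L := Lg) (H := H) (Sg := Sm) (y := 0) (A := AA) (B := C₃' * 10 ^ 8 * (Z : ℝ) ^ (ε / 2))
    (C₃ := 0) (cnt := cnt) hC₁.le hMr hGr hVr hWr hSr hTr hLg0 (Nat.cast_nonneg _) hcnt1 hcnt0 hHM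
    hSb hAA0 (by positivity)
  have hfin := hfib.trans ((le_of_eq hsumB).trans hmain)
  refine hfin.trans ?_
  set y := (Z : ℝ) ^ (ε / 4) with hy
  have hy1 : 1 ≤ y := Real.one_le_rpow hZr (by positivity)
  have e2 : (Z : ℝ) ^ (ε / 2) = y ^ 2 := by
    rw [hy, ← Real.rpow_natCast, ← Real.rpow_mul (by positivity)]
    congr 1
    push_cast
    ring
  have e4 : (Z : ℝ) ^ ε = y ^ 4 := by
    rw [hy, ← Real.rpow_natCast, ← Real.rpow_mul (by positivity)]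
    congr 1
    push_cast
    ring
  have hLb : Lg ≤ c ^ 2 * y ^ 2 := by
    have l1 : 1 + Real.log S ≤ c * y := by
      have h1 := log_bound (ε := ε / 4) (n := S) (by positivity) hSr
      have h2 : (S : ℝ) ^ (ε / 4) ≤ y := Real.rpow_le_rpow (by positivity) zS (by positivity)
      refine h1.trans ?_
      gcongr
    have l2 : 1 + Real.log T ≤ c * y := by
      have h1 := log_bound (ε := ε / 4) (n := T) (by positivity) hTr
      have h2 : (T : ℝ) ^ (ε / 4) ≤ y := Real.rpow_le_rpow (by positivity) zT (by positivity)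
      refine h1.trans ?_
      gcongr
    calc Lg ≤ (c * y) * (c * y) := mul_le_mul l1 l2 (by positivity) (by positivity)
      _ = _ := by ring
  rw [e2, e4]
  have hb1 : 0 ≤ (M : ℝ) * S * T / V ^ 2 := by positivity
  have hb2 : 0 ≤ (G : ℝ) ^ 2 * V * W * Real.sqrt ((S : ℝ) * T) := by positivity
  have hb3 : 0 ≤ (M : ℝ) / (V ^ 3 * W) * Real.sqrt ((S : ℝ) * T) * AA := by positivity
  have hBBx : BBx ρ M G V W S T = (M : ℝ) * S * T / V ^ 2 +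
      (G : ℝ) ^ 2 * V * W * Real.sqrt ((S : ℝ) * T) +
      (M : ℝ) / (V ^ 3 * W) * Real.sqrt ((S : ℝ) * T) * AA := rfl
  rw [hBBx]
  generalize (M : ℝ) * S * T / V ^ 2 = b1 at hb1 ⊢
  generalize (G : ℝ) ^ 2 * V * W * Real.sqrt ((S : ℝ) * T) = b2 at hb2 ⊢
  generalize (M : ℝ) / (V ^ 3 * W) * Real.sqrt ((S : ℝ) * T) * AA = b3 at hb3 ⊢
  have hy4 : 1 ≤ y ^ 4 := one_le_pow₀ hy1
  have hy24 : y ^ 2 ≤ y ^ 4 := pow_le_pow_right₀ hy1 (by norm_num)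
  have k1 : 4 * C₁ * b1 ≤ 4 * C₁ * y ^ 4 * b1 := by
    calc 4 * C₁ * b1 = 4 * C₁ * 1 * b1 := by ring
      _ ≤ _ := by gcongr
  have k2 : 128 * C₁ * Lg * b2 ≤ 128 * C₁ * c ^ 2 * y ^ 4 * b2 := by
    calc 128 * C₁ * Lg * b2 ≤ 128 * C₁ * (c ^ 2 * y ^ 2) * b2 := by gcongr
      _ ≤ 128 * C₁ * (c ^ 2 * y ^ 4) * b2 := by gcongr
      _ = _ := by ring
  have k3 : 4 * C₁ * Lg * (C₃' * 10 ^ 8 * y ^ 2) * b3 ≤
      4 * C₁ * c ^ 2 * (C₃' * 10 ^ 8) * y ^ 4 * b3 := by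
    calc _ ≤ 4 * C₁ * (c ^ 2 * y ^ 2) * (C₃' * 10 ^ 8 * y ^ 2) * b3 := by gcongr
      _ = _ := by ring
  have p1 : 0 ≤ 4 * C₁ * y ^ 4 := by positivity
  have p2 : 0 ≤ 128 * C₁ * c ^ 2 * y ^ 4 := by positivity
  have p3 : 0 ≤ 4 * C₁ * c ^ 2 * (C₃' * 10 ^ 8) * y ^ 4 := by positivity
  have c12 := mul_nonneg p1 hb2
  have c13 := mul_nonneg p1 hb3
  have c21 := mul_nonneg p2 hb1
  have c23 := mul_nonneg p2 hb3
  have c31 := mul_nonneg p3 hb1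
  have c32 := mul_nonneg p3 hb2
  calc _ ≤ 4 * C₁ * y ^ 4 * b1 + 128 * C₁ * c ^ 2 * y ^ 4 * b2 +
        4 * C₁ * c ^ 2 * (C₃' * 10 ^ 8) * y ^ 4 * b3 := add_le_add (add_le_add k1 k2) k3
    _ ≤ 4 * C₁ * y ^ 4 * b1 + 4 * C₁ * y ^ 4 * b2 + 4 * C₁ * y ^ 4 * b3 +
        (128 * C₁ * c ^ 2 * y ^ 4 * b1 + 128 * C₁ * c ^ 2 * y ^ 4 * b2 +
          128 * C₁ * c ^ 2 * y ^ 4 * b3) +
        (4 * C₁ * c ^ 2 * (C₃' * 10 ^ 8) * y ^ 4 * b1 + 4 * C₁ * c ^ 2 * (C₃' * 10 ^ 8) * y ^ 4 * b2 +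
          4 * C₁ * c ^ 2 * (C₃' * 10 ^ 8) * y ^ 4 * b3) := by linarith
    _ = _ := by ring

end Pool.Agent.T2h80.R5
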