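import Pool.Agent.T2h80.R5.Stm

set_option autoImplicit false

/-!
# CNB1, the case `F w ≤ Y v` (project R5)
-/

namespace Pool.Agent.T2h80.R5

open Finset NumberField Pool.Agent.T2h80.F5

namespace CNB

theorem kap_pos : (0 : ℝ) < kap := by unfold kap; positivity

theorem kap_ge : (4 : ℝ) ≤ kap := by unfold kap; norm_num

theorem kap2 : (1 : ℝ) ≤ kap ^ 2 := by unfold kap; norm_num

theorem kap3 : 4 * kap ≤ kap ^ 3 := by unfold kap; norm_num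

/-- the ceiling of a quotient -/
theorem ceil_div {A B : ℝ} (hB : 0 < B) {G : ℕ} (hG : 1 ≤ G) (h : (G : ℝ) * B ≤ A) :
    A ≤ B * ⌈A / B⌉₊ ∧ B * ⌈A / B⌉₊ ≤ 2 * A ∧ G ≤ ⌈A / B⌉₊ := by
  have h1 : (G : ℝ) ≤ A / B := by rwa [le_div_iff₀ hB]
  have hG1 : (1 : ℝ) ≤ G := by exact_mod_cast hG
  have h2 : (⌈A / B⌉₊ : ℝ) < A / B + 1 := Nat.ceil_lt_add_one (by linarith)
  have h3 : A / B ≤ (⌈A / B⌉₊ : ℝ) := Nat.le_ceil _
  refine ⟨?_, ?_, ?_⟩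
  · rw [div_le_iff₀ hB] at h3
    linarith [mul_comm B (⌈A / B⌉₊ : ℝ)]
  · have h4 : (⌈A / B⌉₊ : ℝ) ≤ 2 * (A / B) := by linarith
    calc B * ⌈A / B⌉₊ ≤ B * (2 * (A / B)) := mul_le_mul_of_nonneg_left h4 hB.le
      _ = 2 * A := by field_simp
  · exact_mod_cast h1.trans h3

/-- dyadic size -/
theorem dyad {g : ℕ} (hg : 0 < g) : 1 ≤ 2 ^ Nat.log 2 g ∧ 2 ^ Nat.log 2 g ≤ g ∧
    g < 2 * 2 ^ Nat.log 2 g := by
  refine ⟨Nat.one_le_two_pow, Nat.pow_log_le_self 2 hg.ne', ?_⟩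
  have := Nat.lt_pow_succ_log_self (b := 2) (by norm_num) g
  rwa [Nat.succ_eq_add_one, pow_succ, mul_comm] at this

/-- the sizes of the parameters -/
structure Siz (N : ℕ) (F Y n : ℝ) : Prop where
  hF : 0 < F
  hY : 0 < Y
  n1 : 1 ≤ n
  nN : n ≤ N
  a1 : F ^ 2 ≤ kap * n
  a2 : n ≤ kap * Y ^ 2
  a3 : F * Y ≤ kap * n
  b1 : 1 ≤ kap * F
  b2 : 1 ≤ kap * Y
  b3 : F ≤ kap * Y
  b4 : Y ≤ kap ^ 2 * n
  b5 : F ≤ kap * N

theorem siz {N : ℕ} {F Y : ℝ} (hP : PFY N F Y) {ρ : ℕ} (hρ : 1 ≤ ρ) (h1 : (ρ : ℝ) ≤ kap * F ^ 2) :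
    Siz N F Y (Real.sqrt N) := by
  obtain ⟨hN, hF, hY, p1, p2, p3⟩ := hP
  have hk := kap_pos
  have hk4 := kap_ge
  have hN1 : (1 : ℝ) ≤ N := by exact_mod_cast hN
  have hn1 : 1 ≤ Real.sqrt N := Real.one_le_sqrt.2 hN1
  have hnN : Real.sqrt N ≤ N := by
    have := Real.mul_self_sqrt (Nat.cast_nonneg N : (0 : ℝ) ≤ N)
    nlinarith
  have hρ1 : (1 : ℝ) ≤ ρ := by exact_mod_cast hρ
  have c1 : 1 ≤ kap * F := by
    have e1 : (1 : ℝ) ^ 2 ≤ (kap * F) ^ 2 := by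
      calc (1 : ℝ) ^ 2 ≤ kap * (kap * F ^ 2) := by nlinarith
        _ = (kap * F) ^ 2 := by ring
    exact (abs_le_of_sq_le_sq' e1 (by positivity)).2
  have c2 : 1 ≤ kap * Y := by
    have e1 : (1 : ℝ) ^ 2 ≤ (kap * Y) ^ 2 := by
      calc (1 : ℝ) ^ 2 ≤ kap * (kap * Y ^ 2) := by nlinarith
        _ = (kap * Y) ^ 2 := by ring
    exact (abs_le_of_sq_le_sq' e1 (by positivity)).2
  have c3 : F ≤ kap * Y := by
    have e1 : F ^ 2 ≤ (kap * Y) ^ 2 := by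
      calc F ^ 2 ≤ kap * Real.sqrt N := p1
        _ ≤ kap * (kap * Y ^ 2) := by gcongr
        _ = (kap * Y) ^ 2 := by ring
    exact (abs_le_of_sq_le_sq' e1 (by positivity)).2
  have c4 : Y ≤ kap ^ 2 * Real.sqrt N := by
    calc Y = 1 * Y := (one_mul Y).symm
      _ ≤ (kap * F) * Y := by gcongr
      _ = kap * (F * Y) := by ring
      _ ≤ kap * (kap * Real.sqrt N) := by gcongr
      _ = _ := by ring
  have c5 : F ≤ kap * N := by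
    have e0 : 1 ≤ kap * N := by nlinarith
    have e1 : F ^ 2 ≤ (kap * N) ^ 2 := by
      calc F ^ 2 ≤ kap * Real.sqrt N := p1
        _ ≤ kap * N := by gcongr
        _ = 1 * (kap * N) := (one_mul _).symm
        _ ≤ (kap * N) * (kap * N) := by gcongr
        _ = _ := by ring
    exact (abs_le_of_sq_le_sq' e1 (by positivity)).2
  exact ⟨hF, hY, hn1, hnN, p1, p2, p3, c1, c2, c3, c4, c5⟩

/-- bound for a product of numbers `≥ 1` -/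
theorem le_of_prod {a b : ℕ} {x : ℝ} (ha : 1 ≤ a) (h : (a : ℝ) * b ≤ x) : (b : ℝ) ≤ x := by
  have h1 : (1 : ℝ) ≤ a := by exact_mod_cast ha
  have h2 : (0 : ℝ) ≤ b := Nat.cast_nonneg b
  nlinarith

/-- a size bound -/
theorem size_of {N x : ℕ} {c : ℝ} {j : ℕ} (hN : 1 ≤ N) (hj : j ≤ 10) (hc : c ≤ 10 ^ 200)
    (h : (x : ℝ) ≤ c * (N : ℝ) ^ j) : x ≤ 10 ^ 200 * N ^ 10 := by
  have hN1 : (1 : ℝ) ≤ N := by exact_mod_cast hN
  have h1 : (N : ℝ) ^ j ≤ (N : ℝ) ^ 10 := pow_le_pow_right₀ hN1 hj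
  have h2 : (x : ℝ) ≤ 10 ^ 200 * (N : ℝ) ^ 10 :=
    h.trans ((mul_le_mul_of_nonneg_right hc (by positivity)).trans
      (mul_le_mul_of_nonneg_left h1 (by positivity)))
  exact_mod_cast h2

section
variable {N : ℕ} {F Y n : ℝ} (hZ : Siz N F Y n) {ρ : ℕ} (hρ : 1 ≤ ρ)
include hZ hρ

omit hρ in
/-- consequences of the size of `v` -/
theorem ofV {g v : ℕ} (h : (ρ : ℝ) * (g * v) * n ≤ kap * (F ^ 2 * Y)) :
    (ρ : ℝ) * (g * v) ≤ kap ^ 2 * F ∧ (ρ : ℝ) * (g * v) * F ≤ kap ^ 3 * Y ^ 2 ∧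
    (ρ : ℝ) * (g * v) ≤ kap ^ 3 * F ^ 2 ∧ (ρ : ℝ) * (g * v) ≤ kap ^ 3 * (N : ℝ) := by
  have hk := kap_pos
  have hF := hZ.hF
  have hY := hZ.hY
  have hn : 0 < n := by linarith [hZ.n1]
  have e1 : (ρ : ℝ) * (g * v) ≤ kap ^ 2 * F := by
    have : (ρ : ℝ) * (g * v) * n ≤ kap ^ 2 * F * n := by
      calc (ρ : ℝ) * (g * v) * n ≤ kap * (F ^ 2 * Y) := h
        _ = kap * F * (F * Y) := by ring
        _ ≤ kap * F * (kap * n) := by
            have := hZ.a3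
            gcongr
        _ = _ := by ring
    exact le_of_mul_le_mul_right this hn
  have e2 : (ρ : ℝ) * (g * v) * F ≤ kap ^ 3 * Y ^ 2 := by
    have h1 : (ρ : ℝ) * (g * v) * F * n ≤ kap ^ 2 * F * Y * n := by
      calc (ρ : ℝ) * (g * v) * F * n = (ρ : ℝ) * (g * v) * n * F := by ring
        _ ≤ kap * (F ^ 2 * Y) * F := by gcongr
        _ = kap * F * Y * F ^ 2 := by ring
        _ ≤ kap * F * Y * (kap * n) := by
            have := hZ.a1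
            gcongr
        _ = _ := by ring
    have h2 := le_of_mul_le_mul_right h1 hn
    calc (ρ : ℝ) * (g * v) * F ≤ kap ^ 2 * F * Y := h2
      _ ≤ kap ^ 2 * (kap * Y) * Y := by
          have := hZ.b3
          gcongr
      _ = _ := by ring
  have e3 : (ρ : ℝ) * (g * v) ≤ kap ^ 3 * F ^ 2 := by
    have h1 : (ρ : ℝ) * (g * v) * n ≤ kap ^ 3 * F ^ 2 * n := by
      calc (ρ : ℝ) * (g * v) * n ≤ kap * (F ^ 2 * Y) := h
        _ ≤ kap * (F ^ 2 * (kap ^ 2 * n)) := by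
            have := hZ.b4
            gcongr
        _ = _ := by ring
    exact le_of_mul_le_mul_right h1 hn
  refine ⟨e1, e2, e3, e1.trans ?_⟩
  calc kap ^ 2 * F ≤ kap ^ 2 * (kap * N) := by
        have := hZ.b5
        gcongr
    _ = _ := by ring

omit hρ in
/-- consequences of the size of `w` -/
theorem ofW {g w : ℕ} (h : (ρ : ℝ) * (g * w) * n ≤ kap * (F * Y ^ 2)) :
    (ρ : ℝ) * (g * w) ≤ kap ^ 2 * Y ∧ (ρ : ℝ) * (g * w) ≤ kap ^ 3 * Y ^ 2 ∧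
    (ρ : ℝ) * (g * w) ≤ kap ^ 4 * (N : ℝ) := by
  have hk := kap_pos
  have hF := hZ.hF
  have hY := hZ.hY
  have hn : 0 < n := by linarith [hZ.n1]
  have e1 : (ρ : ℝ) * (g * w) ≤ kap ^ 2 * Y := by
    have : (ρ : ℝ) * (g * w) * n ≤ kap ^ 2 * Y * n := by
      calc (ρ : ℝ) * (g * w) * n ≤ kap * (F * Y ^ 2) := h
        _ = kap * Y * (F * Y) := by ring
        _ ≤ kap * Y * (kap * n) := by
            have := hZ.a3
            gcongr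
        _ = _ := by ring
    exact le_of_mul_le_mul_right this hn
  refine ⟨e1, ?_, ?_⟩
  · calc (ρ : ℝ) * (g * w) ≤ kap ^ 2 * Y := e1
      _ = kap ^ 2 * Y * 1 := (mul_one _).symm
      _ ≤ kap ^ 2 * Y * (kap * Y) := by
          have := hZ.b2
          gcongr
      _ = _ := by ring
  · calc (ρ : ℝ) * (g * w) ≤ kap ^ 2 * Y := e1
      _ ≤ kap ^ 2 * (kap ^ 2 * n) := by
          have := hZ.b4
          gcongr
      _ ≤ kap ^ 2 * (kap ^ 2 * N) := by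
          have := hZ.nN
          gcongr
      _ = _ := by ring

end

/-- comparison of absolute values -/
theorem abs_le_of {x : ℤ} {M : ℕ} {ρ A : ℝ} (hρ : 0 < ρ) (h1 : ρ * |(x : ℝ)| ≤ A)
    (h2 : A ≤ ρ * M) : |x| ≤ (M : ℤ) := by
  have h3 : |(x : ℝ)| ≤ M := le_of_mul_le_mul_left (h1.trans h2) hρ
  have h4 : ((|x| : ℤ) : ℝ) ≤ ((M : ℤ) : ℝ) := by
    rw [Int.cast_abs]
    exact_mod_cast h3
  exact_mod_cast h4

end CNB

set_option maxHeartbeats 1000000 in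
open CNB in
theorem t_CNB1 (hCNX : S_CNX) (hNUB1 : S_NUB1) : S_CNB1 := by
  intro ε hε
  obtain ⟨C₀, hC₀, hN1⟩ := hNUB1
  obtain ⟨C, hC, hX⟩ := hCNX ε hε C₀ hC₀
  refine ⟨C, hC, fun N F Y hP Fs hFs => ?_⟩
  have hk := kap_pos
  have hk4 := kap_ge
  refine hX N hP.1 Y hP.2.2.1 (fun ρ _ _ _ => ⌈kap ^ 3 * F ^ 2 / ρ⌉₊)
    (fun ρ _ V _ => ⌈kap ^ 3 * (F * V) / ρ⌉₊)
    (fun ρ _ V _ => ⌈kap ^ 3 * (Y ^ 2 * V) / (ρ * F)⌉₊) Fs fun x hx => ?_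
  obtain ⟨ρ, m, a, g, v, w, s, t⟩ := x
  obtain ⟨hA, hS, hco, hFw⟩ := hFs _ hx
  have hA' := hA
  obtain ⟨hρ0, hm0, ha0, hg0, hv0, hw0, -⟩ := hA'
  obtain ⟨z1, z2, z3, z4, z5, z6⟩ := hS
  have hm1 : (1 : ℝ) ≤ |(m : ℝ)| := by
    have : (1 : ℤ) ≤ |m| := Int.one_le_abs hm0
    have h2 : ((1 : ℤ) : ℝ) ≤ ((|m| : ℤ) : ℝ) := by exact_mod_cast this
    rwa [Int.cast_abs, Int.cast_one] at h2
  have hρF : (ρ : ℝ) ≤ kap * F ^ 2 := by
    have : (0 : ℝ) ≤ ρ := Nat.cast_nonneg ρ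
    exact (le_mul_of_one_le_right this hm1).trans z1
  have hZ := siz hP hρ0 hρF
  have hF := hZ.hF
  have hY := hZ.hY
  have hn1 := hZ.n1
  have hN := hP.1
  obtain ⟨G1, G2, G3⟩ := dyad hg0
  obtain ⟨V1, V2, V3⟩ := dyad hv0
  obtain ⟨W1, W2, W3⟩ := dyad hw0
  obtain ⟨G, hG⟩ : ∃ G, G = 2 ^ Nat.log 2 g := ⟨_, rfl⟩
  obtain ⟨V, hV⟩ : ∃ V, V = 2 ^ Nat.log 2 v := ⟨_, rfl⟩
  obtain ⟨W, hW⟩ : ∃ W, W = 2 ^ Nat.log 2 w := ⟨_, rfl⟩
  rw [← hG] at G1 G2 G3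
  rw [← hV] at V1 V2 V3
  rw [← hW] at W1 W2 W3
  refine ⟨hA, hco, G, V, W, hG, hV, hW, ?_⟩
  have rρ : (1 : ℝ) ≤ ρ := by exact_mod_cast hρ0
  have rG1 : (1 : ℝ) ≤ G := by exact_mod_cast G1
  have rV1 : (1 : ℝ) ≤ V := by exact_mod_cast V1
  have rW1 : (1 : ℝ) ≤ W := by exact_mod_cast W1
  have rG2 : (G : ℝ) ≤ g := by exact_mod_cast G2
  have rV2 : (V : ℝ) ≤ v := by exact_mod_cast V2
  have rW2 : (W : ℝ) ≤ w := by exact_mod_cast W2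
  have rV3 : (v : ℝ) ≤ 2 * V := by exact_mod_cast V3.le
  have rW3 : (w : ℝ) ≤ 2 * W := by exact_mod_cast W3.le
  have hρ1 : 0 < (ρ : ℝ) := by linarith
  have y3 : (ρ : ℝ) * (G * V) * Real.sqrt N ≤ kap * (F ^ 2 * Y) := by
    refine le_trans ?_ z3
    gcongr
  have y4 : (ρ : ℝ) * (G * W) * Real.sqrt N ≤ kap * (F * Y ^ 2) := by
    refine le_trans ?_ z4
    gcongr
  obtain ⟨v1, v2, v3, v4⟩ := ofV hZ y3
  obtain ⟨-, -, v3', v4'⟩ := ofV hZ z3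
  obtain ⟨-, -, w4⟩ := ofW hZ z4
  obtain ⟨m1, m2, m3⟩ := ceil_div (A := kap ^ 3 * F ^ 2) (B := ρ) hρ1 G1 (by
    calc (G : ℝ) * ρ = ρ * (G * 1) := by ring
      _ ≤ ρ * (G * V) := by gcongr
      _ ≤ _ := v3)
  obtain ⟨s1, s2, s3⟩ := ceil_div (A := kap ^ 3 * (F * V)) (B := ρ) hρ1 G1 (by
    calc (G : ℝ) * ρ = ρ * (G * 1) := by ring
      _ ≤ ρ * (G * V) := by gcongr
      _ ≤ kap ^ 2 * F := v1
      _ = kap ^ 2 * F * 1 := (mul_one _).symm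
      _ ≤ kap ^ 2 * F * (kap * V) := by
          have : (1 : ℝ) * 1 ≤ kap * V := by
            have := hk4
            gcongr
            linarith
          rw [one_mul] at this
          gcongr
      _ = _ := by ring)
  obtain ⟨t1, t2, t3⟩ := ceil_div (A := kap ^ 3 * (Y ^ 2 * V)) (B := ρ * F) (by positivity) G1 (by
    calc (G : ℝ) * (ρ * F) ≤ ρ * (G * V) * F := by
          calc (G : ℝ) * (ρ * F) = ρ * (G * 1) * F := by ring
            _ ≤ ρ * (G * V) * F := by gcongr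
      _ ≤ kap ^ 3 * Y ^ 2 := v2
      _ = kap ^ 3 * Y ^ 2 * 1 := (mul_one _).symm
      _ ≤ kap ^ 3 * Y ^ 2 * V := by gcongr
      _ = _ := by ring)
  have hFW : F * w + Y * v ≤ 4 * (Y * V) := by
    have : Y * v ≤ Y * (2 * V) := by gcongr
    linarith
  -- the number `N`
  have rN : (1 : ℝ) ≤ N := by exact_mod_cast hN
  have hVN : (V : ℝ) ≤ kap ^ 3 * N := by
    calc (V : ℝ) ≤ ρ * (G * V) := by
          calc (V : ℝ) = 1 * (1 * V) := by ring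
            _ ≤ ρ * (G * V) := by gcongr
      _ ≤ _ := v4
  have hF1 : 1 / F ≤ kap := by
    rw [div_le_iff₀ hF]
    exact hZ.b1
  refine ⟨⟨hρ0, G1.trans m3, G1, V1, W1, G1.trans s3, G1.trans t3, s3, t3, m3⟩, ?_, ?_, ?_, ?_, ?_,
    ?_, ?_, ?_, ?_, ?_, ?_⟩
  · refine abs_le_of hρ1 z1 (le_trans ?_ m1)
    have : (1 : ℝ) ≤ kap ^ 2 := kap2
    calc kap * F ^ 2 = 1 * (kap * F ^ 2) := (one_mul _).symm
      _ ≤ kap ^ 2 * (kap * F ^ 2) := by gcongr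
      _ = _ := by ring
  · refine abs_le_of hρ1 (A := 4 * kap * (F * V)) ?_ (le_trans ?_ s1)
    · have h1 : (ρ * |(s : ℝ)|) * Y ≤ (4 * kap * (F * V)) * Y := by
        calc (ρ * |(s : ℝ)|) * Y ≤ kap * (F * (F * w + Y * v)) := z5
          _ ≤ kap * (F * (4 * (Y * V))) := by gcongr
          _ = _ := by ring
      exact le_of_mul_le_mul_right h1 hY
    · have := kap3
      gcongr
  · refine abs_le_of (ρ := ρ * F) (by positivity) (A := 4 * kap * (Y ^ 2 * V)) ?_ (le_trans ?_ t1)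
    · calc (ρ * F) * |(t : ℝ)| = ρ * |(t : ℝ)| * F := by ring
        _ ≤ kap * (Y * (F * w + Y * v)) := z6
        _ ≤ kap * (Y * (4 * (Y * V))) := by gcongr
        _ = _ := by ring
    · have := kap3
      gcongr
  · refine size_of (c := kap ^ 3) (j := 1) hN (by norm_num) (by unfold kap; norm_num) ?_
    have e1 : (1 : ℝ) ≤ g * v := by exact_mod_cast Nat.mul_pos hg0 hv0
    calc (ρ : ℝ) = ρ * 1 := (mul_one _).symm
      _ ≤ ρ * (g * v) := by gcongr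
      _ ≤ kap ^ 3 * N := v4'
      _ = _ := by rw [pow_one]
  · refine size_of (c := kap ^ 3) (j := 1) hN (by norm_num) (by unfold kap; norm_num) ?_
    have e1 : (1 : ℝ) ≤ v := by exact_mod_cast hv0
    calc (g : ℝ) = 1 * (g * 1) := by ring
      _ ≤ ρ * (g * v) := by gcongr
      _ ≤ kap ^ 3 * N := v4'
      _ = _ := by rw [pow_one]
  · refine size_of (c := kap ^ 3) (j := 1) hN (by norm_num) (by unfold kap; norm_num) ?_
    have e1 : (1 : ℝ) ≤ g := by exact_mod_cast hg0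
    calc (v : ℝ) = 1 * (1 * v) := by ring
      _ ≤ ρ * (g * v) := by gcongr
      _ ≤ kap ^ 3 * N := v4'
      _ = _ := by rw [pow_one]
  · refine size_of (c := kap ^ 4) (j := 1) hN (by norm_num) (by unfold kap; norm_num) ?_
    have e1 : (1 : ℝ) ≤ g := by exact_mod_cast hg0
    calc (w : ℝ) = 1 * (1 * w) := by ring
      _ ≤ ρ * (g * w) := by gcongr
      _ ≤ kap ^ 4 * N := w4
      _ = _ := by rw [pow_one]
  · refine size_of (c := 2 * kap ^ 5) (j := 2) hN (by norm_num) (by unfold kap; norm_num) ?_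
    calc (⌈kap ^ 3 * F ^ 2 / ρ⌉₊ : ℝ) = 1 * ⌈kap ^ 3 * F ^ 2 / ρ⌉₊ := (one_mul _).symm
      _ ≤ ρ * ⌈kap ^ 3 * F ^ 2 / ρ⌉₊ := by gcongr
      _ ≤ 2 * (kap ^ 3 * F ^ 2) := m2
      _ ≤ 2 * (kap ^ 3 * (kap * N) ^ 2) := by
          have := hZ.b5
          gcongr
      _ = _ := by ring
  · refine size_of (c := 2 * kap ^ 7) (j := 2) hN (by norm_num) (by unfold kap; norm_num) ?_
    calc (⌈kap ^ 3 * (F * V) / ρ⌉₊ : ℝ) = 1 * ⌈kap ^ 3 * (F * V) / ρ⌉₊ := (one_mul _).symm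
      _ ≤ ρ * ⌈kap ^ 3 * (F * V) / ρ⌉₊ := by gcongr
      _ ≤ 2 * (kap ^ 3 * (F * V)) := s2
      _ ≤ 2 * (kap ^ 3 * ((kap * N) * (kap ^ 3 * N))) := by
          have := hZ.b5
          gcongr
      _ = _ := by ring
  · refine size_of (c := 2 * kap ^ 11) (j := 3) hN (by norm_num) (by unfold kap; norm_num) ?_
    have hYN : Y ≤ kap ^ 2 * N := by
      refine hZ.b4.trans ?_
      have := hZ.nN
      gcongr
    have e1 : (⌈kap ^ 3 * (Y ^ 2 * V) / (ρ * F)⌉₊ : ℝ) ≤ kap * (2 * (kap ^ 3 * (Y ^ 2 * V))) := by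
      have e2 : (1 : ℝ) ≤ kap * (ρ * F) := by
        calc (1 : ℝ) ≤ kap * F := hZ.b1
          _ = kap * (1 * F) := by ring
          _ ≤ kap * (ρ * F) := by gcongr
      calc (⌈kap ^ 3 * (Y ^ 2 * V) / (ρ * F)⌉₊ : ℝ) =
          1 * ⌈kap ^ 3 * (Y ^ 2 * V) / (ρ * F)⌉₊ := (one_mul _).symm
        _ ≤ kap * (ρ * F) * ⌈kap ^ 3 * (Y ^ 2 * V) / (ρ * F)⌉₊ := by gcongr
        _ = kap * (ρ * F * ⌈kap ^ 3 * (Y ^ 2 * V) / (ρ * F)⌉₊) := by ring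
        _ ≤ _ := by gcongr
    refine e1.trans ?_
    calc kap * (2 * (kap ^ 3 * (Y ^ 2 * V))) ≤
        kap * (2 * (kap ^ 3 * ((kap ^ 2 * N) ^ 2 * (kap ^ 3 * N)))) := by gcongr
      _ = _ := by ring
  · refine hN1 N F Y ρ _ G V W _ _ hP hρ0 G1 V1 W1 hρF y3 y4 ?_ m1 m2 s1 s2 ?_ ?_
    · calc F * W ≤ F * w := by gcongr
        _ ≤ Y * v := hFw
        _ ≤ Y * (2 * V) := by gcongr
        _ = _ := by ring
    · exact t1
    · exact t2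

end Pool.Agent.T2h80.R5
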