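import Pool.Agent.T2h80.R5.CNB1

set_option autoImplicit false

/-!
# CNB2, the case `Y v ≤ F w` (project R5)
-/

namespace Pool.Agent.T2h80.R5

open Finset NumberField Pool.Agent.T2h80.F5

namespace CNB

/-- the swapped tuple -/
def sw (x : ℕ × ℤ × ℤ × ℕ × ℕ × ℕ × ℤ × ℤ) : ℕ × ℤ × ℤ × ℕ × ℕ × ℕ × ℤ × ℤ :=
  match x with
  | (ρ, m, a, g, v, w, s, t) => (ρ, a, m, g, w, v, t, -s)

theorem sw_inj : Function.Injective sw := by
  rintro ⟨ρ, m, a, g, v, w, s, t⟩ ⟨ρ', m', a', g', v', w', s', t'⟩ h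
  simp only [sw, Prod.mk.injEq, neg_inj] at h
  obtain ⟨h1, h2, h3, h4, h5, h6, h7, h8⟩ := h
  subst h1 h2 h3 h4 h5 h6 h7 h8
  rfl

theorem good_swap {ρ : ℕ} {m a : ℤ} {g v w : ℕ} {s t : ℤ} (h : GoodA ρ m a g v w s t) :
    GoodA ρ a m g w v t (-s) := by
  obtain ⟨h1, h2, h3, h4, h5, h6, h7, h8, h9, h10, h11, e, f, he, hf, f1, f2, f3, f4⟩ := h
  refine ⟨h1, h3, h2, h4, h6, h5, h7.symm, h8, ?_, ?_, ?_, f, -e, hf, he.neg_left, ?_, ?_, ?_, ?_⟩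
  · linear_combination -h9
  · rw [neg_sq]; exact h11
  · exact h10
  · rw [neg_sq]; exact f2
  · exact f1
  · have e1 : (ρ : ℤ) * f * t - -e * (-e * v + f * w) = ρ * f * t - e * (e * v - f * w) := by ring
    rw [e1]
    exact f4
  · have e1 : (ρ : ℤ) * -e * -s - f * (f * w - -e * v) = ρ * e * s - f * (f * w + e * v) := by ring
    rw [e1]
    exact f3

end CNB

set_option maxHeartbeats 1000000 in
open CNB in
theorem t_CNB2 (hCNX : S_CNX) (hNUB2 : S_NUB2) : S_CNB2 := by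
  intro ε hε
  obtain ⟨C₀, hC₀, hN1⟩ := hNUB2
  obtain ⟨C, hC, hX⟩ := hCNX ε hε C₀ hC₀
  refine ⟨C, hC, fun N F Y hP Fs hFs => ?_⟩
  have hk := kap_pos
  have hk4 := kap_ge
  have hcard : (Fs.card : ℝ) = ((Fs.map ⟨sw, sw_inj⟩).card : ℝ) := by
    rw [Finset.card_map]
  rw [hcard]
  refine hX N hP.1 Y hP.2.2.1 (fun ρ _ _ _ => ⌈kap ^ 3 * Y ^ 2 / ρ⌉₊)
    (fun ρ _ W _ => ⌈kap ^ 3 * (Y * W) / ρ⌉₊)
    (fun ρ _ W _ => ⌈kap ^ 3 * (F ^ 2 * W) / (ρ * Y)⌉₊) (Fs.map ⟨sw, sw_inj⟩) fun x' hx' => ?_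
  obtain ⟨x, hx, rfl⟩ := Finset.mem_map.1 hx'
  obtain ⟨ρ, m, a, g, v, w, s, t⟩ := x
  obtain ⟨hA, hS, hco, hFw⟩ := hFs _ hx
  have hA' := hA
  obtain ⟨hρ0, hm0, ha0, hg0, hv0, hw0, -⟩ := hA'
  obtain ⟨z1, z2, z3, z4, z5, z6⟩ := hS
  have hm1 : (1 : ℝ) ≤ |(m : ℝ)| := by
    have : (1 : ℤ) ≤ |m| := Int.one_le_abs hm0
    have h2 : ((1 : ℤ) : ℝ) ≤ ((|m| : ℤ) : ℝ) := by exact_mod_cast this
    rwa [Int.cast_abs, Int.cast_one] at h2
  have hρF : (ρ : ℝ) ≤ kap * F ^ 2 := by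
    have : (0 : ℝ) ≤ ρ := Nat.cast_nonneg ρ
    exact (le_mul_of_one_le_right this hm1).trans z1
  have hZ := siz hP hρ0 hρF
  have hF := hZ.hF
  have hY := hZ.hY
  have hn1 := hZ.n1
  have hN := hP.1
  obtain ⟨G1, G2, G3⟩ := dyad hg0
  obtain ⟨V1, V2, V3⟩ := dyad hv0
  obtain ⟨W1, W2, W3⟩ := dyad hw0
  obtain ⟨G, hG⟩ : ∃ G, G = 2 ^ Nat.log 2 g := ⟨_, rfl⟩
  obtain ⟨V, hV⟩ : ∃ V, V = 2 ^ Nat.log 2 v := ⟨_, rfl⟩
  obtain ⟨W, hW⟩ : ∃ W, W = 2 ^ Nat.log 2 w := ⟨_, rfl⟩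
  rw [← hG] at G1 G2 G3
  rw [← hV] at V1 V2 V3
  rw [← hW] at W1 W2 W3
  show GoodA ρ a m g w v t (-s) ∧ g.Coprime (w * v) ∧ _
  refine ⟨good_swap hA, by rw [mul_comm]; exact hco, G, W, V, hG, hW, hV, ?_⟩
  have rρ : (1 : ℝ) ≤ ρ := by exact_mod_cast hρ0
  have rG1 : (1 : ℝ) ≤ G := by exact_mod_cast G1
  have rV1 : (1 : ℝ) ≤ V := by exact_mod_cast V1
  have rW1 : (1 : ℝ) ≤ W := by exact_mod_cast W1
  have rG2 : (G : ℝ) ≤ g := by exact_mod_cast G2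
  have rV2 : (V : ℝ) ≤ v := by exact_mod_cast V2
  have rW2 : (W : ℝ) ≤ w := by exact_mod_cast W2
  have rV3 : (v : ℝ) ≤ 2 * V := by exact_mod_cast V3.le
  have rW3 : (w : ℝ) ≤ 2 * W := by exact_mod_cast W3.le
  have hρ1 : 0 < (ρ : ℝ) := by linarith
  have y3 : (ρ : ℝ) * (G * V) * Real.sqrt N ≤ kap * (F ^ 2 * Y) := by
    refine le_trans ?_ z3
    gcongr
  have y4 : (ρ : ℝ) * (G * W) * Real.sqrt N ≤ kap * (F * Y ^ 2) := by
    refine le_trans ?_ z4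
    gcongr
  obtain ⟨-, -, v3', v4'⟩ := ofV hZ z3
  obtain ⟨w1, w2, w3⟩ := ofW hZ y4
  obtain ⟨-, -, w4⟩ := ofW hZ z4
  obtain ⟨m1, m2, m3⟩ := ceil_div (A := kap ^ 3 * Y ^ 2) (B := ρ) hρ1 G1 (by
    calc (G : ℝ) * ρ = ρ * (G * 1) := by ring
      _ ≤ ρ * (G * W) := by gcongr
      _ ≤ _ := w2)
  obtain ⟨s1, s2, s3⟩ := ceil_div (A := kap ^ 3 * (Y * W)) (B := ρ) hρ1 G1 (by
    calc (G : ℝ) * ρ = ρ * (G * 1) := by ring
      _ ≤ ρ * (G * W) := by gcongr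
      _ ≤ kap ^ 2 * Y := w1
      _ = kap ^ 2 * Y * 1 := (mul_one _).symm
      _ ≤ kap ^ 2 * Y * (kap * W) := by
          have : (1 : ℝ) * 1 ≤ kap * W := by
            have := hk4
            gcongr
            linarith
          rw [one_mul] at this
          gcongr
      _ = _ := by ring)
  have hYV : Y * V ≤ 2 * (F * W) := by
    calc Y * V ≤ Y * v := by gcongr
      _ ≤ F * w := hFw
      _ ≤ F * (2 * W) := by gcongr
      _ = _ := by ring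
  obtain ⟨t1, t2, t3⟩ := ceil_div (A := kap ^ 3 * (F ^ 2 * W)) (B := ρ * Y) (by positivity) G1 (by
    have hn0 : 0 < Real.sqrt N := by linarith
    -- `Y ≤ 2 F W`
    have h1 : Y ≤ 2 * (F * W) := by
      calc Y = Y * 1 := (mul_one Y).symm
        _ ≤ Y * V := by gcongr
        _ ≤ _ := hYV
    have h2 : (G : ℝ) * (ρ * Y) * Real.sqrt N ≤ 4 * kap ^ 2 * (F ^ 2 * W) * Real.sqrt N := by
      have h3 : (ρ : ℝ) * (G * W) * Y ≤ kap ^ 2 * Y * Y := by gcongr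
      have h4 : F * (Y * Y) ≤ kap * Real.sqrt N * (2 * (F * W)) := by
        calc F * (Y * Y) = (F * Y) * Y := by ring
          _ ≤ (kap * Real.sqrt N) * (2 * (F * W)) := by
              have := hZ.a3
              gcongr
      calc (G : ℝ) * (ρ * Y) * Real.sqrt N = (ρ * G * Real.sqrt N) * Y := by ring
        _ ≤ (ρ * G * Real.sqrt N) * (2 * (F * W)) := by gcongr
        _ = 2 * F * (ρ * (G * W) * Real.sqrt N) := by ring
        _ ≤ 2 * F * (kap * (F * Y ^ 2)) := by gcongr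
        _ = 2 * F * kap * (F * (Y * Y)) := by ring
        _ ≤ 2 * F * kap * (kap * Real.sqrt N * (2 * (F * W))) := by gcongr
        _ = _ := by ring
    have h5 := le_of_mul_le_mul_right h2 hn0
    refine h5.trans ?_
    have h6 : 4 * kap ^ 2 ≤ kap ^ 3 := by
      calc 4 * kap ^ 2 ≤ kap * kap ^ 2 := by gcongr
        _ = _ := by ring
    gcongr)
  have hFW : F * w + Y * v ≤ 4 * (F * W) := by
    have : F * w ≤ F * (2 * W) := by gcongr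
    linarith
  -- the number `N`
  have rN : (1 : ℝ) ≤ N := by exact_mod_cast hN
  have hWN : (W : ℝ) ≤ kap ^ 4 * N := by
    calc (W : ℝ) = 1 * (1 * W) := by ring
      _ ≤ ρ * (G * W) := by gcongr
      _ ≤ _ := w3
  have hYN : Y ≤ kap ^ 2 * N := by
    refine hZ.b4.trans ?_
    have := hZ.nN
    gcongr
  refine ⟨⟨hρ0, G1.trans m3, G1, W1, V1, G1.trans s3, G1.trans t3, s3, t3, m3⟩, ?_, ?_, ?_, ?_, ?_,
    ?_, ?_, ?_, ?_, ?_, ?_⟩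
  · refine abs_le_of hρ1 z2 (le_trans ?_ m1)
    have : (1 : ℝ) ≤ kap ^ 2 := kap2
    calc kap * Y ^ 2 = 1 * (kap * Y ^ 2) := (one_mul _).symm
      _ ≤ kap ^ 2 * (kap * Y ^ 2) := by gcongr
      _ = _ := by ring
  · refine abs_le_of hρ1 (A := 4 * kap * (Y * W)) ?_ (le_trans ?_ s1)
    · have h1 : (ρ * |(t : ℝ)|) * F ≤ (4 * kap * (Y * W)) * F := by
        calc (ρ * |(t : ℝ)|) * F ≤ kap * (Y * (F * w + Y * v)) := z6
          _ ≤ kap * (Y * (4 * (F * W))) := by gcongr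
          _ = _ := by ring
      exact le_of_mul_le_mul_right h1 hF
    · have := kap3
      gcongr
  · rw [abs_neg]
    refine abs_le_of (ρ := ρ * Y) (by positivity) (A := 4 * kap * (F ^ 2 * W)) ?_ (le_trans ?_ t1)
    · calc (ρ * Y) * |(s : ℝ)| = ρ * |(s : ℝ)| * Y := by ring
        _ ≤ kap * (F * (F * w + Y * v)) := z5
        _ ≤ kap * (F * (4 * (F * W))) := by gcongr
        _ = _ := by ring
    · have := kap3
      gcongr
  · refine size_of (c := kap ^ 3) (j := 1) hN (by norm_num) (by unfold kap; norm_num) ?_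
    have e1 : (1 : ℝ) ≤ g * v := by exact_mod_cast Nat.mul_pos hg0 hv0
    calc (ρ : ℝ) = ρ * 1 := (mul_one _).symm
      _ ≤ ρ * (g * v) := by gcongr
      _ ≤ kap ^ 3 * N := v4'
      _ = _ := by rw [pow_one]
  · refine size_of (c := kap ^ 3) (j := 1) hN (by norm_num) (by unfold kap; norm_num) ?_
    have e1 : (1 : ℝ) ≤ v := by exact_mod_cast hv0
    calc (g : ℝ) = 1 * (g * 1) := by ring
      _ ≤ ρ * (g * v) := by gcongr
      _ ≤ kap ^ 3 * N := v4'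
      _ = _ := by rw [pow_one]
  · refine size_of (c := kap ^ 4) (j := 1) hN (by norm_num) (by unfold kap; norm_num) ?_
    have e1 : (1 : ℝ) ≤ g := by exact_mod_cast hg0
    calc (w : ℝ) = 1 * (1 * w) := by ring
      _ ≤ ρ * (g * w) := by gcongr
      _ ≤ kap ^ 4 * N := w4
      _ = _ := by rw [pow_one]
  · refine size_of (c := kap ^ 3) (j := 1) hN (by norm_num) (by unfold kap; norm_num) ?_
    have e1 : (1 : ℝ) ≤ g := by exact_mod_cast hg0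
    calc (v : ℝ) = 1 * (1 * v) := by ring
      _ ≤ ρ * (g * v) := by gcongr
      _ ≤ kap ^ 3 * N := v4'
      _ = _ := by rw [pow_one]
  · refine size_of (c := 2 * kap ^ 7) (j := 2) hN (by norm_num) (by unfold kap; norm_num) ?_
    calc (⌈kap ^ 3 * Y ^ 2 / ρ⌉₊ : ℝ) = 1 * ⌈kap ^ 3 * Y ^ 2 / ρ⌉₊ := (one_mul _).symm
      _ ≤ ρ * ⌈kap ^ 3 * Y ^ 2 / ρ⌉₊ := by gcongr
      _ ≤ 2 * (kap ^ 3 * Y ^ 2) := m2
      _ ≤ 2 * (kap ^ 3 * (kap ^ 2 * N) ^ 2) := by gcongr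
      _ = _ := by ring
  · refine size_of (c := 2 * kap ^ 9) (j := 2) hN (by norm_num) (by unfold kap; norm_num) ?_
    calc (⌈kap ^ 3 * (Y * W) / ρ⌉₊ : ℝ) = 1 * ⌈kap ^ 3 * (Y * W) / ρ⌉₊ := (one_mul _).symm
      _ ≤ ρ * ⌈kap ^ 3 * (Y * W) / ρ⌉₊ := by gcongr
      _ ≤ 2 * (kap ^ 3 * (Y * W)) := s2
      _ ≤ 2 * (kap ^ 3 * ((kap ^ 2 * N) * (kap ^ 4 * N))) := by gcongr
      _ = _ := by ring
  · refine size_of (c := 2 * kap ^ 10) (j := 3) hN (by norm_num) (by unfold kap; norm_num) ?_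
    have e1 : (⌈kap ^ 3 * (F ^ 2 * W) / (ρ * Y)⌉₊ : ℝ) ≤ kap * (2 * (kap ^ 3 * (F ^ 2 * W))) := by
      have e2 : (1 : ℝ) ≤ kap * (ρ * Y) := by
        calc (1 : ℝ) ≤ kap * Y := hZ.b2
          _ = kap * (1 * Y) := by ring
          _ ≤ kap * (ρ * Y) := by gcongr
      calc (⌈kap ^ 3 * (F ^ 2 * W) / (ρ * Y)⌉₊ : ℝ) =
          1 * ⌈kap ^ 3 * (F ^ 2 * W) / (ρ * Y)⌉₊ := (one_mul _).symm
        _ ≤ kap * (ρ * Y) * ⌈kap ^ 3 * (F ^ 2 * W) / (ρ * Y)⌉₊ := by gcongr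
        _ = kap * (ρ * Y * ⌈kap ^ 3 * (F ^ 2 * W) / (ρ * Y)⌉₊) := by ring
        _ ≤ _ := by gcongr
    refine e1.trans ?_
    calc kap * (2 * (kap ^ 3 * (F ^ 2 * W))) ≤
        kap * (2 * (kap ^ 3 * ((kap * N) ^ 2 * (kap ^ 4 * N)))) := by
          have := hZ.b5
          gcongr
      _ = _ := by ring
  · refine hN1 N F Y ρ _ G V W _ _ hP hρ0 G1 V1 W1 hρF y3 y4 hYV m1 m2 t1 t2 s1 s2

end Pool.Agent.T2h80.R5
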