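import Pool.Agent.T2h80.R5.Stm
import Pool.Agent.T2h80.F5.CN2

set_option autoImplicit false

/-!
# Task CNTR of project R5
-/

namespace Pool.Agent.T2h80.R5

open Finset Pool.Agent.T2h80.F5

/-- `GoodA` is inherited by the divisors of `g` -/
theorem goodA_dvd {ρ : ℕ} {m a : ℤ} {g g₁ v w : ℕ} {s t : ℤ} (h : GoodA ρ m a g v w s t)
    (hd : g₁ ∣ g) : GoodA ρ m a g₁ v w s t := by
  obtain ⟨h1, h2, h3, h4, h5, h6, h7, h8, h9, h10, h11, e, f, k1, k2, k3, k4, k5, k6⟩ := h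
  have hz : (g₁ : ℤ) ∣ g := by exact_mod_cast hd
  exact ⟨h1, h2, h3, Nat.pos_of_dvd_of_pos hd h4, h5, h6, h7, Nat.Coprime.coprime_dvd_left hd h8, h9,
    h10, h11, e, f, k1.of_isCoprime_of_dvd_right hz, k2.of_isCoprime_of_dvd_right hz, hz.trans k3,
    hz.trans k4, hz.trans k5, hz.trans k6⟩

theorem szC_le {N : ℕ} {F Y : ℝ} {ρ : ℕ} {m a : ℤ} {g g₁ v w : ℕ} {s t : ℤ}
    (h : SzC N F Y ρ m a g v w s t) (hd : g₁ ≤ g) : SzC N F Y ρ m a g₁ v w s t := by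
  obtain ⟨h1, h2, h3, h4, h5, h6⟩ := h
  have hz : (g₁ : ℝ) ≤ g := by exact_mod_cast hd
  refine ⟨h1, h2, le_trans ?_ h3, le_trans ?_ h4, h5, h6⟩ <;> gcongr

/-- the sizes of `g`, `v`, `w` -/
theorem cntr_size {N : ℕ} {F Y : ℝ} (hP : PFY N F Y) {ρ : ℕ} {m a : ℤ} {g v w : ℕ} {s t : ℤ}
    (hA : GoodA ρ m a g v w s t) (hS : SzC N F Y ρ m a g v w s t) :
    g ≤ 10 ^ 40 * N ∧ v ≤ 10 ^ 40 * N ∧ w ≤ 10 ^ 40 * N := by
  obtain ⟨hN, hF, hY, p1, p2, p3⟩ := hP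
  obtain ⟨h1, h2, h3, h4, h5, h6, -⟩ := hA
  obtain ⟨s1, s2, s3, s4, -, -⟩ := hS
  have hN1 : (1 : ℝ) ≤ N := by exact_mod_cast hN
  have hq1 : (1 : ℝ) ≤ Real.sqrt N := Real.one_le_sqrt.2 hN1
  have hqN : Real.sqrt N ≤ N := by
    have := Real.sq_sqrt (show (0 : ℝ) ≤ N by linarith)
    nlinarith
  set q := Real.sqrt N with hq
  have hk : (1 : ℝ) ≤ kap := by unfold kap; norm_num
  have hρ : (1 : ℝ) ≤ ρ := by exact_mod_cast h1
  have hm : (1 : ℝ) ≤ |(m : ℝ)| := by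
    have := Int.one_le_abs h2
    exact_mod_cast this
  have hg : (1 : ℝ) ≤ g := by exact_mod_cast h4
  have hv : (1 : ℝ) ≤ v := by exact_mod_cast h5
  have hw : (1 : ℝ) ≤ w := by exact_mod_cast h6
  have hkF : 1 ≤ kap * F := by
    have e1 : 1 ≤ kap * F ^ 2 := by
      calc (1 : ℝ) = 1 * 1 := by ring
        _ ≤ (ρ : ℝ) * |(m : ℝ)| := mul_le_mul hρ hm zero_le_one (by linarith)
        _ ≤ _ := s1
    by_contra hc
    push Not at hc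
    have hF1 : F < 1 := by nlinarith
    nlinarith [mul_pos (by linarith : (0 : ℝ) < kap) hF]
  have hYq : Y ≤ kap ^ 2 * q := by
    calc Y ≤ (kap * F) * Y := le_mul_of_one_le_left hY.le hkF
      _ = kap * (F * Y) := by ring
      _ ≤ kap * (kap * q) := mul_le_mul_of_nonneg_left p3 (by linarith)
      _ = kap ^ 2 * q := by ring
  have hFq : F ≤ 2 * kap * q := by
    have e1 : F ≤ 1 + F ^ 2 := by nlinarith [sq_nonneg (F - 1)]
    have e2 : 1 ≤ kap * q := by nlinarith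
    nlinarith
  have hgv : (g : ℝ) * v ≤ kap ^ 4 * N := by
    have e1 : (g : ℝ) * v * q ≤ 2 * kap ^ 3 * q * q := by
      calc (g : ℝ) * v * q = 1 * (g * v) * q := by ring
        _ ≤ (ρ : ℝ) * (g * v) * q := by gcongr
        _ ≤ kap * (F ^ 2 * Y) := s3
        _ = kap * F * (F * Y) := by ring
        _ ≤ kap * (2 * kap * q) * (kap * q) := by gcongr
        _ = 2 * kap ^ 3 * q * q := by ring
    have e2 : (g : ℝ) * v ≤ 2 * kap ^ 3 * q := le_of_mul_le_mul_right e1 (by linarith)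
    refine e2.trans ?_
    have e3 : 2 * kap ^ 3 ≤ kap ^ 4 := by unfold kap; norm_num
    gcongr
  have hgw : (g : ℝ) * w ≤ kap ^ 4 * N := by
    have e1 : (g : ℝ) * w * q ≤ kap ^ 4 * q * q := by
      calc (g : ℝ) * w * q = 1 * (g * w) * q := by ring
        _ ≤ (ρ : ℝ) * (g * w) * q := by gcongr
        _ ≤ kap * (F * Y ^ 2) := s4
        _ = kap * (F * Y) * Y := by ring
        _ ≤ kap * (kap * q) * (kap ^ 2 * q) := by gcongr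
        _ = kap ^ 4 * q * q := by ring
    have e2 : (g : ℝ) * w ≤ kap ^ 4 * q := le_of_mul_le_mul_right e1 (by linarith)
    refine e2.trans ?_
    gcongr
  have hk4 : kap ^ 4 = (10 : ℝ) ^ 40 := by unfold kap; norm_num
  rw [hk4] at hgv hgw
  refine ⟨?_, ?_, ?_⟩
  · have : (g : ℝ) ≤ ((10 ^ 40 * N : ℕ) : ℝ) := by
      rw [Nat.cast_mul, Nat.cast_pow, Nat.cast_ofNat]
      exact (le_mul_of_one_le_right (by linarith) hv).trans hgv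
    exact_mod_cast this
  · have : (v : ℝ) ≤ ((10 ^ 40 * N : ℕ) : ℝ) := by
      rw [Nat.cast_mul, Nat.cast_pow, Nat.cast_ofNat]
      exact (le_mul_of_one_le_left (by linarith) hg).trans hgv
    exact_mod_cast this
  · have : (w : ℝ) ≤ ((10 ^ 40 * N : ℕ) : ℝ) := by
      rw [Nat.cast_mul, Nat.cast_pow, Nat.cast_ofNat]
      exact (le_mul_of_one_le_left (by linarith) hg).trans hgw
    exact_mod_cast this

/-- from `g` prime to `v w` to all `g` -/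
theorem cntr_red (ε : ℝ) (hε : 0 < ε) (hSMO : F5.S_SMO) : ∃ C : ℝ, 0 < C ∧ ∀ (N : ℕ) (F Y : ℝ),
    PFY N F Y → ∀ (Q : ℕ → ℕ → Prop) (B : ℝ), 0 ≤ B →
    (∀ Fs : Finset (ℕ × ℤ × ℤ × ℕ × ℕ × ℕ × ℤ × ℤ), (∀ x ∈ Fs, match x with
      | (ρ, m, a, g, v, w, s, t) => GoodA ρ m a g v w s t ∧ SzC N F Y ρ m a g v w s t ∧
        g.Coprime (v * w) ∧ Q v w) → (Fs.card : ℝ) ≤ B) →
    ∀ Fs : Finset (ℕ × ℤ × ℤ × ℕ × ℕ × ℕ × ℤ × ℤ), (∀ x ∈ Fs, match x with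
      | (ρ, m, a, g, v, w, s, t) => GoodA ρ m a g v w s t ∧ SzC N F Y ρ m a g v w s t ∧
        Q v w) → (Fs.card : ℝ) ≤ B * (C * (N : ℝ) ^ ε) := by
  classical
  obtain ⟨C₂, hC₂, H2⟩ := hSMO (ε / 3) (by positivity)
  refine ⟨C₂ * ((10 : ℝ) ^ 120) ^ (ε / 3), by positivity, ?_⟩
  intro N F Y hPFY Q B hB0 H1 Fs hFs
  have hN : 1 ≤ N := hPFY.1
  have hN0 : (0 : ℝ) < N := by exact_mod_cast hN
  -- the splitting
  have hsp : ∀ g v w : ℕ, ∃ p : ℕ × ℕ, 0 < g → 0 < v → 0 < w → g = p.1 * p.2 ∧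
      p.1.Coprime (v * w) ∧ 0 < p.2 ∧ p.2.primeFactors ⊆ (v * w).primeFactors := by
    intro g v w
    by_cases h : 0 < g ∧ 0 < v ∧ 0 < w
    · obtain ⟨g₁, w', k1, k2, k3, k4⟩ := cn2_split (v * w) (Nat.mul_pos h.2.1 h.2.2).ne' g h.1
      exact ⟨(g₁, w'), fun _ _ _ => ⟨k1, k2, k3, k4⟩⟩
    · exact ⟨(0, 0), fun h1 h2 h3 => absurd ⟨h1, h2, h3⟩ h⟩
  choose P hP using hsp
  set Φ : ℕ × ℤ × ℤ × ℕ × ℕ × ℕ × ℤ × ℤ → ℕ × ℤ × ℤ × ℕ × ℕ × ℕ × ℤ × ℤ := fun x =>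
    (x.1, x.2.1, x.2.2.1, (P x.2.2.2.1 x.2.2.2.2.1 x.2.2.2.2.2.1).1, x.2.2.2.2.1, x.2.2.2.2.2.1,
      x.2.2.2.2.2.2.1, x.2.2.2.2.2.2.2) with hΦ
  have hF' : ∀ x ∈ Fs, GoodA x.1 x.2.1 x.2.2.1 x.2.2.2.1 x.2.2.2.2.1 x.2.2.2.2.2.1
      x.2.2.2.2.2.2.1 x.2.2.2.2.2.2.2 ∧ SzC N F Y x.1 x.2.1 x.2.2.1 x.2.2.2.1 x.2.2.2.2.1
      x.2.2.2.2.2.1 x.2.2.2.2.2.2.1 x.2.2.2.2.2.2.2 ∧ Q x.2.2.2.2.1 x.2.2.2.2.2.1 := by
    rintro ⟨ρ, m, a, g, v, w, s, t⟩ hx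
    exact hFs _ hx
  have hcard1 : ((Fs.image Φ).card : ℝ) ≤ B := by
    apply H1
    intro y hy
    obtain ⟨x, hx, rfl⟩ := mem_image.mp hy
    obtain ⟨ρ, m, a, g, v, w, s, t⟩ := x
    obtain ⟨h1, h2, h3⟩ := hFs _ hx
    have h4 : 0 < g := h1.2.2.2.1
    have h5 : 0 < v := h1.2.2.2.2.1
    have h6 : 0 < w := h1.2.2.2.2.2.1
    obtain ⟨k1, k2, k3, k4⟩ := hP g v w h4 h5 h6
    exact ⟨goodA_dvd h1 (Dvd.intro _ k1.symm), szC_le h2 (Nat.le_of_dvd h4 (Dvd.intro _ k1.symm)),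
      k2, h3⟩
  have hfib : ∀ y ∈ Fs.image Φ, ((Fs.filter (fun x => Φ x = y)).card : ℝ) ≤
      C₂ * (((10 : ℝ) ^ 120) ^ (ε / 3) * (N : ℝ) ^ ε) := by
    intro y hy
    obtain ⟨x₀, hx₀, hxy⟩ := mem_image.mp hy
    have hg₀ := hF' x₀ hx₀
    set v := x₀.2.2.2.2.1 with hv
    set w := x₀.2.2.2.2.2.1 with hw
    have hv0 : 0 < v := hg₀.1.2.2.2.2.1
    have hw0 : 0 < w := hg₀.1.2.2.2.2.2.1
    have hsz := cntr_size hPFY hg₀.1 hg₀.2.1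
    have hinj : (Fs.filter (fun x => Φ x = y)).card ≤
        ((Icc 1 (10 ^ 40 * N)).filter (fun u => u.primeFactors ⊆ (v * w).primeFactors)).card := by
      apply card_le_card_of_injOn (fun x => (P x.2.2.2.1 v w).2)
      · intro x hx
        have hx' := mem_filter.mp (mem_coe.mp hx)
        have hgx := hF' x hx'.1
        have hΦx : Φ x = Φ x₀ := hx'.2.trans hxy.symm
        obtain ⟨k1, k2, k3, k4⟩ := hP x.2.2.2.1 v w hgx.1.2.2.2.1 hv0 hw0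
        have hszx := cntr_size hPFY hgx.1 hgx.2.1
        rw [mem_coe, mem_filter, mem_Icc]
        refine ⟨⟨k3, ?_⟩, k4⟩
        refine le_trans ?_ hszx.1
        exact Nat.le_of_dvd hgx.1.2.2.2.1 (Dvd.intro_left _ k1.symm)
      · intro x hx x' hx' hxx'
        have hx1 := mem_filter.mp (mem_coe.mp hx)
        have hx1' := mem_filter.mp (mem_coe.mp hx')
        have hgx := hF' x hx1.1
        have hgx' := hF' x' hx1'.1
        have hΦx : Φ x = Φ x₀ := hx1.2.trans hxy.symm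
        have hΦx' : Φ x' = Φ x₀ := hx1'.2.trans hxy.symm
        have e1 : x.2.2.2.2.1 = v := congrArg (fun z => z.2.2.2.2.1) hΦx
        have e2 : x.2.2.2.2.2.1 = w := congrArg (fun z => z.2.2.2.2.2.1) hΦx
        have e1' : x'.2.2.2.2.1 = v := congrArg (fun z => z.2.2.2.2.1) hΦx'
        have e2' : x'.2.2.2.2.2.1 = w := congrArg (fun z => z.2.2.2.2.2.1) hΦx'
        have hΦxx : Φ x = Φ x' := hΦx.trans hΦx'.symm
        have k := (hP x.2.2.2.1 v w hgx.1.2.2.2.1 hv0 hw0).1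
        have k' := (hP x'.2.2.2.1 v w hgx'.1.2.2.2.1 hv0 hw0).1
        have e3 : (P x.2.2.2.1 x.2.2.2.2.1 x.2.2.2.2.2.1).1 =
            (P x'.2.2.2.1 x'.2.2.2.2.1 x'.2.2.2.2.2.1).1 :=
          congrArg (fun z => z.2.2.2.1) hΦxx
        rw [e1, e2, e1', e2'] at e3
        have e4 : (P x.2.2.2.1 v w).2 = (P x'.2.2.2.1 v w).2 := hxx'
        have e5 : x.2.2.2.1 = x'.2.2.2.1 := by rw [k, k', e3, e4]
        have f1 : x.1 = x'.1 := congrArg (fun z => z.1) hΦxx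
        have f2 : x.2.1 = x'.2.1 := congrArg (fun z => z.2.1) hΦxx
        have f3 : x.2.2.1 = x'.2.2.1 := congrArg (fun z => z.2.2.1) hΦxx
        have f4 : x.2.2.2.2.2.2.1 = x'.2.2.2.2.2.2.1 := congrArg (fun z => z.2.2.2.2.2.2.1) hΦxx
        have f5 : x.2.2.2.2.2.2.2 = x'.2.2.2.2.2.2.2 := congrArg (fun z => z.2.2.2.2.2.2.2) hΦxx
        refine Prod.ext f1 (Prod.ext f2 (Prod.ext f3 (Prod.ext e5 (Prod.ext (e1.trans e1'.symm)
          (Prod.ext (e2.trans e2'.symm) (Prod.ext f4 f5))))))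
    calc ((Fs.filter (fun x => Φ x = y)).card : ℝ) ≤
          (((Icc 1 (10 ^ 40 * N)).filter
            (fun u => u.primeFactors ⊆ (v * w).primeFactors)).card : ℝ) := by
            exact_mod_cast hinj
      _ ≤ C₂ * (((v * w : ℕ) : ℝ) * ((10 ^ 40 * N : ℕ) : ℝ)) ^ (ε / 3) := by
          have := H2 (v * w) (10 ^ 40 * N) (Nat.mul_pos hv0 hw0) (by omega)
          exact this
      _ ≤ C₂ * (((10 : ℝ) ^ 120) * (N : ℝ) ^ (3 : ℕ)) ^ (ε / 3) := by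
          apply mul_le_mul_of_nonneg_left _ hC₂.le
          apply Real.rpow_le_rpow (by positivity) _ (by positivity)
          have h1 : (v * w : ℕ) * (10 ^ 40 * N) ≤ 10 ^ 120 * N ^ 3 := by
            calc (v * w) * (10 ^ 40 * N) ≤ ((10 ^ 40 * N) * (10 ^ 40 * N)) * (10 ^ 40 * N) :=
                  Nat.mul_le_mul_right _ (Nat.mul_le_mul hsz.2.1 hsz.2.2)
              _ = 10 ^ 120 * N ^ 3 := by ring
          exact_mod_cast h1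
      _ = C₂ * (((10 : ℝ) ^ 120) ^ (ε / 3) * (N : ℝ) ^ ε) := by
          rw [Real.mul_rpow (by positivity) (by positivity), ← Real.rpow_natCast (N : ℝ) 3,
            ← Real.rpow_mul hN0.le]
          congr 3
          push_cast
          ring
  have hsum : (Fs.card : ℝ) = ∑ y ∈ Fs.image Φ, ((Fs.filter (fun x => Φ x = y)).card : ℝ) := by
    rw [card_eq_sum_card_image Φ Fs]
    push_cast
    rfl
  rw [hsum]
  calc ∑ y ∈ Fs.image Φ, ((Fs.filter (fun x => Φ x = y)).card : ℝ) ≤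
        ∑ y ∈ Fs.image Φ, C₂ * (((10 : ℝ) ^ 120) ^ (ε / 3) * (N : ℝ) ^ ε) := sum_le_sum hfib
    _ = ((Fs.image Φ).card : ℝ) * (C₂ * (((10 : ℝ) ^ 120) ^ (ε / 3) * (N : ℝ) ^ ε)) := by
        rw [sum_const, nsmul_eq_mul]
    _ ≤ B * (C₂ * (((10 : ℝ) ^ 120) ^ (ε / 3) * (N : ℝ) ^ ε)) :=
        mul_le_mul_of_nonneg_right hcard1 (by positivity)
    _ = B * (C₂ * ((10 : ℝ) ^ 120) ^ (ε / 3) * (N : ℝ) ^ ε) := by ring

/-- **CNTR.** -/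
theorem t_CNTR (hCNB1 : S_CNB1) (hCNB2 : S_CNB2) (hSMO : F5.S_SMO) : S_CNTR := by
  classical
  intro ε hε
  obtain ⟨C₁, hC₁, H1⟩ := hCNB1 (ε / 2) (by positivity)
  obtain ⟨C₂, hC₂, H2⟩ := hCNB2 (ε / 2) (by positivity)
  obtain ⟨C₃, hC₃, H3⟩ := cntr_red (ε / 2) (by positivity) hSMO
  refine ⟨(C₁ + C₂) * C₃, by positivity, ?_⟩
  intro N F Y hP Fs hFs
  have hN0 : (0 : ℝ) < N := by exact_mod_cast hP.1
  set p : ℕ × ℤ × ℤ × ℕ × ℕ × ℕ × ℤ × ℤ → Prop := fun x =>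
    F * x.2.2.2.2.2.1 ≤ Y * x.2.2.2.2.1 with hp
  have hc : Fs.card = (Fs.filter p).card + (Fs.filter (fun x => ¬ p x)).card := by
    rw [Finset.card_filter_add_card_filter_not]
  have hY2 : 0 ≤ Y ^ 2 * Real.sqrt N := by positivity
  have e1 : ((Fs.filter p).card : ℝ) ≤
      C₁ * (N : ℝ) ^ (ε / 2) * (Y ^ 2 * Real.sqrt N) * (C₃ * (N : ℝ) ^ (ε / 2)) := by
    apply H3 N F Y hP (fun v w => F * w ≤ Y * v) _ (by positivity)
    · intro Fs' hFs'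
      exact H1 N F Y hP Fs' hFs'
    · rintro ⟨ρ, m, a, g, v, w, s, t⟩ hx
      obtain ⟨hx1, hx2⟩ := mem_filter.mp hx
      have h := hFs _ hx1
      exact ⟨h.1, h.2, hx2⟩
  have e2 : ((Fs.filter (fun x => ¬ p x)).card : ℝ) ≤
      C₂ * (N : ℝ) ^ (ε / 2) * (Y ^ 2 * Real.sqrt N) * (C₃ * (N : ℝ) ^ (ε / 2)) := by
    apply H3 N F Y hP (fun v w => Y * v ≤ F * w) _ (by positivity)
    · intro Fs' hFs'
      exact H2 N F Y hP Fs' hFs'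
    · rintro ⟨ρ, m, a, g, v, w, s, t⟩ hx
      obtain ⟨hx1, hx2⟩ := mem_filter.mp hx
      have h := hFs _ hx1
      have h3 : ¬ (F * w ≤ Y * v) := hx2
      exact ⟨h.1, h.2, (not_le.1 h3).le⟩
  have e3 : (N : ℝ) ^ (ε / 2) * (N : ℝ) ^ (ε / 2) = (N : ℝ) ^ ε := by
    rw [← Real.rpow_add hN0]
    congr 1
    ring
  rw [hc]
  push_cast
  calc ((Fs.filter p).card : ℝ) + ((Fs.filter (fun x => ¬ p x)).card : ℝ) ≤
        C₁ * (N : ℝ) ^ (ε / 2) * (Y ^ 2 * Real.sqrt N) * (C₃ * (N : ℝ) ^ (ε / 2)) +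
        C₂ * (N : ℝ) ^ (ε / 2) * (Y ^ 2 * Real.sqrt N) * (C₃ * (N : ℝ) ^ (ε / 2)) :=
          add_le_add e1 e2
    _ = (C₁ + C₂) * C₃ * ((N : ℝ) ^ (ε / 2) * (N : ℝ) ^ (ε / 2)) * (Y ^ 2 * Real.sqrt N) := by ring
    _ = _ := by rw [e3]

end Pool.Agent.T2h80.R5
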