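import Pool.Agent.T2h80.R5.Stm

/-! Task CNX of project R5 (helper47). -/

set_option autoImplicit false
set_option linter.all false

namespace Pool.Agent.T2h80.R5

open Finset Pool.Agent.T2h80.F5

namespace CNX

theorem log_bd (δ : ℝ) (hδ : 0 < δ) : ∃ c : ℝ, 0 < c ∧ ∀ Z : ℕ, 1 ≤ Z →
    ((Nat.log 2 Z + 1 : ℕ) : ℝ) ≤ c * (Z : ℝ) ^ δ := by
  have hl2 : 0 < Real.log 2 := Real.log_pos (by norm_num)
  refine ⟨1 + 1 / (δ * Real.log 2), by positivity, ?_⟩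
  intro Z hZ
  have hZ1 : (1 : ℝ) ≤ Z := by exact_mod_cast hZ
  have h1 : ((2 ^ Nat.log 2 Z : ℕ) : ℝ) ≤ (Z : ℝ) := by
    exact_mod_cast Nat.pow_log_le_self 2 (by omega)
  have h2 : (Nat.log 2 Z : ℝ) * Real.log 2 ≤ Real.log (Z : ℝ) := by
    rw [← Real.log_pow]
    apply Real.log_le_log (by positivity)
    exact_mod_cast h1
  have h3 : Real.log (Z : ℝ) ≤ (Z : ℝ) ^ δ / δ :=
    Real.log_le_rpow_div (by positivity) hδ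
  have h5 : (1 : ℝ) ≤ (Z : ℝ) ^ δ := Real.one_le_rpow hZ1 hδ.le
  have h6 : (Nat.log 2 Z : ℝ) ≤ 1 / (δ * Real.log 2) * (Z : ℝ) ^ δ := by
    rw [div_mul_eq_mul_div, le_div_iff₀ (by positivity)]
    have h7 := h2.trans h3
    rw [le_div_iff₀ hδ] at h7
    nlinarith
  push_cast
  nlinarith

theorem harm (δ : ℝ) (hδ : 0 < δ) : ∃ c : ℝ, 0 < c ∧ ∀ Z : ℕ, 1 ≤ Z →
    ∑ ρ ∈ Icc 1 Z, 1 / (ρ : ℝ) ≤ c * (Z : ℝ) ^ δ := by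
  refine ⟨1 + 1 / δ, by positivity, ?_⟩
  intro Z hZ
  have hZ1 : (1 : ℝ) ≤ Z := by exact_mod_cast hZ
  have h1 : ∑ ρ ∈ Icc 1 Z, 1 / (ρ : ℝ) ≤ 1 + Real.log (Z : ℝ) := by
    have h := harmonic_le_one_add_log Z
    rw [harmonic_eq_sum_Icc] at h
    push_cast at h
    simpa [one_div] using h
  have h3 : Real.log (Z : ℝ) ≤ (Z : ℝ) ^ δ / δ :=
    Real.log_le_rpow_div (by positivity) hδ
  have h5 : (1 : ℝ) ≤ (Z : ℝ) ^ δ := Real.one_le_rpow hZ1 hδ.le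
  have h6 : (Z : ℝ) ^ δ / δ = 1 / δ * (Z : ℝ) ^ δ := by ring
  rw [h6] at h3
  linarith

theorem cong_of_good {ρ g v w : ℕ} {m a s t : ℤ} (h : GoodA ρ m a g v w s t) :
    Cong ρ v w s t m := by
  obtain ⟨h1, h2, h3, h4, h5, h6, h7, h8, h9, h10, h11, h12⟩ := h
  refine ⟨?_, h11⟩
  obtain ⟨k, hk⟩ := h10
  refine ⟨k, ?_⟩
  have e : (ρ : ℤ) * t ^ 2 * v ^ 2 - ρ * s * t * w ^ 2 - m * w ^ 4 =
      v ^ 2 * (ρ * t ^ 2 - a * w ^ 2) := by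
    linear_combination (w : ℤ) ^ 2 * h9
  rw [e, hk]
  ring

/-- the type of the tuples -/
abbrev Tp : Type := ℕ × ℤ × ℤ × ℕ × ℕ × ℕ × ℤ × ℤ

/-- the class of a tuple -/
def key (x : Tp) : ℕ × ℕ × ℕ × ℕ :=
  (x.1, Nat.log 2 x.2.2.2.1, Nat.log 2 x.2.2.2.2.1, Nat.log 2 x.2.2.2.2.2.1)

/-- the conditions of CNX -/
def Cd (Z : ℕ) (U : ℝ) (fM fS fT : ℕ → ℕ → ℕ → ℕ → ℕ) (ρ : ℕ) (m a : ℤ) (g v w : ℕ) (s t : ℤ)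
    (G V W : ℕ) : Prop :=
  PBX ρ (fM ρ G V W) G V W (fS ρ G V W) (fT ρ G V W) ∧
    |m| ≤ (fM ρ G V W : ℤ) ∧ |s| ≤ (fS ρ G V W : ℤ) ∧ |t| ≤ (fT ρ G V W : ℤ) ∧
    ρ ≤ Z ∧ g ≤ Z ∧ v ≤ Z ∧ w ≤ Z ∧ fM ρ G V W ≤ Z ∧ fS ρ G V W ≤ Z ∧ fT ρ G V W ≤ Z ∧
    BBx ρ (fM ρ G V W) G V W (fS ρ G V W) (fT ρ G V W) ≤ U / ρ

/-- one fibre -/
theorem fibre {C₁ : ℝ} (hC₁ : 0 < C₁) {δ : ℝ}
    (H1 : ∀ ρ M G V W S T Z : ℕ,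
      PBX ρ M G V W S T → ρ ≤ Z → M ≤ Z → G ≤ Z → V ≤ Z → W ≤ Z → S ≤ Z → T ≤ Z →
      ∀ F : Finset (ℕ × ℕ × ℕ × ℤ × ℤ × ℤ),
      (∀ x ∈ F, match x with
        | (g, v, w, s, t, m) => G ≤ g ∧ g < 2 * G ∧ V ≤ v ∧ v < 2 * V ∧ W ≤ w ∧ w < 2 * W ∧
          v.Coprime w ∧ g.Coprime (v * w) ∧ g.Coprime ρ ∧ |s| ≤ (S : ℤ) ∧ |t| ≤ (T : ℤ) ∧
          |m| ≤ (M : ℤ) ∧ Cong ρ v w s t m ∧
          ∃ e f : ℤ, IsCoprime e g ∧ IsCoprime f g ∧ (g : ℤ) ∣ ρ * m - f ^ 2 ∧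
            (g : ℤ) ∣ ρ * e * s - f * (f * w + e * v) ∧
            (g : ℤ) ∣ ρ * f * t - e * (e * v - f * w)) →
      (F.card : ℝ) ≤ C₁ * (Z : ℝ) ^ δ * BBx ρ M G V W S T)
    {Z : ℕ} {U : ℝ} (hU : 0 ≤ U) {fM fS fT : ℕ → ℕ → ℕ → ℕ → ℕ} (F : Finset Tp)
    (hF : ∀ x ∈ F, match x with
      | (ρ, m, a, g, v, w, s, t) => GoodA ρ m a g v w s t ∧ g.Coprime (v * w) ∧
        Cd Z U fM fS fT ρ m a g v w s t (2 ^ Nat.log 2 g) (2 ^ Nat.log 2 v) (2 ^ Nat.log 2 w))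
    (k : ℕ × ℕ × ℕ × ℕ) :
    ((F.filter (fun x => key x = k)).card : ℝ) ≤ C₁ * (Z : ℝ) ^ δ * (U / (k.1 : ℝ)) := by
  classical
  obtain ⟨ρ, iG, iV, iW⟩ := k
  rcases (F.filter (fun x => key x = (ρ, iG, iV, iW))).eq_empty_or_nonempty with h0 | ⟨x₀, hx₀⟩
  · rw [h0, card_empty, Nat.cast_zero]
    positivity
  have hmem : ∀ x ∈ F.filter (fun x => key x = (ρ, iG, iV, iW)),
      x.1 = ρ ∧ GoodA ρ x.2.1 x.2.2.1 x.2.2.2.1 x.2.2.2.2.1 x.2.2.2.2.2.1 x.2.2.2.2.2.2.1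
        x.2.2.2.2.2.2.2 ∧ (x.2.2.2.1).Coprime (x.2.2.2.2.1 * x.2.2.2.2.2.1) ∧
      Cd Z U fM fS fT ρ x.2.1 x.2.2.1 x.2.2.2.1 x.2.2.2.2.1 x.2.2.2.2.2.1 x.2.2.2.2.2.2.1
        x.2.2.2.2.2.2.2 (2 ^ iG) (2 ^ iV) (2 ^ iW) ∧
      Nat.log 2 x.2.2.2.1 = iG ∧ Nat.log 2 x.2.2.2.2.1 = iV ∧ Nat.log 2 x.2.2.2.2.2.1 = iW := by
    rintro ⟨ρ', m, a, g, v, w, s, t⟩ hx
    obtain ⟨hxF, hxk⟩ := mem_filter.mp hx
    obtain ⟨h1, h2, h3⟩ := hF _ hxF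
    simp only [key, Prod.mk.injEq] at hxk
    obtain ⟨e1, e2, e3, e4⟩ := hxk
    subst e1
    rw [e2, e3, e4] at h3
    exact ⟨rfl, h1, h2, h3, e2, e3, e4⟩
  obtain ⟨-, hA0, -, hC0, l1, l2, l3⟩ := hmem x₀ hx₀
  obtain ⟨c1, c2, c3, c4, c5, c6, c7, c8, c9, c10, c11, c12⟩ := hC0
  have lo : ∀ (y i : ℕ), 0 < y → Nat.log 2 y = i → 2 ^ i ≤ y := by
    rintro y i hy rfl
    exact Nat.pow_log_le_self 2 hy.ne'
  have hi : ∀ (y i : ℕ), Nat.log 2 y = i → y < 2 * 2 ^ i := by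
    rintro y i rfl
    have := Nat.lt_pow_succ_log_self (b := 2) (by norm_num) y
    rw [pow_succ] at this
    omega
  have zG : 2 ^ iG ≤ Z := (lo _ iG hA0.2.2.2.1 l1).trans c6
  have zV : 2 ^ iV ≤ Z := (lo _ iV hA0.2.2.2.2.1 l2).trans c7
  have zW : 2 ^ iW ≤ Z := (lo _ iW hA0.2.2.2.2.2.1 l3).trans c8
  set ψ : Tp → ℕ × ℕ × ℕ × ℤ × ℤ × ℤ := fun x =>
    (x.2.2.2.1, x.2.2.2.2.1, x.2.2.2.2.2.1, x.2.2.2.2.2.2.1, x.2.2.2.2.2.2.2, x.2.1) with hψ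
  have hinj : Set.InjOn ψ (F.filter (fun x => key x = (ρ, iG, iV, iW)) : Set Tp) := by
    intro x hx x' hx' hxx
    obtain ⟨f1, f2, -⟩ := hmem x (mem_coe.mp hx)
    obtain ⟨f1', f2', -⟩ := hmem x' (mem_coe.mp hx')
    have e1 : x.2.2.2.1 = x'.2.2.2.1 := congrArg (fun z => z.1) hxx
    have e2 : x.2.2.2.2.1 = x'.2.2.2.2.1 := congrArg (fun z => z.2.1) hxx
    have e3 : x.2.2.2.2.2.1 = x'.2.2.2.2.2.1 := congrArg (fun z => z.2.2.1) hxx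
    have e4 : x.2.2.2.2.2.2.1 = x'.2.2.2.2.2.2.1 := congrArg (fun z => z.2.2.2.1) hxx
    have e5 : x.2.2.2.2.2.2.2 = x'.2.2.2.2.2.2.2 := congrArg (fun z => z.2.2.2.2.1) hxx
    have e6 : x.2.1 = x'.2.1 := congrArg (fun z => z.2.2.2.2.2) hxx
    have f4 := f2.2.2.2.2.2.2.2.2.1
    have f4' := f2'.2.2.2.2.2.2.2.2.1
    have f5 := f2.2.2.2.2.1
    have e7 : x.2.2.1 = x'.2.2.1 := by
      rw [← e2, ← e3, ← e4, ← e5, ← e6] at f4'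
      have hv : (0 : ℤ) < (x.2.2.2.2.1 : ℤ) ^ 2 := by
        have : (0 : ℤ) < (x.2.2.2.2.1 : ℤ) := by exact_mod_cast f5
        positivity
      have : (x.2.2.1) * (x.2.2.2.2.1 : ℤ) ^ 2 = (x'.2.2.1) * (x.2.2.2.2.1 : ℤ) ^ 2 := by
        linarith
      exact mul_right_cancel₀ hv.ne' this
    exact Prod.ext (f1.trans f1'.symm) (Prod.ext e6 (Prod.ext e7 (Prod.ext e1 (Prod.ext e2
      (Prod.ext e3 (Prod.ext e4 e5))))))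
  have hc := H1 ρ (fM ρ (2 ^ iG) (2 ^ iV) (2 ^ iW)) (2 ^ iG) (2 ^ iV) (2 ^ iW)
    (fS ρ (2 ^ iG) (2 ^ iV) (2 ^ iW)) (fT ρ (2 ^ iG) (2 ^ iV) (2 ^ iW)) Z c1 c5 c9 zG zV zW c10 c11
    ((F.filter (fun x => key x = (ρ, iG, iV, iW))).image ψ) (by
      intro y hy
      obtain ⟨x, hx, rfl⟩ := mem_image.mp hy
      obtain ⟨q1, q2, q3, q4, q5, q6, q7⟩ := hmem x hx
      obtain ⟨e, f, k1, k2, k3, k4, k5, k6⟩ := q2.2.2.2.2.2.2.2.2.2.2.2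
      exact ⟨lo _ _ q2.2.2.2.1 q5, hi _ _ q5, lo _ _ q2.2.2.2.2.1 q6, hi _ _ q6,
        lo _ _ q2.2.2.2.2.2.1 q7, hi _ _ q7, q2.2.2.2.2.2.2.1, q3, q2.2.2.2.2.2.2.2.1,
        q4.2.2.1, q4.2.2.2.1, q4.2.1, cong_of_good q2, e, f, k1, k2, k3, k5, k6⟩)
  rw [card_image_of_injOn hinj] at hc
  refine hc.trans ?_
  have : 0 ≤ (Z : ℝ) ^ δ := Real.rpow_nonneg (Nat.cast_nonneg _) _
  gcongr

end CNX

open CNX

/-- **CNX.** -/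
theorem t_CNX (hBOX : S_BOXR) : S_CNX := by
  classical
  intro ε hε C₀ hC₀
  obtain ⟨C₁, hC₁, H1⟩ := hBOX (ε / 50) (by positivity)
  obtain ⟨c₂, hc₂, H2⟩ := log_bd (ε / 50) (by positivity)
  obtain ⟨c₃, hc₃, H3⟩ := harm (ε / 50) (by positivity)
  obtain ⟨z0, hz0⟩ : ∃ z0 : ℕ, z0 = 10 ^ 200 := ⟨_, rfl⟩
  have hz0p : 0 < z0 := by rw [hz0]; positivity
  refine ⟨C₁ * C₀ * c₂ ^ 3 * c₃ * ((z0 : ℝ) ^ (ε / 50)) ^ 5, by positivity, ?_⟩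
  intro N hN Y hY fM fS fT F hF
  rw [← hz0] at hF
  obtain ⟨Z, hZ⟩ : ∃ Z : ℕ, Z = z0 * N ^ 10 := ⟨_, rfl⟩
  have hZ1 : 1 ≤ Z := by
    rw [hZ]
    have : 0 < z0 * N ^ 10 := by positivity
    omega
  have hN1 : (1 : ℝ) ≤ N := by exact_mod_cast hN
  have hN0 : (0 : ℝ) < N := by linarith
  obtain ⟨U, hU⟩ : ∃ U : ℝ, U = C₀ * (Y ^ 2 * Real.sqrt N) := ⟨_, rfl⟩
  have hU0 : 0 ≤ U := by rw [hU]; positivity
  have hF' : ∀ x ∈ F, match x with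
      | (ρ, m, a, g, v, w, s, t) => GoodA ρ m a g v w s t ∧ g.Coprime (v * w) ∧
        Cd Z U fM fS fT ρ m a g v w s t (2 ^ Nat.log 2 g) (2 ^ Nat.log 2 v) (2 ^ Nat.log 2 w) := by
    rintro ⟨ρ, m, a, g, v, w, s, t⟩ hx
    obtain ⟨h1, h2, G, V, W, rfl, rfl, rfl, p1, p2, p3, p4, p5, p6, p7, p8, p9, p10, p11, p12⟩ :=
      hF _ hx
    refine ⟨h1, h2, p1, p2, p3, p4, ?_, ?_, ?_, ?_, ?_, ?_, ?_, ?_⟩
    · rw [hZ]; exact p5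
    · rw [hZ]; exact p6
    · rw [hZ]; exact p7
    · rw [hZ]; exact p8
    · rw [hZ]; exact p9
    · rw [hZ]; exact p10
    · rw [hZ]; exact p11
    · rw [hU]
      refine p12.trans (le_of_eq ?_)
      ring
  set L := Nat.log 2 Z + 1 with hL
  set keys : Finset (ℕ × ℕ × ℕ × ℕ) :=
    (Icc 1 Z) ×ˢ (range L) ×ˢ (range L) ×ˢ (range L) with hkeys
  have hmaps : ∀ x ∈ F, key x ∈ keys := by
    rintro ⟨ρ, m, a, g, v, w, s, t⟩ hx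
    obtain ⟨h1, h2, h3⟩ := hF' _ hx
    have hlog : ∀ y : ℕ, y ≤ Z → Nat.log 2 y < L := by
      intro y hy
      have := Nat.log_mono_right (b := 2) hy
      omega
    simp only [hkeys, key, mem_product, mem_Icc, mem_range]
    exact ⟨⟨h1.1, h3.2.2.2.2.1⟩, hlog _ h3.2.2.2.2.2.1, hlog _ h3.2.2.2.2.2.2.1,
      hlog _ h3.2.2.2.2.2.2.2.1⟩
  have hfib := fibre hC₁ H1 hU0 F hF'
  have hsum : (F.card : ℝ) = ∑ k ∈ keys, ((F.filter (fun x => key x = k)).card : ℝ) := by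
    rw [card_eq_sum_card_fiberwise hmaps]
    push_cast
    rfl
  have hkeysum : ∑ k ∈ keys, (1 / (k.1 : ℝ)) = (L : ℝ) ^ 3 * ∑ ρ ∈ Icc 1 Z, 1 / (ρ : ℝ) := by
    rw [hkeys, sum_product, mul_sum]
    refine sum_congr rfl fun ρ _ => ?_
    change ∑ _y ∈ range L ×ˢ range L ×ˢ range L, (1 / (ρ : ℝ)) = _
    rw [sum_const, nsmul_eq_mul]
    congr 1
    simp only [card_product, card_range]
    push_cast
    ring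
  have hZr : (Z : ℝ) ^ (ε / 50) = (z0 : ℝ) ^ (ε / 50) * ((N : ℝ) ^ (ε / 50)) ^ 10 := by
    rw [hZ]
    push_cast
    rw [Real.mul_rpow (by positivity) (by positivity), ← Real.rpow_natCast_mul (by positivity),
      ← Real.rpow_mul_natCast (by positivity)]
    congr 2
    push_cast
    ring
  rw [hsum]
  obtain ⟨X, hX⟩ : ∃ X : ℝ, X = (Z : ℝ) ^ (ε / 50) := ⟨_, rfl⟩
  have hX0 : 0 ≤ X := by rw [hX]; positivity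
  have h2 := H2 Z hZ1
  have h3 := H3 Z hZ1
  rw [← hX] at h2 h3 hfib hZr
  have h0 : (0 : ℝ) ≤ ∑ ρ ∈ Icc 1 Z, 1 / (ρ : ℝ) := sum_nonneg fun _ _ => by positivity
  calc ∑ k ∈ keys, ((F.filter (fun x => key x = k)).card : ℝ) ≤
        ∑ k ∈ keys, C₁ * X * U * (1 / (k.1 : ℝ)) := by
        refine sum_le_sum fun k _ => (hfib k).trans (le_of_eq ?_)
        ring
    _ = C₁ * X * U * ((L : ℝ) ^ 3 * ∑ ρ ∈ Icc 1 Z, 1 / (ρ : ℝ)) := by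
        rw [← mul_sum, hkeysum]
    _ ≤ C₁ * X * U * ((c₂ * X) ^ 3 * (c₃ * X)) := by
        gcongr
    _ = C₁ * C₀ * c₂ ^ 3 * c₃ * (X ^ 5) * (Y ^ 2 * Real.sqrt N) := by
        rw [hU]
        ring
    _ = C₁ * C₀ * c₂ ^ 3 * c₃ * ((z0 : ℝ) ^ (ε / 50)) ^ 5 * (((N : ℝ) ^ (ε / 50)) ^ 50) *
          (Y ^ 2 * Real.sqrt N) := by
        rw [hZr]
        ring
    _ = _ := by
        congr 2
        rw [← Real.rpow_natCast, ← Real.rpow_mul hN0.le]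
        congr 1
        push_cast
        ring

end Pool.Agent.T2h80.R5
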