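import Pool.Agent.T2h80.R5.Stm

set_option autoImplicit false

namespace Pool.Agent.T2h80.R5

open Finset Pool.Agent.T2h80.F5

namespace DCRaux

/-- `3 S / G ≤ iR S G ≤ 4 S / G` -/
lemma iR_bounds {S G : ℕ} (hG : 1 ≤ G) (hGS : G ≤ S) :
    0 < (S : ℝ) / G ∧ 3 * ((S : ℝ) / G) ≤ (iR S G : ℝ) ∧ (iR S G : ℝ) ≤ 4 * ((S : ℝ) / G) := by
  have g0 : (0 : ℝ) < G := by exact_mod_cast hG
  have s0 : (G : ℝ) ≤ S := by exact_mod_cast hGS
  have h1 : 3 * S < G * (3 * S / G + 1) := Nat.lt_mul_div_succ _ (by omega)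
  have h2 : G * (3 * S / G) ≤ 3 * S := Nat.mul_div_le _ _
  have h1r : 3 * (S : ℝ) < G * (iR S G : ℝ) := by
    unfold iR
    exact_mod_cast h1
  have h2r : (G : ℝ) * (iR S G : ℝ) ≤ 3 * S + G := by
    have : G * (3 * S / G + 1) ≤ 3 * S + G := by nlinarith
    unfold iR
    exact_mod_cast this
  refine ⟨div_pos (lt_of_lt_of_le g0 s0) g0, ?_, ?_⟩
  · rw [← mul_div_assoc, div_le_iff₀ g0]
    linarith
  · rw [← mul_div_assoc, le_div_iff₀ g0]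
    linarith

set_option maxHeartbeats 1000000 in
lemma sizes (ρ M G V W S T v w e x y R r k l j : ℝ) (h1 : 0 < ρ) (h2 : 0 < M) (h3 : 0 < S)
    (h3' : 0 < T) (h4 : 0 < G) (h5 : 0 < V) (h6 : 0 < W)
    (hv : V ≤ v) (hv2 : v ≤ 2 * V) (hw : W ≤ w) (hw2 : w ≤ 2 * W) (he : 0 ≤ e)
    (heb : e * M ≤ (2 * G) ^ 2 * ρ * v ^ 3 * w) (hx : |x| ≤ 8 * (S / G)) (hy : |y| ≤ 8 * (T / G))
    (hR : |R| * (3 * (S / G)) ≤ v ^ 3 * w) (hr : |r| * (3 * (T / G)) ≤ v ^ 3)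
    (hk : e * y = k * v ^ 3 - R * w ^ 2)
    (hl : e * x = l * v ^ 3 - 2 * R * v ^ 2 - r * w ^ 3) (hj : 5 * R = 2 * l * v + j * w) :
    |k| ≤ 4000 * (G * (ρ * W * T / M + W ^ 3 / S)) ∧
      |l| ≤ 4000 * (G * (ρ * W * S / M + V ^ 2 * W / S + W ^ 3 / T)) ∧
      |j| ≤ 4000 * (G * (ρ * V * S / M + V ^ 3 / S + W ^ 2 * V / T)) ∧
      |r| ≤ 4000 * (G * V ^ 3 / T) := by
  have hvp : 0 < v := by linarith
  have hwp : 0 < w := by linarith
  have hv3 : 0 < v ^ 3 := by positivity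
  -- bounds
  have heb' : e ≤ 8 * G ^ 2 * W * ρ / M * v ^ 3 := by
    have : e ≤ (2 * G) ^ 2 * ρ * v ^ 3 * w / M := by
      rw [le_div_iff₀ (by positivity)]; exact heb
    refine this.trans ?_
    have : (2 * G) ^ 2 * ρ * v ^ 3 * w / M ≤
        (2 * G) ^ 2 * ρ * v ^ 3 * (2 * W) / M := by gcongr
    refine this.trans (le_of_eq ?_)
    ring
  have hR' : |R| ≤ v ^ 3 * w * (G / (3 * S)) := by
    have : |R| ≤ v ^ 3 * w / (3 * (S / G)) := by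
      rw [le_div_iff₀ (by positivity)]; exact hR
    refine this.trans (le_of_eq ?_)
    field_simp
  have hr' : |r| ≤ v ^ 3 * (G / (3 * T)) := by
    have : |r| ≤ v ^ 3 / (3 * (T / G)) := by
      rw [le_div_iff₀ (by positivity)]; exact hr
    refine this.trans (le_of_eq ?_)
    field_simp
  have v3b : v ^ 3 ≤ 8 * V ^ 3 := by
    calc v ^ 3 ≤ (2 * V) ^ 3 := by gcongr
      _ = 8 * V ^ 3 := by ring
  have w3b : w ^ 3 ≤ 8 * W ^ 3 := by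
    calc w ^ 3 ≤ (2 * W) ^ 3 := by gcongr
      _ = 8 * W ^ 3 := by ring
  have v2w : v ^ 2 * w ≤ 8 * V ^ 2 * W := by
    calc v ^ 2 * w ≤ (2 * V) ^ 2 * (2 * W) := by gcongr
      _ = 8 * V ^ 2 * W := by ring
  -- k
  have rk : |k| ≤ 64 * (G * (ρ * W * T / M + W ^ 3 / S)) := by
    have e0 : |k| * v ^ 3 = |e * y + R * w ^ 2| := by
      rw [show e * y + R * w ^ 2 = k * v ^ 3 by linarith, abs_mul, abs_of_pos hv3]
    have e1 : |e * y + R * w ^ 2| ≤ e * |y| + |R| * w ^ 2 := by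
      refine (abs_add_le _ _).trans (le_of_eq ?_)
      rw [abs_mul, abs_mul, abs_of_nonneg he, abs_of_pos (show (0:ℝ) < w ^ 2 by positivity)]
    have e2 : e * |y| ≤ 8 * G ^ 2 * W * ρ / M * v ^ 3 * (8 * (T / G)) :=
      mul_le_mul heb' hy (abs_nonneg _) (by positivity)
    have e3 : |R| * w ^ 2 ≤ v ^ 3 * (64 * (G * (W ^ 3 / S))) := by
      calc |R| * w ^ 2 ≤ v ^ 3 * w * (G / (3 * S)) * w ^ 2 := by gcongr
        _ = v ^ 3 * (w ^ 3 * (G / (3 * S))) := by ring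
        _ ≤ v ^ 3 * (8 * W ^ 3 * (G / (3 * S))) := by gcongr
        _ = v ^ 3 * (8 / 3 * (G * (W ^ 3 / S))) := by field_simp
        _ ≤ v ^ 3 * (64 * (G * (W ^ 3 / S))) := by gcongr; norm_num
    have e5 : 8 * G ^ 2 * W * ρ / M * v ^ 3 * (8 * (T / G)) =
        v ^ 3 * (64 * (G * (ρ * W * T / M))) := by field_simp; ring
    have e4 : |k| * v ^ 3 ≤ (64 * (G * (ρ * W * T / M + W ^ 3 / S))) * v ^ 3 := by
      rw [e0]
      calc _ ≤ e * |y| + |R| * w ^ 2 := e1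
        _ ≤ v ^ 3 * (64 * (G * (ρ * W * T / M))) + v ^ 3 * (64 * (G * (W ^ 3 / S))) := by
            rw [← e5]; exact add_le_add e2 e3
        _ = _ := by ring
    exact le_of_mul_le_mul_right e4 hv3
  have rl : |l| ≤ 64 * (G * (ρ * W * S / M + V ^ 2 * W / S + W ^ 3 / T)) := by
    have e0 : |l| * v ^ 3 = |e * x + 2 * R * v ^ 2 + r * w ^ 3| := by
      rw [show e * x + 2 * R * v ^ 2 + r * w ^ 3 = l * v ^ 3 by linarith, abs_mul, abs_of_pos hv3]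
    have e1 : |e * x + 2 * R * v ^ 2 + r * w ^ 3| ≤ e * |x| + 2 * |R| * v ^ 2 + |r| * w ^ 3 := by
      refine (abs_add_three _ _ _).trans (le_of_eq ?_)
      rw [abs_mul, abs_mul, abs_mul, abs_mul, abs_of_nonneg he,
        abs_of_pos (show (0:ℝ) < w ^ 3 by positivity), abs_of_pos (show (0:ℝ) < v ^ 2 by positivity),
        abs_of_pos (show (0:ℝ) < 2 by norm_num)]
    have e2 : e * |x| ≤ 8 * G ^ 2 * W * ρ / M * v ^ 3 * (8 * (S / G)) :=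
      mul_le_mul heb' hx (abs_nonneg _) (by positivity)
    have e3 : 2 * |R| * v ^ 2 ≤ v ^ 3 * (64 * (G * (V ^ 2 * W / S))) := by
      calc 2 * |R| * v ^ 2 ≤ 2 * (v ^ 3 * w * (G / (3 * S))) * v ^ 2 := by gcongr
        _ = v ^ 3 * (v ^ 2 * w * (2 * (G / (3 * S)))) := by ring
        _ ≤ v ^ 3 * (8 * V ^ 2 * W * (2 * (G / (3 * S)))) := by gcongr
        _ = v ^ 3 * (16 / 3 * (G * (V ^ 2 * W / S))) := by field_simp; ring
        _ ≤ v ^ 3 * (64 * (G * (V ^ 2 * W / S))) := by gcongr; norm_num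
    have e3' : |r| * w ^ 3 ≤ v ^ 3 * (64 * (G * (W ^ 3 / T))) := by
      calc |r| * w ^ 3 ≤ v ^ 3 * (G / (3 * T)) * w ^ 3 := by gcongr
        _ = v ^ 3 * (w ^ 3 * (G / (3 * T))) := by ring
        _ ≤ v ^ 3 * (8 * W ^ 3 * (G / (3 * T))) := by gcongr
        _ = v ^ 3 * (8 / 3 * (G * (W ^ 3 / T))) := by field_simp
        _ ≤ v ^ 3 * (64 * (G * (W ^ 3 / T))) := by gcongr; norm_num
    have e5 : 8 * G ^ 2 * W * ρ / M * v ^ 3 * (8 * (S / G)) =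
        v ^ 3 * (64 * (G * (ρ * W * S / M))) := by field_simp; ring
    have e4 : |l| * v ^ 3 ≤ (64 * (G * (ρ * W * S / M + V ^ 2 * W / S + W ^ 3 / T))) * v ^ 3 := by
      rw [e0]
      calc _ ≤ e * |x| + 2 * |R| * v ^ 2 + |r| * w ^ 3 := e1
        _ ≤ v ^ 3 * (64 * (G * (ρ * W * S / M))) + v ^ 3 * (64 * (G * (V ^ 2 * W / S))) +
            v ^ 3 * (64 * (G * (W ^ 3 / T))) := by
            rw [← e5]; exact add_le_add (add_le_add e2 e3) e3'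
        _ = _ := by ring
    exact le_of_mul_le_mul_right e4 hv3
  have pK : 0 < G * (ρ * W * T / M + W ^ 3 / S) := by positivity
  have pL : 0 < G * (ρ * W * S / M + V ^ 2 * W / S + W ^ 3 / T) := by positivity
  have pJ : 0 < G * (ρ * V * S / M + V ^ 3 / S + W ^ 2 * V / T) := by positivity
  have pR : 0 < G * V ^ 3 / T := by positivity
  refine ⟨by linarith, by linarith, ?_, ?_⟩
  · have e0 : |j| * w = |5 * R - 2 * l * v| := by
      rw [show 5 * R - 2 * l * v = j * w by linarith, abs_mul, abs_of_pos hwp]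
    have e1 : |5 * R - 2 * l * v| ≤ 5 * |R| + 2 * |l| * v := by
      refine (abs_sub _ _).trans (le_of_eq ?_)
      rw [abs_mul, abs_mul, abs_mul, abs_of_pos hvp, abs_of_pos (show (0:ℝ) < 2 by norm_num),
        abs_of_pos (show (0:ℝ) < 5 by norm_num)]
    have e2 : 5 * |R| ≤ w * (14 * (G * (ρ * V * S / M + V ^ 3 / S + W ^ 2 * V / T))) := by
      have e6 : G * (V ^ 3 / S) ≤ G * (ρ * V * S / M + V ^ 3 / S + W ^ 2 * V / T) := by
        have : 0 < ρ * V * S / M + W ^ 2 * V / T := by positivity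
        gcongr
        linarith
      calc 5 * |R| ≤ 5 * (v ^ 3 * w * (G / (3 * S))) := by gcongr
        _ ≤ 5 * (8 * V ^ 3 * w * (G / (3 * S))) := by gcongr
        _ = w * (40 / 3 * (G * (V ^ 3 / S))) := by field_simp; ring
        _ ≤ w * (14 * (G * (V ^ 3 / S))) := by gcongr; norm_num
        _ ≤ w * (14 * (G * (ρ * V * S / M + V ^ 3 / S + W ^ 2 * V / T))) := by gcongr
    have e3 : 2 * |l| * v ≤ w * (256 * (G * (ρ * V * S / M + V ^ 3 / S + W ^ 2 * V / T))) := by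
      calc 2 * |l| * v ≤ 2 * (64 * (G * (ρ * W * S / M + V ^ 2 * W / S + W ^ 3 / T))) * (2 * V) := by
            gcongr
        _ = W * (256 * (G * (ρ * V * S / M + V ^ 3 / S + W ^ 2 * V / T))) := by ring
        _ ≤ w * (256 * (G * (ρ * V * S / M + V ^ 3 / S + W ^ 2 * V / T))) := by gcongr
    have e4 : |j| * w ≤ (4000 * (G * (ρ * V * S / M + V ^ 3 / S + W ^ 2 * V / T))) * w := by
      rw [e0]
      generalize G * (ρ * V * S / M + V ^ 3 / S + W ^ 2 * V / T) = Z at e2 e3 pJ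
      have e5 : 0 < w * Z := mul_pos hwp pJ
      have e6 : w * (14 * Z) = 14 * (w * Z) := by ring
      have e7 : w * (256 * Z) = 256 * (w * Z) := by ring
      have e8 : 4000 * Z * w = 4000 * (w * Z) := by ring
      rw [e8]
      rw [e6] at e2
      rw [e7] at e3
      linarith
    exact le_of_mul_le_mul_right e4 hwp
  · have e1 : v ^ 3 * (G / (3 * T)) ≤ 8 * V ^ 3 * (G / (3 * T)) := by gcongr
    have e2 : 8 * V ^ 3 * (G / (3 * T)) = 8 / 3 * (G * V ^ 3 / T) := by field_simp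
    linarith

end DCRaux

open DCRaux

set_option maxHeartbeats 1000000 in
/-- the coefficient vector belonging to a counted difference -/
lemma dcr_exists (hDUA : S_DUA) {ρ M G V W S T : ℕ} (hP : PBX ρ M G V W S T) {g v w h : ℕ}
    (_hG1 : G ≤ g) (hG2 : g < 2 * G) (hV1 : V ≤ v) (hV2 : v < 2 * V) (hW1 : W ≤ w) (hW2 : w < 2 * W)
    (hco : v.Coprime w) (_hh : 1 ≤ h) (hhM : h * M ≤ g * v ^ 3 * w) {α β E₁ E₂ : ℤ}
    (c1 : (v : ℤ) ^ 3 ∣ w * α - 1) (c2 : (w : ℤ) ∣ v * β - 1) (c3 : (v : ℤ) ^ 3 ∣ E₁ - 1)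
    (c4 : (w : ℤ) ∣ E₁) (c5 : (w : ℤ) ∣ E₂ - 1) (c6 : (v : ℤ) ^ 3 ∣ E₂) (x y : ℤ)
    (hx : |x| ≤ 2 * (iR S G : ℤ)) (hy : |y| ≤ 2 * (iR T G : ℤ))
    (h1 : ∃ n : ℤ, |2 * (((h * g * ρ : ℕ) : ℝ) * E₂ * β ^ 2 / (v ^ 3 * w)) * x +
      (-(((h * g * ρ : ℕ) : ℝ) * E₁ * α ^ 2 / (v ^ 3 * w))) * y - n| ≤ 1 / (iR S G : ℝ))
    (h2 : ∃ n : ℤ, |(-(((h * g * ρ : ℕ) : ℝ) * E₁ * α ^ 2 / (v ^ 3 * w))) * x +
      2 * (((h * g * ρ : ℕ) : ℝ) * E₁ * v ^ 2 * α ^ 4 / (v ^ 3 * w)) * y - n| ≤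
        1 / (iR T G : ℝ)) :
    ∃ k l j r : ℤ, (|k| ≤ (cK ρ M G W S T : ℤ) ∧ |l| ≤ (cL ρ M G V W S T : ℤ) ∧
      |j| ≤ (cJ ρ M G V W S T : ℤ) ∧ |r| ≤ (cR G V T : ℤ)) ∧
      5 * (((h * g * ρ : ℕ) : ℤ) * x) = G1 k l j r v w ∧
      5 * (((h * g * ρ : ℕ) : ℤ) * y) = G2 k l j r v w := by
  obtain ⟨n, hn⟩ := h1
  obtain ⟨n', hn'⟩ := h2
  obtain ⟨q1, q2, q4, q5, q6, q7, q8, q9, q10, q11⟩ := hP
  obtain ⟨s1, s2, s3⟩ := iR_bounds q4 q9
  obtain ⟨t1, t2, t3⟩ := iR_bounds q4 q10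
  have hv0 : 0 < v := by omega
  have hw0 : 0 < w := by omega
  have r1 : (0 : ℝ) < ρ := by exact_mod_cast q1
  have r2 : (0 : ℝ) < M := by exact_mod_cast q2
  have r4 : (0 : ℝ) < G := by exact_mod_cast q4
  have r5 : (0 : ℝ) < V := by exact_mod_cast q5
  have r6 : (0 : ℝ) < W := by exact_mod_cast q6
  have r7 : (0 : ℝ) < S := by exact_mod_cast q7
  have r8 : (0 : ℝ) < T := by exact_mod_cast q8
  have rv : (0 : ℝ) < v := by exact_mod_cast hv0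
  have rw' : (0 : ℝ) < w := by exact_mod_cast hw0
  have iSp : (0 : ℝ) < iR S G := by linarith
  have iTp : (0 : ℝ) < iR T G := by linarith
  obtain ⟨E', hE'⟩ := c4
  set e : ℤ := ((h * g * ρ : ℕ) : ℤ) with he
  have her : ((h * g * ρ : ℕ) : ℝ) = (e : ℝ) := by rw [he]; push_cast; ring
  rw [her] at hn hn'
  set R : ℤ := e * (2 * E₂ * β ^ 2 * x - E₁ * α ^ 2 * y) - n * v ^ 3 * w with hR
  set r : ℤ := e * E' * (2 * v ^ 2 * α ^ 4 * y - α ^ 2 * x) - n' * v ^ 3 with hr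
  have hRr : (R : ℝ) = (2 * ((e : ℝ) * E₂ * β ^ 2 / (v ^ 3 * w)) * x +
      (-((e : ℝ) * E₁ * α ^ 2 / (v ^ 3 * w))) * y - n) * (v ^ 3 * w) := by
    rw [hR]; push_cast; field_simp; ring
  have hrr : (r : ℝ) = ((-((e : ℝ) * E₁ * α ^ 2 / (v ^ 3 * w))) * x +
      2 * ((e : ℝ) * E₁ * v ^ 2 * α ^ 4 / (v ^ 3 * w)) * y - n') * v ^ 3 := by
    rw [hr, hE']; push_cast; field_simp; ring
  have hRb : |(R : ℝ)| * (3 * ((S : ℝ) / G)) ≤ (v : ℝ) ^ 3 * w := by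
    rw [hRr, abs_mul, abs_of_pos (show (0 : ℝ) < v ^ 3 * w by positivity)]
    calc _ ≤ (1 / (iR S G : ℝ) * ((v : ℝ) ^ 3 * w)) * (3 * ((S : ℝ) / G)) := by
          gcongr
      _ ≤ (1 / (iR S G : ℝ) * ((v : ℝ) ^ 3 * w)) * (iR S G : ℝ) := by gcongr
      _ = (v : ℝ) ^ 3 * w := by field_simp
  have hrb : |(r : ℝ)| * (3 * ((T : ℝ) / G)) ≤ (v : ℝ) ^ 3 := by
    rw [hrr, abs_mul, abs_of_pos (show (0 : ℝ) < (v : ℝ) ^ 3 by positivity)]
    calc _ ≤ (1 / (iR T G : ℝ) * ((v : ℝ) ^ 3)) * (3 * ((T : ℝ) / G)) := by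
          gcongr
      _ ≤ (1 / (iR T G : ℝ) * ((v : ℝ) ^ 3)) * (iR T G : ℝ) := by gcongr
      _ = (v : ℝ) ^ 3 := by field_simp
  obtain ⟨z1, hz1⟩ := c1
  obtain ⟨z2, hz2⟩ := c2
  obtain ⟨z3, hz3⟩ := c3
  obtain ⟨z5, hz5⟩ := c5
  obtain ⟨z6, hz6⟩ := c6
  have hcoZ : IsCoprime (v : ℤ) (w : ℤ) := Nat.isCoprime_iff_coprime.mpr hco
  have d1 : (v : ℤ) ^ 3 ∣ e * y + R * w ^ 2 := by
    -- `R = -e α² y` mod `v³`
    have m1 : (v : ℤ) ^ 3 ∣ R + e * α ^ 2 * y :=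
      ⟨e * 2 * z6 * β ^ 2 * x - e * z3 * α ^ 2 * y - n * w, by
        rw [hR, hz6, show E₁ = v ^ 3 * z3 + 1 by linarith]; ring⟩
    have m2 : (v : ℤ) ^ 3 ∣ (w * α) ^ 2 - 1 :=
      ⟨z1 * (w * α + 1), by linear_combination (w * α + 1 : ℤ) * hz1⟩
    have : e * y + R * w ^ 2 = (R + e * α ^ 2 * y) * w ^ 2 - ((w * α) ^ 2 - 1) * (e * y) := by ring
    rw [this]
    exact (m1.mul_right _).sub (m2.mul_right _)
  have d2 : (w : ℤ) ∣ 2 * e * x - R * v ^ 2 := by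
    have m1 : (w : ℤ) ∣ R - 2 * e * β ^ 2 * x :=
      ⟨2 * e * z5 * β ^ 2 * x - e * E' * α ^ 2 * y - n * v ^ 3, by
        rw [hR, hE', show E₂ = w * z5 + 1 by linarith]; ring⟩
    have m2 : (w : ℤ) ∣ (v * β) ^ 2 - 1 :=
      ⟨z2 * (v * β + 1), by linear_combination (v * β + 1 : ℤ) * hz2⟩
    have : 2 * e * x - R * v ^ 2 = -((R - 2 * e * β ^ 2 * x) * v ^ 2) -
      ((v * β) ^ 2 - 1) * (2 * e * x) := by ring
    rw [this]
    exact ((m1.mul_right _).neg_right).sub (m2.mul_right _)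
  have d3 : (v : ℤ) ^ 3 ∣ r * w ^ 5 - e * (2 * v ^ 2 * y - w ^ 2 * x) := by
    have m1 : (v : ℤ) ^ 3 ∣ w * r - e * (2 * v ^ 2 * α ^ 4 * y - α ^ 2 * x) :=
      ⟨e * z3 * (2 * v ^ 2 * α ^ 4 * y - α ^ 2 * x) - n' * w, by
        have : w * r = e * E₁ * (2 * v ^ 2 * α ^ 4 * y - α ^ 2 * x) - n' * v ^ 3 * w := by
          rw [hr, hE']; ring
        rw [this, show E₁ = v ^ 3 * z3 + 1 by linarith]; ring⟩
    have m2 : (v : ℤ) ^ 3 ∣ (w * α) ^ 2 - 1 :=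
      ⟨z1 * (w * α + 1), by linear_combination (w * α + 1 : ℤ) * hz1⟩
    have : r * w ^ 5 - e * (2 * v ^ 2 * y - w ^ 2 * x) =
      (w * r - e * (2 * v ^ 2 * α ^ 4 * y - α ^ 2 * x)) * w ^ 4 +
      ((w * α) ^ 2 - 1) * (e * (2 * v ^ 2 * y) * ((w * α) ^ 2 + 1) - e * w ^ 2 * x) := by ring
    rw [this]
    exact (m1.mul_right _).add (m2.mul_right _)
  obtain ⟨k, l, j, i1, i2, i3, i4, i5⟩ := hDUA v w e x y R r (by exact_mod_cast hv0)
    (by exact_mod_cast hw0) hcoZ d1 d2 d3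
  have j1 : (e : ℝ) * y = k * v ^ 3 - R * w ^ 2 := by exact_mod_cast i1
  have j2 : (e : ℝ) * x = l * v ^ 3 - 2 * R * v ^ 2 - r * w ^ 3 := by exact_mod_cast i2
  have j3 : 5 * (R : ℝ) = 2 * l * v + j * w := by exact_mod_cast i3
  have heb : (e : ℝ) * M ≤ (2 * G) ^ 2 * ρ * v ^ 3 * w := by
    rw [← her]
    have f1 : ((h : ℝ) * M) ≤ g * v ^ 3 * w := by exact_mod_cast hhM
    have f2 : (g : ℝ) ≤ 2 * G := by exact_mod_cast hG2.le
    have f3 : ((h * g * ρ : ℕ) : ℝ) * M = (h * M) * (g * ρ) := by push_cast; ring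
    rw [f3]
    calc ((h : ℝ) * M) * (g * ρ) ≤ (g * v ^ 3 * w) * (g * ρ) := by gcongr
      _ = (g : ℝ) ^ 2 * ρ * v ^ 3 * w := by ring
      _ ≤ (2 * G) ^ 2 * ρ * v ^ 3 * w := by gcongr
  have hxr : |(x : ℝ)| ≤ 8 * ((S : ℝ) / G) := by
    have : |(x : ℝ)| ≤ 2 * (iR S G : ℝ) := by exact_mod_cast hx
    linarith
  have hyr : |(y : ℝ)| ≤ 8 * ((T : ℝ) / G) := by
    have : |(y : ℝ)| ≤ 2 * (iR T G : ℝ) := by exact_mod_cast hy
    linarith
  have hsz := sizes ρ M G V W S T v w e x y R r k l j r1 r2 r7 r8 r4 r5 r6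
    (by exact_mod_cast hV1) (by exact_mod_cast hV2.le)
    (by exact_mod_cast hW1) (by exact_mod_cast hW2.le) (by rw [← her]; positivity) heb hxr hyr
    hRb hrb j1 j2 j3
  obtain ⟨k1, k2, k3, k4⟩ := hsz
  refine ⟨k, l, j, r, ⟨?_, ?_, ?_, ?_⟩, i4, i5⟩
  · have : k.natAbs ≤ cK ρ M G W S T := by
      unfold cK rK
      apply Nat.le_floor
      rw [Nat.cast_natAbs, Int.cast_abs]
      exact k1
    rw [← Int.natCast_natAbs]; exact_mod_cast this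
  · have : l.natAbs ≤ cL ρ M G V W S T := by
      unfold cL rL
      apply Nat.le_floor
      rw [Nat.cast_natAbs, Int.cast_abs]
      exact k2
    rw [← Int.natCast_natAbs]; exact_mod_cast this
  · have : j.natAbs ≤ cJ ρ M G V W S T := by
      unfold cJ rJ
      apply Nat.le_floor
      rw [Nat.cast_natAbs, Int.cast_abs]
      exact k3
    rw [← Int.natCast_natAbs]; exact_mod_cast this
  · have : r.natAbs ≤ cR G V T := by
      unfold cR rR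
      apply Nat.le_floor
      rw [Nat.cast_natAbs, Int.cast_abs]
      exact k4
    rw [← Int.natCast_natAbs]; exact_mod_cast this

/-- **DCR.** -/
theorem t_DCR (hDUA : S_DUA) : S_DCR := by
  classical
  intro ρ M G V W S' T' hP g v w h hG1 hG2 hV1 hV2 hW1 hW2 hco hh hhM α β E₁ E₂ c1 c2 c3 c4 c5 c6
  have hex := dcr_exists hDUA hP hG1 hG2 hV1 hV2 hW1 hW2 hco hh hhM c1 c2 c3 c4 c5 c6
  obtain ⟨q1, q2, q4, q5, q6, -⟩ := hP
  have hepos : (0 : ℤ) < ((h * g * ρ : ℕ) : ℤ) := by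
    have : 0 < h * g * ρ := by
      have : 0 < g := by omega
      positivity
    exact_mod_cast this
  rw [DW]
  set S := ((Icc (-(2 * (iR S' G) : ℤ)) (2 * (iR S' G))) ×ˢ
    (Icc (-(2 * (iR T' G) : ℤ)) (2 * (iR T' G)))).filter (fun x : ℤ × ℤ =>
    (∃ n : ℤ, |2 * (((h * g * ρ : ℕ) : ℝ) * E₂ * β ^ 2 / (v ^ 3 * w)) * x.1 +
      (-(((h * g * ρ : ℕ) : ℝ) * E₁ * α ^ 2 / (v ^ 3 * w))) * x.2 - n| ≤ 1 / (iR S' G : ℝ)) ∧
    (∃ n : ℤ, |(-(((h * g * ρ : ℕ) : ℝ) * E₁ * α ^ 2 / (v ^ 3 * w))) * x.1 +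
      2 * (((h * g * ρ : ℕ) : ℝ) * E₁ * v ^ 2 * α ^ 4 / (v ^ 3 * w)) * x.2 - n| ≤
        1 / (iR T' G : ℝ))) with hS
  have hmem : ∀ p ∈ S, ∃ q : ℤ × ℤ × ℤ × ℤ, q ∈ BX (cK ρ M G W S' T') (cL ρ M G V W S' T')
      (cJ ρ M G V W S' T') (cR G V T') ∧
      5 * (((h * g * ρ : ℕ) : ℤ) * p.1) = G1 q.1 q.2.1 q.2.2.1 q.2.2.2 v w ∧
      5 * (((h * g * ρ : ℕ) : ℤ) * p.2) = G2 q.1 q.2.1 q.2.2.1 q.2.2.2 v w := by
    rintro ⟨x, y⟩ hp
    rw [hS, Finset.mem_filter, Finset.mem_product, Finset.mem_Icc, Finset.mem_Icc] at hp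
    obtain ⟨⟨hx, hy⟩, hn, hn'⟩ := hp
    obtain ⟨k, l, j, r, ⟨b1, b2, b3, b4⟩, e1, e2⟩ := hex x y (abs_le.mpr hx) (abs_le.mpr hy) hn hn'
    refine ⟨(k, l, j, r), ?_, e1, e2⟩
    simp only [BX, Finset.mem_product, Finset.mem_Icc]
    exact ⟨abs_le.mp b1, abs_le.mp b2, abs_le.mp b3, abs_le.mp b4⟩
  choose! f hf1 hf2 hf3 using hmem
  have hcard : (S.erase (0, 0)).card ≤ KPR ρ M G V W S' T' (h * g * ρ) v w := by
    rw [KPR, KK]
    apply Finset.card_le_card_of_injOn f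
    · intro p hp
      rw [Finset.mem_coe, Finset.mem_erase] at hp
      rw [Finset.mem_coe, Finset.mem_filter]
      refine ⟨hf1 p hp.2, ?_, ?_, ?_⟩
      · rw [← hf2 p hp.2]
        exact ⟨5 * p.1, by ring⟩
      · rw [← hf3 p hp.2]
        exact ⟨5 * p.2, by ring⟩
      · rintro ⟨z1, z2⟩
        rw [← hf2 p hp.2] at z1
        rw [← hf3 p hp.2] at z2
        apply hp.1
        have y1 : p.1 = 0 := by
          rcases mul_eq_zero.mp z1 with h' | h'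
          · norm_num at h'
          · exact (mul_eq_zero.mp h').resolve_left hepos.ne'
        have y2 : p.2 = 0 := by
          rcases mul_eq_zero.mp z2 with h' | h'
          · norm_num at h'
          · exact (mul_eq_zero.mp h').resolve_left hepos.ne'
        exact Prod.ext y1 y2
    · intro p hp p' hp' hpp
      rw [Finset.mem_coe, Finset.mem_erase] at hp hp'
      have a1 := hf2 p hp.2
      have a2 := hf2 p' hp'.2
      have b1 := hf3 p hp.2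
      have b2 := hf3 p' hp'.2
      rw [hpp, ← a2] at a1
      rw [hpp, ← b2] at b1
      have a3 := mul_left_cancel₀ hepos.ne' (mul_left_cancel₀ (by norm_num) a1)
      have b3 := mul_left_cancel₀ hepos.ne' (mul_left_cancel₀ (by norm_num) b1)
      exact Prod.ext a3 b3
  have := Finset.pred_card_le_card_erase (s := S) (a := ((0 : ℤ), (0 : ℤ)))
  omega

end Pool.Agent.T2h80.R5
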