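import Pool.Agent.T2h80.R5.Stm
import Pool.Agent.T2h80.F5.DEG

/-! Project R5, part DEGR: the coefficient vectors with resultant zero. -/

set_option autoImplicit false

namespace Pool.Agent.T2h80.R5

open Finset Pool.Agent.T2h80.F5

namespace DEGR

open Pool.Agent.T2h80.F5.H97

/-- the vectors -/
noncomputable def BB (K L J R : ℕ) : Finset (ℤ × ℤ × ℤ × ℤ) :=
  (BX K L J R).filter (fun x => RS x.1 x.2.1 x.2.2.1 x.2.2.2 = 0 ∧ ¬ (x.1 = 0 ∧ x.2.1 = 0) ∧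
    ¬ (x.2.2.1 = 0 ∧ x.2.2.2 = 0))

theorem mem_BB {K L J R : ℕ} {x : ℤ × ℤ × ℤ × ℤ} (h : x ∈ BB K L J R) :
    (x.1 ∈ Icc (-(K : ℤ)) K ∧ x.2.1 ∈ Icc (-(L : ℤ)) L ∧ x.2.2.1 ∈ Icc (-(J : ℤ)) J ∧
      x.2.2.2 ∈ Icc (-(R : ℤ)) R) ∧ RS x.1 x.2.1 x.2.2.1 x.2.2.2 = 0 ∧
      ¬ (x.1 = 0 ∧ x.2.1 = 0) ∧ ¬ (x.2.2.1 = 0 ∧ x.2.2.2 = 0) := by
  obtain ⟨h1, h2⟩ := mem_filter.1 h
  unfold BX at h1
  rw [mem_product, mem_product, mem_product] at h1
  exact ⟨h1, h2⟩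

theorem caseA (K L J R : ℕ) (x : ℤ × ℤ × ℤ × ℤ) (h : x ∈ BB K L J R) (h0 : x.1 = 0) :
    x.2.1 ≠ 0 ∧ 8 * x.2.1 ^ 2 * x.2.2.2 = -x.2.2.1 ^ 3 := by
  obtain ⟨_, h1, h2, h3⟩ := mem_BB h
  have hl : x.2.1 ≠ 0 := fun h4 => h2 ⟨h0, h4⟩
  refine ⟨hl, ?_⟩
  rw [h0] at h1
  unfold RS at h1
  have h4 : (5 * x.2.1 ^ 3) * (8 * x.2.1 ^ 2 * x.2.2.2 + x.2.2.1 ^ 3) = 0 := by
    linear_combination -h1
  have h5 := (mul_eq_zero.1 h4).resolve_left (mul_ne_zero (by norm_num) (pow_ne_zero _ hl))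
  linarith

theorem caseB (K L J R : ℕ) (x : ℤ × ℤ × ℤ × ℤ) (h : x ∈ BB K L J R) (h0 : x.2.2.2 = 0) :
    x.2.2.1 ≠ 0 ∧ 8 * x.2.2.1 ^ 2 * x.1 = x.2.1 ^ 3 := by
  obtain ⟨_, h1, h2, h3⟩ := mem_BB h
  have hl : x.2.2.1 ≠ 0 := fun h4 => h3 ⟨h4, h0⟩
  refine ⟨hl, ?_⟩
  rw [h0] at h1
  unfold RS at h1
  have h4 : (5 * x.2.2.1 ^ 3) * (8 * x.2.2.1 ^ 2 * x.1 - x.2.1 ^ 3) = 0 := by
    linear_combination h1
  have h5 := (mul_eq_zero.1 h4).resolve_left (mul_ne_zero (by norm_num) (pow_ne_zero _ hl))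
  linarith

/-- the vectors with `k r = 0` -/
theorem zero_part (K L J R : ℕ) :
    ((BB K L J R).filter (fun x => x.1 * x.2.2.2 = 0)).card ≤ 2 * ((2 * L + 1) * (2 * J + 1)) := by
  have hinj : Set.InjOn (fun x : ℤ × ℤ × ℤ × ℤ => (decide (x.1 = 0), x.2.1, x.2.2.1))
      ((BB K L J R).filter (fun x => x.1 * x.2.2.2 = 0) : Set (ℤ × ℤ × ℤ × ℤ)) := by
    intro x hx y hy hxy
    obtain ⟨hx1, hx2⟩ := mem_filter.1 (mem_coe.1 hx)
    obtain ⟨hy1, hy2⟩ := mem_filter.1 (mem_coe.1 hy)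
    simp only [Prod.mk.injEq, decide_eq_decide] at hxy
    obtain ⟨p1, p2, p3⟩ := hxy
    by_cases h0 : x.1 = 0
    · have h0' : y.1 = 0 := p1.1 h0
      obtain ⟨a1, a2⟩ := caseA K L J R x hx1 h0
      obtain ⟨b1, b2⟩ := caseA K L J R y hy1 h0'
      rw [← p2, ← p3] at b2
      have h3 : 8 * x.2.1 ^ 2 ≠ 0 := mul_ne_zero (by norm_num) (pow_ne_zero _ a1)
      have h4 : x.2.2.2 = y.2.2.2 := mul_left_cancel₀ h3 (a2.trans b2.symm)
      exact Prod.ext (h0.trans h0'.symm) (Prod.ext p2 (Prod.ext p3 h4))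
    · have h0' : y.1 ≠ 0 := fun h => h0 (p1.2 h)
      have r1 := (mul_eq_zero.1 hx2).resolve_left h0
      have r2 := (mul_eq_zero.1 hy2).resolve_left h0'
      obtain ⟨a1, a2⟩ := caseB K L J R x hx1 r1
      obtain ⟨b1, b2⟩ := caseB K L J R y hy1 r2
      rw [← p2, ← p3] at b2
      have h3 : 8 * x.2.2.1 ^ 2 ≠ 0 := mul_ne_zero (by norm_num) (pow_ne_zero _ a1)
      have h4 : x.1 = y.1 := mul_left_cancel₀ h3 (a2.trans b2.symm)
      exact Prod.ext h4 (Prod.ext p2 (Prod.ext p3 (r1.trans r2.symm)))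
  have hmap : ∀ x ∈ (BB K L J R).filter (fun x => x.1 * x.2.2.2 = 0),
      (fun x : ℤ × ℤ × ℤ × ℤ => (decide (x.1 = 0), x.2.1, x.2.2.1)) x ∈
        (Finset.univ : Finset Bool) ×ˢ (Icc (-(L : ℤ)) L) ×ˢ (Icc (-(J : ℤ)) J) := by
    intro x hx
    have h1 := (mem_BB (mem_filter.1 hx).1).1
    simp only [mem_product, mem_univ, true_and]
    exact ⟨h1.2.1, h1.2.2.1⟩
  have h := card_le_card_of_injOn _ hmap hinj
  rw [card_product, card_product, card_I, card_I, Finset.card_univ, Fintype.card_bool] at h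
  exact h

/-- the vectors with `k r ≠ 0` -/
theorem gen_part (K L J R Z : ℕ) (hL : L ≤ Z) (hJ : J ≤ Z) (B : ℝ)
    (hB : ∀ b ∈ (Icc (-(K : ℤ)) K) ×ˢ (Icc (-(R : ℤ)) R), b.1 * b.2 ≠ 0 →
      ((Fib Z b.1 b.2).card : ℝ) ≤ B) (hB0 : 0 ≤ B) :
    (((BB K L J R).filter (fun x => x.1 * x.2.2.2 ≠ 0)).card : ℝ) ≤
      (2 * K + 1) * (2 * R + 1) * B := by
  classical
  have h1 : ((BB K L J R).filter (fun x => x.1 * x.2.2.2 ≠ 0)).card =
      ∑ b ∈ (Icc (-(K : ℤ)) K) ×ˢ (Icc (-(R : ℤ)) R),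
        (((BB K L J R).filter (fun x => x.1 * x.2.2.2 ≠ 0)).filter
          (fun x => (x.1, x.2.2.2) = b)).card := by
    refine card_eq_sum_card_fiberwise ?_
    intro x hx
    have hx1 := (mem_BB (mem_filter.1 (mem_coe.1 hx)).1).1
    rw [mem_coe, mem_product]
    exact ⟨hx1.1, hx1.2.2.2⟩
  rw [h1]
  push_cast
  have h2 : ∀ b ∈ (Icc (-(K : ℤ)) K) ×ˢ (Icc (-(R : ℤ)) R),
      ((((BB K L J R).filter (fun x => x.1 * x.2.2.2 ≠ 0)).filter
        (fun x => (x.1, x.2.2.2) = b)).card : ℝ) ≤ B := by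
    intro b hb
    by_cases h0 : b.1 * b.2 = 0
    · have he : ((BB K L J R).filter (fun x => x.1 * x.2.2.2 ≠ 0)).filter
          (fun x => (x.1, x.2.2.2) = b) = ∅ := by
        rw [filter_eq_empty_iff]
        intro x hx hxb
        have := (mem_filter.1 hx).2
        rw [← hxb] at h0
        exact this h0
      rw [he, card_empty, Nat.cast_zero]
      exact hB0
    · refine le_trans ?_ (hB b hb h0)
      have h3 : (((BB K L J R).filter (fun x => x.1 * x.2.2.2 ≠ 0)).filter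
          (fun x => (x.1, x.2.2.2) = b)).card ≤ (Fib Z b.1 b.2).card := by
        refine card_le_card_of_injOn (fun x => (x.2.1, x.2.2.1)) ?_ ?_
        · intro x hx
          obtain ⟨hx1, hx2⟩ := mem_filter.1 (mem_coe.1 hx)
          obtain ⟨hx3, hx4, _⟩ := mem_BB (mem_filter.1 hx1).1
          rw [mem_coe, Fib, mem_filter, mem_product]
          have i1 := mem_Icc.1 hx3.2.1
          have i2 := mem_Icc.1 hx3.2.2.1
          refine ⟨⟨mem_Icc.2 ⟨?_, ?_⟩, mem_Icc.2 ⟨?_, ?_⟩⟩, ?_⟩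
          · show -(Z : ℤ) ≤ x.2.1
            omega
          · show x.2.1 ≤ (Z : ℤ)
            omega
          · show -(Z : ℤ) ≤ x.2.2.1
            omega
          · show x.2.2.1 ≤ (Z : ℤ)
            omega
          rw [← hx2]
          exact hx4
        · intro x hx y hy hxy
          have hx2 := (mem_filter.1 (mem_coe.1 hx)).2
          have hy2 := (mem_filter.1 (mem_coe.1 hy)).2
          have e1 := hx2.trans hy2.symm
          simp only [Prod.mk.injEq] at e1 hxy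
          exact Prod.ext e1.1 (Prod.ext hxy.1 (Prod.ext hxy.2 e1.2))
      exact_mod_cast h3
  refine (sum_le_sum h2).trans ?_
  rw [sum_const, card_product, card_I, card_I, nsmul_eq_mul]
  push_cast
  exact le_refl _

end DEGR

open DEGR Pool.Agent.T2h80.F5.H97 in
theorem t_DEGR (hDIV : Pool.Agent.T2h80.F5.S_DIV) : S_DEGR := by
  classical
  intro ε hε
  obtain ⟨C, hC, h⟩ := tau_bd hDIV (ε / 2) (by positivity) 25 (by norm_num) 2 (by norm_num)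
  refine ⟨32 * C ^ 2 + 8, by positivity, fun K L J R Z hZ hK hL hJ hR => ?_⟩
  set T : ℝ := (Z : ℝ) ^ (ε / 2) with hT
  have hZ1 : (1 : ℝ) ≤ Z := by exact_mod_cast hZ
  have hT1 : 1 ≤ T := Real.one_le_rpow hZ1 (by positivity)
  have hTT : (Z : ℝ) ^ ε = T ^ 2 := by
    rw [hT, ← Real.rpow_natCast ((Z : ℝ) ^ (ε / 2)) 2, ← Real.rpow_mul (by linarith)]
    congr 1
    push_cast
    ring
  -- the divisor bounds
  have hDn : ∀ n : ℤ, n ≠ 0 → |n| ≤ 25 * (Z : ℤ) ^ 2 → ((DD n).card : ℝ) ≤ 2 * (C * T) := by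
    intro n hn hnb
    have h1 : ((DD n).card : ℝ) ≤ 2 * (n.natAbs.divisors.card : ℝ) := by
      exact_mod_cast card_DD n
    have h2 : (n.natAbs : ℝ) ≤ 25 * (Z : ℝ) ^ 2 := by
      have : ((n.natAbs : ℤ) : ℝ) ≤ ((25 * (Z : ℤ) ^ 2 : ℤ) : ℝ) := by
        rw [Int.cast_le, Int.natCast_natAbs]
        exact hnb
      push_cast at this
      simpa using this
    have h3 := (h Z n.natAbs hZ (Nat.pos_of_ne_zero (Int.natAbs_ne_zero.2 hn)) h2).1
    linarith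
  have hgen : ∀ b ∈ (Icc (-(K : ℤ)) K) ×ˢ (Icc (-(R : ℤ)) R), b.1 * b.2 ≠ 0 →
      ((Fib Z b.1 b.2).card : ℝ) ≤ 8 * C ^ 2 * T ^ 2 := by
    rintro ⟨k, r⟩ hb h0
    rw [mem_product, mem_Icc, mem_Icc] at hb
    simp only at hb h0 ⊢
    have hbk : |k| ≤ (Z : ℤ) := abs_le.2 ⟨by omega, by omega⟩
    have hbr : |r| ≤ (Z : ℤ) := abs_le.2 ⟨by omega, by omega⟩
    have hk : k ≠ 0 := left_ne_zero_of_mul h0
    have hr : r ≠ 0 := right_ne_zero_of_mul h0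
    have hZz : (1 : ℤ) ≤ Z := by exact_mod_cast hZ
    have c1 := hDn (25 * k * r) (by rw [mul_assoc]; exact mul_ne_zero (by norm_num) h0) (by
      rw [abs_mul, abs_mul, abs_of_pos (by norm_num : (0 : ℤ) < 25)]
      have : |k| * |r| ≤ (Z : ℤ) * Z := mul_le_mul hbk hbr (abs_nonneg _) (by positivity)
      nlinarith)
    have c2 := hDn (5 * r) (mul_ne_zero (by norm_num) hr) (by
      rw [abs_mul, abs_of_pos (by norm_num : (0 : ℤ) < 5)]
      nlinarith)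
    have c3 := hDn (5 * k) (mul_ne_zero (by norm_num) hk) (by
      rw [abs_mul, abs_of_pos (by norm_num : (0 : ℤ) < 5)]
      nlinarith)
    have c4 : ((Fib Z k r).card : ℝ) ≤ (DD (25 * k * r)).card * (DD (25 * k * r)).card +
      (DD (5 * r)).card * (DD (5 * k)).card := by exact_mod_cast fib_gen Z k r h0
    have c5 : ((DD (25 * k * r)).card : ℝ) * (DD (25 * k * r)).card ≤
        (2 * (C * T)) * (2 * (C * T)) := mul_le_mul c1 c1 (by positivity) (by positivity)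
    have c6 : ((DD (5 * r)).card : ℝ) * (DD (5 * k)).card ≤
        (2 * (C * T)) * (2 * (C * T)) := mul_le_mul c2 c3 (by positivity) (by positivity)
    nlinarith
  have hz : (((BB K L J R).filter (fun x => x.1 * x.2.2.2 = 0)).card : ℝ) ≤
      2 * ((2 * L + 1) * (2 * J + 1)) := by exact_mod_cast zero_part K L J R
  have hg := gen_part K L J R Z hL hJ (8 * C ^ 2 * T ^ 2) hgen (by positivity)
  have hU : (BB K L J R).card = ((BB K L J R).filter (fun x => x.1 * x.2.2.2 = 0)).card +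
      ((BB K L J R).filter (fun x => x.1 * x.2.2.2 ≠ 0)).card :=
    (card_filter_add_card_filter_not _).symm
  have hU' : ((BB K L J R).card : ℝ) ≤ 2 * ((2 * L + 1) * (2 * J + 1)) +
      (2 * K + 1) * (2 * R + 1) * (8 * C ^ 2 * T ^ 2) := by
    rw [hU]
    push_cast
    exact add_le_add hz hg
  have hT2 : 1 ≤ T ^ 2 := one_le_pow₀ hT1
  have a1 : (2 * (L : ℝ) + 1) * (2 * J + 1) ≤ 4 * ((1 + L) * (1 + J)) := by nlinarith [(by positivity : (0 : ℝ) ≤ L), (by positivity : (0 : ℝ) ≤ J)]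
  have a2 : (2 * (K : ℝ) + 1) * (2 * R + 1) ≤ 4 * ((1 + K) * (1 + R)) := by nlinarith [(by positivity : (0 : ℝ) ≤ K), (by positivity : (0 : ℝ) ≤ R)]
  have b1 : 0 ≤ (1 + (L : ℝ)) * (1 + J) := by positivity
  have b2 : 0 ≤ (1 + (K : ℝ)) * (1 + R) := by positivity
  have c1 : 8 * ((1 + (L : ℝ)) * (1 + J)) ≤ 8 * T ^ 2 * ((1 + L) * (1 + J)) := by nlinarith
  have c2 : (2 * (K : ℝ) + 1) * (2 * R + 1) * (8 * C ^ 2 * T ^ 2) ≤
      32 * C ^ 2 * T ^ 2 * ((1 + K) * (1 + R)) := by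
    calc (2 * (K : ℝ) + 1) * (2 * R + 1) * (8 * C ^ 2 * T ^ 2) ≤
          4 * ((1 + K) * (1 + R)) * (8 * C ^ 2 * T ^ 2) :=
          mul_le_mul_of_nonneg_right a2 (by positivity)
      _ = _ := by ring
  rw [hTT]
  have d1 : 0 ≤ C ^ 2 * T ^ 2 * ((1 + (L : ℝ)) * (1 + J)) := by positivity
  have d2 : 0 ≤ T ^ 2 * ((1 + (K : ℝ)) * (1 + R)) := by positivity
  calc ((BB K L J R).card : ℝ) ≤ 2 * ((2 * L + 1) * (2 * J + 1)) +
        (2 * K + 1) * (2 * R + 1) * (8 * C ^ 2 * T ^ 2) := hU'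
    _ ≤ 8 * T ^ 2 * ((1 + L) * (1 + J)) + 32 * C ^ 2 * T ^ 2 * ((1 + K) * (1 + R)) := by linarith
    _ ≤ (32 * C ^ 2 + 8) * T ^ 2 * ((1 + K) * (1 + R) + (1 + L) * (1 + J)) := by nlinarith

end Pool.Agent.T2h80.R5
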