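import Pool.Agent.T2h80.R5.ZAR

/-! Project R5, part DERR: from the relations to the tuples. -/

set_option autoImplicit false

namespace Pool.Agent.T2h80.R5

open Pool.Agent.T2h80.F5

namespace DERR

open ZAR

/-- existence of `s` and `t` and of the reduced relations -/
theorem core (D ρ : ℕ) (m a x₁ u₁ x₂ u₂ : ℤ)
    (hR : RELR D ρ m a x₁ u₁ x₂ u₂) (h1 : u₁ ≠ 0) (h2 : u₂ ≠ 0) :
    ∃ (g v w : ℕ) (s t : ℤ), u₁ = g * v ∧ u₂ = g * w ∧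
      x₁ * w + x₂ * v + thR D * (g * v * w) = ρ * a * s ∧
      x₂ * v - x₁ * w = ρ * m * t ∧ GoodA ρ m a g v w s t := by
  obtain ⟨hρ, hm, ha, hu1, hu2, hc1, hc2, hN1, hN2, hD1, hD2, hD3, hD4⟩ := hR
  have hu1' : 0 < u₁ := lt_of_le_of_ne hu1 (Ne.symm h1)
  have hu2' : 0 < u₂ := lt_of_le_of_ne hu2 (Ne.symm h2)
  obtain ⟨g, hg⟩ : ∃ g : ℕ, g = Int.gcd u₁ u₂ := ⟨_, rfl⟩
  have hg0 : 0 < g := by
    rw [hg]
    exact Int.gcd_pos_of_ne_zero_left _ h1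
  have hgu1 : (g : ℤ) ∣ u₁ := by rw [hg]; exact Int.gcd_dvd_left _ _
  have hgu2 : (g : ℤ) ∣ u₂ := by rw [hg]; exact Int.gcd_dvd_right _ _
  obtain ⟨v', hv'⟩ := hgu1
  obtain ⟨w', hw'⟩ := hgu2
  have hg0' : (0 : ℤ) < g := by exact_mod_cast hg0
  have hv0 : 0 < v' := by
    rw [hv'] at hu1'
    exact (mul_pos_iff_of_pos_left hg0').1 hu1'
  have hw0 : 0 < w' := by
    rw [hw'] at hu2'
    exact (mul_pos_iff_of_pos_left hg0').1 hu2'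
  obtain ⟨v, rfl⟩ : ∃ v : ℕ, v' = v := ⟨v'.toNat, by omega⟩
  obtain ⟨w, rfl⟩ : ∃ w : ℕ, w' = w := ⟨w'.toNat, by omega⟩
  have hv0' : 0 < v := by exact_mod_cast hv0
  have hw0' : 0 < w := by exact_mod_cast hw0
  have hvw : v.Coprime w := by
    have e : Int.gcd u₁ u₂ = g * Nat.gcd v w := by
      rw [hv', hw']
      have : Int.gcd ((g : ℤ) * v) ((g : ℤ) * w) = Int.gcd (((g * v : ℕ)) : ℤ) ((g * w : ℕ) : ℤ) := by
        push_cast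
        rfl
      rw [this, Int.gcd_natCast_natCast, Nat.gcd_mul_left]
    rw [← hg] at e
    have e2 : g * 1 = g * Nat.gcd v w := by rw [mul_one]; exact e
    exact (Nat.eq_of_mul_eq_mul_left hg0 e2).symm
  rw [← hg] at hc2
  have cg : IsCoprime ((ρ : ℤ) * m * a) g := hc2
  have cρg : IsCoprime (ρ : ℤ) g := cg.of_mul_left_left.of_mul_left_left
  have cmg : IsCoprime m (g : ℤ) := cg.of_mul_left_left.of_mul_left_right
  have cag : IsCoprime a (g : ℤ) := cg.of_mul_left_right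
  have hρ' : (0 : ℤ) < ρ := by exact_mod_cast hρ
  have hρn : (ρ : ℤ) ≠ 0 := hρ'.ne'
  -- s and t
  obtain ⟨s, hs⟩ : (ρ : ℤ) * a ∣ x₁ * w + x₂ * v + thR D * (g * v * w) := by
    have h : (ρ : ℤ) * a ∣ (g : ℤ) * (x₁ * w + x₂ * v + thR D * (g * v * w)) := by
      have e : (g : ℤ) * (x₁ * w + x₂ * v + thR D * (g * v * w)) =
        x₁ * u₂ + x₂ * u₁ + thR D * u₁ * u₂ := by rw [hv', hw']; ring
      rw [e]
      exact hD1
    exact (IsCoprime.mul_left cρg cag).dvd_of_dvd_mul_left h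
  obtain ⟨t, ht⟩ : (ρ : ℤ) * m ∣ x₂ * v - x₁ * w := by
    have h : (ρ : ℤ) * m ∣ (g : ℤ) * (x₂ * v - x₁ * w) := by
      have e : (g : ℤ) * (x₂ * v - x₁ * w) = x₂ * u₁ - x₁ * u₂ := by rw [hv', hw']; ring
      rw [e]
      exact hD2
    exact (IsCoprime.mul_left cρg cmg).dvd_of_dvd_mul_left h
  obtain ⟨k, hk⟩ : (ρ : ℤ) * m ^ 2 ∣ v * x₂ ^ 2 - 2 * x₁ * x₂ * w - thR D * x₁ * g * w ^ 2 -
      n0R D * g ^ 2 * v * w ^ 2 := by
    have h : (ρ : ℤ) * m ^ 2 ∣ (g : ℤ) * (v * x₂ ^ 2 - 2 * x₁ * x₂ * w -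
        thR D * x₁ * g * w ^ 2 - n0R D * g ^ 2 * v * w ^ 2) := by
      have e : (g : ℤ) * (v * x₂ ^ 2 - 2 * x₁ * x₂ * w - thR D * x₁ * g * w ^ 2 -
        n0R D * g ^ 2 * v * w ^ 2) = u₁ * x₂ ^ 2 - 2 * x₁ * x₂ * u₂ - thR D * x₁ * u₂ ^ 2 -
          n0R D * u₁ * u₂ ^ 2 := by rw [hv', hw']; ring
      rw [e]
      exact hD3
    exact (IsCoprime.mul_left cρg (cmg.pow_left (m := 2))).dvd_of_dvd_mul_left h
  obtain ⟨l, hl⟩ : (ρ : ℤ) * a ^ 2 ∣ x₁ ^ 2 * w + 2 * x₁ * x₂ * v + 2 * thR D * x₁ * g * v * w +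
      thR D * x₂ * g * v ^ 2 + thR D * g ^ 2 * v ^ 2 * w - n0R D * g ^ 2 * v ^ 2 * w := by
    have h : (ρ : ℤ) * a ^ 2 ∣ (g : ℤ) * (x₁ ^ 2 * w + 2 * x₁ * x₂ * v +
        2 * thR D * x₁ * g * v * w + thR D * x₂ * g * v ^ 2 + thR D * g ^ 2 * v ^ 2 * w -
          n0R D * g ^ 2 * v ^ 2 * w) := by
      have e : (g : ℤ) * (x₁ ^ 2 * w + 2 * x₁ * x₂ * v + 2 * thR D * x₁ * g * v * w +
          thR D * x₂ * g * v ^ 2 + thR D * g ^ 2 * v ^ 2 * w - n0R D * g ^ 2 * v ^ 2 * w) =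
        x₁ ^ 2 * u₂ + 2 * x₁ * x₂ * u₁ + 2 * thR D * x₁ * u₁ * u₂ + thR D * x₂ * u₁ ^ 2 +
          thR D * u₁ ^ 2 * u₂ - n0R D * u₁ ^ 2 * u₂ := by rw [hv', hw']; ring
      rw [e]
      exact hD4
    exact (IsCoprime.mul_left cρg (cag.pow_left (m := 2))).dvd_of_dvd_mul_left h
  have hth := thR_sq D
  have hN1' := hN1
  have hN2' := hN2
  rw [hv'] at hN1'
  rw [hw'] at hN2'
  refine ⟨g, v, w, s, t, hv', hw', hs, ht, hρ, hm, ha, hg0, hv0', hw0', hvw, ?_, ?_, ?_, ?_, ?_⟩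
  · exact (Nat.isCoprime_iff_coprime.1 cρg).symm
  · have h0 : (ρ : ℤ) * a * m ≠ 0 := mul_ne_zero (mul_ne_zero hρn ha) hm
    apply mul_left_cancel₀ h0
    linear_combination (-(v : ℤ) ^ 2) * hN2' + (w : ℤ) ^ 2 * hN1' + (ρ * m * t) * hs +
      (x₁ * w + x₂ * v + thR D * (g * v * w)) * ht
  · refine ⟨k, ?_⟩
    have h0 : (ρ : ℤ) * m ^ 2 ≠ 0 := mul_ne_zero hρn (pow_ne_zero 2 hm)
    apply mul_left_cancel₀ h0
    linear_combination (v : ℤ) * hk + (w : ℤ) ^ 2 * hN1' - (x₂ * v - x₁ * w + ρ * m * t) * ht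
  · refine ⟨l, ?_⟩
    have h0 : (ρ : ℤ) * a ^ 2 ≠ 0 := mul_ne_zero hρn (pow_ne_zero 2 ha)
    apply mul_left_cancel₀ h0
    linear_combination (w : ℤ) * hl + (v : ℤ) ^ 2 * hN2' -
      (x₁ * w + x₂ * v + thR D * (g * v * w) + ρ * a * s) * hs +
      ((g : ℤ) ^ 2 * v ^ 2 * w ^ 2) * hth
  · -- e and f
    obtain ⟨p, q, hpq⟩ := cmg
    obtain ⟨p', q', hpq'⟩ := cag
    -- p m + q g = 1, p' a + q' g = 1
    have cx1 : IsCoprime x₁ (g : ℤ) := by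
      have h3 : IsCoprime ((ρ : ℤ) * m ^ 2 * a) g :=
        IsCoprime.mul_left (IsCoprime.mul_left cρg (IsCoprime.pow_left ⟨p, q, hpq⟩))
          ⟨p', q', hpq'⟩
      rw [← hN1'] at h3
      have e : x₁ ^ 2 + thR D * x₁ * (g * v) + n0R D * (g * v) ^ 2 =
        x₁ * x₁ + (thR D * x₁ * v + n0R D * g * v ^ 2) * g := by ring
      rw [e] at h3
      have h4 := (IsCoprime.add_mul_right_left_iff).1 h3
      exact h4.of_mul_left_left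
    have cx2 : IsCoprime x₂ (g : ℤ) := by
      have h3 : IsCoprime ((ρ : ℤ) * a ^ 2 * m) g :=
        IsCoprime.mul_left (IsCoprime.mul_left cρg (IsCoprime.pow_left ⟨p', q', hpq'⟩))
          ⟨p, q, hpq⟩
      rw [← hN2'] at h3
      have e : x₂ ^ 2 + thR D * x₂ * (g * w) + n0R D * (g * w) ^ 2 =
        x₂ * x₂ + (thR D * x₂ * w + n0R D * g * w ^ 2) * g := by ring
      rw [e] at h3
      have h4 := (IsCoprime.add_mul_right_left_iff).1 h3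
      exact h4.of_mul_left_left
    have cp : IsCoprime p (g : ℤ) := ⟨m, q, by linear_combination hpq⟩
    have cp' : IsCoprime p' (g : ℤ) := ⟨a, q', by linear_combination hpq'⟩
    have cmg' : IsCoprime (g : ℤ) m := ⟨q, p, by linear_combination hpq⟩
    have cag' : IsCoprime (g : ℤ) a := ⟨q', p', by linear_combination hpq'⟩
    obtain ⟨k1, hk1⟩ : (g : ℤ) ∣ ρ * m - (x₂ * p') ^ 2 := by
      refine ⟨p' ^ 2 * (thR D * x₂ * w + n0R D * g * w ^ 2) + ρ * m * (2 * q' - g * q' ^ 2), ?_⟩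
      linear_combination (-p' ^ 2) * hN2' + (ρ * m * (1 - g * q' + p' * a)) * (-hpq')
    obtain ⟨k2, hk2⟩ : (g : ℤ) ∣ ρ * a - (x₁ * p) ^ 2 := by
      refine ⟨p ^ 2 * (thR D * x₁ * v + n0R D * g * v ^ 2) + ρ * a * (2 * q - g * q ^ 2), ?_⟩
      linear_combination (-p ^ 2) * hN1' + (ρ * a * (1 - g * q + p * m)) * (-hpq)
    refine ⟨x₁ * p, x₂ * p', cx1.mul_left cp, cx2.mul_left cp', ⟨k1, hk1⟩, ⟨k2, hk2⟩, ?_, ?_⟩
    · have h3 : (g : ℤ) ∣ a * (ρ * (x₁ * p) * s -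
          (x₂ * p') * ((x₂ * p') * w + (x₁ * p) * v)) := by
        refine ⟨w * (a * k1 - m * k2) + (x₁ * p) * (x₁ * q * w + x₂ * q' * v +
          thR D * v * w), ?_⟩
        linear_combination (-(x₁ * p)) * hs + (a * w : ℤ) * hk1 - (m * w : ℤ) * hk2 +
          ((x₁ * p) * x₁ * w) * (-hpq) + ((x₁ * p) * x₂ * v) * (-hpq')
      exact cag'.dvd_of_dvd_mul_left h3
    · have h3 : (g : ℤ) ∣ m * (ρ * (x₂ * p') * t -
          (x₁ * p) * ((x₁ * p) * v - (x₂ * p') * w)) := by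
        refine ⟨v * (m * k2 - a * k1) + (x₂ * p') * (x₂ * q' * v - x₁ * q * w), ?_⟩
        linear_combination (-(x₂ * p')) * ht - (a * v : ℤ) * hk1 + (m * v : ℤ) * hk2 +
          ((x₂ * p') * x₁ * w) * (hpq) - ((x₂ * p') * x₂ * v) * (hpq')
      exact cmg'.dvd_of_dvd_mul_left h3

theorem E_sum (D : ℕ) (x u : ℤ) :
    E1 D x u + E2 D x u = 2 * (x : ℝ) + ((thR D : ℤ) : ℝ) * (u : ℝ) := by
  unfold E1 E2; ring

theorem E_diff (D : ℕ) (x u : ℤ) : E1 D x u - E2 D x u = u * Real.sqrt D := by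
  unfold E1 E2; ring

theorem E_det (D : ℕ) (x₁ u₁ x₂ u₂ : ℤ) : E1 D x₁ u₁ * E2 D x₂ u₂ - E2 D x₁ u₁ * E1 D x₂ u₂ =
    Real.sqrt D * ((x₂ : ℝ) * u₁ - x₁ * u₂) := by
  unfold E1 E2; ring

theorem gen (N D : ℕ) (hN : N < D) (ρ : ℕ) (x u : ℤ) (hu : 0 ≤ u) (A₁ A₂ T : ℝ)
    (h1 : ρ * |E1 D x u| = A₁) (h2 : ρ * |E2 D x u| = A₂) (h : A₁ + A₂ ≤ T) :
    ρ * |2 * (x : ℝ) + ((thR D : ℤ) : ℝ) * (u : ℝ)| ≤ T ∧ ρ * (u : ℝ) * Real.sqrt N ≤ T := by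
  have hρ0 : (0 : ℝ) ≤ ρ := by positivity
  constructor
  · rw [← E_sum]
    have h3 := mul_le_mul_of_nonneg_left (abs_add_le (E1 D x u) (E2 D x u)) hρ0
    rw [mul_add, h1, h2] at h3
    linarith
  · have hu' : (0 : ℝ) ≤ u := by exact_mod_cast hu
    have h3 : Real.sqrt N ≤ Real.sqrt D := Real.sqrt_le_sqrt (by exact_mod_cast hN.le)
    have h4 : ρ * (u : ℝ) * Real.sqrt N ≤ ρ * u * Real.sqrt D :=
      mul_le_mul_of_nonneg_left h3 (by positivity)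
    have h5 : ρ * (u : ℝ) * Real.sqrt D = ρ * E1 D x u - ρ * E2 D x u := by
      rw [← mul_sub, E_diff]; ring
    have h6 := mul_le_mul_of_nonneg_left (le_abs_self (E1 D x u)) hρ0
    have h7 := mul_le_mul_of_nonneg_left (neg_abs_le (E2 D x u)) hρ0
    rw [mul_neg] at h7
    linarith

/-- the second case of the bound for `t` -/
theorem tcase (D ρ g w : ℕ) (x₁ u₁ x₂ u₂ m t : ℤ) (F Y f₁ f₂ g₁ g₂ : ℝ) (hF0 : 0 < F) (hY0 : 0 < Y)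
    (hρ : 0 < ρ) (hD : 0 < D) (hw : 0 < w) (hg : 0 < g) (hu : u₂ = g * w)
    (f10 : 0 < f₁) (f20 : 0 < f₂) (g10 : 0 < g₁) (g20 : 0 < g₂) (hm : f₁ * f₂ = ρ * |(m : ℝ)|)
    (hdet : x₂ * u₁ - x₁ * u₂ = g * (ρ * m * t))
    (e1 : ρ * |E1 D x₁ u₁| = f₁ ^ 2 * g₂) (e2 : ρ * |E2 D x₁ u₁| = f₂ ^ 2 * g₁)
    (e3 : ρ * |E1 D x₂ u₂| = g₁ ^ 2 * f₁) (e4 : ρ * |E2 D x₂ u₂| = g₂ ^ 2 * f₂)
    (hf1 : f₁ ≤ F) (hf2 : f₂ ≤ F) (hg1 : g₁ ≤ 20 * Y) (hg2 : g₂ ≤ 20 * Y)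
    (hlow : F * Y ^ 2 / 1600 ≤ |g₁ ^ 2 * f₁ - g₂ ^ 2 * f₂|) :
    (ρ : ℝ) * |(t : ℝ)| * F ≤ kap * (Y * (F * w)) := by
  have hρ0 : (0 : ℝ) < ρ := by exact_mod_cast hρ
  have hw0 : (0 : ℝ) < w := by exact_mod_cast hw
  have hg0 : (0 : ℝ) < g := by exact_mod_cast hg
  obtain ⟨s, hs⟩ : ∃ s : ℝ, s = Real.sqrt D := ⟨_, rfl⟩
  have hs0 : 0 < s := by rw [hs]; exact Real.sqrt_pos.2 (by exact_mod_cast hD)
  -- the determinant
  have h1 : (ρ : ℝ) ^ 2 * (s * ((g : ℝ) * (ρ * |(m : ℝ)| * |(t : ℝ)|))) ≤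
      (f₁ ^ 2 * g₂) * (g₂ ^ 2 * f₂) + (f₂ ^ 2 * g₁) * (g₁ ^ 2 * f₁) := by
    have h2 := E_det D x₁ u₁ x₂ u₂
    have h3 : ((x₂ : ℝ) * u₁ - x₁ * u₂) = (g : ℝ) * (ρ * m * t) := by
      have := congrArg (Int.cast (R := ℝ)) hdet
      push_cast at this
      exact this
    rw [h3, ← hs] at h2
    have h4 : |s * ((g : ℝ) * (ρ * m * t))| = s * ((g : ℝ) * (ρ * |(m : ℝ)| * |(t : ℝ)|)) := by
      rw [abs_mul, abs_mul, abs_mul, abs_mul, abs_of_pos hs0, abs_of_pos hg0, abs_of_pos hρ0]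
    rw [← h4, ← h2]
    have h5 : |E1 D x₁ u₁ * E2 D x₂ u₂ - E2 D x₁ u₁ * E1 D x₂ u₂| ≤
        |E1 D x₁ u₁| * |E2 D x₂ u₂| + |E2 D x₁ u₁| * |E1 D x₂ u₂| := by
      refine (abs_sub _ _).trans ?_
      rw [abs_mul, abs_mul]
    calc (ρ : ℝ) ^ 2 * |E1 D x₁ u₁ * E2 D x₂ u₂ - E2 D x₁ u₁ * E1 D x₂ u₂| ≤
          (ρ : ℝ) ^ 2 * (|E1 D x₁ u₁| * |E2 D x₂ u₂| + |E2 D x₁ u₁| * |E1 D x₂ u₂|) :=
          mul_le_mul_of_nonneg_left h5 (by positivity)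
      _ = (ρ * |E1 D x₁ u₁|) * (ρ * |E2 D x₂ u₂|) + (ρ * |E2 D x₁ u₁|) * (ρ * |E1 D x₂ u₂|) := by
          ring
      _ = _ := by rw [e1, e2, e3, e4]
  have h2 : (ρ : ℝ) ^ 2 * (s * ((g : ℝ) * |(t : ℝ)|)) ≤ f₁ * g₂ ^ 3 + f₂ * g₁ ^ 3 := by
    have h3 : (f₁ * f₂) * ((ρ : ℝ) ^ 2 * (s * ((g : ℝ) * |(t : ℝ)|))) ≤
        (f₁ * f₂) * (f₁ * g₂ ^ 3 + f₂ * g₁ ^ 3) := by
      have e : (f₁ * f₂) * ((ρ : ℝ) ^ 2 * (s * ((g : ℝ) * |(t : ℝ)|))) =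
          (ρ : ℝ) ^ 2 * (s * ((g : ℝ) * (ρ * |(m : ℝ)| * |(t : ℝ)|))) := by rw [hm]; ring
      rw [e]
      refine h1.trans (le_of_eq ?_)
      ring
    exact le_of_mul_le_mul_left h3 (by positivity)
  have h3 : f₁ * g₂ ^ 3 + f₂ * g₁ ^ 3 ≤ 16000 * (F * Y ^ 3) := by
    have t1 : f₁ * g₂ ^ 3 ≤ F * (20 * Y) ^ 3 :=
      mul_le_mul hf1 (pow_le_pow_left₀ g20.le hg2 3) (by positivity) hF0.le
    have t2 : f₂ * g₁ ^ 3 ≤ F * (20 * Y) ^ 3 :=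
      mul_le_mul hf2 (pow_le_pow_left₀ g10.le hg1 3) (by positivity) hF0.le
    calc f₁ * g₂ ^ 3 + f₂ * g₁ ^ 3 ≤ F * (20 * Y) ^ 3 + F * (20 * Y) ^ 3 := add_le_add t1 t2
      _ = _ := by ring
  -- the lower bound
  have h4 : F * Y ^ 2 / 1600 ≤ ρ * ((g : ℝ) * w) * s := by
    have h5 : ρ * ((g : ℝ) * w) * s = ρ * E1 D x₂ u₂ - ρ * E2 D x₂ u₂ := by
      rw [← mul_sub, E_diff, ← hs, hu]; push_cast; ring
    have h6 : |g₁ ^ 2 * f₁ - g₂ ^ 2 * f₂| ≤ |ρ * E1 D x₂ u₂ - ρ * E2 D x₂ u₂| := by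
      rw [← e3, ← e4]
      have h7 := abs_abs_sub_abs_le_abs_sub (ρ * E1 D x₂ u₂) (ρ * E2 D x₂ u₂)
      rw [abs_mul, abs_mul, abs_of_pos hρ0] at h7
      exact h7
    have h8 : |ρ * ((g : ℝ) * w) * s| = ρ * ((g : ℝ) * w) * s := abs_of_pos (by positivity)
    rw [← h5, h8] at h6
    linarith
  have h5 : (ρ * |(t : ℝ)|) * (F * Y ^ 2 / 1600) ≤ (16000 * (F * Y ^ 3)) * w := by
    calc (ρ * |(t : ℝ)|) * (F * Y ^ 2 / 1600) ≤ (ρ * |(t : ℝ)|) * (ρ * ((g : ℝ) * w) * s) :=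
          mul_le_mul_of_nonneg_left h4 (by positivity)
      _ = ((ρ : ℝ) ^ 2 * (s * ((g : ℝ) * |(t : ℝ)|))) * w := by ring
      _ ≤ _ := mul_le_mul_of_nonneg_right (h2.trans h3) hw0.le
  have h6 : (Y ^ 2 / 1600) * ((ρ : ℝ) * |(t : ℝ)| * F) ≤ (Y ^ 2 / 1600) * (kap * (Y * (F * w))) := by
    calc (Y ^ 2 / 1600) * ((ρ : ℝ) * |(t : ℝ)| * F) = (ρ * |(t : ℝ)|) * (F * Y ^ 2 / 1600) := by ring
      _ ≤ (16000 * (F * Y ^ 3)) * w := h5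
      _ = 25600000 * ((Y ^ 2 / 1600) * (Y * (F * w))) := by ring
      _ ≤ kap * ((Y ^ 2 / 1600) * (Y * (F * w))) := by
        refine mul_le_mul_of_nonneg_right ?_ (by positivity)
        unfold kap; norm_num
      _ = _ := by ring
  exact le_of_mul_le_mul_left h6 (by positivity)

/-- the sizes -/
theorem szc (N D ρ g v w : ℕ) (m a x₁ u₁ x₂ u₂ s t : ℤ) (F Y : ℝ) (hF0 : 0 < F) (hY0 : 0 < Y)
    (hND : N < D) (hR : RELR D ρ m a x₁ u₁ x₂ u₂) (hS : SIZ 2 20 D F Y ρ m a x₁ u₁ x₂ u₂)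
    (hg : 0 < g) (hv : 0 < v) (hw : 0 < w) (hu1 : u₁ = g * v) (hu2 : u₂ = g * w)
    (hs : x₁ * w + x₂ * v + thR D * (g * v * w) = ρ * a * s)
    (ht : x₂ * v - x₁ * w = ρ * m * t) : SzC N F Y ρ m a g v w s t := by
  obtain ⟨hρ, hm0, ha0, hu10, hu20, _⟩ := hR
  obtain ⟨f₁, f₂, g₁, g₂, ⟨f10, f20, g10, g20, hm, ha, e1, e2, e3, e4⟩,
    hf1, hf2, hF, hYg1, hYg2, hg1, hg2⟩ := hS
  have hρ0 : (0 : ℝ) < ρ := by exact_mod_cast hρ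
  have hv0 : (0 : ℝ) < v := by exact_mod_cast hv
  have hw0 : (0 : ℝ) < w := by exact_mod_cast hw
  have hg0 : (0 : ℝ) < g := by exact_mod_cast hg
  have sf1 : f₁ ^ 2 ≤ F ^ 2 := pow_le_pow_left₀ f10.le hf1 2
  have sf2 : f₂ ^ 2 ≤ F ^ 2 := pow_le_pow_left₀ f20.le hf2 2
  have sg1 : g₁ ^ 2 ≤ (20 * Y) ^ 2 := pow_le_pow_left₀ g10.le hg1 2
  have sg2 : g₂ ^ 2 ≤ (20 * Y) ^ 2 := pow_le_pow_left₀ g20.le hg2 2
  have hA : f₁ ^ 2 * g₂ + f₂ ^ 2 * g₁ ≤ 40 * (F ^ 2 * Y) := by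
    have t1 : f₁ ^ 2 * g₂ ≤ F ^ 2 * (20 * Y) := mul_le_mul sf1 hg2 g20.le (by positivity)
    have t2 : f₂ ^ 2 * g₁ ≤ F ^ 2 * (20 * Y) := mul_le_mul sf2 hg1 g10.le (by positivity)
    linarith
  have hB : g₁ ^ 2 * f₁ + g₂ ^ 2 * f₂ ≤ 800 * (F * Y ^ 2) := by
    have t1 : g₁ ^ 2 * f₁ ≤ (20 * Y) ^ 2 * F := mul_le_mul sg1 hf1 f10.le (by positivity)
    have t2 : g₂ ^ 2 * f₂ ≤ (20 * Y) ^ 2 * F := mul_le_mul sg2 hf2 f20.le (by positivity)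
    linarith
  obtain ⟨a1, a2⟩ := gen N D hND ρ x₁ u₁ hu10 _ _ _ e1 e2 hA
  obtain ⟨b1, b2⟩ := gen N D hND ρ x₂ u₂ hu20 _ _ _ e3 e4 hB
  have hsR : (x₁ : ℝ) * w + x₂ * v + ((thR D : ℤ) : ℝ) * (g * v * w) = ρ * a * s := by
    have := congrArg (Int.cast (R := ℝ)) hs
    push_cast at this
    exact this
  have htR : (x₂ : ℝ) * v - x₁ * w = ρ * m * t := by
    have := congrArg (Int.cast (R := ℝ)) ht
    push_cast at this
    exact this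
  have hu1R : (u₁ : ℝ) = g * v := by rw [hu1]; push_cast; ring
  have hu2R : (u₂ : ℝ) = g * w := by rw [hu2]; push_cast; ring
  have hk : (1 : ℝ) ≤ kap := by unfold kap; norm_num
  -- the two combined bounds
  obtain ⟨p, hp⟩ : ∃ p : ℝ, p = 2 * (x₁ : ℝ) + ((thR D : ℤ) : ℝ) * (u₁ : ℝ) := ⟨_, rfl⟩
  obtain ⟨q, hq⟩ : ∃ q : ℝ, q = 2 * (x₂ : ℝ) + ((thR D : ℤ) : ℝ) * (u₂ : ℝ) := ⟨_, rfl⟩
  rw [← hp] at a1
  rw [← hq] at b1
  have c1 : 2 * (ρ * |(a : ℝ)|) * (ρ * |(s : ℝ)|) ≤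
      40 * (F ^ 2 * Y) * w + 800 * (F * Y ^ 2) * v := by
    have e : 2 * (ρ * (a : ℝ) * s) = p * w + q * v := by
      rw [← hsR, hp, hq, hu1R, hu2R]; ring
    have h1 : |2 * (ρ * (a : ℝ) * s)| = 2 * (ρ * |(a : ℝ)| * |(s : ℝ)|) := by
      rw [abs_mul, abs_mul, abs_mul, abs_of_pos hρ0, abs_two]
    have h2 : |p * w + q * v| ≤ |p| * w + |q| * v := by
      refine (abs_add_le _ _).trans ?_
      rw [abs_mul, abs_mul, abs_of_pos hw0, abs_of_pos hv0]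
    rw [← e, h1] at h2
    calc 2 * (ρ * |(a : ℝ)|) * (ρ * |(s : ℝ)|) = ρ * (2 * (ρ * |(a : ℝ)| * |(s : ℝ)|)) := by ring
      _ ≤ ρ * (|p| * w + |q| * v) := mul_le_mul_of_nonneg_left h2 hρ0.le
      _ = (ρ * |p|) * w + (ρ * |q|) * v := by ring
      _ ≤ _ := add_le_add (mul_le_mul_of_nonneg_right a1 hw0.le)
        (mul_le_mul_of_nonneg_right b1 hv0.le)
  have c2 : 2 * (ρ * |(m : ℝ)|) * (ρ * |(t : ℝ)|) ≤
      40 * (F ^ 2 * Y) * w + 800 * (F * Y ^ 2) * v := by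
    have e : 2 * (ρ * (m : ℝ) * t) = q * v - p * w := by
      rw [← htR, hp, hq, hu1R, hu2R]; ring
    have h1 : |2 * (ρ * (m : ℝ) * t)| = 2 * (ρ * |(m : ℝ)| * |(t : ℝ)|) := by
      rw [abs_mul, abs_mul, abs_mul, abs_of_pos hρ0, abs_two]
    have h2 : |q * v - p * w| ≤ |p| * w + |q| * v := by
      refine (abs_sub _ _).trans ?_
      rw [abs_mul, abs_mul, abs_of_pos hw0, abs_of_pos hv0]
      linarith
    rw [← e, h1] at h2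
    calc 2 * (ρ * |(m : ℝ)|) * (ρ * |(t : ℝ)|) = ρ * (2 * (ρ * |(m : ℝ)| * |(t : ℝ)|)) := by ring
      _ ≤ ρ * (|p| * w + |q| * v) := mul_le_mul_of_nonneg_left h2 hρ0.le
      _ = (ρ * |p|) * w + (ρ * |q|) * v := by ring
      _ ≤ _ := add_le_add (mul_le_mul_of_nonneg_right a1 hw0.le)
        (mul_le_mul_of_nonneg_right b1 hv0.le)
  refine ⟨?_, ?_, ?_, ?_, ?_, ?_⟩
  · rw [← hm]
    have h1 : f₁ * f₂ ≤ F * F := mul_le_mul hf1 hf2 f20.le hF0.le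
    nlinarith [sq_nonneg F]
  · rw [← ha]
    have h1 : g₁ * g₂ ≤ (20 * Y) * (20 * Y) := mul_le_mul hg1 hg2 g20.le (by positivity)
    unfold kap
    nlinarith [sq_nonneg Y]
  · rw [hu1R] at a2
    have : 0 ≤ F ^ 2 * Y := by positivity
    unfold kap
    linarith
  · rw [hu2R] at b2
    have : 0 ≤ F * Y ^ 2 := by positivity
    unfold kap
    linarith
  · -- s
    have h1 : Y ^ 2 / 400 ≤ ρ * |(a : ℝ)| := by
      rw [← ha]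
      have h2 : (Y / 20) * (Y / 20) ≤ g₁ * g₂ :=
        mul_le_mul (by linarith) (by linarith) (by positivity) g10.le
      linarith
    have h2 : (Y / 200) * (ρ * |(s : ℝ)| * Y) ≤ (Y / 200) * (kap * (F * (F * w + Y * v))) := by
      calc (Y / 200) * (ρ * |(s : ℝ)| * Y) = 2 * (Y ^ 2 / 400) * (ρ * |(s : ℝ)|) := by ring
        _ ≤ 2 * (ρ * |(a : ℝ)|) * (ρ * |(s : ℝ)|) :=
          mul_le_mul_of_nonneg_right (by linarith) (by positivity)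
        _ ≤ _ := c1
        _ = (Y / 200) * (8000 * (F * (F * w)) + 160000 * (F * (Y * v))) := by ring
        _ ≤ (Y / 200) * (kap * (F * (F * w)) + kap * (F * (Y * v))) := by
          refine mul_le_mul_of_nonneg_left ?_ (by positivity)
          have k1 : (8000 : ℝ) ≤ kap := by unfold kap; norm_num
          have k2 : (160000 : ℝ) ≤ kap := by unfold kap; norm_num
          exact add_le_add (mul_le_mul_of_nonneg_right k1 (by positivity))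
            (mul_le_mul_of_nonneg_right k2 (by positivity))
        _ = _ := by ring
    exact le_of_mul_le_mul_left h2 (by positivity)
  · -- t
    have hD0 : 0 < D := by omega
    have hdet : x₂ * u₁ - x₁ * u₂ = g * (ρ * m * t) := by
      rw [← ht, hu1, hu2]; ring
    have hfin : (ρ : ℝ) * |(t : ℝ)| * F ≤ kap * (Y * (F * w)) →
        (ρ : ℝ) * |(t : ℝ)| * F ≤ kap * (Y * (F * w + Y * v)) := by
      intro h
      refine h.trans (mul_le_mul_of_nonneg_left (mul_le_mul_of_nonneg_left ?_ hY0.le)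
        (by linarith))
      have : 0 ≤ Y * v := by positivity
      linarith
    by_cases c3 : 320000 * f₂ ≤ f₁
    · -- f₁ large
      apply hfin
      refine tcase D ρ g w x₁ u₁ x₂ u₂ m t F Y f₁ f₂ g₁ g₂ hF0 hY0 hρ hD0 hw hg hu2 f10 f20 g10 g20
        hm hdet e1 e2 e3 e4 hf1 hf2 hg1 hg2 ?_
      have hF1 : F ≤ 2 * f₁ := by
        rcases hF with h | h
        · exact h
        · linarith
      have t1 : (Y / 20) ^ 2 * f₁ ≤ g₁ ^ 2 * f₁ :=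
        mul_le_mul_of_nonneg_right (pow_le_pow_left₀ (by positivity) (by linarith) 2) f10.le
      have t2 : g₂ ^ 2 * f₂ ≤ (20 * Y) ^ 2 * (f₁ / 320000) :=
        mul_le_mul sg2 (by linarith) f20.le (by positivity)
      have t3 : F * Y ^ 2 / 1600 ≤ g₁ ^ 2 * f₁ - g₂ ^ 2 * f₂ := by
        have t4 : F * Y ^ 2 ≤ 2 * f₁ * Y ^ 2 := mul_le_mul_of_nonneg_right hF1 (by positivity)
        have t5 : (Y / 20) ^ 2 * f₁ = f₁ * Y ^ 2 / 400 := by ring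
        have t6 : (20 * Y) ^ 2 * (f₁ / 320000) = f₁ * Y ^ 2 / 800 := by ring
        rw [t5] at t1
        rw [t6] at t2
        linarith
      exact t3.trans (le_abs_self _)
    · by_cases c4 : 320000 * f₁ ≤ f₂
      · apply hfin
        refine tcase D ρ g w x₁ u₁ x₂ u₂ m t F Y f₁ f₂ g₁ g₂ hF0 hY0 hρ hD0 hw hg hu2 f10 f20 g10
          g20 hm hdet e1 e2 e3 e4 hf1 hf2 hg1 hg2 ?_
        have hF1 : F ≤ 2 * f₂ := by
          rcases hF with h | h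
          · linarith
          · exact h
        have t1 : (Y / 20) ^ 2 * f₂ ≤ g₂ ^ 2 * f₂ :=
          mul_le_mul_of_nonneg_right (pow_le_pow_left₀ (by positivity) (by linarith) 2) f20.le
        have t2 : g₁ ^ 2 * f₁ ≤ (20 * Y) ^ 2 * (f₂ / 320000) :=
          mul_le_mul sg1 (by linarith) f10.le (by positivity)
        have t3 : F * Y ^ 2 / 1600 ≤ g₂ ^ 2 * f₂ - g₁ ^ 2 * f₁ := by
          have t4 : F * Y ^ 2 ≤ 2 * f₂ * Y ^ 2 := mul_le_mul_of_nonneg_right hF1 (by positivity)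
          have t5 : (Y / 20) ^ 2 * f₂ = f₂ * Y ^ 2 / 400 := by ring
          have t6 : (20 * Y) ^ 2 * (f₂ / 320000) = f₂ * Y ^ 2 / 800 := by ring
          rw [t5] at t1
          rw [t6] at t2
          linarith
        rw [abs_sub_comm]
        exact t3.trans (le_abs_self _)
      · push Not at c3 c4
        have h1 : F ^ 2 / 1280000 ≤ ρ * |(m : ℝ)| := by
          rw [← hm]
          rcases hF with h | h
          · have h2 : F / 640000 ≤ f₂ := by linarith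
            have h3 : F / 2 ≤ f₁ := by linarith
            have h4 : (F / 2) * (F / 640000) ≤ f₁ * f₂ := mul_le_mul h3 h2 (by positivity) f10.le
            linarith
          · have h2 : F / 640000 ≤ f₁ := by linarith
            have h3 : F / 2 ≤ f₂ := by linarith
            have h4 : (F / 640000) * (F / 2) ≤ f₁ * f₂ := mul_le_mul h2 h3 (by positivity) f10.le
            linarith
        have h2 : (F / 640000) * (ρ * |(t : ℝ)| * F) ≤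
            (F / 640000) * (kap * (Y * (F * w + Y * v))) := by
          calc (F / 640000) * (ρ * |(t : ℝ)| * F) = 2 * (F ^ 2 / 1280000) * (ρ * |(t : ℝ)|) := by
                ring
            _ ≤ 2 * (ρ * |(m : ℝ)|) * (ρ * |(t : ℝ)|) :=
              mul_le_mul_of_nonneg_right (by linarith) (by positivity)
            _ ≤ _ := c2
            _ = (F / 640000) * (25600000 * (Y * (F * w)) + 512000000 * (Y * (Y * v))) := by ring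
            _ ≤ (F / 640000) * (kap * (Y * (F * w)) + kap * (Y * (Y * v))) := by
              refine mul_le_mul_of_nonneg_left ?_ (by positivity)
              have k1 : (25600000 : ℝ) ≤ kap := by unfold kap; norm_num
              have k2 : (512000000 : ℝ) ≤ kap := by unfold kap; norm_num
              exact add_le_add (mul_le_mul_of_nonneg_right k1 (by positivity))
                (mul_le_mul_of_nonneg_right k2 (by positivity))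
            _ = _ := by ring
        exact le_of_mul_le_mul_left h2 (by positivity)

/-- the specification of the map -/
def Spec (x : ℕ × ℕ × ℤ × ℤ × ℤ × ℤ × ℤ × ℤ) (y : ℕ × ℤ × ℤ × ℕ × ℕ × ℕ × ℤ × ℤ) : Prop :=
  y.1 = x.2.1 ∧ y.2.1 = x.2.2.1 ∧ y.2.2.1 = x.2.2.2.1 ∧
  x.2.2.2.2.2.1 = y.2.2.2.1 * y.2.2.2.2.1 ∧ x.2.2.2.2.2.2.2 = y.2.2.2.1 * y.2.2.2.2.2.1 ∧
  x.2.2.2.2.1 * x.2.2.2.2.2.2.2 + x.2.2.2.2.2.2.1 * x.2.2.2.2.2.1 +
    thR x.1 * x.2.2.2.2.2.1 * x.2.2.2.2.2.2.2 =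
      x.2.1 * x.2.2.2.1 * y.2.2.2.1 * y.2.2.2.2.2.2.1 ∧
  x.2.2.2.2.2.2.1 * x.2.2.2.2.2.1 - x.2.2.2.2.1 * x.2.2.2.2.2.2.2 =
      x.2.1 * x.2.2.1 * y.2.2.2.1 * y.2.2.2.2.2.2.2

theorem exists_spec (N : ℕ) (F Y : ℝ) (hF0 : 0 < F) (hY0 : 0 < Y)
    (x : ℕ × ℕ × ℤ × ℤ × ℤ × ℤ × ℤ × ℤ) (hx : RelTR N F Y x)
    (h1 : x.2.2.2.2.2.1 ≠ 0) (h2 : x.2.2.2.2.2.2.2 ≠ 0) : ∃ y, Spec x y ∧ GoodR N F Y y := by
  obtain ⟨D, ρ, m, a, x₁, u₁, x₂, u₂⟩ := x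
  obtain ⟨hN, hN2, hd4, hR, hS⟩ := hx
  obtain ⟨g, v, w, s, t, e1, e2, e3, e4, hG⟩ := core D ρ m a x₁ u₁ x₂ u₂ hR h1 h2
  refine ⟨(ρ, m, a, g, v, w, s, t), ⟨rfl, rfl, rfl, e1, e2, ?_, ?_⟩, hG,
    szc N D ρ g v w m a x₁ u₁ x₂ u₂ s t F Y hF0 hY0 hN hR hS hG.2.2.2.1 hG.2.2.2.2.1
      hG.2.2.2.2.2.1 e1 e2 e3 e4⟩
  · simp only
    rw [e1, e2]
    linear_combination (g : ℤ) * e3
  · simp only
    rw [e1, e2]
    linear_combination (g : ℤ) * e4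

theorem inj_spec (N : ℕ) (F Y : ℝ) (x x' : ℕ × ℕ × ℤ × ℤ × ℤ × ℤ × ℤ × ℤ)
    (y : ℕ × ℤ × ℤ × ℕ × ℕ × ℕ × ℤ × ℤ) (hx : RelTR N F Y x) (hx' : RelTR N F Y x')
    (h1 : x.2.2.2.2.2.1 ≠ 0) (h2 : x.2.2.2.2.2.2.2 ≠ 0) (hs : Spec x y) (hs' : Spec x' y) :
    x = x' := by
  obtain ⟨d, ρ, m, a, x₁, u₁, x₂, u₂⟩ := x
  obtain ⟨d', ρ', m', a', x₁', u₁', x₂', u₂'⟩ := x'
  obtain ⟨r, b, c, g, v, w, s, t⟩ := y
  obtain ⟨hN, hN2, hd4, hR, _⟩ := hx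
  obtain ⟨hN', hN2', hd4', hR', _⟩ := hx'
  obtain ⟨a1, a2, a3, a4, a5, a6, a7⟩ := hs
  obtain ⟨b1, b2, b3, b4, b5, b6, b7⟩ := hs'
  simp only at hN hN2 hd4 hR hN' hN2' hd4' hR' a1 a2 a3 a4 a5 a6 a7 b1 b2 b3 b4 b5 b6 b7 h1 h2
  subst a1 a2 a3 b1 b2 b3
  have hu : u₁' = u₁ := by rw [a4, b4]
  have hu' : u₂' = u₂ := by rw [a5, b5]
  subst hu hu'
  -- y₁ and y₂ agree
  have k1 : 2 * x₁ + thR d * u₁' = 2 * x₁' + thR d' * u₁' := by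
    apply mul_right_cancel₀ h2
    linear_combination a6 - a7 - b6 + b7
  have k2 : 2 * x₂ + thR d * u₂' = 2 * x₂' + thR d' * u₂' := by
    apply mul_right_cancel₀ h1
    linear_combination a6 + a7 - b6 - b7
  have n1 := norm_four d hd4 x₁ u₁'
  have n1' := norm_four d' hd4' x₁' u₁'
  rw [hR.2.2.2.2.2.2.2.1] at n1
  rw [hR'.2.2.2.2.2.2.2.1] at n1'
  have hd : d = d' := by
    have h3 : (d : ℤ) * u₁' ^ 2 = d' * u₁' ^ 2 := by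
      rw [k1] at n1
      linarith
    have h4 : u₁' ^ 2 ≠ 0 := pow_ne_zero 2 h1
    exact_mod_cast mul_right_cancel₀ h4 h3
  subst hd
  have e1 : x₁ = x₁' := by linarith
  have e2 : x₂ = x₂' := by linarith
  rw [e1, e2]

end DERR

open DERR in
theorem t_DERR : S_DERR := by
  intro N F Y hP
  classical
  obtain ⟨_, hF0, hY0, _⟩ := hP
  refine ⟨fun x => if h : RelTR N F Y x ∧ x.2.2.2.2.2.1 ≠ 0 ∧ x.2.2.2.2.2.2.2 ≠ 0 then
    (exists_spec N F Y hF0 hY0 x h.1 h.2.1 h.2.2).choose else default, ?_, ?_⟩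
  · intro x hx x' hx' hxx
    have hx1 : RelTR N F Y x ∧ x.2.2.2.2.2.1 ≠ 0 ∧ x.2.2.2.2.2.2.2 ≠ 0 := hx
    have hx1' : RelTR N F Y x' ∧ x'.2.2.2.2.2.1 ≠ 0 ∧ x'.2.2.2.2.2.2.2 ≠ 0 := hx'
    simp only [dif_pos hx1, dif_pos hx1'] at hxx
    have h1 := (exists_spec N F Y hF0 hY0 x hx1.1 hx1.2.1 hx1.2.2).choose_spec.1
    have h2 := (exists_spec N F Y hF0 hY0 x' hx1'.1 hx1'.2.1 hx1'.2.2).choose_spec.1
    rw [← hxx] at h2
    exact inj_spec N F Y x x' _ hx1.1 hx1'.1 hx1.2.1 hx1.2.2 h1 h2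
  · intro x hx h1 h2
    have hx1 : RelTR N F Y x ∧ x.2.2.2.2.2.1 ≠ 0 ∧ x.2.2.2.2.2.2.2 ≠ 0 := ⟨hx, h1, h2⟩
    simp only [dif_pos hx1]
    exact (exists_spec N F Y hF0 hY0 x hx1.1 hx1.2.1 hx1.2.2).choose_spec.2

end Pool.Agent.T2h80.R5
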