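import Pool.Agent.T2h80.R5.Stm
import Pool.Agent.T2h80.F5.ZB
import Pool.Agent.T2h80.F5.CN2

/-! Project R5, part FAM. -/

set_option autoImplicit false

namespace Pool.Agent.T2h80.R5

open Finset Pool.Agent.T2h80.F5

namespace FAM

/-- the number of pairs -/
theorem fm_le (A B e z n : ℕ) (hn : 0 < n) (hne : n ∣ e) (hz : n.Coprime z) :
    FM A B e z ≤ 4 * ((A / n) * (5 * B / n)) + 2 * (A / n) + 2 * (5 * B / n) := by
  classical
  have hn0 : (n : ℤ) ≠ 0 := by exact_mod_cast hn.ne'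
  have hnp : (0 : ℤ) < n := by exact_mod_cast hn
  set a : ℕ := A / n with ha
  set b : ℕ := 5 * B / n with hb
  have hcop : IsCoprime (n : ℤ) (z : ℤ) := Nat.isCoprime_iff_coprime.2 hz
  have key : ∀ x : ℤ × ℤ, ((-(A : ℤ) ≤ x.1 ∧ x.1 ≤ A) ∧ (-(B : ℤ) ≤ x.2 ∧ x.2 ≤ B)) →
      (e : ℤ) ∣ x.1 * (z : ℤ) ^ 3 → (e : ℤ) ∣ 5 * x.2 * (z : ℤ) ^ 5 →
      (n : ℤ) ∣ x.1 ∧ (n : ℤ) ∣ 5 * x.2 := by
    intro x hx h1 h2
    have hne' : (n : ℤ) ∣ (e : ℤ) := by exact_mod_cast hne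
    exact ⟨(hcop.pow_right (n := 3)).dvd_of_dvd_mul_right (hne'.trans h1),
      (hcop.pow_right (n := 5)).dvd_of_dvd_mul_right (hne'.trans h2)⟩
  unfold FM
  set T := (((Icc (-(A : ℤ)) A) ×ˢ (Icc (-(B : ℤ)) B)).filter (fun x : ℤ × ℤ =>
    ¬ (x.1 = 0 ∧ x.2 = 0) ∧ (e : ℤ) ∣ x.1 * (z : ℤ) ^ 3 ∧ (e : ℤ) ∣ 5 * x.2 * (z : ℤ) ^ 5)) with hT
  have hmem : ∀ x ∈ T, ((-(A : ℤ) ≤ x.1 ∧ x.1 ≤ A) ∧ (-(B : ℤ) ≤ x.2 ∧ x.2 ≤ B)) ∧
      ¬ (x.1 = 0 ∧ x.2 = 0) ∧ (n : ℤ) ∣ x.1 ∧ (n : ℤ) ∣ 5 * x.2 := by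
    intro x hx
    rw [hT, Finset.mem_filter, Finset.mem_product, Finset.mem_Icc, Finset.mem_Icc] at hx
    exact ⟨hx.1, hx.2.1, key x hx.1 hx.2.2.1 hx.2.2.2⟩
  have hinj : Set.InjOn (fun x : ℤ × ℤ => (x.1 / n, 5 * x.2 / n)) (T : Set (ℤ × ℤ)) := by
    intro x hx y hy hxy
    obtain ⟨-, -, x1, x2⟩ := hmem x hx
    obtain ⟨-, -, y1, y2⟩ := hmem y hy
    simp only [Prod.mk.injEq] at hxy
    have e1 : x.1 = y.1 := by
      rw [← Int.ediv_mul_cancel x1, ← Int.ediv_mul_cancel y1, hxy.1]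
    have e2 : 5 * x.2 = 5 * y.2 := by
      rw [← Int.ediv_mul_cancel x2, ← Int.ediv_mul_cancel y2, hxy.2]
    exact Prod.ext e1 (by omega)
  have hbd : ∀ (t : ℤ) (c : ℕ), -(c : ℤ) ≤ t → t ≤ c → (n : ℤ) ∣ t →
      -((c / n : ℕ) : ℤ) ≤ t / n ∧ t / n ≤ ((c / n : ℕ) : ℤ) := by
    intro t c h1 h2 h3
    obtain ⟨s, rfl⟩ := h3
    rw [Int.mul_ediv_cancel_left _ hn0]
    push_cast
    constructor
    · have h4 : -s ≤ (c : ℤ) / n := by
        rw [Int.le_ediv_iff_mul_le hnp]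
        nlinarith
      linarith
    · rw [Int.le_ediv_iff_mul_le hnp]
      nlinarith
  have hmap : ∀ x ∈ T, (fun x : ℤ × ℤ => (x.1 / n, 5 * x.2 / n)) x ∈
      ((Icc (-(a : ℤ)) a) ×ˢ (Icc (-(b : ℤ)) b)).erase (0, 0) := by
    intro x hx
    obtain ⟨⟨⟨h1, h2⟩, ⟨h3, h4⟩⟩, h5, h6, h7⟩ := hmem x hx
    have k1 := hbd x.1 A h1 h2 h6
    have k2 := hbd (5 * x.2) (5 * B) (by push_cast; linarith) (by push_cast; linarith) h7
    rw [Finset.mem_erase, Finset.mem_product, Finset.mem_Icc, Finset.mem_Icc]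
    refine ⟨?_, k1, k2⟩
    intro h
    simp only [Prod.mk.injEq] at h
    apply h5
    refine ⟨?_, ?_⟩
    · rw [← Int.ediv_mul_cancel h6, h.1, zero_mul]
    · have : 5 * x.2 = 0 := by rw [← Int.ediv_mul_cancel h7, h.2, zero_mul]
      omega
  have h8 := Finset.card_le_card_of_injOn _ hmap hinj
  have h9 : (((Icc (-(a : ℤ)) a) ×ˢ (Icc (-(b : ℤ)) b)).erase (0, 0)).card =
      (2 * a + 1) * (2 * b + 1) - 1 := by
    rw [Finset.card_erase_of_mem, Finset.card_product, Int.card_Icc, Int.card_Icc]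
    · congr 2
      · omega
      · omega
    · rw [Finset.mem_product, Finset.mem_Icc, Finset.mem_Icc]
      exact ⟨⟨by simp, by simp⟩, ⟨by simp, by simp⟩⟩
  rw [h9] at h8
  refine h8.trans ?_
  have e : (2 * a + 1) * (2 * b + 1) = 4 * (a * b) + 2 * a + 2 * b + 1 := by ring
  rw [e]
  omega

theorem sqrt_fm (A B e z n : ℕ) (hn : 0 < n) (hne : n ∣ e) (hz : n.Coprime z) :
    Real.sqrt (FM A B e z) ≤ 5 * Real.sqrt ((A : ℝ) * B) * ((n : ℝ))⁻¹ +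
      4 * (Real.sqrt A + Real.sqrt B) * (Real.sqrt n)⁻¹ := by
  have hn' : (0 : ℝ) < n := by exact_mod_cast hn
  have hs : 0 < Real.sqrt n := Real.sqrt_pos.2 hn'
  have h1 : (FM A B e z : ℝ) ≤ 4 * ((A / n : ℝ) * (5 * B / n)) + 2 * (A / n : ℝ) +
      2 * (5 * B / n : ℝ) := by
    have h2 := fm_le A B e z n hn hne hz
    have h3 : ((A / n : ℕ) : ℝ) ≤ (A / n : ℝ) := Nat.cast_div_le
    have h4 : ((5 * B / n : ℕ) : ℝ) ≤ (5 * B / n : ℝ) := by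
      have := @Nat.cast_div_le ℝ _ _ _ (5 * B) n
      push_cast at this
      exact this
    calc (FM A B e z : ℝ) ≤ ((4 * ((A / n) * (5 * B / n)) + 2 * (A / n) + 2 * (5 * B / n) : ℕ) : ℝ) := by
          exact_mod_cast h2
      _ = 4 * (((A / n : ℕ) : ℝ) * ((5 * B / n : ℕ) : ℝ)) + 2 * ((A / n : ℕ) : ℝ) +
          2 * ((5 * B / n : ℕ) : ℝ) := by push_cast; ring
      _ ≤ _ := by gcongr
  set α := Real.sqrt A with hα
  set β := Real.sqrt B with hβ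
  set ν := Real.sqrt n with hν
  have a1 : (A : ℝ) = α ^ 2 := (Real.sq_sqrt (by positivity)).symm
  have a2 : (B : ℝ) = β ^ 2 := (Real.sq_sqrt (by positivity)).symm
  have a3 : (n : ℝ) = ν ^ 2 := (Real.sq_sqrt (by positivity)).symm
  have hα0 : 0 ≤ α := Real.sqrt_nonneg _
  have hβ0 : 0 ≤ β := Real.sqrt_nonneg _
  have hAB : Real.sqrt ((A : ℝ) * B) = α * β := Real.sqrt_mul (by positivity) _
  rw [hAB]
  apply Real.sqrt_le_iff.2
  refine ⟨by positivity, h1.trans ?_⟩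
  rw [a1, a2, a3]
  have e : (5 * (α * β) * (ν ^ 2)⁻¹ + 4 * (α + β) * ν⁻¹) ^ 2 =
      25 * (α * β) ^ 2 / ν ^ 4 + 16 * (α + β) ^ 2 / ν ^ 2 +
        40 * (α * β) * (α + β) / ν ^ 3 := by
    field_simp
    ring
  rw [e]
  have e2 : 4 * (α ^ 2 / ν ^ 2 * (5 * β ^ 2 / ν ^ 2)) + 2 * (α ^ 2 / ν ^ 2) +
      2 * (5 * β ^ 2 / ν ^ 2) = 20 * (α * β) ^ 2 / ν ^ 4 + (2 * α ^ 2 + 10 * β ^ 2) / ν ^ 2 := by
    field_simp
    ring
  rw [e2]
  have h5 : 20 * (α * β) ^ 2 / ν ^ 4 ≤ 25 * (α * β) ^ 2 / ν ^ 4 := by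
    gcongr
    norm_num
  have h6 : (2 * α ^ 2 + 10 * β ^ 2) / ν ^ 2 ≤ 16 * (α + β) ^ 2 / ν ^ 2 := by
    apply div_le_div_of_nonneg_right _ (by positivity)
    nlinarith [mul_nonneg hα0 hβ0, sq_nonneg α, sq_nonneg β]
  have h7 : 0 ≤ 40 * (α * β) * (α + β) / ν ^ 3 := by positivity
  linarith

theorem sum_inv_sqrt (X : ℕ) : ∑ n ∈ Icc 1 X, (Real.sqrt n)⁻¹ ≤ 2 * Real.sqrt X := by
  induction X with
  | zero => simp
  | succ X ih =>
    rw [Finset.sum_Icc_succ_top (by omega)]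
    set a := Real.sqrt ((X + 1 : ℕ) : ℝ) with ha
    set b := Real.sqrt (X : ℝ) with hb
    have ha2 : a ^ 2 = X + 1 := by
      rw [ha, Real.sq_sqrt (by positivity)]
      push_cast
      ring
    have hb2 : b ^ 2 = X := Real.sq_sqrt (by positivity)
    have ha0 : 0 < a := Real.sqrt_pos.2 (by positivity)
    have hb0 : 0 ≤ b := Real.sqrt_nonneg _
    have hba : b ≤ a := Real.sqrt_le_sqrt (by push_cast; linarith)
    have h1 : a⁻¹ ≤ 2 * (a - b) := by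
      rw [inv_le_iff_one_le_mul₀ ha0]
      nlinarith
    linarith

/-- the fibres -/
theorem fib_le (C₁ C₂ ε : ℝ) (hC₁ : 0 < C₁) (hε : 0 < ε)
    (h1 : ∀ n : ℕ, 1 ≤ n → (n.divisors.card : ℝ) ≤ C₁ * (n : ℝ) ^ ε)
    (h2 : ∀ n x : ℕ, 1 ≤ n → 1 ≤ x →
      (((Icc 1 x).filter (fun w => w.primeFactors ⊆ n.primeFactors)).card : ℝ) ≤
        C₂ * ((n : ℝ) * x) ^ ε)
    (z X : ℕ) (hz : 1 ≤ z) (hX : 1 ≤ X) (n : ℕ) (T : Finset (ℕ × ℕ))
    (hT : ∀ p ∈ T, 0 < p.1 ∧ 0 < p.2 ∧ p.2 * p.1 ≤ X ∧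
      ∃ w : ℕ, 0 < w ∧ w.primeFactors ⊆ z.primeFactors ∧ p.2 * p.1 = n * w) :
    (T.card : ℝ) ≤ C₂ * ((z : ℝ) * X) ^ ε * (C₁ * (X : ℝ) ^ ε) := by
  classical
  set SM := (Icc 1 X).filter (fun w => w.primeFactors ⊆ z.primeFactors) with hSM
  have hsub : T ⊆ SM.biUnion (fun w => T.filter (fun p => p.2 * p.1 = n * w)) := by
    intro p hp
    obtain ⟨a1, a2, a3, w, a4, a5, a6⟩ := hT p hp
    rw [Finset.mem_biUnion]
    refine ⟨w, ?_, Finset.mem_filter.2 ⟨hp, a6⟩⟩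
    rw [hSM, Finset.mem_filter, Finset.mem_Icc]
    refine ⟨⟨a4, ?_⟩, a5⟩
    have hn : 0 < n := by
      rcases Nat.eq_zero_or_pos n with h | h
      · rw [h, zero_mul] at a6
        have := Nat.mul_pos a2 a1
        omega
      · exact h
    calc w ≤ n * w := Nat.le_mul_of_pos_left w hn
      _ ≤ X := a6 ▸ a3
  have h3 : (T.card : ℝ) ≤ ∑ w ∈ SM, ((T.filter (fun p => p.2 * p.1 = n * w)).card : ℝ) := by
    have := (Finset.card_le_card hsub).trans Finset.card_biUnion_le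
    exact_mod_cast this
  have h4 : ∀ w ∈ SM, ((T.filter (fun p => p.2 * p.1 = n * w)).card : ℝ) ≤ C₁ * (X : ℝ) ^ ε := by
    intro w _
    rcases (T.filter (fun p => p.2 * p.1 = n * w)).eq_empty_or_nonempty with he | ⟨p, hp⟩
    · rw [he]
      simp only [card_empty, Nat.cast_zero]
      positivity
    · rw [Finset.mem_filter] at hp
      obtain ⟨a1, a2, a3, -⟩ := hT p hp.1
      have hm : 1 ≤ n * w := by
        rw [← hp.2]
        exact Nat.mul_pos a2 a1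
      have hle : n * w ≤ X := by rw [← hp.2]; exact a3
      have h5 : (T.filter (fun p => p.2 * p.1 = n * w)).card ≤ (n * w).divisors.card := by
        apply Finset.card_le_card_of_injOn (fun p => p.1)
        · intro q hq
          rw [Finset.mem_coe, Finset.mem_filter] at hq
          rw [Finset.mem_coe, Nat.mem_divisors]
          exact ⟨Dvd.intro_left _ hq.2, by omega⟩
        · intro q hq q' hq' hqq
          rw [Finset.mem_coe, Finset.mem_filter] at hq hq'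
          simp only at hqq
          have b1 := (hT q hq.1).1
          have e : q.2 * q.1 = q'.2 * q.1 := by rw [hq.2, hqq, hq'.2]
          exact Prod.ext hqq (Nat.eq_of_mul_eq_mul_right b1 e)
      calc ((T.filter (fun p => p.2 * p.1 = n * w)).card : ℝ) ≤ ((n * w).divisors.card : ℝ) := by
            exact_mod_cast h5
        _ ≤ C₁ * ((n * w : ℕ) : ℝ) ^ ε := h1 _ hm
        _ ≤ C₁ * (X : ℝ) ^ ε := by
            have : ((n * w : ℕ) : ℝ) ≤ X := by exact_mod_cast hle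
            gcongr
  calc (T.card : ℝ) ≤ ∑ w ∈ SM, C₁ * (X : ℝ) ^ ε := h3.trans (Finset.sum_le_sum h4)
    _ = (SM.card : ℝ) * (C₁ * (X : ℝ) ^ ε) := by rw [Finset.sum_const, nsmul_eq_mul]
    _ ≤ _ := by
        have := h2 z X hz hX
        gcongr

end FAM

theorem t_FAM (hDIV : S_DIV) (hSMO : S_SMO) : S_FAM := by
  classical
  intro ε hε
  set δ : ℝ := ε / 7 with hδ
  have hδ0 : 0 < δ := by positivity
  obtain ⟨C₁, hC₁, H1⟩ := hDIV δ hδ0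
  obtain ⟨C₂, hC₂, H2⟩ := hSMO δ hδ0
  set C₃ : ℝ := 1 + 1 / δ with hC₃
  have hC₃0 : 0 < C₃ := by positivity
  refine ⟨C₁ * C₂ * (5 * C₃ + 12) * (8 : ℝ) ^ δ, by positivity, ?_⟩
  intro G H ρ A B z Z hG hH hρ hz hGZ hHZ hρZ hAZ hBZ hzZ
  -- the splitting
  have hsp : ∀ m : ℕ, ∃ p : ℕ × ℕ, 0 < m → m = p.1 * p.2 ∧ p.1.Coprime z ∧ 0 < p.2 ∧
      p.2.primeFactors ⊆ z.primeFactors := by
    intro m
    by_cases h : 0 < m
    · obtain ⟨g₁, w', k1, k2, k3, k4⟩ := cn2_split z (by omega) m h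
      exact ⟨(g₁, w'), fun _ => ⟨k1, k2, k3, k4⟩⟩
    · exact ⟨(0, 0), fun h1 => absurd h1 h⟩
  choose P hP using hsp
  set X : ℕ := 2 * G * H with hX
  have hX1 : 1 ≤ X := by
    have : 0 < 2 * G * H := by positivity
    omega
  have hX1' : (1 : ℝ) ≤ X := by exact_mod_cast hX1
  set PP := (Ico G (2 * G)) ×ˢ (Icc 1 H) with hPP
  have hPPm : ∀ p ∈ PP, 0 < p.1 ∧ 0 < p.2 ∧ p.2 * p.1 ≤ X := by
    intro p hp
    rw [hPP, Finset.mem_product, Finset.mem_Ico, Finset.mem_Icc] at hp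
    refine ⟨by omega, by omega, ?_⟩
    calc p.2 * p.1 ≤ H * (2 * G) := Nat.mul_le_mul hp.2.2 (by omega)
      _ = X := by rw [hX]; ring
  set φ : ℕ → ℝ := fun n => 5 * Real.sqrt ((A : ℝ) * B) * ((n : ℝ))⁻¹ +
      4 * (Real.sqrt A + Real.sqrt B) * (Real.sqrt n)⁻¹ with hφ
  have hφ0 : ∀ n, 0 ≤ φ n := by
    intro n
    simp only [hφ]
    positivity
  have h1 : ∀ p ∈ PP, Real.sqrt (FM A B (p.2 * p.1 * ρ) z) ≤ φ (P (p.2 * p.1)).1 := by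
    intro p hp
    obtain ⟨a1, a2, a3⟩ := hPPm p hp
    have hm : 0 < p.2 * p.1 := Nat.mul_pos a2 a1
    obtain ⟨k1, k2, k3, k4⟩ := hP _ hm
    apply FAM.sqrt_fm
    · rcases Nat.eq_zero_or_pos (P (p.2 * p.1)).1 with h | h
      · rw [h, zero_mul] at k1
        omega
      · exact h
    · exact Dvd.dvd.mul_right (Dvd.intro _ k1.symm) _
    · exact k2
  have h2 : ∑ g ∈ Ico G (2 * G), ∑ h ∈ Icc 1 H, Real.sqrt (FM A B (h * g * ρ) z) ≤
      ∑ p ∈ PP, φ (P (p.2 * p.1)).1 := by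
    rw [← Finset.sum_product']
    exact Finset.sum_le_sum h1
  have hmaps : ∀ p ∈ PP, (P (p.2 * p.1)).1 ∈ Icc 1 X := by
    intro p hp
    obtain ⟨a1, a2, a3⟩ := hPPm p hp
    have hm : 0 < p.2 * p.1 := Nat.mul_pos a2 a1
    obtain ⟨k1, k2, k3, k4⟩ := hP _ hm
    rw [Finset.mem_Icc]
    constructor
    · rcases Nat.eq_zero_or_pos (P (p.2 * p.1)).1 with h | h
      · rw [h, zero_mul] at k1
        omega
      · exact h
    · calc (P (p.2 * p.1)).1 ≤ (P (p.2 * p.1)).1 * (P (p.2 * p.1)).2 :=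
            Nat.le_mul_of_pos_right _ k3
        _ = p.2 * p.1 := k1.symm
        _ ≤ X := a3
  have h3 : ∑ p ∈ PP, φ (P (p.2 * p.1)).1 =
      ∑ n ∈ Icc 1 X, ((PP.filter (fun p => (P (p.2 * p.1)).1 = n)).card : ℝ) * φ n := by
    rw [← Finset.sum_fiberwise_of_maps_to hmaps]
    refine Finset.sum_congr rfl fun n _ => ?_
    rw [← nsmul_eq_mul, ← Finset.sum_const]
    refine Finset.sum_congr rfl fun p hp => ?_
    rw [(Finset.mem_filter.1 hp).2]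
  set M : ℝ := C₂ * ((z : ℝ) * X) ^ δ * (C₁ * (X : ℝ) ^ δ) with hM
  have hM0 : 0 ≤ M := by positivity
  have h4 : ∀ n ∈ Icc 1 X, ((PP.filter (fun p => (P (p.2 * p.1)).1 = n)).card : ℝ) * φ n ≤
      M * φ n := by
    intro n _
    apply mul_le_mul_of_nonneg_right _ (hφ0 n)
    apply FAM.fib_le C₁ C₂ δ hC₁ hδ0 (fun n hn => (H1 n hn).1) H2 z X hz hX1 n
    intro p hp
    rw [Finset.mem_filter] at hp
    obtain ⟨a1, a2, a3⟩ := hPPm p hp.1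
    have hm : 0 < p.2 * p.1 := Nat.mul_pos a2 a1
    obtain ⟨k1, k2, k3, k4⟩ := hP _ hm
    refine ⟨a1, a2, a3, (P (p.2 * p.1)).2, k3, k4, ?_⟩
    rw [← hp.2]
    exact k1
  have h5 : ∑ n ∈ Icc 1 X, φ n ≤ 5 * Real.sqrt ((A : ℝ) * B) * (1 + Real.log X) +
      4 * (Real.sqrt A + Real.sqrt B) * (2 * Real.sqrt X) := by
    simp only [hφ]
    rw [Finset.sum_add_distrib, ← Finset.mul_sum, ← Finset.mul_sum]
    have := ZB.harm X
    have := FAM.sum_inv_sqrt X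
    gcongr
  have hXd : (1 : ℝ) ≤ (X : ℝ) ^ δ := Real.one_le_rpow hX1' hδ0.le
  have h6 : 1 + Real.log X ≤ C₃ * (X : ℝ) ^ δ := by
    have h7 : Real.log X ≤ (X : ℝ) ^ δ / δ := Real.log_le_rpow_div (by positivity) hδ0
    have e : C₃ * (X : ℝ) ^ δ = (X : ℝ) ^ δ + (X : ℝ) ^ δ / δ := by
      rw [hC₃]; ring
    rw [e]
    linarith
  have h8 : Real.sqrt X ≤ 3 / 2 * Real.sqrt ((G : ℝ) * H) := by
    have e : (X : ℝ) = 2 * ((G : ℝ) * H) := by rw [hX]; push_cast; ring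
    rw [e]
    apply Real.sqrt_le_iff.2
    refine ⟨by positivity, ?_⟩
    rw [mul_pow, Real.sq_sqrt (by positivity)]
    have : (0 : ℝ) ≤ (G : ℝ) * H := by positivity
    linarith
  set Q : ℝ := Real.sqrt ((A : ℝ) * B) + Real.sqrt ((G : ℝ) * H) * (Real.sqrt A + Real.sqrt B)
    with hQ
  have hQ0 : 0 ≤ Q := by positivity
  have h9 : 5 * Real.sqrt ((A : ℝ) * B) * (1 + Real.log X) +
      4 * (Real.sqrt A + Real.sqrt B) * (2 * Real.sqrt X) ≤ (X : ℝ) ^ δ * ((5 * C₃ + 12) * Q) := by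
    have a1 : 5 * Real.sqrt ((A : ℝ) * B) * (1 + Real.log X) ≤
        5 * Real.sqrt ((A : ℝ) * B) * (C₃ * (X : ℝ) ^ δ) := by gcongr
    have a2 : 4 * (Real.sqrt A + Real.sqrt B) * (2 * Real.sqrt X) ≤
        4 * (Real.sqrt A + Real.sqrt B) * (2 * (3 / 2 * Real.sqrt ((G : ℝ) * H))) := by gcongr
    have a3 : 4 * (Real.sqrt A + Real.sqrt B) * (2 * (3 / 2 * Real.sqrt ((G : ℝ) * H))) ≤
        (X : ℝ) ^ δ * (4 * (Real.sqrt A + Real.sqrt B) * (2 * (3 / 2 * Real.sqrt ((G : ℝ) * H)))) :=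
      le_mul_of_one_le_left (by positivity) hXd
    have a4 : 5 * Real.sqrt ((A : ℝ) * B) * (C₃ * (X : ℝ) ^ δ) +
        (X : ℝ) ^ δ * (4 * (Real.sqrt A + Real.sqrt B) *
          (2 * (3 / 2 * Real.sqrt ((G : ℝ) * H)))) =
        (X : ℝ) ^ δ * (5 * C₃ * Real.sqrt ((A : ℝ) * B) +
          12 * (Real.sqrt ((G : ℝ) * H) * (Real.sqrt A + Real.sqrt B))) := by ring
    have a5 : 5 * C₃ * Real.sqrt ((A : ℝ) * B) +
          12 * (Real.sqrt ((G : ℝ) * H) * (Real.sqrt A + Real.sqrt B)) ≤ (5 * C₃ + 12) * Q := by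
      have b1 : 0 ≤ Real.sqrt ((A : ℝ) * B) := by positivity
      have b2 : 0 ≤ Real.sqrt ((G : ℝ) * H) * (Real.sqrt A + Real.sqrt B) := by positivity
      rw [hQ]
      nlinarith [mul_nonneg hC₃0.le b2]
    have a6 : (X : ℝ) ^ δ * (5 * C₃ * Real.sqrt ((A : ℝ) * B) +
          12 * (Real.sqrt ((G : ℝ) * H) * (Real.sqrt A + Real.sqrt B))) ≤
        (X : ℝ) ^ δ * ((5 * C₃ + 12) * Q) := by gcongr
    linarith
  have hZ1 : (1 : ℝ) ≤ Z := by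
    have : 1 ≤ Z := hG.trans hGZ
    exact_mod_cast this
  have h10 : ((z : ℝ) * X) ^ δ * (X : ℝ) ^ δ * (X : ℝ) ^ δ ≤ (8 : ℝ) ^ δ * (Z : ℝ) ^ ε := by
    rw [← Real.mul_rpow (by positivity) (by positivity),
      ← Real.mul_rpow (by positivity) (by positivity)]
    have e : (Z : ℝ) ^ ε = ((Z : ℝ) ^ 7) ^ δ := by
      rw [← Real.rpow_natCast, ← Real.rpow_mul (by positivity)]
      congr 1
      rw [hδ]
      push_cast
      ring
    rw [e, ← Real.mul_rpow (by positivity) (by positivity)]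
    apply Real.rpow_le_rpow (by positivity) _ hδ0.le
    have hXZ : (X : ℝ) ≤ 2 * (Z : ℝ) ^ 2 := by
      have e1 : (X : ℝ) = 2 * ((G : ℝ) * H) := by rw [hX]; push_cast; ring
      rw [e1, pow_two]
      have b1 : (G : ℝ) ≤ Z := by exact_mod_cast hGZ
      have b2 : (H : ℝ) ≤ Z := by exact_mod_cast hHZ
      gcongr
    have hzZ' : (z : ℝ) ≤ Z := by exact_mod_cast hzZ
    calc (z : ℝ) * X * X * X ≤ Z * (2 * (Z : ℝ) ^ 2) * (2 * (Z : ℝ) ^ 2) * (2 * (Z : ℝ) ^ 2) := by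
          gcongr
      _ = 8 * (Z : ℝ) ^ 7 := by ring
  calc ∑ g ∈ Ico G (2 * G), ∑ h ∈ Icc 1 H, Real.sqrt (FM A B (h * g * ρ) z)
      ≤ ∑ n ∈ Icc 1 X, M * φ n := h2.trans (h3.le.trans (Finset.sum_le_sum h4))
    _ = M * ∑ n ∈ Icc 1 X, φ n := by rw [Finset.mul_sum]
    _ ≤ M * ((X : ℝ) ^ δ * ((5 * C₃ + 12) * Q)) := mul_le_mul_of_nonneg_left (h5.trans h9) hM0
    _ = C₁ * C₂ * (5 * C₃ + 12) * (((z : ℝ) * X) ^ δ * (X : ℝ) ^ δ * (X : ℝ) ^ δ) * Q := by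
        rw [hM]; ring
    _ ≤ C₁ * C₂ * (5 * C₃ + 12) * ((8 : ℝ) ^ δ * (Z : ℝ) ^ ε) * Q := by gcongr
    _ = C₁ * C₂ * (5 * C₃ + 12) * (8 : ℝ) ^ δ * (Z : ℝ) ^ ε * Q := by ring

end Pool.Agent.T2h80.R5
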