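import Pool.Agent.T2h80.R5.Stm

set_option autoImplicit false

namespace Pool.Agent.T2h80.R5

open Finset NumberField Pool.Agent.T2h80.F5

namespace FINR

abbrev Tp := ℕ × ℤ × ℤ × ℤ × ℤ × ℤ × ℤ

/-- double counting when every element lies in at most two of the sets -/
theorem sum_card_le {α β : Type} [DecidableEq β] (s : Finset α) (B : α → Finset β)
    (h : ∀ t : β, (s.filter (fun c => t ∈ B c)).card ≤ 2) :
    ∑ c ∈ s, (B c).card ≤ 2 * (s.biUnion B).card := by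
  have h1 : ∀ c ∈ s, (B c).card = ∑ t ∈ s.biUnion B, if t ∈ B c then 1 else 0 := by
    intro c hc
    rw [← card_filter]
    congr 1
    ext t
    rw [mem_filter, mem_biUnion]
    exact ⟨fun ht => ⟨⟨c, hc, ht⟩, ht⟩, fun ht => ht.2⟩
  rw [sum_congr rfl h1, sum_comm]
  calc ∑ t ∈ s.biUnion B, ∑ c ∈ s, (if t ∈ B c then 1 else 0) ≤ ∑ t ∈ s.biUnion B, 2 := by
        apply sum_le_sum
        intro t _
        rw [← card_filter]
        exact h t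
    _ = 2 * (s.biUnion B).card := by rw [sum_const, smul_eq_mul, mul_comm]

theorem log_lt {x : ℝ} {M : ℕ} (hx : x ≤ M) : Nat.log 2 ⌊x⌋₊ < Nat.log 2 M + 1 := by
  rw [Nat.lt_succ_iff]
  apply Nat.log_mono_right
  exact Nat.floor_le_of_le hx

theorem log_bd {x : ℝ} (hx : 1 ≤ x) : (2 : ℝ) ^ Nat.log 2 ⌊x⌋₊ ≤ x ∧
    x < (2 : ℝ) ^ (Nat.log 2 ⌊x⌋₊ + 1) := by
  have h1 : 1 ≤ ⌊x⌋₊ := by rwa [Nat.one_le_floor_iff]
  have h2 : (2 : ℝ) ^ Nat.log 2 ⌊x⌋₊ ≤ (⌊x⌋₊ : ℝ) := by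
    exact_mod_cast Nat.pow_log_le_self 2 (by omega)
  have h3 : ((⌊x⌋₊ + 1 : ℕ) : ℝ) ≤ (2 : ℝ) ^ (Nat.log 2 ⌊x⌋₊ + 1) := by
    exact_mod_cast Nat.lt_pow_succ_log_self (b := 2) (by norm_num) ⌊x⌋₊
  have h4 := Nat.floor_le (by linarith : 0 ≤ x)
  have h5 := Nat.lt_floor_add_one x
  push_cast at h3
  exact ⟨h2.trans h4, lt_of_lt_of_le h5 h3⟩

theorem siz_mono {D : ℕ} {F Y F' Y' : ℝ} {ρ : ℕ} {m a x₁ u₁ x₂ u₂ : ℤ}
    (h : SIZ 1 10 D F Y ρ m a x₁ u₁ x₂ u₂) (hF : F ≤ F') (hF' : F' ≤ 2 * F) (hY : Y ≤ Y')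
    (hY' : Y' ≤ 2 * Y) : SIZ 2 20 D F' Y' ρ m a x₁ u₁ x₂ u₂ := by
  obtain ⟨f₁, f₂, g₁, g₂, h0, h1, h2, h3, h4, h5, h6, h7⟩ := h
  refine ⟨f₁, f₂, g₁, g₂, h0, by linarith, by linarith, ?_, by linarith, by linarith, by linarith,
    by linarith⟩
  rcases h3 with h3 | h3
  · left; linarith
  · right; linarith

theorem one_le_F {D : ℕ} {F Y : ℝ} {ρ : ℕ} {m a x₁ u₁ x₂ u₂ : ℤ} (hF : 0 < F)
    (hR : RELR D ρ m a x₁ u₁ x₂ u₂) (h : SIZ 1 10 D F Y ρ m a x₁ u₁ x₂ u₂) : 1 ≤ F := by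
  obtain ⟨f₁, f₂, g₁, g₂, h0, h1, h2, h3, h4, h5, h6, h7⟩ := h
  obtain ⟨a1, a2, a3, a4, a5, a6, a7, a8, a9, a10⟩ := h0
  have hρ : (1 : ℝ) ≤ ρ := by exact_mod_cast hR.1
  have hm : (1 : ℝ) ≤ |(m : ℝ)| := by
    have h := Int.one_le_abs hR.2.1
    have h' : ((1 : ℤ) : ℝ) ≤ ((|m| : ℤ) : ℝ) := by exact_mod_cast h
    push_cast at h'
    exact h'
  have h8 : (1 : ℝ) ≤ F * F := by
    calc (1 : ℝ) = 1 * 1 := by norm_num
      _ ≤ ρ * |(m : ℝ)| := mul_le_mul hρ hm (by norm_num) (by linarith)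
      _ = f₁ * f₂ := a5.symm
      _ ≤ F * F := mul_le_mul h1 h2 a2.le hF.le
  nlinarith

/-- the data for one discriminant -/
theorem perD (hALGR : S_ALGR) (K : Type) [Field K] [NumberField K] (D N : ℕ) (hN : 1 ≤ N)
    (hK2 : Module.finrank ℚ K = 2) (hd : discr K = (D : ℤ)) (h1 : N < D) (h2 : D ≤ 2 * N) :
    (D % 4 = 0 ∨ D % 4 = 1) ∧ ∃ U : ℕ → ℕ → Finset Tp,
      (∀ i k, ∀ t ∈ U i k, PFY N ((2 : ℝ) ^ (i + 1)) ((2 : ℝ) ^ k) ∧
        RELR D t.1 t.2.1 t.2.2.1 t.2.2.2.1 t.2.2.2.2.1 t.2.2.2.2.2.1 t.2.2.2.2.2.2 ∧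
        SIZ 2 20 D ((2 : ℝ) ^ (i + 1)) ((2 : ℝ) ^ k) t.1 t.2.1 t.2.2.1 t.2.2.2.1 t.2.2.2.2.1
          t.2.2.2.2.2.1 t.2.2.2.2.2.2) ∧
      (Nat.card {c : ClassGroup (𝓞 K) // c ^ 5 = 1} : ℝ) ≤
        ∑ i ∈ range (Nat.log 2 (4 * N) + 1), ∑ k ∈ range (Nat.log 2 (4 * N) + 1),
          16 * Real.sqrt N / ((2 : ℝ) ^ k) ^ 2 * ((U i k).card : ℝ) := by
  classical
  have hD0 : 0 < D := by omega
  obtain ⟨hmod, κ, h⟩ := hALGR K D hK2 hd hD0
  refine ⟨hmod, ?_⟩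
  set C5 := {c : ClassGroup (𝓞 K) // c ^ 5 = 1} with hC5
  have : Fintype C5 := Fintype.ofFinite _
  choose F Y hF0 hY0 hF2 hFY hY2 B hBc hB using fun c : C5 => h c.1 c.2
  set i : C5 → ℕ := fun c => Nat.log 2 ⌊F c⌋₊ with hi
  set k : C5 → ℕ := fun c => Nat.log 2 ⌊2 * Y c⌋₊ with hk
  set s : ℕ → ℕ → Finset C5 := fun a b => univ.filter (fun c => i c = a ∧ k c = b) with hs
  have hN1 : (1 : ℝ) ≤ N := by exact_mod_cast hN
  have hDr : (N : ℝ) ≤ D := by exact_mod_cast h1.le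
  have hDr2 : (D : ℝ) ≤ 2 * N := by exact_mod_cast h2
  have hD1 : (1 : ℝ) ≤ D := hN1.trans hDr
  have sD : 0 < Real.sqrt D := Real.sqrt_pos.2 (by linarith)
  have sN : 0 < Real.sqrt N := Real.sqrt_pos.2 (by linarith)
  have sND : Real.sqrt N ≤ Real.sqrt D := Real.sqrt_le_sqrt hDr
  have sD1 : (1 : ℝ) ≤ Real.sqrt D := by
    rw [show (1 : ℝ) = Real.sqrt 1 by simp]; exact Real.sqrt_le_sqrt hD1
  have sDN : Real.sqrt D ≤ 2 * Real.sqrt N := by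
    calc Real.sqrt D ≤ Real.sqrt (4 * N) := Real.sqrt_le_sqrt (by linarith)
      _ = 2 * Real.sqrt N := by
        rw [Real.sqrt_mul (by norm_num), show (4 : ℝ) = 2 ^ 2 by norm_num,
          Real.sqrt_sq (by norm_num)]
  have sDD : Real.sqrt D ≤ D := by
    have := Real.mul_self_sqrt (by linarith : (0 : ℝ) ≤ D)
    nlinarith
  have hne : ∀ c, (B c).Nonempty := by
    intro c
    rw [← card_pos]
    have : 0 < Y c ^ 2 / Real.sqrt D := by have := hY0 c; positivity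
    have h3 := lt_of_lt_of_le this (hBc c)
    exact_mod_cast h3
  have hF1 : ∀ c, 1 ≤ F c := by
    intro c
    obtain ⟨t, ht⟩ := hne c
    obtain ⟨r1, r2, -⟩ := hB c t ht
    exact one_le_F (hF0 c) r1 r2
  have hY1 : ∀ c, 1 ≤ 2 * Y c := by
    intro c
    have h3 := hY2 c
    have h4 := hY0 c
    nlinarith
  have hFup : ∀ c, F c ≤ ((4 * N : ℕ) : ℝ) := by
    intro c
    have h3 := hF2 c
    have h4 := hF1 c
    push_cast
    nlinarith
  have hYup : ∀ c, 2 * Y c ≤ ((4 * N : ℕ) : ℝ) := by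
    intro c
    have h3 := hFY c
    have h4 := hF1 c
    have h5 := hY0 c
    push_cast
    nlinarith
  have hdy : ∀ c, (F c ≤ 2 ^ (i c + 1) ∧ (2 : ℝ) ^ (i c + 1) ≤ 2 * F c) ∧
      (Y c ≤ 2 ^ k c ∧ (2 : ℝ) ^ k c ≤ 2 * Y c) := by
    intro c
    obtain ⟨b1, b2⟩ := log_bd (hF1 c)
    obtain ⟨b3, b4⟩ := log_bd (hY1 c)
    refine ⟨⟨b2.le, ?_⟩, ?_, b3⟩
    · rw [pow_succ]; linarith
    · rw [pow_succ] at b4; linarith
  refine ⟨fun a b => (s a b).biUnion B, ?_, ?_⟩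
  · intro a b t ht
    obtain ⟨c, hc, htc⟩ := mem_biUnion.1 ht
    obtain ⟨-, rfl, rfl⟩ := mem_filter.1 hc
    obtain ⟨r1, r2, -⟩ := hB c t htc
    obtain ⟨⟨d1, d2⟩, d3, d4⟩ := hdy c
    refine ⟨⟨hN, by positivity, by positivity, ?_, ?_, ?_⟩, r1, siz_mono r2 d1 d2 d3 d4⟩
    · have e1 : ((2 : ℝ) ^ (i c + 1)) ^ 2 ≤ (2 * F c) ^ 2 := pow_le_pow_left₀ (by positivity) d2 2
      have e2 := hF2 c
      unfold kap
      nlinarith
    · have e1 : (Y c) ^ 2 ≤ ((2 : ℝ) ^ k c) ^ 2 := pow_le_pow_left₀ (hY0 c).le d3 2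
      have e2 := hY2 c
      unfold kap
      nlinarith
    · have e1 : (2 : ℝ) ^ (i c + 1) * 2 ^ k c ≤ (2 * F c) * (2 * Y c) :=
        mul_le_mul d2 d4 (by positivity) (by have := hF0 c; linarith)
      have e2 := hFY c
      unfold kap
      nlinarith
  · have hmaps : ∀ c ∈ (univ : Finset C5), (i c, k c) ∈
        range (Nat.log 2 (4 * N) + 1) ×ˢ range (Nat.log 2 (4 * N) + 1) := by
      intro c _
      rw [mem_product, mem_range, mem_range]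
      exact ⟨log_lt (hFup c), log_lt (hYup c)⟩
    have hcard : (Nat.card C5 : ℝ) = ∑ a ∈ range (Nat.log 2 (4 * N) + 1),
        ∑ b ∈ range (Nat.log 2 (4 * N) + 1), ((s a b).card : ℝ) := by
      rw [Nat.card_eq_fintype_card, ← card_univ, card_eq_sum_card_fiberwise hmaps, sum_product]
      push_cast
      refine sum_congr rfl fun a _ => sum_congr rfl fun b _ => ?_
      congr 2
      ext c
      simp only [hs, mem_filter, mem_univ, true_and, Prod.mk.injEq]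
    rw [hcard]
    refine sum_le_sum fun a _ => sum_le_sum fun b _ => ?_
    have hdc := sum_card_le (s a b) B (by
      intro t
      have hsub : ((s a b).filter (fun c => t ∈ B c)).image (fun c : C5 => c.1) ⊆
          ({κ t, κ t ^ 3} : Finset (ClassGroup (𝓞 K))) := by
        intro c hc
        obtain ⟨c', hc', rfl⟩ := mem_image.1 hc
        obtain ⟨-, ht⟩ := mem_filter.1 hc'
        rcases (hB c' t ht).2.2 with e | e
        · rw [mem_insert]; left; exact e.symm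
        · rw [mem_insert, mem_singleton]; right
          rw [e, ← pow_mul]
          have : c'.1 ^ (2 * 3) = c'.1 ^ 5 * c'.1 := by rw [← pow_succ]
          rw [this, c'.2, one_mul]
      have h3 : (((s a b).filter (fun c => t ∈ B c)).image (fun c : C5 => c.1)).card =
          ((s a b).filter (fun c => t ∈ B c)).card :=
        card_image_of_injective _ Subtype.val_injective
      rw [← h3]
      exact (card_le_card hsub).trans card_le_two)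
    have hdc' : ∑ c ∈ s a b, ((B c).card : ℝ) ≤ 2 * (((s a b).biUnion B).card : ℝ) := by
      exact_mod_cast hdc
    have hlow : ((s a b).card : ℝ) * (((2 : ℝ) ^ b) ^ 2 / (8 * Real.sqrt N)) ≤
        ∑ c ∈ s a b, ((B c).card : ℝ) := by
      rw [← nsmul_eq_mul]
      apply card_nsmul_le_sum
      intro c hc
      obtain ⟨-, -, rfl⟩ := mem_filter.1 hc
      refine le_trans ?_ (hBc c)
      obtain ⟨-, d3, d4⟩ := hdy c
      have e1 : ((2 : ℝ) ^ k c) ^ 2 ≤ (2 * Y c) ^ 2 := pow_le_pow_left₀ (by positivity) d4 2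
      rw [div_le_div_iff₀ (by positivity) sD]
      have e3 : 0 < Y c ^ 2 := by have := hY0 c; positivity
      calc ((2 : ℝ) ^ k c) ^ 2 * Real.sqrt D ≤ (2 * Y c) ^ 2 * (2 * Real.sqrt N) :=
            mul_le_mul e1 sDN sD.le (by positivity)
        _ = Y c ^ 2 * (8 * Real.sqrt N) := by ring
    have h3 := hlow.trans hdc'
    have hp : (0 : ℝ) < ((2 : ℝ) ^ b) ^ 2 := by positivity
    have h4 : ((s a b).card : ℝ) ≤ 2 * (((s a b).biUnion B).card : ℝ) *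
        (8 * Real.sqrt N) / ((2 : ℝ) ^ b) ^ 2 := by
      rw [le_div_iff₀ hp]
      rw [← mul_div_assoc, div_le_iff₀ (by positivity)] at h3
      exact h3
    refine h4.trans (le_of_eq ?_)
    ring

theorem logN (δ : ℝ) (hδ : 0 < δ) : ∃ c : ℝ, 0 < c ∧ ∀ N : ℕ, 1 ≤ N →
    ((Nat.log 2 (4 * N) + 1 : ℕ) : ℝ) ≤ c * (N : ℝ) ^ δ := by
  have hl2 : 0 < Real.log 2 := Real.log_pos (by norm_num)
  refine ⟨1 + (4 : ℝ) ^ δ / (δ * Real.log 2), by positivity, ?_⟩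
  intro N hN
  have hN1 : (1 : ℝ) ≤ N := by exact_mod_cast hN
  have h1 : ((2 ^ Nat.log 2 (4 * N) : ℕ) : ℝ) ≤ ((4 * N : ℕ) : ℝ) := by
    exact_mod_cast Nat.pow_log_le_self 2 (by omega)
  have h2 : (Nat.log 2 (4 * N) : ℝ) * Real.log 2 ≤ Real.log ((4 * N : ℕ) : ℝ) := by
    rw [← Real.log_pow]
    apply Real.log_le_log (by positivity)
    exact_mod_cast h1
  have h3 : Real.log ((4 * N : ℕ) : ℝ) ≤ ((4 * N : ℕ) : ℝ) ^ δ / δ :=
    Real.log_le_rpow_div (by positivity) hδ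
  have h4 : ((4 * N : ℕ) : ℝ) ^ δ = (4 : ℝ) ^ δ * (N : ℝ) ^ δ := by
    push_cast
    rw [Real.mul_rpow (by norm_num) (by positivity)]
  have h5 : (1 : ℝ) ≤ (N : ℝ) ^ δ := Real.one_le_rpow hN1 hδ.le
  have h6 : (Nat.log 2 (4 * N) : ℝ) ≤ (4 : ℝ) ^ δ / (δ * Real.log 2) * (N : ℝ) ^ δ := by
    rw [div_mul_eq_mul_div, le_div_iff₀ (by positivity)]
    have h7 := h2.trans h3
    rw [h4] at h7
    rw [le_div_iff₀ hδ] at h7
    nlinarith
  push_cast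
  nlinarith

theorem fd_pos {D : ℤ} (h : FDp D) (hD : 0 < D) : 2 ≤ D := by
  rcases h with ⟨h1, h2, -⟩ | ⟨m, rfl, -, -⟩ <;> omega

theorem geo_le {a : ℝ} (ha : 2 ≤ a) : ∀ J : ℕ, ∑ j ∈ Finset.range (J + 1), a ^ j ≤ 2 * a ^ J := by
  intro J
  induction J with
  | zero => simp
  | succ J ih =>
    rw [Finset.sum_range_succ, pow_succ]
    have : 0 ≤ a ^ J := by positivity
    nlinarith

/-- one dyadic block -/
theorem block (hALGR : S_ALGR) (hINTR : S_INTR) (ε : ℝ) (hε : 0 < ε) : ∃ C : ℝ, 0 < C ∧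
    ∀ N : ℕ, 1 ≤ N → ∀ (K : ℤ → Type) [∀ D, Field (K D)] [∀ D, NumberField (K D)],
    ∀ S : Finset ℤ, (∀ D ∈ S, (N : ℤ) < D ∧ D ≤ 2 * N ∧ Module.finrank ℚ (K D) = 2 ∧
      discr (K D) = D) →
    ∑ D ∈ S, (Nat.card {c : ClassGroup (𝓞 (K D)) // c ^ 5 = 1} : ℝ) ≤ C * (N : ℝ) ^ (1 + ε) := by
  classical
  obtain ⟨C₁, hC₁, hI⟩ := hINTR (ε / 3) (by positivity)
  obtain ⟨c₂, hc₂, hL⟩ := logN (ε / 3) (by positivity)
  refine ⟨c₂ ^ 2 * (16 * C₁), by positivity, fun N hN K _ _ S hS => ?_⟩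
  have hN1 : (1 : ℝ) ≤ N := by exact_mod_cast hN
  have hN0 : (0 : ℝ) < N := by linarith
  have hpd : ∀ D : ℤ, D ∈ S → (D.natAbs % 4 = 0 ∨ D.natAbs % 4 = 1) ∧
      ∃ U : ℕ → ℕ → Finset Tp,
      (∀ i k, ∀ t ∈ U i k, PFY N ((2 : ℝ) ^ (i + 1)) ((2 : ℝ) ^ k) ∧
        RELR D.natAbs t.1 t.2.1 t.2.2.1 t.2.2.2.1 t.2.2.2.2.1 t.2.2.2.2.2.1 t.2.2.2.2.2.2 ∧
        SIZ 2 20 D.natAbs ((2 : ℝ) ^ (i + 1)) ((2 : ℝ) ^ k) t.1 t.2.1 t.2.2.1 t.2.2.2.1 t.2.2.2.2.1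
          t.2.2.2.2.2.1 t.2.2.2.2.2.2) ∧
      (Nat.card {c : ClassGroup (𝓞 (K D)) // c ^ 5 = 1} : ℝ) ≤
        ∑ i ∈ range (Nat.log 2 (4 * N) + 1), ∑ k ∈ range (Nat.log 2 (4 * N) + 1),
          16 * Real.sqrt N / ((2 : ℝ) ^ k) ^ 2 * ((U i k).card : ℝ) := by
    intro D hD
    obtain ⟨h1, h2, h3, h4⟩ := hS D hD
    exact perD hALGR (K D) D.natAbs N hN h3 (by rw [h4]; omega) (by omega) (by omega)
  choose! hmod U hU hUc using hpd
  set L := Nat.log 2 (4 * N) + 1 with hLd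
  -- the sum of the cardinalities for fixed i, k
  have hik : ∀ i k : ℕ, ∑ D ∈ S, ((U D i k).card : ℝ) ≤
      C₁ * (N : ℝ) ^ (ε / 3) * (((2 : ℝ) ^ k) ^ 2 * Real.sqrt N) := by
    intro i k
    set im : ℤ → Finset (ℕ × ℕ × ℤ × ℤ × ℤ × ℤ × ℤ × ℤ) := fun D =>
      (U D i k).image (fun t => (D.natAbs, t)) with him
    have hc : ∀ D ∈ S, (im D).card = (U D i k).card := by
      intro D _
      apply card_image_of_injective
      intro t t' h
      exact (Prod.mk.inj h).2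
    have hdis : ∀ D ∈ S, ∀ D' ∈ S, D ≠ D' → Disjoint (im D) (im D') := by
      intro D hD D' hD' hne
      rw [Finset.disjoint_left]
      intro x hx hx'
      obtain ⟨t, -, rfl⟩ := mem_image.1 hx
      obtain ⟨t', -, h⟩ := mem_image.1 hx'
      apply hne
      have h1 : D'.natAbs = D.natAbs := (Prod.mk.inj h).1
      have h2 := (hS D hD).1
      have h3 := (hS D' hD').1
      omega
    have hcard : (S.biUnion im).card = ∑ D ∈ S, (U D i k).card := by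
      rw [Finset.card_biUnion hdis]
      exact sum_congr rfl hc
    have hcard' : ∑ D ∈ S, ((U D i k).card : ℝ) = ((S.biUnion im).card : ℝ) := by
      rw [hcard]; push_cast; rfl
    rw [hcard']
    rcases (S.biUnion im).eq_empty_or_nonempty with h0 | ⟨x₀, hx₀⟩
    · rw [h0, card_empty, Nat.cast_zero]; positivity
    · obtain ⟨D₀, hD₀, hx₀'⟩ := mem_biUnion.1 hx₀
      obtain ⟨t₀, ht₀, -⟩ := mem_image.1 hx₀'
      apply hI N _ _ (hU D₀ hD₀ i k t₀ ht₀).1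
      intro x hx
      obtain ⟨D, hD, hx'⟩ := mem_biUnion.1 hx
      obtain ⟨t, ht, rfl⟩ := mem_image.1 hx'
      obtain ⟨h1, h2, h3, h4⟩ := hS D hD
      obtain ⟨-, r1, r2⟩ := hU D hD i k t ht
      exact ⟨by omega, by omega, hmod D hD, r1, r2⟩
  calc ∑ D ∈ S, (Nat.card {c : ClassGroup (𝓞 (K D)) // c ^ 5 = 1} : ℝ)
      ≤ ∑ D ∈ S, ∑ i ∈ range L, ∑ k ∈ range L,
          16 * Real.sqrt N / ((2 : ℝ) ^ k) ^ 2 * ((U D i k).card : ℝ) := sum_le_sum hUc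
    _ = ∑ i ∈ range L, ∑ k ∈ range L, 16 * Real.sqrt N / ((2 : ℝ) ^ k) ^ 2 *
          ∑ D ∈ S, ((U D i k).card : ℝ) := by
        rw [sum_comm]
        refine sum_congr rfl fun i _ => ?_
        rw [sum_comm]
        refine sum_congr rfl fun k _ => ?_
        rw [mul_sum]
    _ ≤ ∑ i ∈ range L, ∑ k ∈ range L, 16 * Real.sqrt N / ((2 : ℝ) ^ k) ^ 2 *
          (C₁ * (N : ℝ) ^ (ε / 3) * (((2 : ℝ) ^ k) ^ 2 * Real.sqrt N)) :=
        sum_le_sum fun i _ => sum_le_sum fun k _ =>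
          mul_le_mul_of_nonneg_left (hik i k) (by positivity)
    _ = ∑ i ∈ range L, ∑ k ∈ range L, 16 * C₁ * (N * (N : ℝ) ^ (ε / 3)) := by
        refine sum_congr rfl fun i _ => sum_congr rfl fun k _ => ?_
        have hp : ((2 : ℝ) ^ k) ^ 2 ≠ 0 := by positivity
        have hs := Real.mul_self_sqrt hN0.le
        field_simp
        linear_combination hs
    _ = (L : ℝ) * L * (16 * C₁ * (N * (N : ℝ) ^ (ε / 3))) := by
        rw [sum_const, sum_const, card_range, nsmul_eq_mul, nsmul_eq_mul]; ring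
    _ ≤ (c₂ * (N : ℝ) ^ (ε / 3)) * (c₂ * (N : ℝ) ^ (ε / 3)) *
          (16 * C₁ * (N * (N : ℝ) ^ (ε / 3))) := by
        have := hL N hN
        gcongr
    _ = c₂ ^ 2 * (16 * C₁) * (N * ((N : ℝ) ^ (ε / 3) * (N : ℝ) ^ (ε / 3) * (N : ℝ) ^ (ε / 3))) := by
        ring
    _ = c₂ ^ 2 * (16 * C₁) * (N : ℝ) ^ (1 + ε) := by
        have e1 : (N : ℝ) ^ (1 + ε) = N * (N : ℝ) ^ ε := by
          rw [Real.rpow_add hN0, Real.rpow_one]
        have e2 : (N : ℝ) ^ (ε / 3) * (N : ℝ) ^ (ε / 3) * (N : ℝ) ^ (ε / 3) = (N : ℝ) ^ ε := by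
          rw [← Real.rpow_add hN0, ← Real.rpow_add hN0]
          congr 1
          ring
        rw [e1, e2]

end FINR

open FINR in
open Classical in
theorem t_FINR (hALGR : S_ALGR) (hINTR : S_INTR) : S_FINR := by
  intro ε hε
  obtain ⟨C, hC, hI⟩ := block hALGR hINTR ε hε
  refine ⟨2 * C, by positivity, fun X hX K _ _ hK => ?_⟩
  set S : Finset ℤ := (Finset.Ioo (0 : ℤ) (X : ℤ)).filter (fun D : ℤ => FDp D) with hS
  have hSm : ∀ D ∈ S, 0 < D ∧ FDp D ∧ D < X := by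
    intro D hD
    rw [hS, mem_filter, mem_Ioo] at hD
    exact ⟨hD.1.1, hD.2, hD.1.2⟩
  set J : ℕ := Nat.log 2 X with hJ
  have hmaps : ∀ D ∈ S, Nat.log 2 (D.natAbs - 1) ∈ Finset.range (J + 1) := by
    intro D hD
    obtain ⟨h1, h2, h3⟩ := hSm D hD
    rw [mem_range, Nat.lt_succ_iff, hJ]
    apply Nat.log_mono_right
    omega
  have hblock : ∀ j ∈ Finset.range (J + 1),
      ∑ D ∈ S.filter (fun D => Nat.log 2 (D.natAbs - 1) = j),
        (Nat.card {c : ClassGroup (𝓞 (K D)) // c ^ 5 = 1} : ℝ) ≤ C * ((2 : ℝ) ^ (1 + ε)) ^ j := by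
    intro j _
    have hb := hI (2 ^ j) Nat.one_le_two_pow K (S.filter (fun D => Nat.log 2 (D.natAbs - 1) = j)) (by
      intro D hD
      rw [mem_filter] at hD
      obtain ⟨h1, h2, h3⟩ := hSm D hD.1
      have h4 := fd_pos h2 h1
      have h5 : D.natAbs - 1 ≠ 0 := by omega
      have h6 := Nat.pow_log_le_self 2 h5
      have h7 := Nat.lt_pow_succ_log_self (b := 2) (by norm_num) (D.natAbs - 1)
      rw [hD.2] at h6 h7
      rw [Nat.succ_eq_add_one, pow_succ] at h7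
      obtain ⟨k1, k2⟩ := hK D h1 h2
      exact ⟨by omega, by omega, k1, k2⟩)
    refine hb.trans (le_of_eq ?_)
    congr 1
    push_cast
    rw [← Real.rpow_natCast, ← Real.rpow_natCast, ← Real.rpow_mul (by norm_num),
      ← Real.rpow_mul (by norm_num), mul_comm]
  rw [← Finset.sum_fiberwise_of_maps_to hmaps]
  calc _ ≤ ∑ j ∈ Finset.range (J + 1), C * ((2 : ℝ) ^ (1 + ε)) ^ j := Finset.sum_le_sum hblock
    _ = C * ∑ j ∈ Finset.range (J + 1), ((2 : ℝ) ^ (1 + ε)) ^ j := by rw [Finset.mul_sum]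
    _ ≤ C * (2 * ((2 : ℝ) ^ (1 + ε)) ^ J) := by
        apply mul_le_mul_of_nonneg_left _ hC.le
        apply FINR.geo_le
        calc (2 : ℝ) = 2 ^ (1 : ℝ) := by norm_num
          _ ≤ 2 ^ (1 + ε) := Real.rpow_le_rpow_of_exponent_le (by norm_num) (by linarith)
    _ ≤ C * (2 * (X : ℝ) ^ (1 + ε)) := by
        have h1 : ((2 : ℝ) ^ (1 + ε)) ^ J = ((2 : ℝ) ^ J) ^ (1 + ε) := by
          rw [← Real.rpow_natCast, ← Real.rpow_natCast, ← Real.rpow_mul (by norm_num),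
            ← Real.rpow_mul (by norm_num), mul_comm]
        have h2 : (2 : ℝ) ^ J ≤ X := by
          exact_mod_cast Nat.pow_log_le_self 2 (by omega : X ≠ 0)
        rw [h1]
        gcongr
    _ = 2 * C * (X : ℝ) ^ (1 + ε) := by ring

end Pool.Agent.T2h80.R5
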