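import Pool.Agent.T2h80.R5.DCR
import Pool.Agent.T2h80.F5.INN

/-!
# INNR (helper47)
-/

set_option autoImplicit false
set_option linter.all false

namespace Pool.Agent.T2h80.R5

open Finset Pool.Agent.T2h80.F5 Pool.Agent.T2h80.F5.EE Pool.Agent.T2h80.F5.INN

namespace INNR

theorem log_bd (S G i : ℕ) (hG : 1 ≤ G) (hS : 1 ≤ S) (hi : 1 ≤ i) (h : (i : ℝ) ≤ 4 * ((S : ℝ) / G)) :
    1 + Real.log i ≤ (1 + Real.log 4) * (1 + Real.log S) ∧ 0 ≤ 1 + Real.log i := by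
  have hG' : (1 : ℝ) ≤ G := by exact_mod_cast hG
  have hN' : (1 : ℝ) ≤ S := by exact_mod_cast hS
  have hi' : (1 : ℝ) ≤ i := by exact_mod_cast hi
  have h' : (i : ℝ) ≤ 4 * S := by
    have : (S : ℝ) / G ≤ S := div_le_self (by linarith) hG'
    linarith
  have e1 : Real.log i ≤ Real.log 4 + Real.log S := by
    rw [← Real.log_mul (by norm_num) (by linarith)]
    exact Real.log_le_log (by linarith) h'
  have e2 : 0 ≤ Real.log S := Real.log_nonneg hN'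
  have e3 : (0 : ℝ) ≤ Real.log 4 := Real.log_nonneg (by norm_num)
  have e4 : 0 ≤ Real.log i := Real.log_nonneg hi'
  constructor
  · nlinarith [mul_nonneg e2 e3]
  · linarith

/-- the interval -/
theorem intR {S G : ℕ} (hG : 1 ≤ G) (hGS : G ≤ S) (g : ℕ) (hg : G ≤ g) (σ : ℤ) :
    ∃ (s₀ : ℤ) (n₁ : ℕ), n₁ ≤ iR S G ∧
      ∀ x : ℤ, |σ + g * x| ≤ (S : ℤ) → x ∈ Ico s₀ (s₀ + n₁) := by
  obtain ⟨a1, a2, a3⟩ := DCRaux.iR_bounds hG hGS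
  have g5 : (0 : ℝ) < G := by exact_mod_cast hG
  have hgR : (G : ℝ) ≤ g := by exact_mod_cast hg
  have hSR : (G : ℝ) ≤ S := by exact_mod_cast hGS
  obtain ⟨s₀, n₁, e1, e2⟩ := interval (S : ℝ) σ g (by omega) (Nat.cast_nonneg _)
  refine ⟨s₀, n₁, ?_, ?_⟩
  · have e3 : 2 * (S : ℝ) / g ≤ 2 * S / G := by gcongr
    have e4 : 2 * (S : ℝ) / G = 2 * (S / G) := by ring
    have e5 : 1 ≤ (S : ℝ) / G := by
      rw [le_div_iff₀ g5]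
      linarith
    have e6 : (n₁ : ℝ) ≤ (iR S G : ℝ) := by linarith
    exact_mod_cast e6
  · intro x hx
    apply e2
    exact_mod_cast hx

/-- the exponential sum for one frequency -/
theorem freq (hDC : S_DCR) (C : ℝ) (hC : 0 < C)
    (hW : ∀ (a b c p q : ℝ) (s₀ t₀ : ℤ) (n₁ n₂ Ns Nt : ℕ),
      1 ≤ Ns → 1 ≤ Nt → n₁ ≤ Ns → n₂ ≤ Nt →
      ‖∑ s ∈ Ico s₀ (s₀ + n₁), ∑ t ∈ Ico t₀ (t₀ + n₂),
        ee (a * (s : ℝ) ^ 2 + b * s * t + c * (t : ℝ) ^ 2 + p * s + q * t)‖ ^ 2 ≤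
      C * Ns * Nt * (1 + Real.log Ns) * (1 + Real.log Nt) * (DW a b c Ns Nt : ℝ))
    {ρ M G V W S T : ℕ} (hP : PBX ρ M G V W S T) {g v w : ℕ} (g1 : G ≤ g) (g2 : g < 2 * G)
    (v1 : V ≤ v) (v2 : v < 2 * V) (w1 : W ≤ w) (w2 : w < 2 * W) (hvw : v.Coprime w)
    {α β E₁ E₂ E₃ : ℤ} (hα : (v : ℤ) ^ 3 ∣ w * α - 1) (hβ : (w : ℤ) ∣ v * β - 1)
    (h1 : (v : ℤ) ^ 3 ∣ E₁ - 1) (h2 : (w : ℤ) ∣ E₁) (h4 : (w : ℤ) ∣ E₂ - 1)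
    (h5 : (v : ℤ) ^ 3 ∣ E₂) (σ τ μ : ℤ) (s₀ t₀ : ℤ) (n₁ n₂ : ℕ) (hn1 : n₁ ≤ iR S G)
    (hn2 : n₂ ≤ iR T G) (h : ℕ) (hh : 1 ≤ h) (hhM : h * M ≤ g * v ^ 3 * w) :
    ‖∑ z ∈ Ico s₀ (s₀ + n₁) ×ˢ Ico t₀ (t₀ + n₂),
      ee (((h : ℤ) : ℝ) * ph ρ v E₁ E₂ E₃ α β μ (σ + g * z.1) (τ + g * z.2) /
        (g * v ^ 3 * w : ℕ))‖ ≤
    Real.sqrt (16 * C) * (1 + Real.log 4) * ((1 + Real.log S) * (1 + Real.log T) *
      (Real.sqrt ((S : ℝ) * T) / G) *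
        Real.sqrt (1 + (KPR ρ M G V W S T (h * g * ρ) v w : ℝ))) := by
  have hD := hDC ρ M G V W S T hP g v w h g1 g2 v1 v2 w1 w2 hvw hh hhM α β E₁ E₂ hα hβ h1 h2 h4 h5
  obtain ⟨q1, q2, q4, q5, q6, q7, q8, q9, q10, q11⟩ := hP
  obtain ⟨s1, s2, s3⟩ := DCRaux.iR_bounds q4 q9
  obtain ⟨t1, t2, t3⟩ := DCRaux.iR_bounds q4 q10
  have iS1 : 1 ≤ iR S G := Nat.le_add_left _ _
  have iT1 : 1 ≤ iR T G := Nat.le_add_left _ _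
  obtain ⟨a, ha⟩ : ∃ a : ℝ, a = ((h * g * ρ : ℕ) : ℝ) * E₂ * β ^ 2 / (v ^ 3 * w) := ⟨_, rfl⟩
  obtain ⟨b, hb⟩ : ∃ b : ℝ, b = -(((h * g * ρ : ℕ) : ℝ) * E₁ * α ^ 2 / (v ^ 3 * w)) := ⟨_, rfl⟩
  obtain ⟨c, hc⟩ : ∃ c : ℝ, c = ((h * g * ρ : ℕ) : ℝ) * E₁ * v ^ 2 * α ^ 4 / (v ^ 3 * w) := ⟨_, rfl⟩
  rw [← ha, ← hb, ← hc] at hD
  have GR : (0 : ℝ) < G := by exact_mod_cast q4
  have SR : (0 : ℝ) < S := by exact_mod_cast q7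
  have TR : (0 : ℝ) < T := by exact_mod_cast q8
  have gR : (0 : ℝ) < g := by
    have : 0 < g := by omega
    exact_mod_cast this
  have vR : (0 : ℝ) < v := by
    have : 0 < v := by omega
    exact_mod_cast this
  have wR : (0 : ℝ) < w := by
    have : 0 < w := by omega
    exact_mod_cast this
  -- linear terms
  obtain ⟨p, hp⟩ : ∃ p : ℝ, p = h * (2 * σ * E₂ * ρ * β ^ 2 - τ * E₁ * ρ * α ^ 2) / (v ^ 3 * w) :=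
    ⟨_, rfl⟩
  obtain ⟨q, hq⟩ : ∃ q : ℝ, q = h * (E₁ * ρ * (2 * τ * v ^ 2 * α ^ 4 - σ * α ^ 2)) / (v ^ 3 * w) :=
    ⟨_, rfl⟩
  obtain ⟨k, hk⟩ : ∃ k : ℝ, k = h * (E₁ * (ρ * (τ ^ 2 * v ^ 2 * α ^ 4 - σ * τ * α ^ 2)) +
      E₂ * (ρ * σ ^ 2 * β ^ 2) + E₃ * μ) / (g * v ^ 3 * w) := ⟨_, rfl⟩
  have e1 : ∀ z : ℤ × ℤ, ((h : ℤ) : ℝ) * ph ρ v E₁ E₂ E₃ α β μ (σ + g * z.1) (τ + g * z.2) /
        (g * v ^ 3 * w : ℕ) =
      (a * (z.1 : ℝ) ^ 2 + b * z.1 * z.2 + c * (z.2 : ℝ) ^ 2 + p * z.1 + q * z.2) + k := by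
    intro z
    rw [ha, hb, hc, hp, hq, hk]
    unfold ph
    push_cast
    field_simp
    ring
  simp only [e1]
  rw [norm_sum_shift, Finset.sum_product]
  have hw := hW a b c p q s₀ t₀ n₁ n₂ (iR S G) (iR T G) iS1 iT1 hn1 hn2
  obtain ⟨X, hX⟩ : ∃ X : ℝ, X = ‖∑ s ∈ Ico s₀ (s₀ + (n₁ : ℤ)), ∑ t ∈ Ico t₀ (t₀ + (n₂ : ℤ)),
        ee (a * (s : ℝ) ^ 2 + b * s * t + c * (t : ℝ) ^ 2 + p * s + q * t)‖ := ⟨_, rfl⟩
  rw [← hX] at hw ⊢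
  have hX0 : 0 ≤ X := by rw [hX]; exact norm_nonneg _
  obtain ⟨l1, l1'⟩ := log_bd S G (iR S G) q4 q7 iS1 s3
  obtain ⟨l2, l2'⟩ := log_bd T G (iR T G) q4 q8 iT1 t3
  have hDR : (DW a b c (iR S G) (iR T G) : ℝ) ≤
      1 + (KPR ρ M G V W S T (h * g * ρ) v w : ℝ) := by exact_mod_cast hD
  have hlS : 1 ≤ 1 + Real.log S := by
    have : 0 ≤ Real.log S := Real.log_nonneg (by exact_mod_cast q7)
    linarith
  have hlT : 1 ≤ 1 + Real.log T := by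
    have : 0 ≤ Real.log T := Real.log_nonneg (by exact_mod_cast q8)
    linarith
  have hl6 : 0 ≤ 1 + Real.log 4 := by
    have : (0 : ℝ) ≤ Real.log 4 := Real.log_nonneg (by norm_num)
    linarith
  obtain ⟨LS, hLS⟩ : ∃ LS : ℝ, LS = 1 + Real.log S := ⟨_, rfl⟩
  obtain ⟨LT, hLT⟩ : ∃ LT : ℝ, LT = 1 + Real.log T := ⟨_, rfl⟩
  obtain ⟨L4, hL4⟩ : ∃ L4 : ℝ, L4 = 1 + Real.log 4 := ⟨_, rfl⟩
  obtain ⟨KP, hKPe⟩ : ∃ KP : ℝ, KP = 1 + (KPR ρ M G V W S T (h * g * ρ) v w : ℝ) := ⟨_, rfl⟩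
  have hKP : (0 : ℝ) ≤ KP := by rw [hKPe]; positivity
  rw [← hLS] at l1 hlS ⊢
  rw [← hLT] at l2 hlT ⊢
  rw [← hL4] at l1 l2 hl6 ⊢
  rw [← hKPe] at hDR ⊢
  have m1 : (iR S G : ℝ) * (iR T G : ℝ) ≤
      (4 * ((S : ℝ) / G)) * (4 * ((T : ℝ) / G)) :=
    mul_le_mul s3 t3 (Nat.cast_nonneg _) (by positivity)
  have m2 : (1 + Real.log (iR S G)) * (1 + Real.log (iR T G)) ≤ (L4 * LS) * (L4 * LT) :=
    mul_le_mul l1 l2 l2' (by positivity)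
  have m3 : ((iR S G : ℝ) * (iR T G : ℝ)) * ((1 + Real.log (iR S G)) *
      (1 + Real.log (iR T G))) ≤ ((4 * ((S : ℝ) / G)) * (4 * ((T : ℝ) / G))) *
      ((L4 * LS) * (L4 * LT)) :=
    mul_le_mul m1 m2 (mul_nonneg l1' l2') (by positivity)
  have m4 : ((iR S G : ℝ) * (iR T G : ℝ)) * ((1 + Real.log (iR S G)) *
      (1 + Real.log (iR T G))) * (DW a b c (iR S G) (iR T G) : ℝ) ≤
      ((4 * ((S : ℝ) / G)) * (4 * ((T : ℝ) / G))) * ((L4 * LS) * (L4 * LT)) * KP := by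
    refine mul_le_mul m3 hDR (Nat.cast_nonneg _) ?_
    positivity
  have m6 : LS * LT ≤ (LS * LT) ^ 2 := by
    have : 1 ≤ LS * LT := by nlinarith
    nlinarith
  have m5 : X ^ 2 ≤ (Real.sqrt (16 * C) * L4 * (LS * LT * (Real.sqrt ((S : ℝ) * T) / G) *
        Real.sqrt KP)) ^ 2 := by
    have e2 : (Real.sqrt (16 * C) * L4 * (LS * LT * (Real.sqrt ((S : ℝ) * T) / G) *
        Real.sqrt KP)) ^ 2 =
        C * (((4 * ((S : ℝ) / G)) * (4 * ((T : ℝ) / G))) * ((LS * LT) ^ 2 * L4 ^ 2) * KP) := by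
      rw [mul_pow, mul_pow, mul_pow, mul_pow, div_pow, Real.sq_sqrt (by positivity),
        Real.sq_sqrt (by positivity), Real.sq_sqrt hKP]
      ring
    rw [e2]
    refine hw.trans ?_
    calc _ = C * (((iR S G : ℝ) * (iR T G : ℝ)) * ((1 + Real.log (iR S G)) *
      (1 + Real.log (iR T G))) * (DW a b c (iR S G) (iR T G) : ℝ)) := by ring
      _ ≤ C * (((4 * ((S : ℝ) / G)) * (4 * ((T : ℝ) / G))) * ((L4 * LS) * (L4 * LT)) * KP) :=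
          mul_le_mul_of_nonneg_left m4 hC.le
      _ = C * (((4 * ((S : ℝ) / G)) * (4 * ((T : ℝ) / G))) * ((LS * LT) * L4 ^ 2) * KP) := by ring
      _ ≤ C * (((4 * ((S : ℝ) / G)) * (4 * ((T : ℝ) / G))) * ((LS * LT) ^ 2 * L4 ^ 2) * KP) := by
          gcongr
  refine (abs_le_of_sq_le_sq' m5 ?_).2
  positivity

end INNR

open INNR

theorem t_INNR (hFEJ : S_FEJ) (hWEY : S_WEY) (hDC : S_DCR) : S_INNR := by
  classical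
  obtain ⟨C, hC, hW⟩ := hWEY
  obtain ⟨c₁, hc₁⟩ : ∃ c₁ : ℝ, c₁ = Real.sqrt (16 * C) * (1 + Real.log 4) := ⟨_, rfl⟩
  have hc0 : 0 ≤ c₁ := by
    rw [hc₁]
    have : (0 : ℝ) ≤ Real.log 4 := Real.log_nonneg (by norm_num)
    positivity
  refine ⟨72 * (16 + 2 * c₁), by positivity, ?_⟩
  intro ρ M G V W S T' hP g v w g1 g2 v1 v2 w1 w2 hvw hg σ τ μ F hF
  obtain ⟨α, β, E₁, E₂, E₃, hα, hβ, e1, e2, e3, e4, e5, e6, e7, e8, e9⟩ := crt hvw hg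
  obtain ⟨s₀, n₁, hn1, hs⟩ := intR hP.2.2.1 hP.2.2.2.2.2.2.2.1 g g1 σ
  obtain ⟨t₀, n₂, hn2, ht⟩ := intR hP.2.2.1 hP.2.2.2.2.2.2.2.2.1 g g1 τ
  have hP' := hP
  obtain ⟨q1, hM, q4, q5, q6, q7, q8, q9, q10, q11⟩ := hP'
  obtain ⟨s1, s2, s3⟩ := DCRaux.iR_bounds q4 q9
  obtain ⟨t1, t2, t3⟩ := DCRaux.iR_bounds q4 q10
  have g0 : 0 < g := by omega
  have v0 : 0 < v := by omega
  have w0 : 0 < w := by omega
  have q0 : 0 < g * v ^ 3 * w := by positivity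
  have GR : (0 : ℝ) < G := by exact_mod_cast q4
  have SR : (0 : ℝ) < S := by exact_mod_cast q7
  have TR : (0 : ℝ) < T' := by exact_mod_cast q8
  have MR : (1 : ℝ) ≤ M := by exact_mod_cast hM
  -- the injection
  have hcard : F.card ≤ (((Ico s₀ (s₀ + (n₁ : ℤ)) ×ˢ Ico t₀ (t₀ + (n₂ : ℤ))) ×ˢ
      Ico (-(M : ℤ)) (-(M : ℤ) + (2 * M + 1 : ℕ))).filter (fun x : (ℤ × ℤ) × ℤ =>
        ((g * v ^ 3 * w : ℕ) : ℤ) ∣
        x.2 - ph ρ v E₁ E₂ E₃ α β μ (σ + g * x.1.1) (τ + g * x.1.2))).card := by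
    refine Finset.card_le_card_of_injOn
      (fun x : ℤ × ℤ × ℤ => (((x.1 - σ) / g, (x.2.1 - τ) / g), x.2.2)) ?_ ?_
    · rintro ⟨s, t, m⟩ hx
      obtain ⟨f1, f2, f3, f5, f6, f7, f8⟩ := hF _ hx
      simp only at f1 f2 f3 f5 f6 f7 f8
      have es : σ + (g : ℤ) * ((s - σ) / g) = s := by
        rw [Int.mul_ediv_cancel' f5]
        ring
      have et : τ + (g : ℤ) * ((t - τ) / g) = t := by
        rw [Int.mul_ediv_cancel' f6]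
        ring
      rw [Finset.mem_coe, Finset.mem_filter, Finset.mem_product, Finset.mem_product]
      simp only
      refine ⟨⟨⟨hs _ ?_, ht _ ?_⟩, ?_⟩, ?_⟩
      · rw [es]
        exact f1
      · rw [et]
        exact f2
      · rw [Finset.mem_Ico]
        rw [abs_le] at f3
        push_cast
        constructor
        · linarith [f3.1]
        · linarith [f3.2]
      · rw [es, et]
        exact ph_dvd hvw hg hα hβ e1 e2 e3 e4 e5 e6 e7 e8 e9 f7 f8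
    · rintro ⟨s, t, m⟩ hx ⟨s', t', m'⟩ hx' hxx
      obtain ⟨f1, f2, f3, f5, f6, f7, f8⟩ := hF _ hx
      obtain ⟨f1', f2', f3', f5', f6', f7', f8'⟩ := hF _ hx'
      simp only at f5 f6 f5' f6'
      simp only [Prod.mk.injEq] at hxx
      obtain ⟨⟨x1, x2⟩, x3⟩ := hxx
      have y1 : s - σ = s' - σ := by
        rw [← Int.mul_ediv_cancel' f5, ← Int.mul_ediv_cancel' f5', x1]
      have y2 : t - τ = t' - τ := by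
        rw [← Int.mul_ediv_cancel' f6, ← Int.mul_ediv_cancel' f6', x2]
      rw [Prod.mk.injEq, Prod.mk.injEq]
      exact ⟨by linarith, by linarith, x3⟩
  have hfej := hFEJ (ℤ × ℤ) (Ico s₀ (s₀ + (n₁ : ℤ)) ×ˢ Ico t₀ (t₀ + (n₂ : ℤ)))
    (fun z => ph ρ v E₁ E₂ E₃ α β μ (σ + g * z.1) (τ + g * z.2)) (g * v ^ 3 * w) (2 * M + 1)
    (-(M : ℤ)) q0 (by omega)
  have hcardR : (F.card : ℝ) ≤ (((((Ico s₀ (s₀ + (n₁ : ℤ)) ×ˢ Ico t₀ (t₀ + (n₂ : ℤ))) ×ˢ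
      Ico (-(M : ℤ)) (-(M : ℤ) + (2 * M + 1 : ℕ))).filter (fun x : (ℤ × ℤ) × ℤ =>
        ((g * v ^ 3 * w : ℕ) : ℤ) ∣
        x.2 - ph ρ v E₁ E₂ E₃ α β μ (σ + g * x.1.1) (τ + g * x.1.2))).card : ℕ) : ℝ) := by
    exact_mod_cast hcard
  refine hcardR.trans (hfej.trans ?_)
  rw [sym_sum (fun h : ℤ => ‖∑ i ∈ Ico s₀ (s₀ + (n₁ : ℤ)) ×ˢ Ico t₀ (t₀ + (n₂ : ℤ)),
    ee ((h : ℝ) * (ph ρ v E₁ E₂ E₃ α β μ (σ + g * i.1) (τ + g * i.2) : ℤ) /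
      ((g * v ^ 3 * w : ℕ) : ℝ))‖)]
  swap
  · intro h
    have : ∀ i : ℤ × ℤ, (((-h : ℤ) : ℝ) * (ph ρ v E₁ E₂ E₃ α β μ (σ + g * i.1) (τ + g * i.2) : ℤ) /
      ((g * v ^ 3 * w : ℕ) : ℝ)) = -((h : ℝ) * (ph ρ v E₁ E₂ E₃ α β μ (σ + g * i.1) (τ + g * i.2) : ℤ) /
      ((g * v ^ 3 * w : ℕ) : ℝ)) := by
      intro i
      push_cast
      ring
    simp only [this]
    exact norm_sum_neg _ _
  have hqM : (0 : ℝ) ≤ (M : ℝ) / ((g * v ^ 3 * w : ℕ) : ℝ) := by positivity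
  have hqM' : ((2 * M + 1 : ℕ) : ℝ) / ((g * v ^ 3 * w : ℕ) : ℝ) ≤
      3 * ((M : ℝ) / ((g * v ^ 3 * w : ℕ) : ℝ)) := by
    rw [← mul_div_assoc]
    apply div_le_div_of_nonneg_right _ (Nat.cast_nonneg _)
    push_cast
    linarith
  have hz : ‖∑ i ∈ Ico s₀ (s₀ + (n₁ : ℤ)) ×ˢ Ico t₀ (t₀ + (n₂ : ℤ)),
    ee (((0 : ℤ) : ℝ) * (ph ρ v E₁ E₂ E₃ α β μ (σ + g * i.1) (τ + g * i.2) : ℤ) /
      ((g * v ^ 3 * w : ℕ) : ℝ))‖ ≤ 16 * ((S : ℝ) * T' / (G : ℝ) ^ 2) := by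
    refine (norm_sum_le_card _ _).trans ?_
    rw [Finset.card_product, Int.card_Ico, Int.card_Ico]
    have c1 : (s₀ + (n₁ : ℤ) - s₀).toNat = n₁ := by omega
    have c2 : (t₀ + (n₂ : ℤ) - t₀).toNat = n₂ := by omega
    rw [c1, c2]
    push_cast
    have d1 : (n₁ : ℝ) ≤ 4 * ((S : ℝ) / G) := by
      have : (n₁ : ℝ) ≤ (iR S G : ℝ) := by exact_mod_cast hn1
      linarith
    have d2 : (n₂ : ℝ) ≤ 4 * ((T' : ℝ) / G) := by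
      have : (n₂ : ℝ) ≤ (iR T' G : ℝ) := by exact_mod_cast hn2
      linarith
    calc (n₁ : ℝ) * n₂ ≤ (4 * ((S : ℝ) / G)) * (4 * ((T' : ℝ) / G)) :=
          mul_le_mul d1 d2 (Nat.cast_nonneg _) (by positivity)
      _ = _ := by ring
  have hh : ∑ h ∈ Icc 1 (g * v ^ 3 * w / (2 * M + 1)),
      ‖∑ i ∈ Ico s₀ (s₀ + (n₁ : ℤ)) ×ˢ Ico t₀ (t₀ + (n₂ : ℤ)),
    ee ((((h : ℕ) : ℤ) : ℝ) * (ph ρ v E₁ E₂ E₃ α β μ (σ + g * i.1) (τ + g * i.2) : ℤ) /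
      ((g * v ^ 3 * w : ℕ) : ℝ))‖ ≤ ∑ h ∈ Icc 1 (g * v ^ 3 * w / M), c₁ * ((1 + Real.log S) *
      (1 + Real.log T') * (Real.sqrt ((S : ℝ) * T') / G) *
        Real.sqrt (1 + (KPR ρ M G V W S T' (h * g * ρ) v w : ℝ))) := by
    have hle : g * v ^ 3 * w / (2 * M + 1) ≤ g * v ^ 3 * w / M :=
      Nat.div_le_div_left (by omega) (by omega)
    refine le_trans ?_ (Finset.sum_le_sum_of_subset_of_nonneg
      (s := Icc 1 (g * v ^ 3 * w / (2 * M + 1))) (Finset.Icc_subset_Icc_right hle) ?_)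
    · refine Finset.sum_le_sum fun h hmem => ?_
      rw [Finset.mem_Icc] at hmem
      have hhM : h * M ≤ g * v ^ 3 * w :=
        (Nat.le_div_iff_mul_le hM).1 (hmem.2.trans hle)
      have := freq hDC C hC hW hP g1 g2 v1 v2 w1 w2 hvw hα hβ e1 e2 e4 e5 σ τ μ s₀ t₀ n₁ n₂ hn1
        hn2 h hmem.1 hhM (E₃ := E₃)
      rw [← hc₁] at this
      exact this
    · intro h _ _
      have a1 : 0 ≤ Real.log S := Real.log_nonneg (by exact_mod_cast q7)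
      have a2 : 0 ≤ Real.log T' := Real.log_nonneg (by exact_mod_cast q8)
      positivity
  rw [← Finset.mul_sum] at hh
  obtain ⟨Y, hY⟩ : ∃ Y : ℝ, Y = ∑ h ∈ Icc 1 (g * v ^ 3 * w / M),
    Real.sqrt (1 + (KPR ρ M G V W S T' (h * g * ρ) v w : ℝ)) := ⟨_, rfl⟩
  rw [← Finset.mul_sum, ← hY] at hh
  rw [← hY]
  have hY0 : 0 ≤ Y := by rw [hY]; exact Finset.sum_nonneg fun _ _ => Real.sqrt_nonneg _
  obtain ⟨Z, hZ⟩ : ∃ Z : ℝ, Z = (1 + Real.log S) *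
      (1 + Real.log T') * (Real.sqrt ((S : ℝ) * T') / G) * Y :=
    ⟨_, rfl⟩
  rw [← hZ] at hh ⊢
  have hZ0 : 0 ≤ Z := by
    rw [hZ]
    have a1 : 0 ≤ Real.log S := Real.log_nonneg (by exact_mod_cast q7)
    have a2 : 0 ≤ Real.log T' := Real.log_nonneg (by exact_mod_cast q8)
    positivity
  have hnn : 0 ≤ (S : ℝ) * T' / (G : ℝ) ^ 2 := by positivity
  have hMq : (M : ℝ) / ((g * v ^ 3 * w : ℕ) : ℝ) = (M : ℝ) / (g * v ^ 3 * w) := by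
    push_cast
    rfl
  rw [hMq] at hqM hqM'
  obtain ⟨T, hT⟩ : ∃ T : ℝ, T = (M : ℝ) / (g * v ^ 3 * w) := ⟨_, rfl⟩
  rw [← hT] at hqM hqM' ⊢
  have hsum0 : 0 ≤ ∑ h ∈ Icc 1 (g * v ^ 3 * w / (2 * M + 1)),
      ‖∑ i ∈ Ico s₀ (s₀ + (n₁ : ℤ)) ×ˢ Ico t₀ (t₀ + (n₂ : ℤ)),
    ee ((((h : ℕ) : ℤ) : ℝ) * (ph ρ v E₁ E₂ E₃ α β μ (σ + g * i.1) (τ + g * i.2) : ℤ) /
      ((g * v ^ 3 * w : ℕ) : ℝ))‖ := Finset.sum_nonneg fun _ _ => norm_nonneg _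
  calc _ ≤ 24 * (3 * T) * (16 * ((S : ℝ) * T' / (G : ℝ) ^ 2) + 2 * (c₁ * Z)) := by
        refine mul_le_mul ?_ ?_ ?_ (by positivity)
        · exact mul_le_mul_of_nonneg_left hqM' (by norm_num)
        · exact add_le_add hz (mul_le_mul_of_nonneg_left hh (by norm_num))
        · have := norm_nonneg (∑ i ∈ Ico s₀ (s₀ + (n₁ : ℤ)) ×ˢ Ico t₀ (t₀ + (n₂ : ℤ)),
            ee (((0 : ℤ) : ℝ) * (ph ρ v E₁ E₂ E₃ α β μ (σ + g * i.1) (τ + g * i.2) : ℤ) /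
              ((g * v ^ 3 * w : ℕ) : ℝ)))
          linarith
    _ ≤ 72 * (16 + 2 * c₁) * T * ((S : ℝ) * T' / (G : ℝ) ^ 2 + Z) := by
        have f1 : 0 ≤ T * Z := mul_nonneg hqM hZ0
        have f2 : 0 ≤ c₁ * (T * ((S : ℝ) * T' / (G : ℝ) ^ 2)) :=
          mul_nonneg hc0 (mul_nonneg hqM hnn)
        nlinarith

end Pool.Agent.T2h80.R5
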