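import Pool.Agent.T2h80.R5.Stm

set_option autoImplicit false

namespace Pool.Agent.T2h80.R5

open Finset NumberField Pool.Agent.T2h80.F5

theorem t_INTR (hDERR : S_DERR) (hCNTR : S_CNTR) (hZERR : S_ZERR) : S_INTR := by
  classical
  intro ε hε
  obtain ⟨C₁, hC₁, h1⟩ := hCNTR ε hε
  obtain ⟨C₂, hC₂, h2⟩ := hZERR ε hε
  refine ⟨C₁ + C₂, by positivity, fun N F Y hP Fs hF => ?_⟩
  obtain ⟨Φ, hinj, hΦ⟩ := hDERR N F Y hP
  set F₁ := Fs.filter (fun x => x.2.2.2.2.2.1 ≠ 0 ∧ x.2.2.2.2.2.2.2 ≠ 0) with hF₁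
  set F₂ := Fs.filter (fun x => ¬ (x.2.2.2.2.2.1 ≠ 0 ∧ x.2.2.2.2.2.2.2 ≠ 0)) with hF₂
  have hc : Fs.card = F₁.card + F₂.card := by
    rw [hF₁, hF₂, Finset.card_filter_add_card_filter_not]
  have e1 : (F₁.card : ℝ) ≤ C₁ * (N : ℝ) ^ ε * (Y ^ 2 * Real.sqrt N) := by
    have : (F₁.image Φ).card = F₁.card := by
      apply Finset.card_image_of_injOn
      intro x hx y hy hxy
      rw [Finset.mem_coe, hF₁, mem_filter] at hx hy
      exact hinj ⟨hF x hx.1, hx.2.1, hx.2.2⟩ ⟨hF y hy.1, hy.2.1, hy.2.2⟩ hxy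
    rw [← this]
    apply h1 N F Y hP
    intro y hy
    obtain ⟨x, hx, rfl⟩ := mem_image.1 hy
    rw [hF₁, mem_filter] at hx
    exact hΦ x (hF x hx.1) hx.2.1 hx.2.2
  have e2 : (F₂.card : ℝ) ≤ C₂ * (N : ℝ) ^ ε * (Y ^ 2 * Real.sqrt N) := by
    apply h2 N F Y hP
    intro x hx
    rw [hF₂, mem_filter] at hx
    refine ⟨hF x hx.1, ?_⟩
    by_contra h
    push Not at h
    exact hx.2 h
  rw [hc]
  push_cast
  linarith

end Pool.Agent.T2h80.R5
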