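import Pool.Agent.T2h80.R5.LATC

set_option autoImplicit false

/-! Task LAT1: a short primitive vector. -/

namespace Pool.Agent.T2h80.R5

open Finset NumberField Pool.Agent.T2h80.F5

/-- reduction theory: a minimal vector is at most the root of the determinant -/
theorem min_le {a b c d : ℝ} (hab : |b| ≤ |a|) (ha : a ≠ 0)
    (h : ∀ k : ℤ, |a| ≤ max |c + k * a| |d + k * b|) : |a| ^ 2 ≤ |a * d - b * c| := by
  obtain ⟨θ, hθ⟩ : ∃ θ : ℝ, θ = Int.fract (c / a) := ⟨_, rfl⟩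
  obtain ⟨k, hk⟩ : ∃ k : ℤ, k = -⌊c / a⌋ := ⟨_, rfl⟩
  have hθ0 : 0 ≤ θ := by rw [hθ]; exact Int.fract_nonneg _
  have hθ1 : θ < 1 := by rw [hθ]; exact Int.fract_lt_one _
  have hc : c + k * a = θ * a := by
    rw [hθ, hk, Int.fract]
    push_cast
    field_simp
    ring
  obtain ⟨d', hd'⟩ : ∃ d' : ℝ, d' = d + k * b := ⟨_, rfl⟩
  have hdet : a * d - b * c = a * (d' - θ * b) := by
    rw [hd']
    linear_combination (-b) * hc
  have ha0 : 0 < |a| := abs_pos.2 ha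
  rw [hdet, abs_mul, sq]
  apply mul_le_mul_of_nonneg_left _ ha0.le
  have h1 : |a| ≤ |d'| := by
    have := h k
    rw [hc, ← hd', abs_mul, abs_of_nonneg hθ0] at this
    rcases le_max_iff.1 this with h2 | h2
    · nlinarith
    · exact h2
  rcases hθ0.eq_or_lt with h0 | h0
  · rw [← h0, zero_mul, sub_zero]
    exact h1
  have h2 : |a| ≤ |d' - b| := by
    have := h (k - 1)
    have e1 : c + ((k - 1 : ℤ) : ℝ) * a = (θ - 1) * a := by push_cast; linear_combination hc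
    have e2 : d + ((k - 1 : ℤ) : ℝ) * b = d' - b := by rw [hd']; push_cast; ring
    rw [e1, e2, abs_mul, abs_of_neg (by linarith : θ - 1 < 0)] at this
    rcases le_max_iff.1 this with h3 | h3
    · nlinarith
    · exact h3
  have hb1 := abs_le.1 hab
  rcases abs_cases d' with ⟨h3, h4⟩ | ⟨h3, h4⟩
  · rw [h3] at h1
    have h5 : |a| ≤ d' - b := by
      have e : |d' - b| = d' - b := abs_of_nonneg (by linarith [hb1.2])
      linarith
    have h6 : |a| ≤ d' - θ * b := by nlinarith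
    exact h6.trans (le_abs_self _)
  · rw [h3] at h1
    have h5 : |a| ≤ -(d' - b) := by
      have e : |d' - b| = -(d' - b) := abs_of_nonpos (by linarith [hb1.1])
      linarith
    have h6 : |a| ≤ -(d' - θ * b) := by nlinarith
    exact h6.trans (neg_le_abs _)

theorem nn_bdd {D : ℕ} (hD : 0 < D) {w₁ w₂ : ℝ} (h1 : 0 < w₁) (h2 : 0 < w₂) (R : ℝ) :
    {x : ℤ × ℤ | nn D w₁ w₂ x ≤ R}.Finite := by
  have hs : 0 < Real.sqrt D := Real.sqrt_pos.2 (by exact_mod_cast hD)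
  obtain ⟨B, hB⟩ : ∃ B : ℝ, B = (|R| / w₁ + |R| / w₂) / Real.sqrt D := ⟨_, rfl⟩
  obtain ⟨A, hA⟩ : ∃ A : ℝ, A = |R| / w₁ + B * |(((thR D : ℤ) : ℝ) + Real.sqrt D) / 2| := ⟨_, rfl⟩
  apply ((Set.finite_Icc (-⌈A⌉) ⌈A⌉).prod (Set.finite_Icc (-⌈B⌉) ⌈B⌉)).subset
  intro x hx
  have hx' : nn D w₁ w₂ x ≤ R := hx
  unfold nn at hx'
  have ha : w₁ * |E1 D x.1 x.2| ≤ |R| := (le_max_left _ _).trans (hx'.trans (le_abs_self _))
  have hb : w₂ * |E2 D x.1 x.2| ≤ |R| := (le_max_right _ _).trans (hx'.trans (le_abs_self _))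
  have ha' : |E1 D x.1 x.2| ≤ |R| / w₁ := by rw [le_div_iff₀ h1]; linarith
  have hb' : |E2 D x.1 x.2| ≤ |R| / w₂ := by rw [le_div_iff₀ h2]; linarith
  have hx2 : |(x.2 : ℝ)| ≤ B := by
    rw [hB, le_div_iff₀ hs]
    have e : |(x.2 : ℝ)| * Real.sqrt D = |E1 D x.1 x.2 - E2 D x.1 x.2| := by
      have : E1 D x.1 x.2 - E2 D x.1 x.2 = (x.2 : ℝ) * Real.sqrt D := by
        unfold E1 E2
        ring
      rw [this, abs_mul, abs_of_pos hs]
    rw [e]
    exact (abs_sub _ _).trans (add_le_add ha' hb')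
  have hx1 : |(x.1 : ℝ)| ≤ A := by
    have e : (x.1 : ℝ) = E1 D x.1 x.2 - x.2 * ((((thR D : ℤ) : ℝ) + Real.sqrt D) / 2) := by
      unfold E1
      ring
    rw [e, hA]
    refine (abs_sub _ _).trans ?_
    rw [abs_mul]
    exact add_le_add ha' (mul_le_mul_of_nonneg_right hx2 (abs_nonneg _))
  rw [Set.mem_prod, Set.mem_Icc, Set.mem_Icc]
  have c1 := abs_le.1 (hx1.trans (Int.le_ceil A))
  have c2 := abs_le.1 (hx2.trans (Int.le_ceil B))
  refine ⟨⟨?_, ?_⟩, ⟨?_, ?_⟩⟩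
  · exact_mod_cast c1.1
  · exact_mod_cast c1.2
  · exact_mod_cast c2.1
  · exact_mod_cast c2.2

theorem t_LAT1 : S_LAT1 := by
  intro K _ _ D ω σ h hD I hI w₁ w₂ hw1 hw2 hw
  obtain ⟨N, hN⟩ : ∃ N : ℕ, N = Ideal.absNorm I := ⟨_, rfl⟩
  have hN0 : N ≠ 0 := by
    rw [hN, Ne, Ideal.absNorm_eq_zero_iff]
    exact hI
  -- a non-zero element
  have hT0 : ((N : ℤ), (0 : ℤ)) ∈ {x : ℤ × ℤ | x ≠ 0 ∧ el ω x ∈ I} := by
    constructor
    · intro e
      have := congrArg Prod.fst e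
      simp only [Prod.fst_zero] at this
      exact hN0 (by exact_mod_cast this)
    · have : el ω ((N : ℤ), (0 : ℤ)) = ((N : ℕ) : 𝓞 K) := by
        unfold el
        push_cast
        ring
      rw [this, hN]
      exact Ideal.absNorm_mem I
  obtain ⟨R, hR⟩ : ∃ R : ℝ, R = nn D w₁ w₂ ((N : ℤ), (0 : ℤ)) := ⟨_, rfl⟩
  have hfin : ({x : ℤ × ℤ | x ≠ 0 ∧ el ω x ∈ I} ∩ {x | nn D w₁ w₂ x ≤ R}).Finite :=
    (nn_bdd hD hw1 hw2 R).subset Set.inter_subset_right
  obtain ⟨x, ⟨⟨hx0, hxI⟩, hxR⟩, hmin⟩ := Set.exists_min_image _ (nn D w₁ w₂) hfin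
    ⟨((N : ℤ), (0 : ℤ)), hT0, show nn D w₁ w₂ ((N : ℤ), (0 : ℤ)) ≤ R from hR.ge⟩
  have hmin' : ∀ y : ℤ × ℤ, y ≠ 0 → el ω y ∈ I → nn D w₁ w₂ x ≤ nn D w₁ w₂ y := by
    intro y hy0 hyI
    by_cases hy : nn D w₁ w₂ y ≤ R
    · exact hmin y ⟨⟨hy0, hyI⟩, hy⟩
    · push Not at hy
      exact le_trans hxR hy.le
  have hprm : Prm ω I x := by
    refine ⟨hx0, hxI, ?_⟩
    rintro n hn y hy ⟨e1, e2⟩
    have hy0 : y ≠ 0 := by
      intro h0
      apply hx0
      rw [h0] at e1 e2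
      exact Prod.ext (by simpa using e1) (by simpa using e2)
    have h1 := hmin' y hy0 hy
    have h2 : nn D w₁ w₂ x = n * nn D w₁ w₂ y := by
      have hn0 : (0 : ℝ) ≤ n := Nat.cast_nonneg n
      unfold nn
      rw [mul_max_of_nonneg _ _ hn0, e1, e2]
      have c1 : E1 D (n * y.1) (n * y.2) = n * E1 D y.1 y.2 := by
        unfold E1; push_cast; ring
      have c2 : E2 D (n * y.1) (n * y.2) = n * E2 D y.1 y.2 := by
        unfold E2; push_cast; ring
      rw [c1, c2, abs_mul, abs_mul, abs_of_nonneg hn0]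
      congr 1 <;> ring
    have h3 := nn_pos hD hw1 hw2 hy0
    have h4 : (2 : ℝ) ≤ n := by exact_mod_cast hn
    nlinarith
  refine ⟨x, hprm, ?_⟩
  obtain ⟨z, hzI, hz⟩ := exists_det h hI hprm
  have hs : 0 < Real.sqrt D := Real.sqrt_pos.2 (by exact_mod_cast hD)
  -- the linear forms
  obtain ⟨a, ha⟩ : ∃ a : ℝ, a = w₁ * E1 D x.1 x.2 := ⟨_, rfl⟩
  obtain ⟨b, hb⟩ : ∃ b : ℝ, b = w₂ * E2 D x.1 x.2 := ⟨_, rfl⟩
  obtain ⟨c, hc⟩ : ∃ c : ℝ, c = w₁ * E1 D z.1 z.2 := ⟨_, rfl⟩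
  obtain ⟨d, hd⟩ : ∃ d : ℝ, d = w₂ * E2 D z.1 z.2 := ⟨_, rfl⟩
  have hdet : a * d - b * c = -Real.sqrt D := by
    have e := E_det D x z
    rw [hz] at e
    rw [ha, hb, hc, hd]
    push_cast at e
    linear_combination w₁ * w₂ * e - Real.sqrt D * hw
  have hxn : nn D w₁ w₂ x = max |a| |b| := by
    unfold nn
    rw [ha, hb, abs_mul, abs_mul, abs_of_pos hw1, abs_of_pos hw2]
  have hk : ∀ k : ℤ, max |a| |b| ≤ max |c + k * a| |d + k * b| := by
    intro k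
    rw [← hxn]
    have h1 := hmin' (z.1 + k * x.1, z.2 + k * x.2) ?_ ?_
    · refine h1.trans (le_of_eq ?_)
      unfold nn
      simp only
      rw [E1_add, E2_add, ← abs_of_pos hw1, ← abs_of_pos hw2, ← abs_mul, ← abs_mul]
      congr 2
      · rw [hc, ha]; ring
      · rw [hd, hb]; ring
    · intro h0
      have e1 := congrArg Prod.fst h0
      have e2 := congrArg Prod.snd h0
      simp only [Prod.fst_zero, Prod.snd_zero] at e1 e2
      have : (N : ℤ) = 0 := by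
        rw [hN, ← hz]
        linear_combination x.1 * e2 - x.2 * e1
      exact hN0 (by exact_mod_cast this)
    · rw [el_add_mul]
      exact I.add_mem hzI (I.mul_mem_left _ hxI)
  have hpos : 0 < max |a| |b| := by
    rw [← hxn]
    exact nn_pos hD hw1 hw2 hx0
  have hfin : max |a| |b| ^ 2 ≤ Real.sqrt D := by
    rcases le_total |b| |a| with hab | hab
    · rw [max_eq_left hab] at hk hpos ⊢
      have := min_le hab (abs_pos.1 hpos) hk
      rw [hdet, abs_neg, abs_of_pos hs] at this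
      exact this
    · rw [max_eq_right hab] at hk hpos ⊢
      have := min_le hab (abs_pos.1 hpos) (fun k => (hk k).trans (le_of_eq (max_comm _ _)))
      have e : b * c - a * d = Real.sqrt D := by linear_combination -hdet
      rw [e, abs_of_pos hs] at this
      exact this
  rw [hxn]
  linarith

end Pool.Agent.T2h80.R5
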