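import Pool.Agent.T2h80.R5.LATC

set_option autoImplicit false

/-! Task LAT2: many balanced primitive vectors. -/

namespace Pool.Agent.T2h80.R5

open Finset NumberField Pool.Agent.T2h80.F5

theorem prm_of_det {K : Type} [Field K] [NumberField K] {D : ℕ} {ω : 𝓞 K} {σ : 𝓞 K →+* 𝓞 K}
    (h : IsQR K D ω σ) {I : Ideal (𝓞 K)} (hI : I ≠ ⊥) {x y : ℤ × ℤ} (hx : el ω x ∈ I)
    (hy : el ω y ∈ I) (hd : x.1 * y.2 - x.2 * y.1 = Ideal.absNorm I) : Prm ω I y := by
  have hN0 : (Ideal.absNorm I : ℤ) ≠ 0 := by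
    rw [Ne, Nat.cast_eq_zero, Ideal.absNorm_eq_zero_iff]
    exact hI
  refine ⟨?_, hy, ?_⟩
  · intro h0
    rw [h0] at hd
    apply hN0
    rw [← hd]
    simp
  · rintro n hn y' hy' ⟨e1, e2⟩
    obtain ⟨m, hm⟩ := det_dvd h hx hy'
    have e3 : (Ideal.absNorm I : ℤ) * (n * m) = Ideal.absNorm I * 1 := by
      rw [mul_one]
      nth_rw 2 [← hd]
      rw [e1, e2]
      linear_combination -(n : ℤ) * hm
    have e4 := mul_left_cancel₀ hN0 e3
    have e5 : (n : ℤ) ∣ 1 := ⟨m, e4.symm⟩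
    have e6 := Int.le_of_dvd one_pos e5
    omega

/-- the real part: `|a| = l`, `(c, d)` a complement with determinant `q` -/
theorem real_part {a b c d q : ℝ} (hq : 0 < q) (ha : 0 < |a|) (hab : |b| ≤ |a|)
    (hl : |a| ^ 2 ≤ 3 / 2 * q) (hdet : |a * d - b * c| = q) :
    ∃ Ks : Finset ℤ, q / |a| ^ 2 ≤ Ks.card ∧ ∀ k ∈ Ks,
      q / |a| ≤ 10 * |c + k * a| ∧ q / |a| ≤ 10 * |d + k * b| ∧
      |c + k * a| ≤ 10 * (q / |a|) ∧ |d + k * b| ≤ 10 * (q / |a|) := by
  obtain ⟨l, hl'⟩ : ∃ l, l = |a| := ⟨_, rfl⟩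
  rw [← hl'] at ha hab hl ⊢
  have ha0 : a ≠ 0 := by
    intro h0
    rw [h0, abs_zero] at hl'
    linarith
  -- reduction
  obtain ⟨k₀, hk₀⟩ : ∃ k₀ : ℤ, |c + k₀ * a| ≤ l / 2 := by
    refine ⟨-round (c / a), ?_⟩
    have h1 := abs_sub_round (c / a)
    have e : c + ((-round (c / a) : ℤ) : ℝ) * a = (c / a - round (c / a)) * a := by
      push_cast
      field_simp
      ring
    rw [e, abs_mul, ← hl']
    nlinarith
  obtain ⟨c', hc'⟩ : ∃ c', c' = c + k₀ * a := ⟨_, rfl⟩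
  obtain ⟨d', hd'⟩ : ∃ d', d' = d + k₀ * b := ⟨_, rfl⟩
  rw [← hc'] at hk₀
  have hdet' : |a * d' - b * c'| = q := by
    rw [← hdet, hc', hd']
    congr 1
    ring
  obtain ⟨Y, hY⟩ : ∃ Y, Y = q / l := ⟨_, rfl⟩
  have hYl : Y * l = q := by rw [hY]; field_simp
  have hY0 : 0 < Y := by rw [hY]; positivity
  have hlY : l ≤ 3 / 2 * Y := by nlinarith
  have hbc : |b * c'| ≤ l * (l / 2) := by
    rw [abs_mul]
    exact mul_le_mul hab hk₀ (abs_nonneg _) ha.le
  have had : |a * d'| = l * |d'| := by rw [abs_mul, ← hl']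
  have hd1 : Y / 4 ≤ |d'| := by
    have h1 : q ≤ l * |d'| + l * (l / 2) := by
      calc q = |a * d' - b * c'| := hdet'.symm
        _ ≤ |a * d'| + |b * c'| := abs_sub _ _
        _ ≤ _ := by rw [had]; linarith
    nlinarith
  have hd2 : |d'| ≤ 7 / 4 * Y := by
    have h1 : l * |d'| ≤ q + l * (l / 2) := by
      calc l * |d'| = |a * d'| := had.symm
        _ = |(a * d' - b * c') + b * c'| := by congr 1; ring
        _ ≤ |a * d' - b * c'| + |b * c'| := abs_add_le _ _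
        _ ≤ _ := by rw [hdet']; linarith
    nlinarith
  -- the sign
  obtain ⟨s, hs, hsb⟩ : ∃ s : ℤ, (s = 1 ∨ s = -1) ∧ 0 ≤ (s : ℝ) * (b * d') := by
    rcases le_total 0 (b * d') with h | h
    · exact ⟨1, Or.inl rfl, by push_cast; linarith⟩
    · exact ⟨-1, Or.inr rfl, by push_cast; linarith⟩
  obtain ⟨r, hr⟩ : ∃ r, r = q / l ^ 2 := ⟨_, rfl⟩
  have hrl : r * l = Y := by rw [hr, hY]; field_simp
  have hr0 : 0 < r := by rw [hr]; positivity
  have hr1 : 2 / 3 ≤ r := by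
    rw [hr, le_div_iff₀ (by positivity)]
    linarith
  refine ⟨(Finset.Icc ⌈r⌉₊ ⌊4 * r⌋₊).image (fun j : ℕ => k₀ + s * j), ?_, ?_⟩
  · rw [Finset.card_image_of_injective, Nat.card_Icc, ← hr]
    · have h1 : (⌈r⌉₊ : ℝ) < r + 1 := Nat.ceil_lt_add_one hr0.le
      have h2 : 4 * r < ⌊4 * r⌋₊ + 1 := Nat.lt_floor_add_one _
      have h3 : ⌈r⌉₊ ≤ ⌊4 * r⌋₊ + 1 := by
        have : (⌈r⌉₊ : ℝ) < ⌊4 * r⌋₊ + 1 + 1 := by linarith
        have : ⌈r⌉₊ < ⌊4 * r⌋₊ + 1 + 1 := by exact_mod_cast this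
        omega
      rw [Nat.cast_sub h3]
      push_cast
      linarith
    · intro i j hij
      simp only [add_right_inj] at hij
      rcases hs with hs | hs
      · rw [hs] at hij
        omega
      · rw [hs] at hij
        omega
  · intro k hk
    rw [Finset.mem_image] at hk
    obtain ⟨j, hj, rfl⟩ := hk
    rw [Finset.mem_Icc] at hj
    have hj1 : r ≤ j := Nat.ceil_le.1 hj.1
    have hj2 : (j : ℝ) ≤ 4 * r := (Nat.le_floor_iff (by positivity)).1 hj.2
    have hj0 : (0 : ℝ) ≤ j := Nat.cast_nonneg j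
    have hs1 : |(s : ℝ)| = 1 := by
      rcases hs with hs | hs <;> rw [hs] <;> norm_num
    have e1 : c + ((k₀ + s * j : ℤ) : ℝ) * a = c' + s * j * a := by
      rw [hc']; push_cast; ring
    have e2 : d + ((k₀ + s * j : ℤ) : ℝ) * b = d' + s * j * b := by
      rw [hd']; push_cast; ring
    rw [e1, e2, ← hY]
    have e3 : |(s : ℝ) * j * a| = j * l := by
      rw [abs_mul, abs_mul, hs1, abs_of_nonneg hj0, ← hl', one_mul]
    have e4 : |(s : ℝ) * j * b| = j * |b| := by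
      rw [abs_mul, abs_mul, hs1, abs_of_nonneg hj0, one_mul]
    have hjl1 : Y ≤ j * l := by rw [← hrl]; exact mul_le_mul_of_nonneg_right hj1 ha.le
    have hjl2 : j * l ≤ 4 * Y := by rw [← hrl]; nlinarith
    have hjb : j * |b| ≤ 4 * Y := (mul_le_mul_of_nonneg_left hab hj0).trans hjl2
    have f1 : Y / 4 ≤ |c' + s * j * a| := by
      have : |(s : ℝ) * j * a| ≤ |c' + s * j * a| + |c'| := by
        calc |(s : ℝ) * j * a| = |(c' + s * j * a) - c'| := by congr 1; ring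
          _ ≤ _ := abs_sub _ _
      rw [e3] at this
      linarith
    have f2 : |c' + s * j * a| ≤ 5 * Y := by
      have := abs_add_le c' (s * j * a)
      rw [e3] at this
      linarith
    have f3 : |d' + s * j * b| = |d'| + j * |b| := by
      rw [← e4]
      have h1 : 0 ≤ d' * (s * j * b) := by
        have : d' * (s * j * b) = j * (s * (b * d')) := by ring
        rw [this]
        exact mul_nonneg hj0 hsb
      exact abs_add_eq_add_abs_iff _ _ |>.2 (by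
        rcases mul_nonneg_iff.1 h1 with h | h
        · exact Or.inl h
        · exact Or.inr h)
    have hjb0 : 0 ≤ j * |b| := mul_nonneg hj0 (abs_nonneg _)
    refine ⟨by linarith, by rw [f3]; linarith, by linarith, by rw [f3]; linarith⟩

theorem t_LAT2 : S_LAT2 := by
  intro K _ _ D ω σ h hD I hI w₁ w₂ hw1 hw2 hw x hx hxl
  obtain ⟨z, hzI, hz⟩ := exists_det h hI hx
  have hs : 0 < Real.sqrt D := Real.sqrt_pos.2 (by exact_mod_cast hD)
  have hN0 : (Ideal.absNorm I : ℤ) ≠ 0 := by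
    rw [Ne, Nat.cast_eq_zero, Ideal.absNorm_eq_zero_iff]
    exact hI
  obtain ⟨a, ha⟩ : ∃ a : ℝ, a = w₁ * E1 D x.1 x.2 := ⟨_, rfl⟩
  obtain ⟨b, hb⟩ : ∃ b : ℝ, b = w₂ * E2 D x.1 x.2 := ⟨_, rfl⟩
  obtain ⟨c, hc⟩ : ∃ c : ℝ, c = w₁ * E1 D z.1 z.2 := ⟨_, rfl⟩
  obtain ⟨d, hd⟩ : ∃ d : ℝ, d = w₂ * E2 D z.1 z.2 := ⟨_, rfl⟩
  have hdet : a * d - b * c = -Real.sqrt D := by
    have e := E_det D x z
    rw [hz] at e
    rw [ha, hb, hc, hd]
    push_cast at e
    linear_combination w₁ * w₂ * e - Real.sqrt D * hw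
  have hxn : nn D w₁ w₂ x = max |a| |b| := by
    unfold nn
    rw [ha, hb, abs_mul, abs_mul, abs_of_pos hw1, abs_of_pos hw2]
  have hpos := nn_pos hD hw1 hw2 hx.1
  have hf1 : ∀ k : ℤ, w₁ * |E1 D (z.1 + k * x.1) (z.2 + k * x.2)| = |c + k * a| := by
    intro k
    rw [E1_add, ← abs_of_pos hw1, ← abs_mul, hc, ha]
    congr 1
    ring
  have hf2 : ∀ k : ℤ, w₂ * |E2 D (z.1 + k * x.1) (z.2 + k * x.2)| = |d + k * b| := by
    intro k
    rw [E2_add, ← abs_of_pos hw2, ← abs_mul, hd, hb]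
    congr 1
    ring
  obtain ⟨Ks, hKs, hK⟩ : ∃ Ks : Finset ℤ, Real.sqrt D / nn D w₁ w₂ x ^ 2 ≤ Ks.card ∧ ∀ k ∈ Ks,
      Real.sqrt D / nn D w₁ w₂ x ≤ 10 * |c + k * a| ∧
      Real.sqrt D / nn D w₁ w₂ x ≤ 10 * |d + k * b| ∧
      |c + k * a| ≤ 10 * (Real.sqrt D / nn D w₁ w₂ x) ∧
      |d + k * b| ≤ 10 * (Real.sqrt D / nn D w₁ w₂ x) := by
    rw [hxn] at hpos hxl ⊢
    rcases le_total |b| |a| with hab | hab
    · rw [max_eq_left hab] at hpos hxl ⊢
      exact real_part hs hpos hab hxl (by rw [hdet, abs_neg, abs_of_pos hs])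
    · rw [max_eq_right hab] at hpos hxl ⊢
      obtain ⟨Ks, h1, h2⟩ := real_part (a := b) (b := a) (c := d) (d := c) hs hpos hab hxl (by
        have e : b * c - a * d = Real.sqrt D := by linear_combination -hdet
        rw [e, abs_of_pos hs])
      exact ⟨Ks, h1, fun k hk => ⟨(h2 k hk).2.1, (h2 k hk).1, (h2 k hk).2.2.2, (h2 k hk).2.2.1⟩⟩
  refine ⟨Ks.image (fun k : ℤ => (z.1 + k * x.1, z.2 + k * x.2)), ?_, ?_⟩
  · rw [Finset.card_image_of_injective]
    · exact hKs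
    · intro i j hij
      have e1 := congrArg Prod.fst hij
      have e2 := congrArg Prod.snd hij
      simp only [add_right_inj] at e1 e2
      have hne : x.1 ≠ 0 ∨ x.2 ≠ 0 := by
        by_contra hc
        push Not at hc
        exact hx.1 (Prod.ext hc.1 hc.2)
      rcases hne with h0 | h0
      · exact mul_right_cancel₀ h0 e1
      · exact mul_right_cancel₀ h0 e2
  · have hdetk : ∀ k : ℤ, x.1 * (z.2 + k * x.2) - x.2 * (z.1 + k * x.1) = Ideal.absNorm I := by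
      intro k
      rw [← hz]
      ring
    intro y hy
    rw [Finset.mem_image] at hy
    obtain ⟨k, hk, rfl⟩ := hy
    obtain ⟨g1, g2, g3, g4⟩ := hK k hk
    refine ⟨prm_of_det h hI hx.2.1 ?_ (hdetk k), ?_, ?_, ?_, ?_, ?_⟩
    · rw [el_add_mul]
      exact I.add_mem hzI (I.mul_mem_left _ hx.2.1)
    · intro hm
      rw [Finset.mem_image] at hm
      obtain ⟨k', -, hk'⟩ := hm
      have e1 := congrArg Prod.fst hk'
      have e2 := congrArg Prod.snd hk'
      simp only [Prod.fst_neg, Prod.snd_neg] at e1 e2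
      have := hdetk k'
      rw [e1, e2] at this
      have h2 := hdetk k
      apply hN0
      linarith
    · rw [hf1]; exact g1
    · rw [hf2]; exact g2
    · rw [hf1]; exact g3
    · rw [hf2]; exact g4

end Pool.Agent.T2h80.R5
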