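import Pool.Agent.T2h80.R5.Stm

set_option autoImplicit false

/-! Tasks LAT1, LAT2: the lattice of an ideal, common lemmas. -/

namespace Pool.Agent.T2h80.R5

open Finset NumberField Pool.Agent.T2h80.F5

variable {K : Type} [Field K] [NumberField K] {D : ℕ} {ω : 𝓞 K} {σ : 𝓞 K →+* 𝓞 K}

theorem mul_sig (h : IsQR K D ω σ) (x z : ℤ × ℤ) :
    el ω x * σ (el ω z) = ((x.1 * z.1 + thR D * x.1 * z.2 + n0R D * x.2 * z.2 : ℤ) : 𝓞 K) +
      ((x.2 * z.1 - x.1 * z.2 : ℤ) : 𝓞 K) * ω := by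
  obtain ⟨h1, h2, -⟩ := h
  unfold el
  rw [map_add, map_mul, map_intCast, map_intCast, h2]
  push_cast
  linear_combination -((x.2 : 𝓞 K) * (z.2 : 𝓞 K)) * h1

theorem indep (h : IsQR K D ω σ) {a b c d : ℤ} (e : (a : 𝓞 K) + (b : 𝓞 K) * ω = (c : 𝓞 K) + (d : 𝓞 K) * ω) :
    a = c ∧ b = d := by
  obtain ⟨-, -, -, h4, -⟩ := h
  have h5 := h4 (a - c) (b - d) (by push_cast; linear_combination e)
  exact ⟨by linarith [h5.1], by linarith [h5.2]⟩

/-- the determinants are divisible by the norm -/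
theorem det_dvd (h : IsQR K D ω σ) {I : Ideal (𝓞 K)} {x z : ℤ × ℤ} (hx : el ω x ∈ I)
    (hz : el ω z ∈ I) : (Ideal.absNorm I : ℤ) ∣ x.1 * z.2 - x.2 * z.1 := by
  have hh := h
  obtain ⟨-, -, h3, -, -, -, -, h8, -⟩ := hh
  have h9 : el ω x * σ (el ω z) ∈ I * I.map σ :=
    Ideal.mul_mem_mul hx (Ideal.mem_map_of_mem σ hz)
  rw [h8, Ideal.mem_span_singleton] at h9
  obtain ⟨c, hc⟩ := h9
  obtain ⟨p, q, rfl⟩ := h3 c
  rw [mul_sig h] at hc
  have h10 := indep h (c := Ideal.absNorm I * p) (d := Ideal.absNorm I * q)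
    (by rw [hc]; push_cast; ring)
  exact ⟨-q, by linarith [h10.2]⟩

theorem map_ne_bot (h : IsQR K D ω σ) {I : Ideal (𝓞 K)} (hI : I ≠ ⊥) : I.map σ ≠ ⊥ := by
  obtain ⟨-, -, -, -, -, -, -, -, h9⟩ := h
  intro h0
  have h1 := h9 I
  rw [h0, Ideal.absNorm_bot] at h1
  exact hI (Ideal.absNorm_eq_zero_iff.1 h1.symm)

theorem el_eq_zero (h : IsQR K D ω σ) {x : ℤ × ℤ} (e : el ω x = 0) : x = 0 := by
  have := indep h (a := x.1) (b := x.2) (c := 0) (d := 0) (by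
    unfold el at e
    rw [e]; simp)
  exact Prod.ext this.1 this.2

/-- a primitive element belongs to a basis -/
theorem exists_det (h : IsQR K D ω σ) {I : Ideal (𝓞 K)} (hI : I ≠ ⊥) {x : ℤ × ℤ}
    (hx : Prm ω I x) : ∃ z : ℤ × ℤ, el ω z ∈ I ∧ x.1 * z.2 - x.2 * z.1 = Ideal.absNorm I := by
  have hh := h
  obtain ⟨h1, h2, h3, h4, h5, h6, h7, h8, h9⟩ := hh
  obtain ⟨hx0, hxI, hxp⟩ := hx
  have hxI' : el ω x ∈ I := hxI
  obtain ⟨N, hN⟩ : ∃ N : ℕ, N = Ideal.absNorm I := ⟨_, rfl⟩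
  have hN0 : N ≠ 0 := by
    rw [hN, Ne, Ideal.absNorm_eq_zero_iff]
    exact hI
  have hadd : ∀ z z' : ℤ × ℤ, el ω (z + z') = el ω z + el ω z' := by
    intro z z'
    unfold el
    rw [Prod.fst_add, Prod.snd_add]
    push_cast
    ring
  have hsmul : ∀ (c : ℤ) (z : ℤ × ℤ), el ω (c * z.1, c * z.2) = (c : 𝓞 K) * el ω z := by
    intro c z
    unfold el
    push_cast
    ring
  obtain ⟨S, hS⟩ : ∃ S : Ideal ℤ, ∀ d, d ∈ S ↔ ∃ z : ℤ × ℤ, el ω z ∈ I ∧
      x.1 * z.2 - x.2 * z.1 = N * d := by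
    refine ⟨{ carrier := {d | ∃ z : ℤ × ℤ, el ω z ∈ I ∧ x.1 * z.2 - x.2 * z.1 = N * d}
              add_mem' := ?_
              zero_mem' := ?_
              smul_mem' := ?_ }, fun d => Iff.rfl⟩
    · rintro a b ⟨z, hz, e⟩ ⟨z', hz', e'⟩
      refine ⟨z + z', ?_, ?_⟩
      · rw [hadd]
        exact I.add_mem hz hz'
      · rw [Prod.fst_add, Prod.snd_add]
        linear_combination e + e'
    · refine ⟨0, ?_, by simp⟩
      have : el ω (0 : ℤ × ℤ) = 0 := by simp [el]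
      rw [this]
      exact I.zero_mem
    · rintro c a ⟨z, hz, e⟩
      refine ⟨(c * z.1, c * z.2), ?_, ?_⟩
      · rw [hsmul]
        exact I.mul_mem_left _ hz
      · simp only [smul_eq_mul]
        linear_combination c * e
  obtain ⟨m, hm⟩ := (IsPrincipalIdealRing.principal S).principal
  have hm' : ∀ z : ℤ × ℤ, el ω z ∈ I → ∃ c : ℤ, x.1 * z.2 - x.2 * z.1 = N * (m * c) := by
    intro z hz
    obtain ⟨d, hd⟩ := det_dvd h hxI' hz
    rw [← hN] at hd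
    have h10 : d ∈ S := (hS d).2 ⟨z, hz, hd⟩
    rw [hm] at h10
    obtain ⟨c, hc⟩ := Submodule.mem_span_singleton.1 h10
    refine ⟨c, ?_⟩
    rw [hd, ← hc, smul_eq_mul]
    ring
  -- the products
  have hkey : ∀ z : ℤ × ℤ, el ω z ∈ I → ∃ c : 𝓞 K, el ω x * σ (el ω z) =
      ((N * m : ℤ) : 𝓞 K) * c := by
    intro z hz
    obtain ⟨c, hc⟩ := hm' z hz
    -- multiplication by `σ ω`
    obtain ⟨z', hz'⟩ : ∃ z' : ℤ × ℤ, el ω z' = el ω z * σ ω := by
      obtain ⟨a, b, hab⟩ := h3 (el ω z * σ ω)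
      exact ⟨(a, b), hab.symm⟩
    have hz'I : el ω z' ∈ I := by
      rw [hz']
      exact I.mul_mem_right _ hz
    obtain ⟨c', hc'⟩ := hm' z' hz'I
    have e1 := mul_sig h x z
    have e2 := mul_sig h x z'
    obtain ⟨A, hA⟩ : ∃ A : ℤ, A = x.1 * z.1 + thR D * x.1 * z.2 + n0R D * x.2 * z.2 := ⟨_, rfl⟩
    obtain ⟨B, hB⟩ : ∃ B : ℤ, B = x.2 * z.1 - x.1 * z.2 := ⟨_, rfl⟩
    rw [← hA, ← hB] at e1
    rw [hz', map_mul, h5, ← mul_assoc, e1] at e2
    have e3 := indep h (a := -B * n0R D) (b := A + B * thR D)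
      (c := x.1 * z'.1 + thR D * x.1 * z'.2 + n0R D * x.2 * z'.2) (d := x.2 * z'.1 - x.1 * z'.2)
      (by rw [← e2]; push_cast; linear_combination -(B : 𝓞 K) * h1)
    have hB' : B = N * m * (-c) := by rw [hB]; linear_combination -hc
    have hA' : A = N * m * (-c' + c * thR D) := by
      have := e3.2
      linear_combination this - hc' - thR D * hB'
    refine ⟨((-c' + c * thR D : ℤ) : 𝓞 K) + ((-c : ℤ) : 𝓞 K) * ω, ?_⟩
    rw [e1, hA', hB']
    push_cast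
    ring
  have hle : Ideal.span {el ω x} * I.map σ ≤ (Ideal.span {(m : 𝓞 K)} * I) * I.map σ := by
    rw [mul_assoc, h8, ← hN, Ideal.span_singleton_mul_span_singleton]
    rw [Ideal.mul_le]
    intro r hr s hs
    obtain ⟨r', rfl⟩ := Ideal.mem_span_singleton.1 hr
    -- elements of the image
    have hs' : ∃ t ∈ I, σ t = s := by
      have hsur : Function.Surjective σ := fun y => ⟨σ y, h5 y⟩
      exact (Ideal.mem_map_iff_of_surjective σ hsur).1 hs
    obtain ⟨t, ht, rfl⟩ := hs'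
    obtain ⟨a, b, hab⟩ := h3 t
    have ht2 : el ω (a, b) = t := hab.symm
    obtain ⟨c, hc⟩ := hkey (a, b) (by rw [ht2]; exact ht)
    rw [ht2] at hc
    rw [Ideal.mem_span_singleton]
    refine ⟨r' * c, ?_⟩
    have e : el ω x * r' * σ t = r' * (el ω x * σ t) := by ring
    rw [e, hc]
    push_cast
    ring
  have hdvd := Ideal.dvd_iff_le.2 hle
  have hdvd2 : Ideal.span {(m : 𝓞 K)} * I ∣ Ideal.span {el ω x} :=
    (mul_dvd_mul_iff_right (show I.map σ ≠ 0 from map_ne_bot h hI)).1 hdvd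
  have hmem : el ω x ∈ Ideal.span {(m : 𝓞 K)} * I :=
    (Ideal.dvd_iff_le.1 hdvd2) (Ideal.mem_span_singleton_self _)
  obtain ⟨y, hy, hyx⟩ := Ideal.mem_span_singleton_mul.1 hmem
  obtain ⟨a, b, rfl⟩ := h3 y
  have hxm := indep h (a := x.1) (b := x.2) (c := m * a) (d := m * b) (by
    have : el ω x = (x.1 : 𝓞 K) + (x.2 : 𝓞 K) * ω := rfl
    rw [← this, ← hyx]
    push_cast
    ring)
  have hm1 : m.natAbs = 1 := by
    have hm0 : m.natAbs ≠ 0 := by
      intro h0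
      have h00 : m = 0 := Int.natAbs_eq_zero.1 h0
      rw [h00] at hxm
      exact hx0 (Prod.ext (by simpa using hxm.1) (by simpa using hxm.2))
    by_contra hne
    have h2' : 2 ≤ m.natAbs := by omega
    rcases Int.natAbs_eq m with hs | hs
    · refine hxp m.natAbs h2' (a, b) hy ?_
      rw [← hs]
      exact hxm
    · refine hxp m.natAbs h2' (-a, -b) ?_ ?_
      · have : ((-a : ℤ) : 𝓞 K) + ((-b : ℤ) : 𝓞 K) * ω = -((a : 𝓞 K) + (b : 𝓞 K) * ω) := by
          push_cast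
          ring
        change ((-a : ℤ) : 𝓞 K) + ((-b : ℤ) : 𝓞 K) * ω ∈ I
        rw [this]
        exact I.neg_mem hy
      · constructor
        · rw [hxm.1]
          change m * a = (m.natAbs : ℤ) * (-a)
          linear_combination a * hs
        · rw [hxm.2]
          change m * b = (m.natAbs : ℤ) * (-b)
          linear_combination b * hs
  have h1S : (1 : ℤ) ∈ S := by
    rw [hm]
    rw [Submodule.mem_span_singleton]
    rcases Int.natAbs_eq m with hs | hs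
    · exact ⟨1, by rw [hs, hm1]; rfl⟩
    · exact ⟨-1, by rw [hs, hm1]; rfl⟩
  obtain ⟨z, hz, e⟩ := (hS 1).1 h1S
  exact ⟨z, hz, by rw [e, hN]; ring⟩

/-- the two embeddings of a pair -/
theorem E_det (D : ℕ) (x z : ℤ × ℤ) : E1 D x.1 x.2 * E2 D z.1 z.2 - E2 D x.1 x.2 * E1 D z.1 z.2 =
    -(Real.sqrt D * ((x.1 * z.2 - x.2 * z.1 : ℤ) : ℝ)) := by
  unfold E1 E2
  push_cast
  ring

theorem E1_add (D : ℕ) (x z : ℤ × ℤ) (k : ℤ) :
    E1 D (z.1 + k * x.1) (z.2 + k * x.2) = E1 D z.1 z.2 + k * E1 D x.1 x.2 := by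
  unfold E1
  push_cast
  ring

theorem E2_add (D : ℕ) (x z : ℤ × ℤ) (k : ℤ) :
    E2 D (z.1 + k * x.1) (z.2 + k * x.2) = E2 D z.1 z.2 + k * E2 D x.1 x.2 := by
  unfold E2
  push_cast
  ring

theorem el_add_mul (ω : 𝓞 K) (x z : ℤ × ℤ) (k : ℤ) :
    el ω (z.1 + k * x.1, z.2 + k * x.2) = el ω z + (k : 𝓞 K) * el ω x := by
  unfold el
  push_cast
  ring

theorem nn_pos {D : ℕ} (hD : 0 < D) {w₁ w₂ : ℝ} (h1 : 0 < w₁) (h2 : 0 < w₂) {x : ℤ × ℤ}
    (hx : x ≠ 0) : 0 < nn D w₁ w₂ x := by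
  unfold nn
  by_contra hc
  push Not at hc
  have ha : w₁ * |E1 D x.1 x.2| ≤ 0 := (le_max_left _ _).trans hc
  have hb : w₂ * |E2 D x.1 x.2| ≤ 0 := (le_max_right _ _).trans hc
  have ha' : E1 D x.1 x.2 = 0 := by
    rw [← abs_eq_zero]
    exact le_antisymm (by by_contra hh; push Not at hh; nlinarith [mul_pos h1 hh]) (abs_nonneg _)
  have hb' : E2 D x.1 x.2 = 0 := by
    rw [← abs_eq_zero]
    exact le_antisymm (by by_contra hh; push Not at hh; nlinarith [mul_pos h2 hh]) (abs_nonneg _)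
  have hs : 0 < Real.sqrt D := Real.sqrt_pos.2 (by exact_mod_cast hD)
  have h3 : (x.2 : ℝ) * Real.sqrt D = 0 := by
    have : E1 D x.1 x.2 - E2 D x.1 x.2 = (x.2 : ℝ) * Real.sqrt D := by
      unfold E1 E2
      ring
    rw [← this, ha', hb', sub_zero]
  have h4 : (x.2 : ℝ) = 0 := by
    rcases mul_eq_zero.1 h3 with h | h
    · exact h
    · exact absurd h hs.ne'
  have h5 : x.2 = 0 := by exact_mod_cast h4
  have h6 : (x.1 : ℝ) = 0 := by
    unfold E1 at ha'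
    rw [h4, zero_mul, zero_div, add_zero] at ha'
    exact ha'
  have h7 : x.1 = 0 := by exact_mod_cast h6
  exact hx (Prod.ext h7 h5)

end Pool.Agent.T2h80.R5
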