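import Pool.Agent.T2h80.R5.Stm

set_option autoImplicit false

/-!
# MER: two primitive ideals with principal `Pf ^ 2 σ(Af)` and `Af ^ 2 Pf` give the relations
-/

namespace Pool.Agent.T2h80.R5

open Finset NumberField Pool.Agent.T2h80.F5

namespace MERaux

variable {K : Type} [Field K] [NumberField K]

theorem thR_sq (D : ℕ) : thR D * thR D = thR D := by
  unfold thR
  rcases Nat.mod_two_eq_zero_or_one D with h | h <;> rw [h] <;> norm_num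

/-- the coordinate of a multiple of an integer -/
theorem coord_dvdR {D : ℕ} {ω : 𝓞 K} {σ : 𝓞 K →+* 𝓞 K} (hQ : IsQR K D ω σ) (n : ℕ) (x y : ℤ)
    (J : Ideal (𝓞 K))
    (h : Ideal.span {((x : ℤ) : 𝓞 K) + (y : 𝓞 K) * ω} = Ideal.span {((n : ℕ) : 𝓞 K)} * J) :
    (n : ℤ) ∣ y := by
  have h1 : ((x : ℤ) : 𝓞 K) + (y : 𝓞 K) * ω ∈ Ideal.span {((n : ℕ) : 𝓞 K)} := by
    have h2 : ((x : ℤ) : 𝓞 K) + (y : 𝓞 K) * ω ∈ Ideal.span {((x : ℤ) : 𝓞 K) + (y : 𝓞 K) * ω} :=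
      Ideal.mem_span_singleton_self _
    rw [h] at h2
    exact Ideal.mul_le_left (I := Ideal.span {((n : ℕ) : 𝓞 K)}) (J := J) h2
  obtain ⟨z, hz⟩ := Ideal.mem_span_singleton.mp h1
  obtain ⟨a, b, hab⟩ := hQ.2.2.1 z
  have h3 : (((x - n * a : ℤ)) : 𝓞 K) + ((y - n * b : ℤ) : 𝓞 K) * ω = 0 := by
    push_cast
    have := hz
    rw [hab] at this
    linear_combination this
  have h4 := (hQ.2.2.2.1 _ _ h3).2
  exact ⟨b, by linarith⟩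

omit [NumberField K] in
theorem map_span_singR (σ : 𝓞 K →+* 𝓞 K) (x : 𝓞 K) :
    (Ideal.span {x}).map σ = Ideal.span {σ x} := by
  rw [Ideal.map_span, Set.image_singleton]

theorem pow5_injR (I J : Ideal (𝓞 K)) (h : I ^ 5 = J ^ 5) : I = J := by
  have h1 : I ∣ J := (UniqueFactorizationMonoid.pow_dvd_pow_iff_dvd (n := 5) (by norm_num)).mp (by rw [h])
  have h2 : J ∣ I := (UniqueFactorizationMonoid.pow_dvd_pow_iff_dvd (n := 5) (by norm_num)).mp (by rw [h])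
  exact le_antisymm (Ideal.dvd_iff_le.mp h2) (Ideal.dvd_iff_le.mp h1)

theorem sgn_dvd (r s y z : ℤ) (hs : s = 1 ∨ s = -1) (h : r * y ∣ z) : r * (s * y) ∣ z := by
  rcases hs with rfl | rfl
  · rw [one_mul]; exact h
  · rw [neg_one_mul, mul_neg, neg_dvd]; exact h

theorem sgn_dvd2 (r s y z : ℤ) (hs : s = 1 ∨ s = -1) (h : r * y ^ 2 ∣ z) :
    r * (s * y) ^ 2 ∣ z := by
  rcases hs with rfl | rfl
  · rw [one_mul]; exact h
  · rw [neg_one_mul, neg_sq]; exact h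

end MERaux

open MERaux in
/-- **MER.** -/
theorem t_MER (hSPLR : S_SPLR) (hCOPR : S_COPR) : S_MER := by
  intro K _ _ D ω σ hQ Pf Af hPf0 hAf0 hPfp hAfp α₁ α₂ hα₁ hα₂
  obtain ⟨R, P, A, ρ, hS⟩ := hSPLR K D ω σ hQ Pf Af hPf0 hAf0 hPfp hAfp
  obtain ⟨_, _, _, _, hρ0, hR2, hRσ, hRn, hPfR, hAfR, _, hcop⟩ := id hS
  have hQ' := hQ
  obtain ⟨hω2, hσω, hrep, huni, hinv, hnorm, hxσ, hIσ, hnσ⟩ := hQ'
  have hP0 : P ≠ ⊥ := fun h => hPf0 (by rw [hPfR, h]; exact Ideal.mul_bot _)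
  have hA0 : A ≠ ⊥ := fun h => hAf0 (by rw [hAfR, h]; exact Ideal.mul_bot _)
  have hρ0' : ((ρ : ℕ) : 𝓞 K) ≠ 0 := by exact_mod_cast hρ0.ne'
  have hspρ : (Ideal.span {((ρ : ℕ) : 𝓞 K)} : Ideal (𝓞 K)) ≠ ⊥ := by
    rw [Ne, Ideal.span_singleton_eq_bot]; exact hρ0'
  have hm0 : 0 < Ideal.absNorm P := Nat.pos_of_ne_zero (by rwa [Ne, Ideal.absNorm_eq_zero_iff])
  have ha0 : 0 < Ideal.absNorm A := Nat.pos_of_ne_zero (by rwa [Ne, Ideal.absNorm_eq_zero_iff])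
  -- divide by ρ
  have key : ∀ (α : 𝓞 K) (I : Ideal (𝓞 K)), Ideal.span {α} = Ideal.span {((ρ : ℕ) : 𝓞 K)} * I →
      ∃ x u : ℤ, 0 ≤ u ∧ Ideal.span {((x : ℤ) : 𝓞 K) + (u : 𝓞 K) * ω} = I ∧
        ((ρ : 𝓞 K) * ((x : 𝓞 K) + (u : 𝓞 K) * ω) = α ∨
          (ρ : 𝓞 K) * ((x : 𝓞 K) + (u : 𝓞 K) * ω) = -α) := by
    intro α I hI
    have hmem : α ∈ Ideal.span {((ρ : ℕ) : 𝓞 K)} := by
      have h0 : α ∈ Ideal.span {α} := Ideal.mem_span_singleton_self α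
      rw [hI] at h0
      exact Ideal.mul_le_left (I := Ideal.span {((ρ : ℕ) : 𝓞 K)}) (J := I) h0
    obtain ⟨b, hb⟩ := Ideal.mem_span_singleton.mp hmem
    have hbI : Ideal.span {b} = I := by
      have : Ideal.span {((ρ : ℕ) : 𝓞 K)} * Ideal.span {b} = Ideal.span {((ρ : ℕ) : 𝓞 K)} * I := by
        rw [← hI, hb, Ideal.span_singleton_mul_span_singleton]
      exact mul_left_cancel₀ hspρ this
    obtain ⟨x, u, hxu⟩ := hrep b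
    rcases le_total 0 u with hu | hu
    · exact ⟨x, u, hu, by rw [← hxu, hbI], Or.inl (by rw [← hxu, hb])⟩
    · refine ⟨-x, -u, by linarith, ?_, Or.inr ?_⟩
      · rw [← hbI, hxu, ← Ideal.span_singleton_neg]
        congr 2
        push_cast
        ring
      · rw [hb, hxu]
        push_cast
        ring
  obtain ⟨x₁, u₁, hu₁, h1, hx1⟩ := key α₁ (P ^ 2 * A.map σ * R) (by
    rw [hα₁, ← hR2, hPfR, hAfR, Ideal.map_mul, hRσ]; ring)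
  obtain ⟨x₂, u₂, hu₂, h2, hx2⟩ := key α₂ (A ^ 2 * P * R) (by
    rw [hα₂, ← hR2, hPfR, hAfR]; ring)
  -- norms
  have hnrm : ∀ (x u : ℤ) (I : Ideal (𝓞 K)), Ideal.span {((x : ℤ) : 𝓞 K) + (u : 𝓞 K) * ω} = I →
      ∃ s : ℤ, (s = 1 ∨ s = -1) ∧
        x ^ 2 + thR D * x * u + n0R D * u ^ 2 = s * (Ideal.absNorm I : ℤ) := by
    intro x u I hI
    rw [← hI, Ideal.absNorm_span_singleton, hnorm, Int.natCast_natAbs]
    rcases le_total 0 (x ^ 2 + thR D * x * u + n0R D * u ^ 2) with h | h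
    · exact ⟨1, Or.inl rfl, by rw [abs_of_nonneg h, one_mul]⟩
    · exact ⟨-1, Or.inr rfl, by rw [abs_of_nonpos h]; ring⟩
  obtain ⟨s₁, hs₁, hN1⟩ := hnrm _ _ _ h1
  obtain ⟨s₂, hs₂, hN2⟩ := hnrm _ _ _ h2
  rw [map_mul, map_mul, map_pow, hnσ, hRn] at hN1
  rw [map_mul, map_mul, map_pow, hRn] at hN2
  have hs₁' : s₁ ^ 2 = 1 := by rcases hs₁ with rfl | rfl <;> norm_num
  have hs₂' : s₂ ^ 2 = 1 := by rcases hs₂ with rfl | rfl <;> norm_num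
  have hs₁0 : s₁ ≠ 0 := by rcases hs₁ with rfl | rfl <;> norm_num
  have hs₂0 : s₂ ≠ 0 := by rcases hs₂ with rfl | rfl <;> norm_num
  have hs₁u : IsUnit s₁ := by rcases hs₁ with rfl | rfl <;> decide
  have hs₂u : IsUnit s₂ := by rcases hs₂ with rfl | rfl <;> decide
  have hs₁a : |s₁| = 1 := by rcases hs₁ with rfl | rfl <;> norm_num
  have hs₂a : |s₂| = 1 := by rcases hs₂ with rfl | rfl <;> norm_num
  have hm0' : ((Ideal.absNorm P : ℕ) : ℤ) ≠ 0 := by exact_mod_cast hm0.ne'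
  have ha0' : ((Ideal.absNorm A : ℕ) : ℤ) ≠ 0 := by exact_mod_cast ha0.ne'
  -- the element identities
  have hconj1 : ∀ x u : ℤ, σ (((x : ℤ) : 𝓞 K) + (u : 𝓞 K) * ω) =
      ((x : ℤ) : 𝓞 K) + (u : 𝓞 K) * ((thR D : 𝓞 K) - ω) := by
    intro x u
    rw [map_add, map_mul, map_intCast, map_intCast, hσω]
  have h2σ : Ideal.span {((x₂ : ℤ) : 𝓞 K) + (u₂ : 𝓞 K) * ((thR D : 𝓞 K) - ω)} =
      (A.map σ) ^ 2 * P.map σ * R := by
    rw [← hconj1, ← map_span_singR, h2, Ideal.map_mul, Ideal.map_mul, Ideal.map_pow, hRσ]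
  have hAA := hIσ A
  have hPP := hIσ P
  have hthsq : (thR D : 𝓞 K) * (thR D : 𝓞 K) = (thR D : 𝓞 K) := by
    have := thR_sq D
    exact_mod_cast congrArg (Int.cast : ℤ → 𝓞 K) this
  have hnat : ∀ p q : ℕ, Ideal.span {((p * q : ℕ) : 𝓞 K)} =
      Ideal.span {((p : ℕ) : 𝓞 K)} * Ideal.span {((q : ℕ) : 𝓞 K)} := by
    intro p q
    rw [Ideal.span_singleton_mul_span_singleton]
    push_cast
    rfl
  have hcop2 := hCOPR K D ω σ hQ Pf Af R P A ρ hS x₁ u₁ x₂ u₂ h1 h2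
  refine ⟨ρ, s₂ * (Ideal.absNorm P : ℤ), s₁ * (Ideal.absNorm A : ℤ), x₁, u₁, x₂, u₂,
    ⟨hρ0, mul_ne_zero hs₂0 hm0', mul_ne_zero hs₁0 ha0', hu₁, hu₂, ?_, ?_, ?_, ?_, ?_, ?_, ?_, ?_⟩,
    hx1, hx2, ?_, ?_, ?_⟩
  · have h := Nat.isCoprime_iff_coprime.2 hcop
    push_cast at h
    have e : s₂ * (Ideal.absNorm P : ℤ) * (s₁ * (Ideal.absNorm A : ℤ)) =
        (s₂ * s₁) * ((Ideal.absNorm P : ℤ) * (Ideal.absNorm A : ℤ)) := by ring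
    rw [e]
    exact (isCoprime_mul_unit_left_right (hs₂u.mul hs₁u) _ _).2 h
  · have h := Nat.isCoprime_iff_coprime.2 hcop2
    push_cast at h
    have e : (ρ : ℤ) * (s₂ * (Ideal.absNorm P : ℤ)) * (s₁ * (Ideal.absNorm A : ℤ)) =
        (s₂ * s₁) * ((ρ : ℤ) * (Ideal.absNorm P : ℤ) * (Ideal.absNorm A : ℤ)) := by ring
    rw [e]
    exact (isCoprime_mul_unit_left_left (hs₂u.mul hs₁u) _ _).2 h
  · rw [hN1]; push_cast
    linear_combination (-(ρ : ℤ) * (Ideal.absNorm P : ℤ) ^ 2 * s₁ * (Ideal.absNorm A : ℤ)) * hs₂'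
  · rw [hN2]; push_cast
    linear_combination (-(ρ : ℤ) * (Ideal.absNorm A : ℤ) ^ 2 * s₂ * (Ideal.absNorm P : ℤ)) * hs₁'
  · -- b g
    apply sgn_dvd _ _ _ _ hs₁
    have := coord_dvdR hQ (ρ * Ideal.absNorm A) (x₁ * x₂ - n0R D * u₁ * u₂)
      (x₁ * u₂ + x₂ * u₁ + thR D * u₁ * u₂) (P ^ 3 * A) (by
      have : (((x₁ * x₂ - n0R D * u₁ * u₂ : ℤ)) : 𝓞 K) +
          ((x₁ * u₂ + x₂ * u₁ + thR D * u₁ * u₂ : ℤ) : 𝓞 K) * ω =
          (((x₁ : ℤ) : 𝓞 K) + (u₁ : 𝓞 K) * ω) * (((x₂ : ℤ) : 𝓞 K) + (u₂ : 𝓞 K) * ω) := by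
        push_cast
        linear_combination (-(u₁ : 𝓞 K) * u₂) * hω2
      rw [this, ← Ideal.span_singleton_mul_span_singleton, h1, h2, hnat, ← hAA, ← hR2]
      ring)
    push_cast at this
    exact this
  · -- b σ g
    apply sgn_dvd _ _ _ _ hs₂
    have := coord_dvdR hQ (ρ * Ideal.absNorm P) (x₁ * x₂ + thR D * x₁ * u₂ + n0R D * u₁ * u₂)
      (x₂ * u₁ - x₁ * u₂) (P * (A.map σ) ^ 3) (by
      have : (((x₁ * x₂ + thR D * x₁ * u₂ + n0R D * u₁ * u₂ : ℤ)) : 𝓞 K) +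
          ((x₂ * u₁ - x₁ * u₂ : ℤ) : 𝓞 K) * ω =
          (((x₁ : ℤ) : 𝓞 K) + (u₁ : 𝓞 K) * ω) *
            (((x₂ : ℤ) : 𝓞 K) + (u₂ : 𝓞 K) * ((thR D : 𝓞 K) - ω)) := by
        push_cast
        linear_combination ((u₁ : 𝓞 K) * u₂) * hω2
      rw [this, ← Ideal.span_singleton_mul_span_singleton, h1, h2σ, hnat, ← hPP, ← hR2]
      ring)
    push_cast at this
    exact this
  · -- b σ g ^ 2
    apply sgn_dvd2 _ _ _ _ hs₂
    have := coord_dvdR hQ (ρ * Ideal.absNorm P ^ 2) (x₁ * ((x₂ + thR D * u₂) ^ 2 - n0R D * u₂ ^ 2) +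
        n0R D * u₁ * (2 * x₂ * u₂ + thR D * u₂ ^ 2))
      (u₁ * x₂ ^ 2 - 2 * x₁ * x₂ * u₂ - thR D * x₁ * u₂ ^ 2 - n0R D * u₁ * u₂ ^ 2)
      (R * (A.map σ) ^ 5) (by
      have : (((x₁ * ((x₂ + thR D * u₂) ^ 2 - n0R D * u₂ ^ 2) +
        n0R D * u₁ * (2 * x₂ * u₂ + thR D * u₂ ^ 2) : ℤ)) : 𝓞 K) +
          ((u₁ * x₂ ^ 2 - 2 * x₁ * x₂ * u₂ - thR D * x₁ * u₂ ^ 2 - n0R D * u₁ * u₂ ^ 2 : ℤ) : 𝓞 K) * ω =
          (((x₁ : ℤ) : 𝓞 K) + (u₁ : 𝓞 K) * ω) *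
            ((((x₂ : ℤ) : 𝓞 K) + (u₂ : 𝓞 K) * ((thR D : 𝓞 K) - ω)) *
            (((x₂ : ℤ) : 𝓞 K) + (u₂ : 𝓞 K) * ((thR D : 𝓞 K) - ω))) := by
        push_cast
        linear_combination (-(x₁ : 𝓞 K) * u₂ ^ 2 + u₁ * (2 * x₂ * u₂ + thR D * u₂ ^ 2) - u₁ * u₂ ^ 2 * (ω + thR D) + u₁ * thR D * u₂ ^ 2) * hω2
      rw [this, ← Ideal.span_singleton_mul_span_singleton, ← Ideal.span_singleton_mul_span_singleton,
        h1, h2σ, show ρ * Ideal.absNorm P ^ 2 = ρ * (Ideal.absNorm P * Ideal.absNorm P) by ring,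
        hnat, hnat, ← hPP, ← hR2]
      ring)
    push_cast at this
    exact this
  · -- b ^ 2 g
    apply sgn_dvd2 _ _ _ _ hs₁
    have := coord_dvdR hQ (ρ * Ideal.absNorm A ^ 2) (x₂ * (x₁ ^ 2 - n0R D * u₁ ^ 2) -
        n0R D * u₂ * (2 * x₁ * u₁ + thR D * u₁ ^ 2))
      (x₁ ^ 2 * u₂ + 2 * x₁ * x₂ * u₁ + 2 * thR D * x₁ * u₁ * u₂ + thR D * x₂ * u₁ ^ 2 +
      thR D * u₁ ^ 2 * u₂ - n0R D * u₁ ^ 2 * u₂) (R * P ^ 5) (by
      have : (((x₂ * (x₁ ^ 2 - n0R D * u₁ ^ 2) -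
        n0R D * u₂ * (2 * x₁ * u₁ + thR D * u₁ ^ 2) : ℤ)) : 𝓞 K) +
          ((x₁ ^ 2 * u₂ + 2 * x₁ * x₂ * u₁ + 2 * thR D * x₁ * u₁ * u₂ + thR D * x₂ * u₁ ^ 2 +
      thR D * u₁ ^ 2 * u₂ - n0R D * u₁ ^ 2 * u₂ : ℤ) : 𝓞 K) * ω =
          ((((x₁ : ℤ) : 𝓞 K) + (u₁ : 𝓞 K) * ω) * (((x₁ : ℤ) : 𝓞 K) + (u₁ : 𝓞 K) * ω)) *
            (((x₂ : ℤ) : 𝓞 K) + (u₂ : 𝓞 K) * ω) := by
        push_cast
        linear_combination (-(x₂ : 𝓞 K) * u₁ ^ 2 - 2 * x₁ * u₁ * u₂ - thR D * u₁ ^ 2 * u₂ - u₁ ^ 2 * u₂ * ω) * hω2 - u₁ ^ 2 * u₂ * ω * hthsq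
      rw [this, ← Ideal.span_singleton_mul_span_singleton, ← Ideal.span_singleton_mul_span_singleton,
        h1, h2, show ρ * Ideal.absNorm A ^ 2 = ρ * (Ideal.absNorm A * Ideal.absNorm A) by ring,
        hnat, hnat, ← hAA, ← hR2]
      ring)
    push_cast at this
    exact this
  · rw [abs_mul, hs₂a, one_mul, Nat.abs_cast, hPfR, map_mul, hRn]
    push_cast
    rfl
  · rw [abs_mul, hs₁a, one_mul, Nat.abs_cast, hAfR, map_mul, hRn]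
    push_cast
    rfl
  · unfold IDT
    dsimp only
    have e : Ideal.span {((s₁ * (Ideal.absNorm A : ℤ) : ℤ) : 𝓞 K)} =
        Ideal.span {((Ideal.absNorm A : ℕ) : 𝓞 K)} := by
      rcases hs₁ with rfl | rfl
      · rw [one_mul]
        push_cast
        rfl
      · rw [neg_one_mul]
        push_cast
        rw [Ideal.span_singleton_neg]
    rw [e, ← Ideal.span_singleton_mul_span_singleton, ← Ideal.span_singleton_mul_span_singleton, sq,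
      ← Ideal.span_singleton_mul_span_singleton, h1, h2, ← hAA, ← hR2, hPfR]
    ring

end Pool.Agent.T2h80.R5
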