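import Pool.Agent.T2h80.R5.Stm

set_option autoImplicit false

namespace Pool.Agent.T2h80.R5

open Finset Pool.Agent.T2h80.F5

namespace NUB1aux

open Real

lemma two_le_exp : (2 : ℝ) ≤ exp 1 := by
  have := Real.add_one_le_exp (1 : ℝ); linarith

lemma one_add (X a : ℝ) (h : X ≤ exp a) : ∃ b : ℝ, (b = 0 ∨ b = a) ∧ 1 + X ≤ exp (1 + b) := by
  rcases le_total a 0 with h0 | h0
  · refine ⟨0, Or.inl rfl, ?_⟩
    have h1 : exp a ≤ 1 := by simpa using h0
    have := two_le_exp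
    simp only [add_zero]; linarith
  · refine ⟨a, Or.inr rfl, ?_⟩
    have h1 : 1 ≤ exp a := by simpa using h0
    have h2 := two_le_exp
    rw [exp_add]; nlinarith

lemma add2 (a b c : ℝ) (h1 : a ≤ c) (h2 : b ≤ c) : exp a + exp b ≤ exp (1 + c) := by
  have h3 := exp_le_exp.mpr h1
  have h4 := exp_le_exp.mpr h2
  have h5 := two_le_exp
  have h6 := exp_pos c
  rw [exp_add]; nlinarith

lemma add2' (X Y c : ℝ) (h1 : X ≤ exp c) (h2 : Y ≤ exp c) : X + Y ≤ exp (1 + c) := by
  have h5 := two_le_exp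
  have h6 := exp_pos c
  rw [exp_add]; nlinarith

lemma sq_exp (a : ℝ) : Real.sqrt (exp a) = exp (a / 2) := by
  rw [Real.sqrt_eq_iff_eq_sq (exp_pos _).le (exp_pos _).le, ← exp_nat_mul]
  congr 1; push_cast; ring

lemma mono_exp (X : ℝ) (a b : ℝ) (h : X = exp a) (h' : a ≤ b) : X ≤ exp b :=
  h ▸ exp_le_exp.mpr h'



lemma add_le (X Y a b : ℝ) (hX : X ≤ exp a) (hY : Y ≤ exp b) :
    ∃ q : ℝ, (q = a ∨ q = b) ∧ X + Y ≤ exp (1 + q) := by
  rcases le_total a b with h | h
  · exact ⟨b, Or.inr rfl, add2' X Y b (hX.trans (exp_le_exp.mpr h)) hY⟩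
  · exact ⟨a, Or.inl rfl, add2' X Y a hX (hY.trans (exp_le_exp.mpr h))⟩

/-- the linear inequalities between the logarithms -/
def Lin (κ f y g v w r n m s t : ℝ) : Prop :=
  1 ≤ κ ∧ 2 * f ≤ κ + n ∧ n ≤ κ + 2 * y ∧ f + y ≤ κ + n ∧ r ≤ κ + 2 * f ∧
  r + g + v + n ≤ κ + 2 * f + y ∧ r + g + w + n ≤ κ + f + 2 * y ∧ f + w ≤ 1 + y + v ∧
  3 * κ + 2 * f ≤ r + m ∧ r + m ≤ 1 + 3 * κ + 2 * f ∧
  3 * κ + f + v ≤ r + s ∧ r + s ≤ 1 + 3 * κ + f + v ∧
  3 * κ + 2 * y + v ≤ r + f + t ∧ r + f + t ≤ 1 + 3 * κ + 2 * y + v ∧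
  0 ≤ g ∧ 0 ≤ v ∧ 0 ≤ w ∧ 0 ≤ r ∧ 0 ≤ n

section core

variable {κ f y g v w r n m s t : ℝ}

lemma lin1 (h : Lin κ f y g v w r n m s t)
    (a b c d : ℝ) (ha : a = 0 ∨ a = g + r + v + w + 2 * y - 3 * f + 5)
    (hb : b = 0 ∨ b = g + r + v + w - f + 5) (hc : c = 0 ∨ c = g + r + 2 * v - f + 5)
    (hd : d = 0 ∨ d = g + r + f + 2 * v - 2 * y + 5) :
    m - 3 * v - w + (s + t) / 2 + ((v + w) / 2 + (v + w + 2 * κ + 4 + (4 + a + b + c + d)) / 2) ≤
      100 * κ + 2 * y + n - r := by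
  obtain ⟨h0, h1, h2, h3, h4, h5, h6, h7, hm1, hm2, hs1, hs2, ht1, ht2, hg, hv, hw, hr, hn⟩ := h
  rcases ha with rfl | rfl <;> rcases hb with rfl | rfl <;> rcases hc with rfl | rfl <;>
    rcases hd with rfl | rfl <;> linarith

lemma lin2 (h : Lin κ f y g v w r n m s t)
    (a b c d q : ℝ) (ha : a = 0 ∨ a = g + r + v + w + 2 * y - 3 * f + 5)
    (hb : b = 0 ∨ b = g + r + v + w - f + 5) (hc : c = 0 ∨ c = g + r + 2 * v - f + 5)
    (hd : d = 0 ∨ d = g + r + f + 2 * v - 2 * y + 5)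
    (hq : q = 2 + a + d ∨ q = 2 + b + c) :
    m - 3 * v - w + (s + t) / 2 + ((2 * g + 3 * v + w - m) / 2 + (v + w) + (1 + q) / 2) ≤
      100 * κ + 2 * y + n - r := by
  obtain ⟨h0, h1, h2, h3, h4, h5, h6, h7, hm1, hm2, hs1, hs2, ht1, ht2, hg, hv, hw, hr, hn⟩ := h
  rcases hq with rfl | rfl
  · rcases ha with rfl | rfl <;> rcases hd with rfl | rfl <;> linarith
  · rcases hb with rfl | rfl <;> rcases hc with rfl | rfl <;> linarith

variable {ρ M G V W S T : ℕ}

theorem bb (h : Lin κ f y g v w r n m s t) (eρ : (ρ : ℝ) = exp r) (eM : (M : ℝ) = exp m)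
    (eG : (G : ℝ) = exp g) (eV : (V : ℝ) = exp v) (eW : (W : ℝ) = exp w) (eS : (S : ℝ) = exp s)
    (eT : (T : ℝ) = exp t) :
    BBx ρ M G V W S T ≤ 4 * exp (100 * κ + 2 * y + n - r) := by
  have h' := h
  obtain ⟨h0, h1, h2, h3, h4, h5, h6, h7, hm1, hm2, hs1, hs2, ht1, ht2, hg, hv, hw, hr, hn⟩ := h
  -- powers
  have pV2 : (V : ℝ) ^ 2 = exp (2 * v) := by rw [eV, ← exp_nat_mul]; norm_num
  have pV3 : (V : ℝ) ^ 3 = exp (3 * v) := by rw [eV, ← exp_nat_mul]; norm_num
  have pW2 : (W : ℝ) ^ 2 = exp (2 * w) := by rw [eW, ← exp_nat_mul]; norm_num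
  have pW3 : (W : ℝ) ^ 3 = exp (3 * w) := by rw [eW, ← exp_nat_mul]; norm_num
  have pG2 : (G : ℝ) ^ 2 = exp (2 * g) := by rw [eG, ← exp_nat_mul]; norm_num
  have hK : rK ρ M G W S T ≤ exp (g + r + v + w + 2 * y - 3 * f + 5) := by
    have e : rK ρ M G W S T = exp (g + (r + w + t - m)) + exp (g + (3 * w - s)) := by
      unfold rK
      rw [pW3, eρ, eW, eT, eM, eG, eS]
      simp only [exp_add, exp_sub]
      ring
    rw [e]
    refine (add2 _ _ (g + r + v + w + 2 * y - 3 * f + 4) (by linarith) (by linarith)).trans ?_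
    exact exp_le_exp.mpr (by linarith)
  have hL : rL ρ M G V W S T ≤ exp (g + r + v + w - f + 5) := by
    have e : rL ρ M G V W S T = exp (g + (r + w + s - m)) + exp (g + (2 * v + w - s)) +
        exp (g + (3 * w - t)) := by
      unfold rL
      rw [pW3, pV2, eρ, eW, eT, eM, eG, eS]
      simp only [exp_add, exp_sub]
      ring
    rw [e]
    refine (add2' _ _ (1 + (g + r + v + w - f + 3)) (add2 _ _ _ (by linarith) (by linarith))
      (exp_le_exp.mpr (by linarith))).trans ?_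
    exact exp_le_exp.mpr (by linarith)
  have hJ : rJ ρ M G V W S T ≤ exp (g + r + 2 * v - f + 5) := by
    have e : rJ ρ M G V W S T = exp (g + (r + v + s - m)) + exp (g + (3 * v - s)) +
        exp (g + (2 * w + v - t)) := by
      unfold rJ
      rw [pW2, pV3, eρ, eT, eM, eG, eS, eV]
      simp only [exp_add, exp_sub]
      ring
    rw [e]
    refine (add2' _ _ (1 + (g + r + 2 * v - f + 3)) (add2 _ _ _ (by linarith) (by linarith))
      (exp_le_exp.mpr (by linarith))).trans ?_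
    exact exp_le_exp.mpr (by linarith)
  have hR : rR G V T ≤ exp (g + r + f + 2 * v - 2 * y + 5) := by
    have e : rR G V T = exp (g + (3 * v - t)) := by
      unfold rR
      rw [pV3, eT, eG]
      simp only [exp_add, exp_sub]
      ring
    rw [e]
    exact exp_le_exp.mpr (by linarith)
  have eH : (G : ℝ) * rH M G V W = exp (2 * g + 3 * v + w - m) := by
    unfold rH
    have : (G : ℝ) * (G * V ^ 3 * W / M) = G ^ 2 * V ^ 3 * W / M := by ring
    rw [this, pG2, pV3, eW, eM]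
    simp only [exp_add, exp_sub]
  obtain ⟨a, ha, hKa⟩ := one_add _ _ hK
  obtain ⟨b, hb, hLb⟩ := one_add _ _ hL
  obtain ⟨c, hc, hJc⟩ := one_add _ _ hJ
  obtain ⟨d, hd, hRd⟩ := one_add _ _ hR
  have nn : ∀ n : ℕ, (0 : ℝ) ≤ n := fun n => Nat.cast_nonneg n
  have pK : 0 ≤ rK ρ M G W S T := by unfold rK; positivity
  have pL : 0 ≤ rL ρ M G V W S T := by unfold rL; positivity
  have pJ : 0 ≤ rJ ρ M G V W S T := by unfold rJ; positivity
  have pR : 0 ≤ rR G V T := by unfold rR; positivity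
  have hP : (1 + rK ρ M G W S T) * (1 + rL ρ M G V W S T) * (1 + rJ ρ M G V W S T) *
      (1 + rR G V T) ≤ exp (4 + a + b + c + d) := by
    calc _ ≤ exp (1 + a) * exp (1 + b) * exp (1 + c) * exp (1 + d) := by gcongr
      _ = _ := by rw [← exp_add, ← exp_add, ← exp_add]; congr 1; ring
  have hQ1 : (1 + rK ρ M G W S T) * (1 + rR G V T) ≤ exp (2 + a + d) := by
    calc _ ≤ exp (1 + a) * exp (1 + d) := by gcongr
      _ = _ := by rw [← exp_add]; congr 1; ring
  have hQ2 : (1 + rL ρ M G V W S T) * (1 + rJ ρ M G V W S T) ≤ exp (2 + b + c) := by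
    calc _ ≤ exp (1 + b) * exp (1 + c) := by gcongr
      _ = _ := by rw [← exp_add]; congr 1; ring
  obtain ⟨q, hq, hQ⟩ := add_le _ _ _ _ hQ1 hQ2
  have hVW : (V : ℝ) * W + G * rH M G V W * ρ ≤ exp (v + w + 2 * κ + 4) := by
    have e1 : (V : ℝ) * W = exp (v + w) := by rw [eV, eW, exp_add]
    have e2 : (G : ℝ) * rH M G V W * ρ = exp (2 * g + 3 * v + w - m + r) := by
      rw [eH, eρ, ← exp_add]
    rw [e1, e2]
    refine (add2 _ _ (v + w + 2 * κ + 3) (by linarith) (by linarith)).trans ?_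
    exact exp_le_exp.mpr (by linarith)
  have eST : Real.sqrt ((S : ℝ) * T) = exp ((s + t) / 2) := by
    rw [eS, eT, ← exp_add, sq_exp]
  have eVW : Real.sqrt ((V : ℝ) * W) = exp ((v + w) / 2) := by
    rw [eV, eW, ← exp_add, sq_exp]
  have eMV : (M : ℝ) / (V ^ 3 * W) = exp (m - 3 * v - w) := by
    rw [eM, pV3, eW, ← exp_add, ← exp_sub]; congr 1; ring
  -- first root
  have hr1 : Real.sqrt (((V : ℝ) * W + G * rH M G V W * ρ) *
      ((1 + rK ρ M G W S T) * (1 + rL ρ M G V W S T) * (1 + rJ ρ M G V W S T) * (1 + rR G V T))) ≤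
      exp ((v + w + 2 * κ + 4 + (4 + a + b + c + d)) / 2) := by
    rw [← sq_exp]
    apply Real.sqrt_le_sqrt
    rw [exp_add]
    have : 0 ≤ (1 + rK ρ M G W S T) * (1 + rL ρ M G V W S T) * (1 + rJ ρ M G V W S T) *
      (1 + rR G V T) := by positivity
    exact mul_le_mul hVW hP this (exp_pos _).le
  have hr2 : Real.sqrt ((1 + rK ρ M G W S T) * (1 + rR G V T) +
        (1 + rL ρ M G V W S T) * (1 + rJ ρ M G V W S T)) ≤ exp ((1 + q) / 2) := by
    rw [← sq_exp]
    exact Real.sqrt_le_sqrt hQ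
  have eGH : Real.sqrt ((G : ℝ) * rH M G V W) = exp ((2 * g + 3 * v + w - m) / 2) := by
    rw [eH, sq_exp]
  set E := exp (100 * κ + 2 * y + n - r) with hE
  have t1 : (M : ℝ) * S * T / V ^ 2 ≤ E := by
    have e : (M : ℝ) * S * T / V ^ 2 = exp (m + s + t - 2 * v) := by
      rw [pV2, eM, eS, eT]; simp only [exp_add, exp_sub]
    exact mono_exp _ _ _ e (by linarith)
  have t2 : (G : ℝ) ^ 2 * V * W * Real.sqrt ((S : ℝ) * T) ≤ E := by
    have e : (G : ℝ) ^ 2 * V * W * Real.sqrt ((S : ℝ) * T) =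
        exp (2 * g + v + w + (s + t) / 2) := by
      rw [pG2, eST, eV, eW]; simp only [exp_add]
    exact mono_exp _ _ _ e (by linarith)
  have t3 : (M : ℝ) / (V ^ 3 * W) * Real.sqrt ((S : ℝ) * T) * (Real.sqrt ((V : ℝ) * W) *
      Real.sqrt (((V : ℝ) * W + G * rH M G V W * ρ) *
      ((1 + rK ρ M G W S T) * (1 + rL ρ M G V W S T) * (1 + rJ ρ M G V W S T) *
        (1 + rR G V T)))) ≤ E := by
    rw [eMV, eST, eVW]
    calc _ ≤ exp (m - 3 * v - w) * exp ((s + t) / 2) * (exp ((v + w) / 2) *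
          exp ((v + w + 2 * κ + 4 + (4 + a + b + c + d)) / 2)) := by gcongr
      _ = exp (m - 3 * v - w + (s + t) / 2 + ((v + w) / 2 +
          (v + w + 2 * κ + 4 + (4 + a + b + c + d)) / 2)) := by
          rw [← exp_add, ← exp_add, ← exp_add]
      _ ≤ E := exp_le_exp.mpr (lin1 h' a b c d ha hb hc hd)
  have t4 : (M : ℝ) / (V ^ 3 * W) * Real.sqrt ((S : ℝ) * T) *
      (Real.sqrt ((G : ℝ) * rH M G V W) * (V * W) *
      Real.sqrt ((1 + rK ρ M G W S T) * (1 + rR G V T) +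
        (1 + rL ρ M G V W S T) * (1 + rJ ρ M G V W S T))) ≤ E := by
    have e1 : (V : ℝ) * W = exp (v + w) := by rw [eV, eW, exp_add]
    rw [eMV, eST, eGH, e1]
    calc _ ≤ exp (m - 3 * v - w) * exp ((s + t) / 2) * (exp ((2 * g + 3 * v + w - m) / 2) *
          exp (v + w) * exp ((1 + q) / 2)) := by gcongr
      _ = exp (m - 3 * v - w + (s + t) / 2 + ((2 * g + 3 * v + w - m) / 2 + (v + w) +
          (1 + q) / 2)) := by
          rw [← exp_add, ← exp_add, ← exp_add, ← exp_add]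
      _ ≤ E := exp_le_exp.mpr (lin2 h' a b c d q ha hb hc hd hq)
  unfold BBx
  rw [mul_add]
  linarith

end core

end NUB1aux

open NUB1aux

theorem t_NUB1 : S_NUB1 := by
  have hkap : 0 < kap := by unfold kap; positivity
  refine ⟨4 * Real.exp (100 * Real.log kap), by positivity, ?_⟩
  intro N F Y ρ M G V W S T hP hρ hG hV hW a4 a5 a6 a7 m1 m2 s1 s2 t1 t2
  obtain ⟨hN, hF, hY, a1, a2, a3⟩ := hP
  have hk1 : 1 ≤ Real.log kap := by
    rw [Real.le_log_iff_exp_le hkap]
    have := Real.exp_one_lt_d9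
    unfold kap
    norm_num at this ⊢
    linarith
  have hn1 : 1 ≤ Real.sqrt N := by
    rw [Real.one_le_sqrt]; exact_mod_cast hN
  have hn0 : 0 < Real.sqrt N := by linarith
  have hρ' : (1 : ℝ) ≤ ρ := by exact_mod_cast hρ
  have hG' : (1 : ℝ) ≤ G := by exact_mod_cast hG
  have hV' : (1 : ℝ) ≤ V := by exact_mod_cast hV
  have hW' : (1 : ℝ) ≤ W := by exact_mod_cast hW
  have pρ : (0 : ℝ) < ρ := by linarith
  have pG : (0 : ℝ) < G := by linarith
  have pV : (0 : ℝ) < V := by linarith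
  have pW : (0 : ℝ) < W := by linarith
  have pM : (0 : ℝ) < M := by
    have : 0 < (ρ : ℝ) * M := lt_of_lt_of_le (by positivity) m1
    exact (mul_pos_iff_of_pos_left pρ).mp this
  have pS : (0 : ℝ) < S := by
    have : 0 < (ρ : ℝ) * S := lt_of_lt_of_le (by positivity) s1
    exact (mul_pos_iff_of_pos_left pρ).mp this
  have pT : (0 : ℝ) < T := by
    have : 0 < (ρ : ℝ) * F * T := lt_of_lt_of_le (by positivity) t1
    exact (mul_pos_iff_of_pos_left (by positivity)).mp this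
  have nk := hkap.ne'
  have nF := hF.ne'
  have nY := hY.ne'
  have nρ := pρ.ne'
  have nG := pG.ne'
  have nV := pV.ne'
  have nW := pW.ne'
  have nM := pM.ne'
  have nS := pS.ne'
  have nT := pT.ne'
  have nn := hn0.ne'
  set n := Real.sqrt N with hndef
  have l1 := Real.log_le_log (by positivity) a1
  have l2 := Real.log_le_log (by positivity) a2
  have l3 := Real.log_le_log (by positivity) a3
  have l4 := Real.log_le_log (by positivity) a4
  have l5 := Real.log_le_log (by positivity) a5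
  have l6 := Real.log_le_log (by positivity) a6
  have l7 := Real.log_le_log (by positivity) a7
  have l8 := Real.log_le_log (by positivity) m1
  have l9 := Real.log_le_log (by positivity) m2
  have l10 := Real.log_le_log (by positivity) s1
  have l11 := Real.log_le_log (by positivity) s2
  have l12 := Real.log_le_log (by positivity) t1
  have l13 := Real.log_le_log (by positivity) t2
  have n2 : (2 : ℝ) ≠ 0 := two_ne_zero
  simp only [Real.log_mul, Real.log_pow, ne_eq, mul_eq_zero, pow_eq_zero_iff, nk, nF, nY, nρ, nG, nV, nW,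
    nM, nS, nT, nn, not_false_iff, or_self, OfNat.ofNat_ne_zero, n2, Nat.cast_ofNat] at l1 l2 l3 l4 l5 l6 l7 l8 l9 l10 l11 l12 l13
  have hl2 : Real.log 2 ≤ 1 := by
    have := Real.log_two_lt_d9; linarith
  have hl2' : 0 ≤ Real.log 2 := Real.log_nonneg (by norm_num)
  have key := @bb (Real.log kap) (Real.log F) (Real.log Y) (Real.log G) (Real.log V) (Real.log W)
    (Real.log ρ) (Real.log n) (Real.log M) (Real.log S) (Real.log T) ρ M G V W S T
    ⟨hk1, by linarith, by linarith, by linarith, by linarith, by linarith, by linarith,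
      by linarith, by linarith, by linarith, by linarith, by linarith, by linarith, by linarith,
      Real.log_nonneg hG', Real.log_nonneg hV', Real.log_nonneg hW', Real.log_nonneg hρ',
      Real.log_nonneg hn1⟩ (Real.exp_log pρ).symm (Real.exp_log pM).symm (Real.exp_log pG).symm
    (Real.exp_log pV).symm (Real.exp_log pW).symm (Real.exp_log pS).symm (Real.exp_log pT).symm
  refine key.trans (le_of_eq ?_)
  rw [Real.exp_sub, Real.exp_add, Real.exp_add, Real.exp_log pρ, Real.exp_log hn0]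
  have e : Real.exp (2 * Real.log Y) = Y ^ 2 := by
    rw [← Real.exp_log hY, ← Real.exp_nat_mul, Real.exp_log hY]; norm_num
  rw [e]
  ring

end Pool.Agent.T2h80.R5
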