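import Pool.Agent.T2h80.R5.Stm

set_option autoImplicit false

namespace Pool.Agent.T2h80.R5

open Finset

namespace NUB2aux

variable {k r F Y n G V W M S T : ℝ}

/-- the hypotheses -/
structure HH (k r F Y n G V W : ℝ) : Prop where
  hk : 1 ≤ k
  hr : 1 ≤ r
  hF : 0 < F
  hY : 0 < Y
  hn : 1 ≤ n
  hG : 1 ≤ G
  hV : 1 ≤ V
  hW : 1 ≤ W
  a1 : F ^ 2 ≤ k * n
  a2 : n ≤ k * Y ^ 2
  a3 : F * Y ≤ k * n
  b0 : r ≤ k * F ^ 2
  c1 : r * (G * V) * n ≤ k * (F ^ 2 * Y)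
  c2 : r * (G * W) * n ≤ k * (F * Y ^ 2)
  d0 : Y * V ≤ 2 * (F * W)

lemma HH.FY (h : HH k r F Y n G V W) : F ≤ k ^ 2 * Y := by
  obtain ⟨hk, hr, hF, hY, hn, hG, hV, hW, a1, a2, a3, b0, c1, c2, d0⟩ := h
  have : F * Y ≤ (k ^ 2 * Y) * Y := by
    calc F * Y ≤ k * n := a3
      _ ≤ k * (k * Y ^ 2) := by gcongr
      _ = (k ^ 2 * Y) * Y := by ring
  exact le_of_mul_le_mul_right this hY

lemma HH.F1 (h : HH k r F Y n G V W) : 1 ≤ k * F := by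
  obtain ⟨hk, hr, hF, hY, hn, hG, hV, hW, a1, a2, a3, b0, c1, c2, d0⟩ := h
  have h0 : 0 ≤ k := by linarith
  have : 1 ≤ (k * F) ^ 2 := by
    calc (1 : ℝ) ≤ k * F ^ 2 := by linarith
      _ ≤ k * (k * F ^ 2) := by
          apply mul_le_mul_of_nonneg_left _ h0
          nlinarith [sq_nonneg F]
      _ = (k * F) ^ 2 := by ring
  have hkF : 0 ≤ k * F := by positivity
  nlinarith

lemma HH.Yn (h : HH k r F Y n G V W) : Y ≤ k ^ 2 * n := by
  have h1 := h.F1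
  obtain ⟨hk, hr, hF, hY, hn, hG, hV, hW, a1, a2, a3, b0, c1, c2, d0⟩ := h
  calc Y = 1 * Y := by ring
    _ ≤ (k * F) * Y := by gcongr
    _ = k * (F * Y) := by ring
    _ ≤ k * (k * n) := by gcongr
    _ = k ^ 2 * n := by ring

/-- `a = r G W` -/
lemma HH.aY (h : HH k r F Y n G V W) : r * G * W ≤ k ^ 2 * Y := by
  obtain ⟨hk, hr, hF, hY, hn, hG, hV, hW, a1, a2, a3, b0, c1, c2, d0⟩ := h
  have : (r * G * W) * n ≤ (k ^ 2 * Y) * n := by
    calc (r * G * W) * n = r * (G * W) * n := by ring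
      _ ≤ k * (F * Y ^ 2) := c2
      _ = k * Y * (F * Y) := by ring
      _ ≤ k * Y * (k * n) := by gcongr
      _ = (k ^ 2 * Y) * n := by ring
  exact le_of_mul_le_mul_right this (by linarith)

lemma HH.a (h : HH k r F Y n G V W) : r * G * W ≤ k * (F * Y ^ 2) / n := by
  have hn : 0 < n := by linarith [h.hn]
  rw [le_div_iff₀ hn]
  have := h.c2
  linarith

lemma HH.b (h : HH k r F Y n G V W) : r * G * V ≤ k * (F ^ 2 * Y) / n := by
  have hn : 0 < n := by linarith [h.hn]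
  rw [le_div_iff₀ hn]
  have := h.c1
  linarith

lemma HH.p (h : HH k r F Y n G V W) : 0 < k ∧ 0 < r ∧ 0 < n ∧ 0 < G ∧ 0 < V ∧ 0 < W :=
  ⟨by linarith [h.hk], by linarith [h.hr], by linarith [h.hn], by linarith [h.hG],
    by linarith [h.hV], by linarith [h.hW]⟩

lemma HH.E5 (h : HH k r F Y n G V W) : r * G * V * Y ≤ k ^ 3 * n := by
  obtain ⟨kp, rp, np, Gp, Vp, Wp⟩ := h.p
  have hF := h.hF
  have hY := h.hY
  have a3 := h.a3
  calc r * G * V * Y ≤ (k * (F ^ 2 * Y) / n) * Y := by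
        have := h.b
        gcongr
    _ = k * (F * Y) ^ 2 / n := by ring
    _ ≤ k * (k * n) ^ 2 / n := by gcongr
    _ = k ^ 3 * n := by field_simp

lemma HH.E3 (h : HH k r F Y n G V W) :
    (r * G * W) * (r * G * V) * F ^ 2 ≤ k ^ 5 * n * Y ^ 2 := by
  obtain ⟨kp, rp, np, Gp, Vp, Wp⟩ := h.p
  have hF := h.hF
  have hY := h.hY
  have a3 := h.a3
  have a1 := h.a1
  calc (r * G * W) * (r * G * V) * F ^ 2 ≤ (k * (F * Y ^ 2) / n) * (k * (F ^ 2 * Y) / n) * F ^ 2 := by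
        have := h.a
        have := h.b
        gcongr
    _ = k ^ 2 * (F ^ 2) ^ 2 * (F * Y) * Y ^ 2 / n ^ 2 := by ring
    _ ≤ k ^ 2 * (k * n) ^ 2 * (k * n) * Y ^ 2 / n ^ 2 := by gcongr
    _ = k ^ 5 * n * Y ^ 2 := by field_simp

lemma HH.E1 (h : HH k r F Y n G V W) :
    (r * G * W) ^ 3 * (r * G * V) ≤ k ^ 11 * n ^ 2 * Y := by
  obtain ⟨kp, rp, np, Gp, Vp, Wp⟩ := h.p
  have hF := h.hF
  have hY := h.hY
  have a3 := h.a3
  have Yn := h.Yn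
  calc (r * G * W) ^ 3 * (r * G * V) ≤ (k * (F * Y ^ 2) / n) ^ 3 * (k * (F ^ 2 * Y) / n) := by
        have := h.a
        have := h.b
        gcongr
    _ = k ^ 4 * (F * Y) ^ 5 * Y * Y / n ^ 4 := by ring
    _ ≤ k ^ 4 * (k * n) ^ 5 * (k ^ 2 * n) * Y / n ^ 4 := by gcongr
    _ = k ^ 11 * n ^ 2 * Y := by field_simp

lemma HH.E2 (h : HH k r F Y n G V W) :
    (r * G * W) ^ 4 * (r * G * V) ^ 2 * F ^ 2 ≤ k ^ 18 * n ^ 2 * Y ^ 4 := by
  obtain ⟨kp, rp, np, Gp, Vp, Wp⟩ := h.p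
  have hF := h.hF
  have hY := h.hY
  have a3 := h.a3
  have a2 := h.a2
  calc (r * G * W) ^ 4 * (r * G * V) ^ 2 * F ^ 2
      ≤ (k * (F * Y ^ 2) / n) ^ 4 * (k * (F ^ 2 * Y) / n) ^ 2 * F ^ 2 := by
        have := h.a
        have := h.b
        gcongr
    _ = k ^ 6 * (F * Y) ^ 10 / n ^ 6 := by ring
    _ ≤ k ^ 6 * (k * n) ^ 10 / n ^ 6 := by gcongr
    _ = k ^ 16 * n ^ 2 * n ^ 2 := by field_simp
    _ ≤ k ^ 16 * n ^ 2 * (k * Y ^ 2) ^ 2 := by gcongr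
    _ = k ^ 18 * n ^ 2 * Y ^ 4 := by ring

lemma HH.E6 (h : HH k r F Y n G V W) :
    (r * G * W) ^ 2 * (r * G * V) * F ≤ k ^ 9 * n * Y ^ 2 := by
  obtain ⟨kp, rp, np, Gp, Vp, Wp⟩ := h.p
  have hF := h.hF
  have hY := h.hY
  have a3 := h.a3
  have a2 := h.a2
  calc (r * G * W) ^ 2 * (r * G * V) * F
      ≤ (k * (F * Y ^ 2) / n) ^ 2 * (k * (F ^ 2 * Y) / n) * F := by
        have := h.a
        have := h.b
        gcongr
    _ = k ^ 3 * (F * Y) ^ 5 / n ^ 3 := by ring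
    _ ≤ k ^ 3 * (k * n) ^ 5 / n ^ 3 := by gcongr
    _ = k ^ 8 * n * n := by field_simp
    _ ≤ k ^ 8 * n * (k * Y ^ 2) := by gcongr
    _ = k ^ 9 * n * Y ^ 2 := by ring

/-- ordered products -/
lemma ord4 {q K L J R : ℝ} (hq : 1 ≤ q) (hK : 0 ≤ K) (hL : 0 ≤ L) (hJ : 0 ≤ J) (hR : 0 ≤ R)
    (h1 : K ≤ q * L) (h2 : L ≤ q * J) (h3 : J ≤ q * R) :
    (1 + K) * (1 + L) * (1 + J) * (1 + R) ≤
      24 * q ^ 6 * (1 + R + J * R + L * (J * R) + K * (L * (J * R))) := by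
  have q0 : 0 ≤ q := by linarith
  have s1 : (1 + J) * (1 + R) ≤ 2 * q * (1 + R + J * R) := by
    have : 0 ≤ J * R := by positivity
    nlinarith
  have s2 : (1 + L) * (1 + R + J * R) ≤ 3 * q ^ 2 * (1 + R + J * R + L * (J * R)) := by
    have e1 : L ≤ q ^ 2 * R := by
      calc L ≤ q * J := h2
        _ ≤ q * (q * R) := by gcongr
        _ = q ^ 2 * R := by ring
    have e2 : L * R ≤ q ^ 2 * (J * R) := by
      calc L * R ≤ q * J * R := by gcongr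
        _ = q * 1 * (J * R) := by ring
        _ ≤ q * q * (J * R) := by gcongr
        _ = q ^ 2 * (J * R) := by ring
    have e3 : 1 ≤ q ^ 2 := one_le_pow₀ hq
    have e4 : 0 ≤ L * (J * R) := by positivity
    have e5 : 0 ≤ J * R := by positivity
    have e6 := mul_le_mul_of_nonneg_right e3 hR
    have e7 := mul_le_mul_of_nonneg_right e3 e5
    have e8 := mul_le_mul_of_nonneg_right e3 e4
    nlinarith
  have s3 : (1 + K) * (1 + R + J * R + L * (J * R)) ≤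
      4 * q ^ 3 * (1 + R + J * R + L * (J * R) + K * (L * (J * R))) := by
    have e1 : K ≤ q ^ 3 * R := by
      calc K ≤ q * L := h1
        _ ≤ q * (q * (q * R)) := by
            apply mul_le_mul_of_nonneg_left _ q0
            exact h2.trans (mul_le_mul_of_nonneg_left h3 q0)
        _ = q ^ 3 * R := by ring
    have e2 : K * R ≤ q ^ 3 * (J * R) := by
      calc K * R ≤ (q * (q * J)) * R := by
            apply mul_le_mul_of_nonneg_right _ hR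
            exact h1.trans (mul_le_mul_of_nonneg_left h2 q0)
        _ = q ^ 2 * 1 * (J * R) := by ring
        _ ≤ q ^ 2 * q * (J * R) := by gcongr
        _ = q ^ 3 * (J * R) := by ring
    have e3' : K * (J * R) ≤ q ^ 3 * (L * (J * R)) := by
      calc K * (J * R) ≤ (q * L) * (J * R) := by gcongr
        _ = q * 1 * (L * (J * R)) := by ring
        _ ≤ q * q ^ 2 * (L * (J * R)) := by
            have : 1 ≤ q ^ 2 := one_le_pow₀ hq
            gcongr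
        _ = q ^ 3 * (L * (J * R)) := by ring
    have e3 : 1 ≤ q ^ 3 := one_le_pow₀ hq
    have e4 : 0 ≤ L * (J * R) := by positivity
    have e5 : 0 ≤ J * R := by positivity
    have e9 : 0 ≤ K * (L * (J * R)) := by positivity
    have e6 := mul_le_mul_of_nonneg_right e3 hR
    have e7 := mul_le_mul_of_nonneg_right e3 e5
    have e8 := mul_le_mul_of_nonneg_right e3 e4
    have e10 := mul_le_mul_of_nonneg_right e3 e9
    nlinarith
  calc (1 + K) * (1 + L) * (1 + J) * (1 + R) = (1 + K) * ((1 + L) * ((1 + J) * (1 + R))) := by ring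
    _ ≤ (1 + K) * ((1 + L) * (2 * q * (1 + R + J * R))) := by gcongr
    _ = 2 * q * ((1 + K) * ((1 + L) * (1 + R + J * R))) := by ring
    _ ≤ 2 * q * ((1 + K) * (3 * q ^ 2 * (1 + R + J * R + L * (J * R)))) := by gcongr
    _ = 6 * q ^ 3 * ((1 + K) * (1 + R + J * R + L * (J * R))) := by ring
    _ ≤ 6 * q ^ 3 * (4 * q ^ 3 * (1 + R + J * R + L * (J * R) + K * (L * (J * R)))) := by gcongr
    _ = _ := by ring

lemma ord2 {q K L J R : ℝ} (hq : 1 ≤ q) (hK : 0 ≤ K) (hL : 0 ≤ L) (hJ : 0 ≤ J) (hR : 0 ≤ R)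
    (h1 : K ≤ q * L) (h2 : L ≤ q * J) (h3 : J ≤ q * R) :
    (1 + K) * (1 + R) + (1 + L) * (1 + J) ≤
      4 * q ^ 3 * (1 + R + K * R + L * J) := by
  have q0 : 0 ≤ q := by linarith
  have e3 : 1 ≤ q ^ 3 := one_le_pow₀ hq
  have e0 : J ≤ q ^ 3 * R := by
    calc J ≤ q * R := h3
      _ = q * 1 * R := by ring
      _ ≤ q * q ^ 2 * R := by
          have : 1 ≤ q ^ 2 := one_le_pow₀ hq
          gcongr
      _ = q ^ 3 * R := by ring
  have e1 : L ≤ q ^ 3 * R := by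
    calc L ≤ q * (q * R) := h2.trans (mul_le_mul_of_nonneg_left h3 q0)
      _ = q ^ 2 * 1 * R := by ring
      _ ≤ q ^ 2 * q * R := by gcongr
      _ = q ^ 3 * R := by ring
  have e2 : K ≤ q ^ 3 * R := by
    calc K ≤ q * L := h1
      _ ≤ q * (q * (q * R)) := by
          apply mul_le_mul_of_nonneg_left _ q0
          exact h2.trans (mul_le_mul_of_nonneg_left h3 q0)
      _ = q ^ 3 * R := by ring
  have e5 : 0 ≤ K * R := by positivity
  have e4 : 0 ≤ L * J := by positivity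
  have e6 := mul_le_mul_of_nonneg_right e3 hR
  have e7 := mul_le_mul_of_nonneg_right e3 e5
  have e8 := mul_le_mul_of_nonneg_right e3 e4
  nlinarith

/-- the four sizes -/
noncomputable def K0 (r F Y G V W : ℝ) : ℝ := G * (r * V * W * F ^ 2 / Y ^ 3)
noncomputable def L0 (r Y G V W : ℝ) : ℝ := G * (r * V * W / Y)
noncomputable def J0 (r Y G W : ℝ) : ℝ := G * (r * W ^ 2 / Y)
noncomputable def R0 (r F Y G W : ℝ) : ℝ := G * (r * Y * W ^ 2 / F ^ 2)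

lemma HH.pos (h : HH k r F Y n G V W) : 0 < K0 r F Y G V W ∧ 0 < L0 r Y G V W ∧ 0 < J0 r Y G W ∧
    0 < R0 r F Y G W := by
  obtain ⟨kp, rp, np, Gp, Vp, Wp⟩ := h.p
  have hF := h.hF
  have hY := h.hY
  unfold K0 L0 J0 R0
  refine ⟨by positivity, by positivity, by positivity, by positivity⟩

lemma HH.ord (h : HH k r F Y n G V W) : K0 r F Y G V W ≤ 2 * k ^ 4 * L0 r Y G V W ∧
    L0 r Y G V W ≤ 2 * k ^ 4 * J0 r Y G W ∧ J0 r Y G W ≤ 2 * k ^ 4 * R0 r F Y G W := by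
  obtain ⟨kp, rp, np, Gp, Vp, Wp⟩ := h.p
  have hF := h.hF
  have hY := h.hY
  have hFY := h.FY
  have hk := h.hk
  have d0 := h.d0
  have hF2 : F ^ 2 ≤ k ^ 4 * Y ^ 2 := by
    calc F ^ 2 ≤ (k ^ 2 * Y) ^ 2 := by gcongr
      _ = k ^ 4 * Y ^ 2 := by ring
  have hVW : V ≤ 2 * k ^ 4 * W := by
    have : V * Y ≤ (2 * k ^ 4 * W) * Y := by
      calc V * Y = Y * V := by ring
        _ ≤ 2 * (F * W) := d0
        _ ≤ 2 * ((k ^ 2 * Y) * W) := by gcongr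
        _ = 2 * k ^ 2 * 1 * W * Y := by ring
        _ ≤ 2 * k ^ 2 * k ^ 2 * W * Y := by
            have : 1 ≤ k ^ 2 := one_le_pow₀ hk
            gcongr
        _ = (2 * k ^ 4 * W) * Y := by ring
    exact le_of_mul_le_mul_right this hY
  unfold K0 L0 J0 R0
  refine ⟨?_, ?_, ?_⟩
  · calc G * (r * V * W * F ^ 2 / Y ^ 3) ≤ G * (r * V * W * (k ^ 4 * Y ^ 2) / Y ^ 3) := by gcongr
      _ = 1 * k ^ 4 * (G * (r * V * W / Y)) := by field_simp
      _ ≤ 2 * k ^ 4 * (G * (r * V * W / Y)) := by gcongr; norm_num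
  · calc G * (r * V * W / Y) ≤ G * (r * (2 * k ^ 4 * W) * W / Y) := by gcongr
      _ = 2 * k ^ 4 * (G * (r * W ^ 2 / Y)) := by ring
  · have e : G * (r * W ^ 2 / Y) = (G * (r * W ^ 2 / Y) / F ^ 2) * F ^ 2 := by field_simp
    rw [e]
    calc (G * (r * W ^ 2 / Y) / F ^ 2) * F ^ 2 ≤ (G * (r * W ^ 2 / Y) / F ^ 2) * (k ^ 4 * Y ^ 2) := by
          gcongr
      _ = 1 * k ^ 4 * (G * (r * Y * W ^ 2 / F ^ 2)) := by field_simp
      _ ≤ 2 * k ^ 4 * (G * (r * Y * W ^ 2 / F ^ 2)) := by gcongr; norm_num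

lemma kpow (hk : 1 ≤ k) (i : ℕ) (hi : i ≤ 18) : k ^ i ≤ k ^ 18 := pow_le_pow_right₀ hk hi

lemma HH.T1 (h : HH k r F Y n G V W) : 1 ≤ k ^ 18 * (n * r * W / F) ^ 2 := by
  obtain ⟨kp, rp, np, Gp, Vp, Wp⟩ := h.p
  have hF := h.hF
  have h1 : F ^ 2 ≤ k ^ 18 * (n * r * W) ^ 2 := by
    calc F ^ 2 ≤ k * n := h.a1
      _ ≤ k ^ 18 * (n * r * W) ^ 2 := by
          have e1 : k ≤ k ^ 18 := by simpa using kpow h.hk 1 (by norm_num)
          have e2 : n ≤ (n * r * W) ^ 2 := by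
            have e3 : 1 ≤ r * W := one_le_mul_of_one_le_of_one_le h.hr h.hW
            have e4 : n ≤ n * r * W := by
              calc n = n * 1 := by ring
                _ ≤ n * (r * W) := by gcongr
                _ = n * r * W := by ring
            have e5 : 1 ≤ n * r * W := h.hn.trans e4
            nlinarith
          gcongr
  rw [div_pow, mul_div_assoc', le_div_iff₀ (by positivity)]
  linarith

lemma HH.T2 (h : HH k r F Y n G V W) : R0 r F Y G W ≤ k ^ 18 * (n * r * W / F) ^ 2 := by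
  obtain ⟨kp, rp, np, Gp, Vp, Wp⟩ := h.p
  have hF := h.hF
  have hY := h.hY
  have hV := h.hV
  have hr := h.hr
  have hn := h.hn
  have E5 := h.E5
  have h1 : G * Y ≤ k ^ 18 * (n ^ 2 * r) := by
    calc G * Y = 1 * G * 1 * Y := by ring
      _ ≤ r * G * V * Y := by gcongr
      _ ≤ k ^ 3 * n := E5
      _ = k ^ 3 * (n * 1 * 1) := by ring
      _ ≤ k ^ 18 * (n * n * r) := by
          have := kpow h.hk 3 (by norm_num)
          gcongr
      _ = k ^ 18 * (n ^ 2 * r) := by ring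
  unfold R0
  rw [mul_div_assoc', div_pow, mul_div_assoc']
  apply div_le_div_of_nonneg_right _ (by positivity)
  calc G * (r * Y * W ^ 2) = (G * Y) * (r * W ^ 2) := by ring
    _ ≤ (k ^ 18 * (n ^ 2 * r)) * (r * W ^ 2) := by gcongr
    _ = k ^ 18 * (n * r * W) ^ 2 := by ring

lemma HH.T3 (h : HH k r F Y n G V W) :
    J0 r Y G W * R0 r F Y G W ≤ k ^ 18 * (n * r * W / F) ^ 2 := by
  obtain ⟨kp, rp, np, Gp, Vp, Wp⟩ := h.p
  have hF := h.hF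
  have hY := h.hY
  have h1 : r * G * W ≤ k ^ 4 * n := by
    calc r * G * W ≤ k ^ 2 * Y := h.aY
      _ ≤ k ^ 2 * (k ^ 2 * n) := by
          have := h.Yn
          gcongr
      _ = k ^ 4 * n := by ring
  have e : J0 r Y G W * R0 r F Y G W = (r * G * W) ^ 2 * W ^ 2 / F ^ 2 := by
    unfold J0 R0
    field_simp
  have hr := h.hr
  have := kpow h.hk 8 (by norm_num)
  rw [e, div_pow, mul_div_assoc']
  apply div_le_div_of_nonneg_right _ (by positivity)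
  calc (r * G * W) ^ 2 * W ^ 2 ≤ (k ^ 4 * n) ^ 2 * W ^ 2 := by gcongr
    _ = k ^ 8 * (n ^ 2 * 1 ^ 2 * W ^ 2) := by ring
    _ ≤ k ^ 18 * (n ^ 2 * r ^ 2 * W ^ 2) := by gcongr
    _ = k ^ 18 * (n * r * W) ^ 2 := by ring

lemma HH.T4 (h : HH k r F Y n G V W) :
    L0 r Y G V W * (J0 r Y G W * R0 r F Y G W) ≤ k ^ 18 * (n * r * W / F) ^ 2 := by
  obtain ⟨kp, rp, np, Gp, Vp, Wp⟩ := h.p
  have hF := h.hF
  have hY := h.hY
  have hr := h.hr
  have hW := h.hW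
  have hG := h.hG
  have E1 := h.E1
  have e : L0 r Y G V W * (J0 r Y G W * R0 r F Y G W) =
      ((r * G * W) ^ 3 * (r * G * V)) * W ^ 2 / (r * G * Y) / F ^ 2 := by
    unfold L0 J0 R0
    field_simp
  have := kpow h.hk 11 (by norm_num)
  rw [e, div_pow, mul_div_assoc']
  apply div_le_div_of_nonneg_right _ (by positivity)
  rw [div_le_iff₀ (by positivity)]
  calc ((r * G * W) ^ 3 * (r * G * V)) * W ^ 2 ≤ (k ^ 11 * n ^ 2 * Y) * W ^ 2 := by gcongr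
    _ = k ^ 11 * (n ^ 2 * 1 ^ 2 * W ^ 2) * (1 * 1 * Y) := by ring
    _ ≤ k ^ 18 * (n ^ 2 * r ^ 2 * W ^ 2) * (r * G * Y) := by gcongr
    _ = k ^ 18 * (n * r * W) ^ 2 * (r * G * Y) := by ring

lemma HH.T5 (h : HH k r F Y n G V W) :
    K0 r F Y G V W * (L0 r Y G V W * (J0 r Y G W * R0 r F Y G W)) ≤
      k ^ 18 * (n * r * W / F) ^ 2 := by
  obtain ⟨kp, rp, np, Gp, Vp, Wp⟩ := h.p
  have hF := h.hF
  have hY := h.hY
  have hr := h.hr
  have hW := h.hW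
  have hG := h.hG
  have E2 := h.E2
  have e : K0 r F Y G V W * (L0 r Y G V W * (J0 r Y G W * R0 r F Y G W)) =
      ((r * G * W) ^ 4 * (r * G * V) ^ 2 * F ^ 2) * W ^ 2 / (r ^ 2 * G ^ 2 * Y ^ 4) / F ^ 2 := by
    unfold K0 L0 J0 R0
    field_simp
  rw [e, div_pow, mul_div_assoc']
  apply div_le_div_of_nonneg_right _ (by positivity)
  rw [div_le_iff₀ (by positivity)]
  calc ((r * G * W) ^ 4 * (r * G * V) ^ 2 * F ^ 2) * W ^ 2 ≤ (k ^ 18 * n ^ 2 * Y ^ 4) * W ^ 2 := by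
        gcongr
    _ = k ^ 18 * (n ^ 2 * 1 ^ 2 * W ^ 2) * (1 ^ 2 * 1 ^ 2 * Y ^ 4) := by ring
    _ ≤ k ^ 18 * (n ^ 2 * r ^ 2 * W ^ 2) * (r ^ 2 * G ^ 2 * Y ^ 4) := by gcongr
    _ = k ^ 18 * (n * r * W) ^ 2 * (r ^ 2 * G ^ 2 * Y ^ 4) := by ring

lemma HH.U1 (h : HH k r F Y n G V W) :
    G ^ 2 * W ^ 3 * V * r / Y ^ 2 ≤ k ^ 18 * (n * r * W / F) ^ 2 := by
  obtain ⟨kp, rp, np, Gp, Vp, Wp⟩ := h.p
  have hF := h.hF
  have hY := h.hY
  have hr := h.hr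
  have hW := h.hW
  have hG := h.hG
  have hn := h.hn
  have E3 := h.E3
  have := kpow h.hk 5 (by norm_num)
  rw [div_pow, mul_div_assoc', div_le_div_iff₀ (by positivity) (by positivity)]
  calc G ^ 2 * W ^ 3 * V * r * F ^ 2 = ((r * G * W) * (r * G * V) * F ^ 2) * W ^ 2 / r := by
        field_simp
    _ ≤ (k ^ 5 * n * Y ^ 2) * W ^ 2 / 1 := by gcongr
    _ = k ^ 5 * (n * 1 * 1 ^ 2 * W ^ 2) * Y ^ 2 := by ring
    _ ≤ k ^ 18 * (n * n * r ^ 2 * W ^ 2) * Y ^ 2 := by gcongr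
    _ = k ^ 18 * (n * r * W) ^ 2 * Y ^ 2 := by ring

lemma HH.U2 (h : HH k r F Y n G V W) :
    G ^ 2 * W ^ 3 * V * r / Y ^ 2 * R0 r F Y G W ≤ k ^ 18 * (n * r * W / F) ^ 2 := by
  obtain ⟨kp, rp, np, Gp, Vp, Wp⟩ := h.p
  have hF := h.hF
  have hY := h.hY
  have hr := h.hr
  have hW := h.hW
  have hG := h.hG
  have hn := h.hn
  have E1 := h.E1
  have := kpow h.hk 11 (by norm_num)
  have e : G ^ 2 * W ^ 3 * V * r / Y ^ 2 * R0 r F Y G W =
      ((r * G * W) ^ 3 * (r * G * V)) * W ^ 2 / (r ^ 2 * G * Y) / F ^ 2 := by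
    unfold R0
    field_simp
  rw [e, div_pow, mul_div_assoc']
  apply div_le_div_of_nonneg_right _ (by positivity)
  rw [div_le_iff₀ (by positivity)]
  calc ((r * G * W) ^ 3 * (r * G * V)) * W ^ 2 ≤ (k ^ 11 * n ^ 2 * Y) * W ^ 2 := by gcongr
    _ = k ^ 11 * (n ^ 2 * 1 ^ 2 * W ^ 2) * (1 ^ 2 * 1 * Y) := by ring
    _ ≤ k ^ 18 * (n ^ 2 * r ^ 2 * W ^ 2) * (r ^ 2 * G * Y) := by gcongr
    _ = k ^ 18 * (n * r * W) ^ 2 * (r ^ 2 * G * Y) := by ring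

lemma HH.U3 (h : HH k r F Y n G V W) :
    G ^ 2 * W ^ 3 * V * r / Y ^ 2 * (K0 r F Y G V W * R0 r F Y G W) ≤
      k ^ 18 * (n * r * W / F) ^ 2 := by
  obtain ⟨kp, rp, np, Gp, Vp, Wp⟩ := h.p
  have hF := h.hF
  have hY := h.hY
  have hr := h.hr
  have hW := h.hW
  have hG := h.hG
  have E2 := h.E2
  have e : G ^ 2 * W ^ 3 * V * r / Y ^ 2 * (K0 r F Y G V W * R0 r F Y G W) =
      ((r * G * W) ^ 4 * (r * G * V) ^ 2 * F ^ 2) * W ^ 2 / (r ^ 3 * G ^ 2 * Y ^ 4) / F ^ 2 := by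
    unfold K0 R0
    field_simp
  rw [e, div_pow, mul_div_assoc']
  apply div_le_div_of_nonneg_right _ (by positivity)
  rw [div_le_iff₀ (by positivity)]
  calc ((r * G * W) ^ 4 * (r * G * V) ^ 2 * F ^ 2) * W ^ 2 ≤ (k ^ 18 * n ^ 2 * Y ^ 4) * W ^ 2 := by
        gcongr
    _ = k ^ 18 * (n ^ 2 * 1 ^ 2 * W ^ 2) * (1 ^ 3 * 1 ^ 2 * Y ^ 4) := by ring
    _ ≤ k ^ 18 * (n ^ 2 * r ^ 2 * W ^ 2) * (r ^ 3 * G ^ 2 * Y ^ 4) := by gcongr
    _ = k ^ 18 * (n * r * W) ^ 2 * (r ^ 3 * G ^ 2 * Y ^ 4) := by ring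

lemma HH.U4 (h : HH k r F Y n G V W) :
    G ^ 2 * W ^ 3 * V * r / Y ^ 2 * (L0 r Y G V W * J0 r Y G W) ≤
      k ^ 18 * (n * r * W / F) ^ 2 := by
  have e : L0 r Y G V W * J0 r Y G W = K0 r F Y G V W * R0 r F Y G W := by
    obtain ⟨kp, rp, np, Gp, Vp, Wp⟩ := h.p
    have hF := h.hF
    have hY := h.hY
    unfold K0 L0 J0 R0
    field_simp
  rw [e]
  exact h.U3

/-- the sizes of `M, S, T` -/
structure MST (k r F Y W M S T : ℝ) : Prop where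
  m1 : k ^ 3 * Y ^ 2 ≤ r * M
  m2 : r * M ≤ 2 * (k ^ 3 * Y ^ 2)
  s1 : k ^ 3 * (F ^ 2 * W) ≤ r * Y * S
  s2 : r * Y * S ≤ 2 * (k ^ 3 * (F ^ 2 * W))
  t1 : k ^ 3 * (Y * W) ≤ r * T
  t2 : r * T ≤ 2 * (k ^ 3 * (Y * W))

lemma MST.p (h : HH k r F Y n G V W) (g : MST k r F Y W M S T) : 0 < M ∧ 0 < S ∧ 0 < T := by
  obtain ⟨kp, rp, np, Gp, Vp, Wp⟩ := h.p
  have hF := h.hF
  have hY := h.hY
  refine ⟨?_, ?_, ?_⟩
  · have : 0 < r * M := lt_of_lt_of_le (by positivity) g.m1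
    exact (pos_iff_pos_of_mul_pos this).1 rp
  · have : 0 < r * Y * S := lt_of_lt_of_le (by positivity) g.s1
    exact (pos_iff_pos_of_mul_pos this).1 (by positivity)
  · have : 0 < r * T := lt_of_lt_of_le (by positivity) g.t1
    exact (pos_iff_pos_of_mul_pos this).1 rp

lemma MST.inv (h : HH k r F Y n G V W) (g : MST k r F Y W M S T) :
    1 / M ≤ r / Y ^ 2 ∧ 1 / S ≤ r * Y / (F ^ 2 * W) ∧ 1 / T ≤ r / (Y * W) := by
  obtain ⟨kp, rp, np, Gp, Vp, Wp⟩ := h.p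
  obtain ⟨Mp, Sp, Tp⟩ := g.p h
  have hF := h.hF
  have hY := h.hY
  have k3 : 1 ≤ k ^ 3 := one_le_pow₀ h.hk
  refine ⟨?_, ?_, ?_⟩
  · rw [div_le_div_iff₀ Mp (by positivity)]
    have := mul_le_mul_of_nonneg_right k3 (show 0 ≤ Y ^ 2 by positivity)
    have := g.m1
    linarith
  · rw [div_le_div_iff₀ Sp (by positivity)]
    have := mul_le_mul_of_nonneg_right k3 (show 0 ≤ F ^ 2 * W by positivity)
    have := g.s1
    linarith
  · rw [div_le_div_iff₀ Tp (by positivity)]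
    have := mul_le_mul_of_nonneg_right k3 (show 0 ≤ Y * W by positivity)
    have := g.t1
    linarith

lemma MST.up (h : HH k r F Y n G V W) (g : MST k r F Y W M S T) :
    M ≤ 2 * k ^ 3 * (Y ^ 2 / r) ∧ S ≤ 2 * k ^ 3 * (F ^ 2 * W / (r * Y)) ∧
      T ≤ 2 * k ^ 3 * (Y * W / r) := by
  obtain ⟨kp, rp, np, Gp, Vp, Wp⟩ := h.p
  have hF := h.hF
  have hY := h.hY
  refine ⟨?_, ?_, ?_⟩
  · rw [mul_div_assoc', le_div_iff₀ (by positivity)]
    linarith [g.m2]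
  · rw [mul_div_assoc', le_div_iff₀ (by positivity)]
    linarith [g.s2]
  · rw [mul_div_assoc', le_div_iff₀ (by positivity)]
    linarith [g.t2]

lemma MST.ts (h : HH k r F Y n G V W) (g : MST k r F Y W M S T) :
    T * S ≤ (2 * k ^ 3 * (F * W / r)) ^ 2 := by
  obtain ⟨kp, rp, np, Gp, Vp, Wp⟩ := h.p
  obtain ⟨Mp, Sp, Tp⟩ := g.p h
  obtain ⟨u1, u2, u3⟩ := g.up h
  have hF := h.hF
  have hY := h.hY
  calc T * S ≤ (2 * k ^ 3 * (Y * W / r)) * (2 * k ^ 3 * (F ^ 2 * W / (r * Y))) := by gcongr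
    _ = (2 * k ^ 3 * (F * W / r)) ^ 2 := by field_simp

lemma MST.sts (h : HH k r F Y n G V W) (g : MST k r F Y W M S T) :
    Real.sqrt (T * S) ≤ 2 * k ^ 3 * (F * W / r) := by
  obtain ⟨kp, rp, np, Gp, Vp, Wp⟩ := h.p
  have hF := h.hF
  have hY := h.hY
  rw [Real.sqrt_le_left (by positivity)]
  exact g.ts h

lemma HH.V2 (h : HH k r F Y n G V W) : V ^ 2 ≤ 4 * (F ^ 2 * W ^ 2 / Y ^ 2) := by
  obtain ⟨kp, rp, np, Gp, Vp, Wp⟩ := h.p
  have hF := h.hF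
  have hY := h.hY
  have d0 := h.d0
  rw [mul_div_assoc', le_div_iff₀ (by positivity)]
  calc V ^ 2 * Y ^ 2 = (Y * V) ^ 2 := by ring
    _ ≤ (2 * (F * W)) ^ 2 := by gcongr
    _ = 4 * (F ^ 2 * W ^ 2) := by ring

lemma MST.szK (h : HH k r F Y n G V W) (g : MST k r F Y W M S T) :
    G * (r * V * S / M + V ^ 3 / T) ≤ 7 * k ^ 3 * K0 r F Y G V W := by
  obtain ⟨kp, rp, np, Gp, Vp, Wp⟩ := h.p
  obtain ⟨Mp, Sp, Tp⟩ := g.p h
  obtain ⟨u1, u2, u3⟩ := g.up h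
  obtain ⟨i1, i2, i3⟩ := g.inv h
  have hF := h.hF
  have hY := h.hY
  have V2 := h.V2
  have k3 : 1 ≤ k ^ 3 := one_le_pow₀ h.hk
  have e1 : r * V * S / M ≤ 2 * k ^ 3 * (r * V * W * F ^ 2 / Y ^ 3) := by
    calc r * V * S / M = r * V * S * (1 / M) := by ring
      _ ≤ r * V * (2 * k ^ 3 * (F ^ 2 * W / (r * Y))) * (r / Y ^ 2) := by gcongr
      _ = 2 * k ^ 3 * (r * V * W * F ^ 2 / Y ^ 3) := by field_simp
  have e2 : V ^ 3 / T ≤ 5 * k ^ 3 * (r * V * W * F ^ 2 / Y ^ 3) := by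
    calc V ^ 3 / T = V ^ 2 * V * (1 / T) := by ring
      _ ≤ (4 * (F ^ 2 * W ^ 2 / Y ^ 2)) * V * (r / (Y * W)) := by gcongr
      _ = 4 * 1 * (r * V * W * F ^ 2 / Y ^ 3) := by field_simp
      _ ≤ 5 * k ^ 3 * (r * V * W * F ^ 2 / Y ^ 3) := by gcongr; norm_num
  unfold K0
  calc G * (r * V * S / M + V ^ 3 / T) ≤ G * (2 * k ^ 3 * (r * V * W * F ^ 2 / Y ^ 3) +
        5 * k ^ 3 * (r * V * W * F ^ 2 / Y ^ 3)) := by gcongr
    _ = _ := by ring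

lemma MST.szL (h : HH k r F Y n G V W) (g : MST k r F Y W M S T) :
    G * (r * V * T / M + W ^ 2 * V / T + V ^ 3 / S) ≤ 7 * k ^ 3 * L0 r Y G V W := by
  obtain ⟨kp, rp, np, Gp, Vp, Wp⟩ := h.p
  obtain ⟨Mp, Sp, Tp⟩ := g.p h
  obtain ⟨u1, u2, u3⟩ := g.up h
  obtain ⟨i1, i2, i3⟩ := g.inv h
  have hF := h.hF
  have hY := h.hY
  have V2 := h.V2
  have k3 : 1 ≤ k ^ 3 := one_le_pow₀ h.hk
  have e1 : r * V * T / M ≤ 2 * k ^ 3 * (r * V * W / Y) := by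
    calc r * V * T / M = r * V * T * (1 / M) := by ring
      _ ≤ r * V * (2 * k ^ 3 * (Y * W / r)) * (r / Y ^ 2) := by gcongr
      _ = 2 * k ^ 3 * (r * V * W / Y) := by field_simp
  have e2 : W ^ 2 * V / T ≤ 1 * k ^ 3 * (r * V * W / Y) := by
    calc W ^ 2 * V / T = W ^ 2 * V * (1 / T) := by ring
      _ ≤ W ^ 2 * V * (r / (Y * W)) := by gcongr
      _ = 1 * 1 * (r * V * W / Y) := by field_simp
      _ ≤ 1 * k ^ 3 * (r * V * W / Y) := by gcongr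
  have e3 : V ^ 3 / S ≤ 4 * k ^ 3 * (r * V * W / Y) := by
    calc V ^ 3 / S = V ^ 2 * V * (1 / S) := by ring
      _ ≤ (4 * (F ^ 2 * W ^ 2 / Y ^ 2)) * V * (r * Y / (F ^ 2 * W)) := by gcongr
      _ = 4 * 1 * (r * V * W / Y) := by field_simp
      _ ≤ 4 * k ^ 3 * (r * V * W / Y) := by gcongr
  unfold L0
  calc G * (r * V * T / M + W ^ 2 * V / T + V ^ 3 / S) ≤ G * (2 * k ^ 3 * (r * V * W / Y) +
        1 * k ^ 3 * (r * V * W / Y) + 4 * k ^ 3 * (r * V * W / Y)) := by gcongr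
    _ = _ := by ring

lemma MST.szJ (h : HH k r F Y n G V W) (g : MST k r F Y W M S T) :
    G * (r * W * T / M + W ^ 3 / T + V ^ 2 * W / S) ≤ 7 * k ^ 3 * J0 r Y G W := by
  obtain ⟨kp, rp, np, Gp, Vp, Wp⟩ := h.p
  obtain ⟨Mp, Sp, Tp⟩ := g.p h
  obtain ⟨u1, u2, u3⟩ := g.up h
  obtain ⟨i1, i2, i3⟩ := g.inv h
  have hF := h.hF
  have hY := h.hY
  have V2 := h.V2
  have k3 : 1 ≤ k ^ 3 := one_le_pow₀ h.hk
  have e1 : r * W * T / M ≤ 2 * k ^ 3 * (r * W ^ 2 / Y) := by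
    calc r * W * T / M = r * W * T * (1 / M) := by ring
      _ ≤ r * W * (2 * k ^ 3 * (Y * W / r)) * (r / Y ^ 2) := by gcongr
      _ = 2 * k ^ 3 * (r * W ^ 2 / Y) := by field_simp
  have e2 : W ^ 3 / T ≤ 1 * k ^ 3 * (r * W ^ 2 / Y) := by
    calc W ^ 3 / T = W ^ 3 * (1 / T) := by ring
      _ ≤ W ^ 3 * (r / (Y * W)) := by gcongr
      _ = 1 * 1 * (r * W ^ 2 / Y) := by field_simp
      _ ≤ 1 * k ^ 3 * (r * W ^ 2 / Y) := by gcongr
  have e3 : V ^ 2 * W / S ≤ 4 * k ^ 3 * (r * W ^ 2 / Y) := by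
    calc V ^ 2 * W / S = V ^ 2 * W * (1 / S) := by ring
      _ ≤ (4 * (F ^ 2 * W ^ 2 / Y ^ 2)) * W * (r * Y / (F ^ 2 * W)) := by gcongr
      _ = 4 * 1 * (r * W ^ 2 / Y) := by field_simp
      _ ≤ 4 * k ^ 3 * (r * W ^ 2 / Y) := by gcongr
  unfold J0
  calc G * (r * W * T / M + W ^ 3 / T + V ^ 2 * W / S) ≤ G * (2 * k ^ 3 * (r * W ^ 2 / Y) +
        1 * k ^ 3 * (r * W ^ 2 / Y) + 4 * k ^ 3 * (r * W ^ 2 / Y)) := by gcongr
    _ = _ := by ring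

lemma MST.szR (h : HH k r F Y n G V W) (g : MST k r F Y W M S T) :
    G * W ^ 3 / S ≤ 7 * k ^ 3 * R0 r F Y G W := by
  obtain ⟨kp, rp, np, Gp, Vp, Wp⟩ := h.p
  obtain ⟨Mp, Sp, Tp⟩ := g.p h
  obtain ⟨i1, i2, i3⟩ := g.inv h
  have hF := h.hF
  have hY := h.hY
  have k3 : 1 ≤ k ^ 3 := one_le_pow₀ h.hk
  unfold R0
  calc G * W ^ 3 / S = G * W ^ 3 * (1 / S) := by ring
    _ ≤ G * W ^ 3 * (r * Y / (F ^ 2 * W)) := by gcongr
    _ = 1 * 1 * (G * (r * Y * W ^ 2 / F ^ 2)) := by field_simp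
    _ ≤ 7 * k ^ 3 * (G * (r * Y * W ^ 2 / F ^ 2)) := by gcongr; norm_num

lemma MST.szH (h : HH k r F Y n G V W) (g : MST k r F Y W M S T) :
    G * (G * W ^ 3 * V / M) ≤ G ^ 2 * W ^ 3 * V * r / Y ^ 2 := by
  obtain ⟨kp, rp, np, Gp, Vp, Wp⟩ := h.p
  obtain ⟨Mp, Sp, Tp⟩ := g.p h
  obtain ⟨i1, i2, i3⟩ := g.inv h
  have hY := h.hY
  calc G * (G * W ^ 3 * V / M) = G ^ 2 * W ^ 3 * V * (1 / M) := by ring
    _ ≤ G ^ 2 * W ^ 3 * V * (r / Y ^ 2) := by gcongr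
    _ = _ := by ring

lemma MST.szV (h : HH k r F Y n G V W) (g : MST k r F Y W M S T) :
    W * V + G * (G * W ^ 3 * V / M) * r ≤ 2 * k ^ 4 * (W * V) := by
  obtain ⟨kp, rp, np, Gp, Vp, Wp⟩ := h.p
  have hY := h.hY
  have e1 : G * (G * W ^ 3 * V / M) * r ≤ k ^ 4 * (W * V) := by
    calc G * (G * W ^ 3 * V / M) * r ≤ (G ^ 2 * W ^ 3 * V * r / Y ^ 2) * r := by
          have := g.szH h
          gcongr
      _ = (r * G * W) ^ 2 * (W * V) / Y ^ 2 := by ring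
      _ ≤ (k ^ 2 * Y) ^ 2 * (W * V) / Y ^ 2 := by
          have := h.aY
          gcongr
      _ = k ^ 4 * (W * V) := by field_simp
  have k4 : 1 ≤ k ^ 4 := one_le_pow₀ h.hk
  have := mul_le_mul_of_nonneg_right k4 (show 0 ≤ W * V by positivity)
  linarith

lemma c1p {c x y : ℝ} (hc : 1 ≤ c) (h : x ≤ c * y) : 1 + x ≤ c * (1 + y) := by
  linarith

theorem MST.main (h : HH k r F Y n G V W) (g : MST k r F Y W M S T) :
    M * T * S / W ^ 2 + G ^ 2 * W * V * Real.sqrt (T * S) +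
      M / (W ^ 3 * V) * Real.sqrt (T * S) *
        (Real.sqrt (W * V) * Real.sqrt ((W * V + G * (G * W ^ 3 * V / M) * r) *
          ((1 + G * (r * V * S / M + V ^ 3 / T)) *
            (1 + G * (r * V * T / M + W ^ 2 * V / T + V ^ 3 / S)) *
            (1 + G * (r * W * T / M + W ^ 3 / T + V ^ 2 * W / S)) * (1 + G * W ^ 3 / S))) +
        Real.sqrt (G * (G * W ^ 3 * V / M)) * (W * V) *
          Real.sqrt ((1 + G * (r * V * S / M + V ^ 3 / T)) * (1 + G * W ^ 3 / S) +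
            (1 + G * (r * V * T / M + W ^ 2 * V / T + V ^ 3 / S)) *
            (1 + G * (r * W * T / M + W ^ 3 / T + V ^ 2 * W / S)))) ≤
    (8 * k ^ 10 + 2 * k ^ 12 + 4 * k ^ 6 *
      (Real.sqrt (2 * k ^ 4 * ((7 * k ^ 3) ^ 4 * (24 * (2 * k ^ 4) ^ 6 * (5 * k ^ 18)))) +
        Real.sqrt ((7 * k ^ 3) ^ 2 * (4 * (2 * k ^ 4) ^ 3 * (4 * k ^ 18))))) * (Y ^ 2 * n / r) := by
  obtain ⟨kp, rp, np, Gp, Vp, Wp⟩ := h.p
  obtain ⟨Mp, Sp, Tp⟩ := g.p h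
  obtain ⟨u1, u2, u3⟩ := g.up h
  have hF := h.hF
  have hY := h.hY
  have hk := h.hk
  have hr := h.hr
  have hG := h.hG
  have zK := g.szK h
  have zL := g.szL h
  have zJ := g.szJ h
  have zR := g.szR h
  have zH := g.szH h
  have zV := g.szV h
  have ts := g.ts h
  have sts := g.sts h
  obtain ⟨pK, pL, pJ, pR⟩ := h.pos
  obtain ⟨oK, oL, oJ⟩ := h.ord
  have T1 := h.T1
  have T2 := h.T2
  have T3 := h.T3
  have T4 := h.T4
  have T5 := h.T5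
  have U1 := h.U1
  have U2 := h.U2
  have U3 := h.U3
  have U4 := h.U4
  have E6 := h.E6
  have k3 : 1 ≤ k ^ 3 := one_le_pow₀ hk
  have k4 : 1 ≤ k ^ 4 := one_le_pow₀ hk
  have hc : 1 ≤ 7 * k ^ 3 := by linarith
  have hq : 1 ≤ 2 * k ^ 4 := by linarith
  have hK0 : 0 ≤ G * (r * V * S / M + V ^ 3 / T) := by positivity
  have hL0 : 0 ≤ G * (r * V * T / M + W ^ 2 * V / T + V ^ 3 / S) := by positivity
  have hJ0 : 0 ≤ G * (r * W * T / M + W ^ 3 / T + V ^ 2 * W / S) := by positivity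
  have hR0 : 0 ≤ G * W ^ 3 / S := by positivity
  have hH0 : 0 ≤ G * (G * W ^ 3 * V / M) := by positivity
  set K := G * (r * V * S / M + V ^ 3 / T) with hK
  set L := G * (r * V * T / M + W ^ 2 * V / T + V ^ 3 / S) with hL
  set J := G * (r * W * T / M + W ^ 3 / T + V ^ 2 * W / S) with hJ
  set R := G * W ^ 3 / S with hR
  set H := G * (G * W ^ 3 * V / M) with hH
  set u := n * r * W / F with hu
  have up : 0 < u := by positivity
  set c := 7 * k ^ 3 with hcd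
  set q := 2 * k ^ 4 with hqd
  have cp : 0 < c := by linarith
  have qp : 0 < q := by linarith
  set K' := K0 r F Y G V W
  set L' := L0 r Y G V W
  set J' := J0 r Y G W
  set R' := R0 r F Y G W
  -- the first inner term
  have A1 : (1 + K) * (1 + L) * (1 + J) * (1 + R) ≤
      c ^ 4 * (24 * q ^ 6 * (5 * k ^ 18)) * u ^ 2 := by
    calc (1 + K) * (1 + L) * (1 + J) * (1 + R) ≤
        (c * (1 + K')) * (c * (1 + L')) * (c * (1 + J')) * (c * (1 + R')) := by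
          have a := c1p hc zK
          have b := c1p hc zL
          have d := c1p hc zJ
          have e := c1p hc zR
          gcongr
      _ = c ^ 4 * ((1 + K') * (1 + L') * (1 + J') * (1 + R')) := by ring
      _ ≤ c ^ 4 * (24 * q ^ 6 * (1 + R' + J' * R' + L' * (J' * R') + K' * (L' * (J' * R')))) := by
          have := ord4 hq pK.le pL.le pJ.le pR.le oK oL oJ
          gcongr
      _ ≤ c ^ 4 * (24 * q ^ 6 * (k ^ 18 * u ^ 2 + k ^ 18 * u ^ 2 + k ^ 18 * u ^ 2 +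
            k ^ 18 * u ^ 2 + k ^ 18 * u ^ 2)) := by gcongr
      _ = c ^ 4 * (24 * q ^ 6 * (5 * k ^ 18)) * u ^ 2 := by ring
  have A2 : Real.sqrt (W * V) * Real.sqrt ((W * V + H * r) * ((1 + K) * (1 + L) * (1 + J) * (1 + R))) ≤
      W * V * (Real.sqrt (q * (c ^ 4 * (24 * q ^ 6 * (5 * k ^ 18)))) * u) := by
    calc Real.sqrt (W * V) * Real.sqrt ((W * V + H * r) * ((1 + K) * (1 + L) * (1 + J) * (1 + R)))
        ≤ Real.sqrt (W * V) * Real.sqrt ((q * (W * V)) *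
            (c ^ 4 * (24 * q ^ 6 * (5 * k ^ 18)) * u ^ 2)) := by gcongr
      _ = Real.sqrt (W * V) * Real.sqrt (W * V * (q * (c ^ 4 * (24 * q ^ 6 * (5 * k ^ 18)))) * u ^ 2) := by
          congr 2
          ring
      _ = Real.sqrt (W * V) * (Real.sqrt (W * V) *
            Real.sqrt (q * (c ^ 4 * (24 * q ^ 6 * (5 * k ^ 18)))) * u) := by
          have wv : 0 ≤ W * V := by positivity
          rw [Real.sqrt_mul (show 0 ≤ W * V * (q * (c ^ 4 * (24 * q ^ 6 * (5 * k ^ 18)))) by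
              positivity), Real.sqrt_mul wv (q * (c ^ 4 * (24 * q ^ 6 * (5 * k ^ 18)))),
            Real.sqrt_sq up.le]
      _ = (Real.sqrt (W * V) * Real.sqrt (W * V)) *
            (Real.sqrt (q * (c ^ 4 * (24 * q ^ 6 * (5 * k ^ 18)))) * u) := by ring
      _ = _ := by rw [Real.mul_self_sqrt (by positivity)]
  -- the second inner term
  have B1 : H * ((1 + K) * (1 + R) + (1 + L) * (1 + J)) ≤
      (c ^ 2 * (4 * q ^ 3 * (4 * k ^ 18))) * u ^ 2 := by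
    calc H * ((1 + K) * (1 + R) + (1 + L) * (1 + J)) ≤
        (G ^ 2 * W ^ 3 * V * r / Y ^ 2) * ((c * (1 + K')) * (c * (1 + R')) +
          (c * (1 + L')) * (c * (1 + J'))) := by
          have a := c1p hc zK
          have b := c1p hc zL
          have d := c1p hc zJ
          have e := c1p hc zR
          gcongr
      _ = c ^ 2 * ((G ^ 2 * W ^ 3 * V * r / Y ^ 2) * ((1 + K') * (1 + R') +
          (1 + L') * (1 + J'))) := by ring
      _ ≤ c ^ 2 * ((G ^ 2 * W ^ 3 * V * r / Y ^ 2) *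
          (4 * q ^ 3 * (1 + R' + K' * R' + L' * J'))) := by
          have := ord2 hq pK.le pL.le pJ.le pR.le oK oL oJ
          gcongr
      _ = c ^ 2 * (4 * q ^ 3 * (G ^ 2 * W ^ 3 * V * r / Y ^ 2 +
            G ^ 2 * W ^ 3 * V * r / Y ^ 2 * R' + G ^ 2 * W ^ 3 * V * r / Y ^ 2 * (K' * R') +
            G ^ 2 * W ^ 3 * V * r / Y ^ 2 * (L' * J'))) := by ring
      _ ≤ c ^ 2 * (4 * q ^ 3 * (k ^ 18 * u ^ 2 + k ^ 18 * u ^ 2 + k ^ 18 * u ^ 2 +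
            k ^ 18 * u ^ 2)) := by gcongr
      _ = _ := by ring
  have B2 : Real.sqrt H * (W * V) * Real.sqrt ((1 + K) * (1 + R) + (1 + L) * (1 + J)) ≤
      W * V * (Real.sqrt (c ^ 2 * (4 * q ^ 3 * (4 * k ^ 18))) * u) := by
    calc Real.sqrt H * (W * V) * Real.sqrt ((1 + K) * (1 + R) + (1 + L) * (1 + J))
        = W * V * (Real.sqrt H * Real.sqrt ((1 + K) * (1 + R) + (1 + L) * (1 + J))) := by ring
      _ = W * V * Real.sqrt (H * ((1 + K) * (1 + R) + (1 + L) * (1 + J))) := by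
          rw [Real.sqrt_mul hH0]
      _ ≤ W * V * Real.sqrt ((c ^ 2 * (4 * q ^ 3 * (4 * k ^ 18))) * u ^ 2) := by gcongr
      _ = _ := by rw [Real.sqrt_mul (by positivity), Real.sqrt_sq up.le]
  -- the other terms
  have C1 : M * T * S / W ^ 2 ≤ 8 * k ^ 10 * (Y ^ 2 * n / r) := by
    calc M * T * S / W ^ 2 = M * (T * S) / W ^ 2 := by ring
      _ ≤ (2 * k ^ 3 * (Y ^ 2 / r)) * (2 * k ^ 3 * (F * W / r)) ^ 2 / W ^ 2 := by gcongr
      _ = 8 * k ^ 9 * (F ^ 2) * (Y ^ 2 / r) / r ^ 2 := by field_simp; ring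
      _ ≤ 8 * k ^ 9 * (k * n) * (Y ^ 2 / r) / 1 := by
          have := h.a1
          have : 1 ≤ r ^ 2 := one_le_pow₀ hr
          gcongr
      _ = 8 * k ^ 10 * (Y ^ 2 * n / r) := by ring
  have C2 : G ^ 2 * W * V * Real.sqrt (T * S) ≤ 2 * k ^ 12 * (Y ^ 2 * n / r) := by
    calc G ^ 2 * W * V * Real.sqrt (T * S) ≤ G ^ 2 * W * V * (2 * k ^ 3 * (F * W / r)) := by
          gcongr
      _ = 2 * k ^ 3 * (((r * G * W) ^ 2 * (r * G * V) * F) / (r ^ 3 * G)) / r := by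
          field_simp
      _ ≤ 2 * k ^ 3 * ((k ^ 9 * n * Y ^ 2) / (1 ^ 3 * 1)) / r := by gcongr
      _ = 2 * k ^ 12 * (Y ^ 2 * n / r) := by ring
  have C3 : M / (W ^ 3 * V) * Real.sqrt (T * S) ≤ 4 * k ^ 6 * (F * Y ^ 2 / (r ^ 2 * W ^ 2 * V)) := by
    calc M / (W ^ 3 * V) * Real.sqrt (T * S) ≤
        (2 * k ^ 3 * (Y ^ 2 / r)) / (W ^ 3 * V) * (2 * k ^ 3 * (F * W / r)) := by gcongr
      _ = _ := by field_simp; ring
  have D1 : ∀ x : ℝ, 4 * k ^ 6 * (F * Y ^ 2 / (r ^ 2 * W ^ 2 * V)) * (W * V * (x * u)) =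
      4 * k ^ 6 * x * (Y ^ 2 * n / r) := by
    intro x
    rw [hu]
    field_simp
  calc _ ≤ 8 * k ^ 10 * (Y ^ 2 * n / r) + 2 * k ^ 12 * (Y ^ 2 * n / r) +
        4 * k ^ 6 * (F * Y ^ 2 / (r ^ 2 * W ^ 2 * V)) *
        (W * V * (Real.sqrt (q * (c ^ 4 * (24 * q ^ 6 * (5 * k ^ 18)))) * u) +
          W * V * (Real.sqrt (c ^ 2 * (4 * q ^ 3 * (4 * k ^ 18))) * u)) := by gcongr
    _ = _ := by
        rw [mul_add (4 * k ^ 6 * (F * Y ^ 2 / (r ^ 2 * W ^ 2 * V))), D1, D1]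
        ring

end NUB2aux

open NUB2aux in
theorem t_NUB2 : S_NUB2 := by
  have k1 : (1 : ℝ) ≤ kap := by
    unfold kap
    norm_num
  have kp : 0 < kap := by linarith
  refine ⟨(8 * kap ^ 10 + 2 * kap ^ 12 + 4 * kap ^ 6 *
      (Real.sqrt (2 * kap ^ 4 * ((7 * kap ^ 3) ^ 4 * (24 * (2 * kap ^ 4) ^ 6 * (5 * kap ^ 18)))) +
        Real.sqrt ((7 * kap ^ 3) ^ 2 * (4 * (2 * kap ^ 4) ^ 3 * (4 * kap ^ 18))))), by positivity, ?_⟩
  intro N F Y ρ M G V W S T hP hρ hG hV hW b0 c1 c2 d0 m1 m2 s1 s2 t1 t2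
  obtain ⟨hN, hF, hY, a1, a2, a3⟩ := hP
  have hn : 1 ≤ Real.sqrt N := by
    rw [Real.one_le_sqrt]
    exact_mod_cast hN
  have h : HH kap (ρ : ℝ) F Y (Real.sqrt N) G V W :=
    ⟨k1, by exact_mod_cast hρ, hF, hY, hn, by exact_mod_cast hG, by exact_mod_cast hV,
      by exact_mod_cast hW, a1, a2, a3, b0, c1, c2, d0⟩
  have g : MST kap (ρ : ℝ) F Y W M S T := ⟨m1, m2, s1, s2, t1, t2⟩
  have := g.main h
  unfold BBx rH rK rL rJ rR
  exact this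

end Pool.Agent.T2h80.R5
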