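import Pool.Agent.T2h80.F5.OM
import Pool.Agent.T2h80.R5.Stm

set_option autoImplicit false

/-! Task OMR: the integral generator and the conjugation, real quadratic fields. -/

namespace Pool.Agent.T2h80.R5

open Finset NumberField Pool.Agent.Y159.QS Pool.Agent.T2h80.F5

variable {K : Type} [Field K] [NumberField K]

theorem d_modR {d : ℕ} {T m : ℤ} (h : (d : ℤ) = T ^ 2 - 4 * m) : d % 4 = 0 ∨ d % 4 = 1 := by
  rcases Int.even_or_odd' T with ⟨k, rfl | rfl⟩
  · left
    have : (d : ℤ) = 4 * (k ^ 2 - m) := by linarith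
    omega
  · right
    have : (d : ℤ) = 4 * (k ^ 2 + k - m) + 1 := by linarith
    omega

theorem four_n0R {d : ℕ} (h : d % 4 = 0 ∨ d % 4 = 1) : 4 * n0R d = thR d - (d : ℤ) := by
  unfold n0R thR
  rcases h with h | h
  · have h1 : d % 2 = 0 := by omega
    rw [h1]
    push_cast
    omega
  · have h1 : d % 2 = 1 := by omega
    rw [h1]
    push_cast
    omega

theorem thR_sq (d : ℕ) : thR d * thR d = thR d := by
  unfold thR
  rcases Nat.mod_two_eq_zero_or_one d with h | h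
  · rw [h]; rfl
  · rw [h]; rfl

/-- a field in which all integers are rational -/
theorem finrank_one (h : ∀ γ : 𝓞 K, ∃ q : ℚ, algebraMap (𝓞 K) K γ = (q : K)) :
    Module.finrank ℚ K = 1 := by
  rw [finrank_eq_one_iff_of_nonzero' (1 : K) one_ne_zero]
  intro x
  obtain ⟨a, b, hb, rfl⟩ := IsFractionRing.div_surjective (A := 𝓞 K) x
  obtain ⟨p, hp⟩ := h a
  obtain ⟨q, hq⟩ := h b
  refine ⟨p / q, ?_⟩
  rw [hp, hq, Algebra.smul_def, mul_one]
  simp

/-- the integral generator with its first properties -/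
theorem exists_omR (hK : Module.finrank ℚ K = 2) (d : ℕ) (hd : discr K = (d : ℤ))
    (hd4 : d % 4 = 0 ∨ d % 4 = 1) : ∃ ω : 𝓞 K, ω ^ 2 = (thR d : 𝓞 K) * ω - (n0R d : 𝓞 K) ∧
    (∀ x : 𝓞 K, ∃ a b : ℤ, x = (a : 𝓞 K) + (b : 𝓞 K) * ω) ∧
    (∀ a b : ℤ, (a : 𝓞 K) + (b : 𝓞 K) * ω = 0 → a = 0 ∧ b = 0) ∧
    (∀ a b : ℤ, Algebra.norm ℤ ((a : 𝓞 K) + (b : 𝓞 K) * ω) =
      a ^ 2 + thR d * a * b + n0R d * b ^ 2) := by
  obtain ⟨α, hα, hr0⟩ := TL.rep hK
  have hr : ∀ γ : 𝓞 K, ∃ t k : ℤ, 2 * algebraMap (𝓞 K) K γ = t + k * α ∧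
      4 * Algebra.norm ℤ γ = t ^ 2 - discr K * k ^ 2 := hr0
  clear hr0
  rw [hd] at hα hr
  have h4 := four_n0R hd4
  have hth := thR_sq d
  have h4K : 4 * ((n0R d : ℤ) : K) = ((thR d : ℤ) : K) - (d : K) := by exact_mod_cast h4
  have hthK : ((thR d : ℤ) : K) * ((thR d : ℤ) : K) = ((thR d : ℤ) : K) := by exact_mod_cast hth
  have hαK : α ^ 2 = (d : K) := by rw [hα]; push_cast; rfl
  have hω : IsIntegral ℤ ((((thR d : ℤ) : K) + α) / 2) := by
    apply isInt_quad (x := thR d) (c := n0R d)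
    linear_combination hαK / 4 - hthK / 4 + h4K / 4
  obtain ⟨ω, hωc⟩ : ∃ ω : 𝓞 K, algebraMap (𝓞 K) K ω = (((thR d : ℤ) : K) + α) / 2 :=
    ⟨⟨_, hω⟩, rfl⟩
  -- independence over the integers
  have hind : ∀ t k : ℤ, (t : K) + k * α = 0 → t = 0 ∧ k = 0 := by
    intro t k h
    have hk : k = 0 := by
      by_contra hk
      have hkK : (k : K) ≠ 0 := by exact_mod_cast hk
      have hαq : α = ((-(t : ℚ) / k : ℚ) : K) := by
        push_cast
        rw [eq_div_iff hkK]
        linear_combination h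
      have h1 : Module.finrank ℚ K = 1 := by
        apply finrank_one
        intro γ
        obtain ⟨t', k', h2, -⟩ := hr γ
        refine ⟨((t' : ℚ) + k' * (-(t : ℚ) / k)) / 2, ?_⟩
        rw [hαq] at h2
        push_cast at h2 ⊢
        linear_combination h2 / 2
      omega
    rw [hk] at h
    refine ⟨?_, hk⟩
    have h3 : (t : K) = 0 := by simpa using h
    exact_mod_cast h3
  refine ⟨ω, ?_, ?_, ?_, ?_⟩
  · apply RingOfIntegers.coe_injective
    simp only [map_pow, map_sub, map_mul, map_intCast]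
    rw [hωc]
    linear_combination hαK / 4 - hthK / 4 + h4K / 4
  · intro x
    obtain ⟨t, k, h1, h2⟩ := hr x
    have h3 : (2 : ℤ) ∣ t - thR d * k := by
      have h5 : (2 : ℤ) ∣ t ^ 2 - (thR d * k) ^ 2 := by
        have h6 : t ^ 2 - (thR d * k) ^ 2 = 4 * (Algebra.norm ℤ x - n0R d * k ^ 2) := by
          linear_combination -h2 + k ^ 2 * h4 - k ^ 2 * hth
        rw [h6]
        exact ⟨2 * (Algebra.norm ℤ x - n0R d * k ^ 2), by ring⟩
      have h6 : t ^ 2 - (thR d * k) ^ 2 = (t - thR d * k) * (t + thR d * k) := by ring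
      rw [h6] at h5
      rcases Int.prime_two.dvd_or_dvd h5 with h7 | h7
      · exact h7
      · have h8 : t - thR d * k = (t + thR d * k) - 2 * (thR d * k) := by ring
        rw [h8]
        exact dvd_sub h7 (dvd_mul_right _ _)
    obtain ⟨a, ha⟩ := h3
    refine ⟨a, k, ?_⟩
    apply RingOfIntegers.coe_injective
    simp only [map_add, map_mul, map_intCast]
    rw [hωc]
    have h5 : (t : K) - ((thR d : ℤ) : K) * k = 2 * (a : K) := by exact_mod_cast ha
    linear_combination h1 / 2 + h5 / 2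
  · intro a b h
    have h1 := congrArg (fun x : 𝓞 K => algebraMap (𝓞 K) K x) h
    simp only [map_add, map_mul, map_intCast, map_zero] at h1
    rw [hωc] at h1
    have h2 := hind (2 * a + b * thR d) b (by push_cast; linear_combination 2 * h1)
    obtain ⟨h3, h4⟩ := h2
    rw [h4] at h3
    exact ⟨by linarith, h4⟩
  · intro a b
    obtain ⟨t, k, h1, h2⟩ := hr ((a : 𝓞 K) + (b : 𝓞 K) * ω)
    simp only [map_add, map_mul, map_intCast] at h1
    rw [hωc] at h1
    have h3 := hind (2 * a + b * thR d - t) (b - k) (by push_cast; linear_combination h1)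
    obtain ⟨h5, h6⟩ := h3
    have h7 : t = 2 * a + b * thR d := by linarith
    have h8 : k = b := by linarith
    rw [h7, h8] at h2
    have h9 : 4 * Algebra.norm ℤ ((a : 𝓞 K) + (b : 𝓞 K) * ω) =
        4 * (a ^ 2 + thR d * a * b + n0R d * b ^ 2) := by
      rw [h2]
      linear_combination -b ^ 2 * h4 + b ^ 2 * hth
    linarith

theorem t_OMR : S_OMR := by
  intro K _ _ d hK hd hd0
  obtain ⟨T, m, hTm⟩ := stick hK
  rw [hd] at hTm
  have hd4 := d_modR hTm
  refine ⟨hd4, ?_⟩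
  obtain ⟨ω, h1, h2, h3, h4⟩ := exists_omR hK d hd hd4
  obtain ⟨σ, hσ⟩ := exists_conj h1 h2 h3
  have h5 : σ ω = (thR d : 𝓞 K) - ω := by
    have := hσ 0 1
    simpa using this
  have h6 : ∀ x, σ (σ x) = x := by
    intro x
    obtain ⟨a, b, rfl⟩ := h2 x
    rw [hσ]
    have e : (a : 𝓞 K) + (b : 𝓞 K) * ((thR d : 𝓞 K) - ω) =
        ((a + b * thR d : ℤ) : 𝓞 K) + ((-b : ℤ) : 𝓞 K) * ω := by
      push_cast
      ring
    rw [e, hσ]
    push_cast
    ring
  have h7 : ∀ x : 𝓞 K, x * σ x = ((Algebra.norm ℤ x : ℤ) : 𝓞 K) := by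
    intro x
    obtain ⟨a, b, rfl⟩ := h2 x
    rw [hσ, h4]
    push_cast
    linear_combination -(b : 𝓞 K) ^ 2 * h1
  exact ⟨ω, σ, h1, h5, h2, h3, h6, h4, h7, mul_map hK h6 h7, absNorm_map h6⟩

end Pool.Agent.T2h80.R5
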