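import Pool.Agent.T2h80.R5.Stm
import Pool.Agent.T2h80.F5.ZB

/-! Project R5, part ROOT: the square roots modulo `u ^ 2` in an interval. -/

set_option autoImplicit false

namespace Pool.Agent.T2h80.R5

open Finset Pool.Agent.T2h80.F5

namespace ROOT

theorem key (u : ℕ) (hu : 0 < u) (y₀ z : ℤ) (e f : ℤ) (he : (Int.gcd ((u : ℤ) ^ 2) (z - y₀) : ℤ) = e)
    (hf : (u : ℤ) ^ 2 = e * f) (h : (u : ℤ) ^ 2 ∣ (z - y₀) * (z + y₀)) : f ∣ z + y₀ := by
  have hu0 : (u : ℤ) ^ 2 ≠ 0 := by positivity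
  have he0 : e ≠ 0 := by
    rintro rfl
    rw [zero_mul] at hf
    exact hu0 hf
  obtain ⟨z1, hz1⟩ : e ∣ z - y₀ := by rw [← he]; exact Int.gcd_dvd_right _ _
  have hcop : IsCoprime f z1 := by
    have h1 := Int.gcd_eq_gcd_ab ((u : ℤ) ^ 2) (z - y₀)
    rw [he] at h1
    refine ⟨Int.gcdA ((u : ℤ) ^ 2) (z - y₀), Int.gcdB ((u : ℤ) ^ 2) (z - y₀), ?_⟩
    apply mul_left_cancel₀ he0
    generalize Int.gcdA ((u : ℤ) ^ 2) (z - y₀) = A at *
    generalize Int.gcdB ((u : ℤ) ^ 2) (z - y₀) = B at *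
    rw [hf, hz1] at h1
    linear_combination -h1
  have h2 : e * f ∣ e * (z1 * (z + y₀)) := by
    rw [← hf, ← mul_assoc, ← hz1]
    exact h
  have h3 : f ∣ z1 * (z + y₀) := (mul_dvd_mul_iff_left he0).1 h2
  exact hcop.dvd_of_dvd_mul_left h3

/-- two elements with the same gcd -/
theorem same (u : ℕ) (hu : 0 < u) (y₀ y y' : ℤ) (hg : Int.gcd y₀ u ∣ 2)
    (h : (u : ℤ) ^ 2 ∣ (y - y₀) * (y + y₀)) (h' : (u : ℤ) ^ 2 ∣ (y' - y₀) * (y' + y₀))
    (he : Int.gcd ((u : ℤ) ^ 2) (y - y₀) = Int.gcd ((u : ℤ) ^ 2) (y' - y₀)) :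
    (u : ℤ) ^ 2 ∣ 4 * (y - y') := by
  set e : ℤ := (Int.gcd ((u : ℤ) ^ 2) (y - y₀) : ℤ) with hedef
  obtain ⟨f, hf⟩ : e ∣ (u : ℤ) ^ 2 := Int.gcd_dvd_left _ _
  have k1 : f ∣ y + y₀ := key u hu y₀ y e f rfl hf h
  have k2 : f ∣ y' + y₀ := key u hu y₀ y' e f (by rw [hedef, he]) hf h'
  have k3 : e ∣ y - y₀ := Int.gcd_dvd_right _ _
  have k4 : e ∣ y' - y₀ := by rw [hedef, he]; exact Int.gcd_dvd_right _ _
  have k5 : f ∣ y - y' := by
    have := dvd_sub k1 k2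
    rwa [show y + y₀ - (y' + y₀) = y - y' by ring] at this
  have k6 : e ∣ y - y' := by
    have := dvd_sub k3 k4
    rwa [show y - y₀ - (y' - y₀) = y - y' by ring] at this
  -- the gcd of `e` and `f`
  have hb := Int.gcd_eq_gcd_ab e f
  have k7 : e * f ∣ (Int.gcd e f : ℤ) * (y - y') := by
    rw [hb, add_mul]
    refine dvd_add ?_ ?_
    · obtain ⟨t, ht⟩ := k5
      exact ⟨Int.gcdA e f * t, by rw [ht]; ring⟩
    · obtain ⟨t, ht⟩ := k6
      exact ⟨Int.gcdB e f * t, by rw [ht]; ring⟩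
  have hge : (Int.gcd e f : ℤ) ∣ e := Int.gcd_dvd_left _ _
  have hgf : (Int.gcd e f : ℤ) ∣ f := Int.gcd_dvd_right _ _
  have k8 : (Int.gcd e f : ℤ) ∣ u := by
    have : (Int.gcd e f : ℤ) ^ 2 ∣ (u : ℤ) ^ 2 := by
      rw [hf, pow_two]
      exact mul_dvd_mul hge hgf
    exact (Int.pow_dvd_pow_iff (by norm_num)).1 this
  have k9 : (Int.gcd e f : ℤ) ∣ 2 * y₀ := by
    have h1 := dvd_sub (hgf.trans k1) (hge.trans k3)
    rwa [show y + y₀ - (y - y₀) = 2 * y₀ by ring] at h1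
  have k10 : (Int.gcd e f : ℤ) ∣ 4 := by
    have h1 : (Int.gcd e f : ℤ) ∣ 2 * (Int.gcd y₀ u : ℤ) := by
      rw [Int.gcd_eq_gcd_ab y₀ u, mul_add]
      refine dvd_add ?_ ?_
      · rw [← mul_assoc]; exact Dvd.dvd.mul_right k9 _
      · rw [show 2 * ((u : ℤ) * Int.gcdB y₀ u) = u * (2 * Int.gcdB y₀ u) by ring]
        exact Dvd.dvd.mul_right k8 _
    have h2 : 2 * (Int.gcd y₀ u : ℤ) ∣ 2 * 2 := mul_dvd_mul_left 2 (by exact_mod_cast hg)
    exact h1.trans h2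
  rw [hf]
  exact k7.trans (mul_dvd_mul_right k10 _)

/-- integers in an interval with `m ∣ 4 (y - y')` -/
theorem card_cls (S : Finset ℤ) (m L : ℕ) (hm : 0 < m) (hL : ∀ y ∈ S, |y| ≤ (L : ℤ))
    (h : ∀ y ∈ S, ∀ y' ∈ S, (m : ℤ) ∣ 4 * (y - y')) : (S.card : ℝ) ≤ 8 * L / m + 1 := by
  have hinj : Set.InjOn (fun y : ℤ => (y + L).toNat) (S : Set ℤ) := by
    intro y hy y' hy' hyy
    have h1 := hL y hy
    have h2 := hL y' hy'
    rw [abs_le] at h1 h2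
    simp only at hyy
    omega
  rw [← Finset.card_image_of_injOn hinj]
  have h3 := ZB.card_class (S.image (fun y : ℤ => (y + L).toNat)) m (2 * L) hm (by
    intro q hq
    obtain ⟨y, hy, rfl⟩ := Finset.mem_image.1 hq
    have h1 := hL y hy
    rw [abs_le] at h1
    omega) (by
    intro q hq q' hq'
    obtain ⟨y, hy, rfl⟩ := Finset.mem_image.1 hq
    obtain ⟨y', hy', rfl⟩ := Finset.mem_image.1 hq'
    have h1 := hL y hy
    have h2 := hL y' hy'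
    rw [abs_le] at h1 h2
    have e : (((y + L).toNat : ℤ) - ((y' + L).toNat : ℤ)) = y - y' := by omega
    rw [e]
    exact h y hy y' hy')
  have e : (4 : ℝ) * ((2 * L : ℕ) : ℝ) / m + 1 = 8 * L / m + 1 := by push_cast; ring
  rw [e] at h3
  exact h3

end ROOT

theorem t_ROOT : S_ROOT := by
  classical
  intro u q L hu hq S hS1 hS2 hS3
  rcases S.eq_empty_or_nonempty with hS | ⟨y₀, hy₀⟩
  · rw [hS]
    simp only [card_empty, Nat.cast_zero]
    positivity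
  have hcop : IsCoprime ((u : ℤ) ^ 2) (q : ℤ) :=
    (Nat.isCoprime_iff_coprime.2 hq).symm.pow_left
  have h1 : ∀ y ∈ S, (u : ℤ) ^ 2 ∣ (y - y₀) * (y + y₀) := by
    intro y hy
    have := hcop.dvd_of_dvd_mul_left (hS3 y hy y₀ hy₀)
    rwa [show y ^ 2 - y₀ ^ 2 = (y - y₀) * (y + y₀) by ring] at this
  have hu2 : u ^ 2 ≠ 0 := by positivity
  have h2 := Finset.card_eq_sum_card_fiberwise (s := S) (t := (u ^ 2).divisors)
    (f := fun y => Int.gcd ((u : ℤ) ^ 2) (y - y₀)) (by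
      intro y hy
      rw [Finset.mem_coe, Nat.mem_divisors]
      refine ⟨?_, hu2⟩
      have := Int.gcd_dvd_left ((u : ℤ) ^ 2) (y - y₀)
      exact_mod_cast this)
  rw [h2]
  push_cast
  have h3 : ∀ e ∈ (u ^ 2).divisors,
      ((S.filter (fun y => Int.gcd ((u : ℤ) ^ 2) (y - y₀) = e)).card : ℝ) ≤
        16 * L / (u : ℝ) ^ 2 + 1 := by
    intro e _
    have h4 := ROOT.card_cls (S.filter (fun y => Int.gcd ((u : ℤ) ^ 2) (y - y₀) = e)) (u ^ 2) L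
      (by positivity) (fun y hy => hS1 y (Finset.mem_filter.1 hy).1) (by
        intro y hy y' hy'
        rw [Finset.mem_filter] at hy hy'
        have := ROOT.same u hu y₀ y y' (hS2 y₀ hy₀) (h1 y hy.1) (h1 y' hy'.1)
          (hy.2.trans hy'.2.symm)
        push_cast
        exact this)
    refine h4.trans ?_
    push_cast
    have : (8 : ℝ) * L / (u : ℝ) ^ 2 ≤ 16 * L / (u : ℝ) ^ 2 := by
      gcongr
      norm_num
    linarith
  calc _ ≤ ∑ e ∈ (u ^ 2).divisors, (16 * L / (u : ℝ) ^ 2 + 1) := Finset.sum_le_sum h3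
    _ = _ := by rw [Finset.sum_const, nsmul_eq_mul]

end Pool.Agent.T2h80.R5
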