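import Pool.Agent.T2h80.R5.Stm

/-! Project R5, part ZAR (helper49): the structure when `u₁ = 0`. -/

set_option autoImplicit false

namespace Pool.Agent.T2h80.R5

open Pool.Agent.T2h80.F5

namespace ZAR

theorem four_n0R (D : ℕ) (hD : D % 4 = 0 ∨ D % 4 = 1) : 4 * n0R D = thR D - (D : ℤ) := by
  unfold n0R thR
  push_cast
  omega

theorem thR_sq (D : ℕ) : thR D ^ 2 = thR D := by
  have h : D % 2 = 0 ∨ D % 2 = 1 := by omega
  unfold thR
  rcases h with h | h <;> rw [h] <;> norm_num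

theorem norm_four (D : ℕ) (hD : D % 4 = 0 ∨ D % 4 = 1) (x u : ℤ) :
    4 * (x ^ 2 + thR D * x * u + n0R D * u ^ 2) = (2 * x + thR D * u) ^ 2 - D * u ^ 2 := by
  have h1 := four_n0R D hD
  have h2 := thR_sq D
  linear_combination u ^ 2 * h1 - u ^ 2 * h2

end ZAR

open ZAR in
theorem t_ZAR : S_ZAR := by
  intro D ρ m a x₁ x₂ u₂ hD hR hu
  obtain ⟨hρ, hm, ha, _, hu2, hc1, hc2, hN1, hN2, hD1, hD2, hD3, _⟩ := hR
  have hg : ((Int.gcd 0 u₂ : ℕ) : ℤ) = |u₂| := by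
    rw [Int.gcd_zero_left, Int.natCast_natAbs]
  rw [hg, abs_of_nonneg hu2] at hc2
  have hρ0 : (ρ : ℤ) ≠ 0 := by positivity
  have cρa : IsCoprime ((ρ : ℤ) * a) u₂ := by
    have : ((ρ : ℤ) * m * a) = (ρ * a) * m := by ring
    rw [this] at hc2
    exact hc2.of_mul_left_left
  have cρm : IsCoprime ((ρ : ℤ) * m) u₂ := hc2.of_mul_left_left
  have cm : IsCoprime m u₂ := cρm.of_mul_left_right
  have e1 : (ρ : ℤ) * a ∣ x₁ := by
    have h : (ρ : ℤ) * a ∣ x₁ * u₂ := by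
      have h := hD1
      simp only [mul_zero, add_zero, zero_mul] at h
      exact h
    exact cρa.dvd_of_dvd_mul_right h
  have hx1 : x₁ ^ 2 = ρ * m ^ 2 * a := by
    have h := hN1
    simp only [mul_zero, add_zero, ne_eq, OfNat.ofNat_ne_zero, not_false_eq_true, zero_pow] at h
    exact h
  -- ρ = 1
  have e2 : (ρ : ℤ) * a ∣ m ^ 2 := by
    have h1 : ((ρ : ℤ) * a) ^ 2 ∣ x₁ ^ 2 := pow_dvd_pow_of_dvd e1 2
    rw [hx1] at h1
    have h2 : ((ρ : ℤ) * a) * ((ρ : ℤ) * a) ∣ ((ρ : ℤ) * a) * m ^ 2 := by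
      have e3 : ((ρ : ℤ) * a) * m ^ 2 = ρ * m ^ 2 * a := by ring
      rw [e3, ← sq]
      exact h1
    have h3 : ((ρ : ℤ) * a) ≠ 0 := mul_ne_zero hρ0 ha
    exact (mul_dvd_mul_iff_left h3).1 h2
  have hρ1 : ρ = 1 := by
    have h1 : (ρ : ℤ) ∣ m ^ 2 := (dvd_mul_right _ a).trans e2
    have h2 : IsCoprime (ρ : ℤ) (m ^ 2) := (hc1.of_mul_right_left).pow_right
    have h3 := h2.isUnit_of_dvd' dvd_rfl h1
    rw [Int.isUnit_iff] at h3
    omega
  subst hρ1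
  refine ⟨rfl, ?_⟩
  have hx1' : x₁ ^ 2 = m ^ 2 * a := by
    rw [hx1]
    push_cast
    ring
  have hmx : m ∣ x₁ := by
    have h : m ^ 2 ∣ x₁ ^ 2 := ⟨a, hx1'⟩
    exact (Int.pow_dvd_pow_iff two_ne_zero).1 h
  obtain ⟨b', hb'⟩ := hmx
  have hab' : a = b' ^ 2 := by
    have h1 : m ^ 2 * a = m ^ 2 * b' ^ 2 := by
      rw [← hx1', hb']
      ring
    exact mul_left_cancel₀ (pow_ne_zero 2 hm) h1
  have hb'0 : b' ≠ 0 := by
    rintro rfl
    apply ha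
    rw [hab']
    ring
  obtain ⟨b, hb⟩ : ∃ b : ℕ, b = b'.natAbs := ⟨_, rfl⟩
  have hb0 : 0 < b := by
    rw [hb]
    exact Int.natAbs_pos.2 hb'0
  have hbb : (b : ℤ) = |b'| := by rw [hb, Int.natCast_natAbs]
  have hab : a = (b : ℤ) ^ 2 := by rw [hbb, sq_abs, hab']
  have hbm : (b : ℤ) ∣ m := by
    have h1 : (b : ℤ) ^ 2 ∣ m ^ 2 := by
      have h2 := e2
      rw [hab] at h2
      push_cast at h2
      rwa [one_mul] at h2
    exact (Int.pow_dvd_pow_iff two_ne_zero).1 h1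
  obtain ⟨q', hq'⟩ := hbm
  obtain ⟨q, hq⟩ : ∃ q : ℕ, q = q'.natAbs := ⟨_, rfl⟩
  have hq'0 : q' ≠ 0 := by
    rintro rfl
    apply hm
    rw [hq', mul_zero]
  have hq0 : 0 < q := by
    rw [hq]
    exact Int.natAbs_pos.2 hq'0
  have hqq : (q : ℤ) = |q'| := by rw [hq, Int.natCast_natAbs]
  have hqm : |m| = b * q := by
    rw [hq', abs_mul, hqq, Nat.abs_cast]
  have hqd : (q : ℤ) ∣ q' := by rw [hqq]; exact abs_dvd_self q'
  have hqd' : q' ∣ (q : ℤ) := by rw [hqq]; exact self_dvd_abs q'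
  have hqm' : (q : ℤ) ∣ m := by
    rw [hq']
    exact hqd.mul_left _
  have hx1b : x₁ ^ 2 = ((b : ℤ) ^ 2 * q) ^ 2 := by
    have h1 : m ^ 2 = (b * q) ^ 2 := by rw [← hqm, sq_abs]
    rw [hx1', hab, h1]
    ring
  -- q divides 2 x₂ + th u₂
  have cq : IsCoprime (q : ℤ) u₂ := cm.of_isCoprime_of_dvd_left hqm'
  have e5 : (q : ℤ) ∣ 2 * x₂ + thR D * u₂ := by
    have h1 : m ^ 2 ∣ x₁ * (u₂ * (2 * x₂ + thR D * u₂)) := by
      have h := hD3
      have e : (0 : ℤ) * x₂ ^ 2 - 2 * x₁ * x₂ * u₂ - thR D * x₁ * u₂ ^ 2 - n0R D * 0 * u₂ ^ 2 =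
        -(x₁ * (u₂ * (2 * x₂ + thR D * u₂))) := by ring
      rw [e, dvd_neg] at h
      push_cast at h
      rwa [one_mul] at h
    have h2 : (m * b') * q' ∣ (m * b') * (u₂ * (2 * x₂ + thR D * u₂)) := by
      rw [← hb']
      refine (?_ : x₁ * q' ∣ m ^ 2).trans h1
      have e : m ^ 2 = m * b * q' := by rw [sq]; nth_rewrite 2 [hq']; ring
      rw [e, hb']
      refine mul_dvd_mul_right (mul_dvd_mul_left m ?_) q'
      rw [hbb]
      exact self_dvd_abs b'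
    have h6 := (mul_dvd_mul_iff_left (mul_ne_zero hm hb'0)).1 h2
    exact cq.dvd_of_dvd_mul_left (hqd.trans h6)
  obtain ⟨y, hy⟩ := e5
  have h4 := norm_four D hD x₂ u₂
  rw [hN2, hy, hab] at h4
  push_cast at h4
  have e6 : (q : ℤ) ∣ D := by
    have h6 : (q : ℤ) ∣ D * u₂ ^ 2 := by
      obtain ⟨c, hc⟩ := hqm'
      refine ⟨q * y ^ 2 - 4 * (b : ℤ) ^ 4 * c, ?_⟩
      rw [hc] at h4
      linear_combination h4
    exact (cq.pow_right (n := 2)).dvd_of_dvd_mul_right h6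
  obtain ⟨D', hD'⟩ : q ∣ D := by exact_mod_cast e6
  refine ⟨b, q, D', y, hb0, hq0, hqm, hab, hx1b, hy, hD', ?_, ?_⟩
  · have h7 : (D : ℤ) = q * D' := by exact_mod_cast hD'
    rw [h7] at h4
    linear_combination h4
  · have h8 : IsCoprime (u₂) (((b * q : ℕ)) : ℤ) := by
      push_cast
      rw [← hqm]
      rcases abs_choice m with h | h
      · rw [h]; exact cm.symm
      · rw [h]; exact cm.symm.neg_right
    rw [Int.isCoprime_iff_gcd_eq_one] at h8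
    exact h8

end Pool.Agent.T2h80.R5
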