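import Pool.Agent.T2h80.R5.Stm

/-! Project R5, part ZBR: the tuples `(b, q, y, u, D')`. -/

set_option autoImplicit false

namespace Pool.Agent.T2h80.R5

open Finset Pool.Agent.T2h80.F5

namespace ZBR

/-- the greatest common divisor of `y` and `u` -/
theorem gcd_dvd (σ : ℤ) (hσ : σ = 1 ∨ σ = -1) (b q u : ℕ) (y : ℤ) (D : ℕ)
    (hc : u.Coprime (b * q)) (h : σ * (4 * (b : ℤ) ^ 5) = q * y ^ 2 - D * u ^ 2) :
    Int.gcd y u ∣ 2 := by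
  have hgu : Int.gcd y u ∣ u := by
    have := Int.gcd_dvd_right y (u : ℤ)
    exact_mod_cast this
  have hgy : (Int.gcd y u : ℤ) ∣ y := Int.gcd_dvd_left _ _
  have hgu' : (Int.gcd y u : ℤ) ∣ (u : ℤ) := Int.gcd_dvd_right _ _
  have h1 : (Int.gcd y u : ℤ) ^ 2 ∣ σ * (4 * (b : ℤ) ^ 5) := by
    rw [h]
    exact dvd_sub (Dvd.dvd.mul_left (pow_dvd_pow_of_dvd hgy 2) _)
      (Dvd.dvd.mul_left (pow_dvd_pow_of_dvd hgu' 2) _)
  have h2 : (Int.gcd y u : ℤ) ^ 2 ∣ 4 * (b : ℤ) ^ 5 := by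
    rcases hσ with rfl | rfl
    · rwa [one_mul] at h1
    · rwa [neg_one_mul, dvd_neg] at h1
  have h3 : (Int.gcd y u) ^ 2 ∣ 4 * b ^ 5 := by exact_mod_cast h2
  have h4 : ((Int.gcd y u) ^ 2).Coprime (b ^ 5) :=
    Nat.Coprime.pow 2 5 (Nat.Coprime.coprime_dvd_left hgu (Nat.Coprime.coprime_mul_right_right hc))
  have h5 : (Int.gcd y u) ^ 2 ∣ 2 ^ 2 := h4.dvd_of_dvd_mul_right h3
  exact (Nat.pow_dvd_pow_iff (by norm_num)).1 h5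

theorem one_sign (hROOT : S_ROOT) (σ : ℤ) (hσ : σ = 1 ∨ σ = -1) (N : ℕ) (hN : 1 ≤ N) (E : ℝ)
    (hE : 1 ≤ E) (Γ : Finset (ℕ × ℕ)) (hΓ : ∀ z ∈ Γ, 0 < z.1 ∧ 0 < z.2)
    (F : Finset (ℕ × ℕ × ℤ × ℕ × ℕ))
    (hF : ∀ x ∈ F, (x.1, x.2.1) ∈ Γ ∧ 0 < x.2.2.2.1 ∧ x.2.2.2.1.Coprime (x.1 * x.2.1) ∧
      σ * (4 * (x.1 : ℤ) ^ 5) = x.2.1 * x.2.2.1 ^ 2 - x.2.2.2.2 * x.2.2.2.1 ^ 2 ∧
      (x.2.1 : ℝ) * |(x.2.2.1 : ℝ)| ≤ E ∧ (x.2.2.2.1 : ℝ) * Real.sqrt N ≤ E) :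
    (F.card : ℝ) ≤ ∑ z ∈ Γ, ∑ u ∈ Icc 1 ⌊E / Real.sqrt N⌋₊,
      (((u ^ 2).divisors.card : ℝ) * (16 * (E / z.2) / (u : ℝ) ^ 2 + 1)) := by
  classical
  have hN0 : (0 : ℝ) < Real.sqrt N := by
    apply Real.sqrt_pos.2
    exact_mod_cast hN
  have h1 := Finset.card_eq_sum_card_fiberwise (s := F)
    (t := Γ ×ˢ Icc 1 ⌊E / Real.sqrt N⌋₊)
    (f := fun x => ((x.1, x.2.1), x.2.2.2.1)) (by
      intro x hx
      obtain ⟨k1, k2, k3, k4, k5, k6⟩ := hF x hx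
      rw [Finset.mem_coe, Finset.mem_product, Finset.mem_Icc]
      refine ⟨k1, k2, ?_⟩
      apply Nat.le_floor
      rw [le_div_iff₀ hN0]
      exact k6)
  rw [h1, Finset.sum_product]
  push_cast
  refine Finset.sum_le_sum fun z hz => Finset.sum_le_sum fun u hu => ?_
  rw [Finset.mem_Icc] at hu
  obtain ⟨hz1, hz2⟩ := hΓ z hz
  set T := F.filter (fun x => ((x.1, x.2.1), x.2.2.2.1) = (z, u)) with hT
  rcases T.eq_empty_or_nonempty with hTe | ⟨x₀, hx₀⟩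
  · rw [hTe]
    simp only [card_empty, Nat.cast_zero]
    positivity
  have hx : ∀ x ∈ T, x ∈ F ∧ x.1 = z.1 ∧ x.2.1 = z.2 ∧ x.2.2.2.1 = u := by
    intro x hx
    rw [hT, Finset.mem_filter] at hx
    have e := hx.2
    simp only [Prod.mk.injEq] at e
    refine ⟨hx.1, ?_, ?_, e.2⟩
    · rw [← e.1]
    · rw [← e.1]
  have hcu : u.Coprime (z.1 * z.2) := by
    obtain ⟨a1, a2, a3, a4⟩ := hx x₀ hx₀
    have := (hF x₀ a1).2.2.1
    rwa [a2, a3, a4] at this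
  have hinj : Set.InjOn (fun x : ℕ × ℕ × ℤ × ℕ × ℕ => x.2.2.1) (T : Set _) := by
    intro x hxT x' hxT' hxx
    obtain ⟨a1, a2, a3, a4⟩ := hx x hxT
    obtain ⟨b1, b2, b3, b4⟩ := hx x' hxT'
    have e1 := (hF x a1).2.2.2.1
    have e2 := (hF x' b1).2.2.2.1
    simp only at hxx
    rw [a2, a3, a4] at e1
    rw [b2, b3, b4, ← hxx] at e2
    have hu0 : (u : ℤ) ^ 2 ≠ 0 := by
      have : 0 < u := by omega
      positivity
    have e3 : ((x.2.2.2.2 : ℕ) : ℤ) * (u : ℤ) ^ 2 = ((x'.2.2.2.2 : ℕ) : ℤ) * (u : ℤ) ^ 2 := by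
      linear_combination e1 - e2
    have e4 : x.2.2.2.2 = x'.2.2.2.2 := by exact_mod_cast mul_right_cancel₀ hu0 e3
    refine Prod.ext (a2.trans b2.symm) (Prod.ext (a3.trans b3.symm) (Prod.ext hxx
      (Prod.ext (a4.trans b4.symm) e4)))
  rw [← Finset.card_image_of_injOn hinj]
  have hz2' : (0 : ℝ) < z.2 := by exact_mod_cast hz2
  have h5 := hROOT u z.2 ⌊E / z.2⌋₊ (by omega)
    (Nat.Coprime.coprime_mul_left_right hcu).symm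
    (T.image (fun x : ℕ × ℕ × ℤ × ℕ × ℕ => x.2.2.1)) (by
      intro y hy
      obtain ⟨x, hxT, rfl⟩ := Finset.mem_image.1 hy
      obtain ⟨a1, a2, a3, a4⟩ := hx x hxT
      have e1 := (hF x a1).2.2.2.2.1
      rw [a3] at e1
      have e2 : ((x.2.2.1.natAbs : ℕ) : ℝ) ≤ E / z.2 := by
        rw [le_div_iff₀ hz2', Nat.cast_natAbs, Int.cast_abs, mul_comm]
        exact e1
      have e3 : x.2.2.1.natAbs ≤ ⌊E / z.2⌋₊ := Nat.le_floor e2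
      rw [Int.abs_eq_natAbs]
      exact_mod_cast e3) (by
      intro y hy
      obtain ⟨x, hxT, rfl⟩ := Finset.mem_image.1 hy
      obtain ⟨a1, a2, a3, a4⟩ := hx x hxT
      have e1 := (hF x a1).2.2.2.1
      rw [a2, a3, a4] at e1
      exact gcd_dvd σ hσ z.1 z.2 u _ _ hcu e1) (by
      intro y hy y' hy'
      obtain ⟨x, hxT, rfl⟩ := Finset.mem_image.1 hy
      obtain ⟨x', hxT', rfl⟩ := Finset.mem_image.1 hy'
      obtain ⟨a1, a2, a3, a4⟩ := hx x hxT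
      obtain ⟨b1, b2, b3, b4⟩ := hx x' hxT'
      have e1 := (hF x a1).2.2.2.1
      have e2 := (hF x' b1).2.2.2.1
      rw [a2, a3, a4] at e1
      rw [b2, b3, b4] at e2
      exact ⟨(x.2.2.2.2 : ℤ) - x'.2.2.2.2, by linear_combination e2 - e1⟩)
  refine h5.trans ?_
  have h6 : ((⌊E / z.2⌋₊ : ℕ) : ℝ) ≤ E / z.2 := Nat.floor_le (by positivity)
  gcongr

/-- the sum over `u` -/
theorem sum_u (C ε : ℝ) (hC : 0 < C) (hε : 0 < ε) (hD : ∀ n : ℕ, 1 ≤ n →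
    (n.divisors.card : ℝ) ≤ C * (n : ℝ) ^ (ε / 2)) (U Z : ℕ) (hU : U ≤ Z) (A : ℝ) (hA : 0 ≤ A) :
    ∑ u ∈ Icc 1 U, (((u ^ 2).divisors.card : ℝ) * (16 * A / (u : ℝ) ^ 2 + 1)) ≤
      C * (Z : ℝ) ^ ε * (32 * A + U) := by
  have h1 : ∀ u ∈ Icc 1 U, (((u ^ 2).divisors.card : ℝ) * (16 * A / (u : ℝ) ^ 2 + 1)) ≤
      C * (Z : ℝ) ^ ε * (16 * A * ((u : ℝ) ^ 2)⁻¹ + 1) := by
    intro u hu
    rw [Finset.mem_Icc] at hu
    have h2 := hD (u ^ 2) (Nat.one_le_pow _ _ (by omega))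
    have h3 : ((u ^ 2 : ℕ) : ℝ) ^ (ε / 2) = (u : ℝ) ^ ε := by
      push_cast
      rw [← Real.rpow_natCast, ← Real.rpow_mul (by positivity)]
      congr 1
      push_cast
      ring
    have h4 : (u : ℝ) ^ ε ≤ (Z : ℝ) ^ ε := by
      apply Real.rpow_le_rpow (by positivity) _ hε.le
      exact_mod_cast hu.2.trans hU
    have h5 : ((u ^ 2).divisors.card : ℝ) ≤ C * (Z : ℝ) ^ ε := by
      rw [h3] at h2
      exact h2.trans (by gcongr)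
    rw [← div_eq_mul_inv]
    gcongr
  have h6 : ∑ u ∈ Icc 1 U, ((u : ℝ) ^ 2)⁻¹ ≤ 2 := by
    have h7 := sum_Ioo_inv_sq_le (α := ℝ) 0 (U + 1)
    have e : Ioo 0 (U + 1) = Icc 1 U := by
      ext x
      simp only [Finset.mem_Ioo, Finset.mem_Icc]
      omega
    rw [e] at h7
    simpa using h7
  calc _ ≤ ∑ u ∈ Icc 1 U, C * (Z : ℝ) ^ ε * (16 * A * ((u : ℝ) ^ 2)⁻¹ + 1) := Finset.sum_le_sum h1
    _ = C * (Z : ℝ) ^ ε * (16 * A * ∑ u ∈ Icc 1 U, ((u : ℝ) ^ 2)⁻¹ + U) := by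
        rw [← Finset.mul_sum, Finset.sum_add_distrib, ← Finset.mul_sum]
        simp
    _ ≤ C * (Z : ℝ) ^ ε * (16 * A * 2 + U) := by gcongr
    _ = _ := by ring

end ZBR

theorem t_ZBR (hROOT : S_ROOT) (hDIV : S_DIV) : S_ZBR := by
  classical
  intro ε hε
  obtain ⟨C, hC, hD⟩ := hDIV (ε / 2) (by positivity)
  refine ⟨64 * C, by positivity, ?_⟩
  intro N Z hN hNZ E hE hEZ Γ hΓ F hF
  have hN0 : (0 : ℝ) < Real.sqrt N := by
    apply Real.sqrt_pos.2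
    exact_mod_cast hN
  have hN1 : (1 : ℝ) ≤ Real.sqrt N := by
    rw [Real.one_le_sqrt]
    exact_mod_cast hN
  have hU : ⌊E / Real.sqrt N⌋₊ ≤ Z := by
    have h1 : ((⌊E / Real.sqrt N⌋₊ : ℕ) : ℝ) ≤ Z := by
      refine (Nat.floor_le (by positivity)).trans ?_
      exact (div_le_self (by linarith) hN1).trans hEZ
    exact_mod_cast h1
  have hsum : ∑ z ∈ Γ, ∑ u ∈ Icc 1 ⌊E / Real.sqrt N⌋₊,
      (((u ^ 2).divisors.card : ℝ) * (16 * (E / z.2) / (u : ℝ) ^ 2 + 1)) ≤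
      32 * C * (Z : ℝ) ^ ε * (E * ∑ z ∈ Γ, 1 / (z.2 : ℝ) + E / Real.sqrt N * Γ.card) := by
    calc _ ≤ ∑ z ∈ Γ, C * (Z : ℝ) ^ ε * (32 * (E / z.2) + E / Real.sqrt N) := by
          refine Finset.sum_le_sum fun z hz => ?_
          refine (ZBR.sum_u C ε hC hε (fun n hn => (hD n hn).1) _ Z hU (E / z.2)
            (by positivity)).trans ?_
          have h6 : ((⌊E / Real.sqrt N⌋₊ : ℕ) : ℝ) ≤ E / Real.sqrt N :=
            Nat.floor_le (by positivity)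
          gcongr
      _ ≤ ∑ z ∈ Γ, C * (Z : ℝ) ^ ε * (32 * (E / z.2) + 32 * (E / Real.sqrt N)) := by
          refine Finset.sum_le_sum fun z hz => ?_
          have h7 : 0 ≤ E / Real.sqrt N := by positivity
          gcongr
          linarith
      _ = _ := by
          rw [← Finset.mul_sum, Finset.sum_add_distrib, ← Finset.mul_sum, Finset.sum_const,
            nsmul_eq_mul]
          have e : ∑ z ∈ Γ, E / (z.2 : ℝ) = E * ∑ z ∈ Γ, 1 / (z.2 : ℝ) := by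
            rw [Finset.mul_sum]
            exact Finset.sum_congr rfl fun z _ => by rw [mul_one_div]
          rw [e]
          ring
  have hF' : ∀ x ∈ F, (x.1, x.2.1) ∈ Γ ∧ 0 < x.2.2.2.1 ∧ x.2.2.2.1.Coprime (x.1 * x.2.1) ∧
      (4 * (x.1 : ℤ) ^ 5 = x.2.1 * x.2.2.1 ^ 2 - x.2.2.2.2 * x.2.2.2.1 ^ 2 ∨
        -(4 * (x.1 : ℤ) ^ 5) = x.2.1 * x.2.2.1 ^ 2 - x.2.2.2.2 * x.2.2.2.1 ^ 2) ∧
      (x.2.1 : ℝ) * |(x.2.2.1 : ℝ)| ≤ E ∧ (x.2.2.2.1 : ℝ) * Real.sqrt N ≤ E := by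
    rintro ⟨b, q, y, u, D'⟩ hx
    exact hF _ hx
  set P : ℕ × ℕ × ℤ × ℕ × ℕ → Prop := fun x =>
    4 * (x.1 : ℤ) ^ 5 = x.2.1 * x.2.2.1 ^ 2 - x.2.2.2.2 * x.2.2.2.1 ^ 2 with hP
  have h1 := ZBR.one_sign hROOT 1 (Or.inl rfl) N hN E hE Γ hΓ (F.filter P) (by
    intro x hx
    rw [Finset.mem_filter] at hx
    obtain ⟨k1, k2, k3, k4, k5, k6⟩ := hF' x hx.1
    refine ⟨k1, k2, k3, ?_, k5, k6⟩
    rw [one_mul]
    exact hx.2)
  have h2 := ZBR.one_sign hROOT (-1) (Or.inr rfl) N hN E hE Γ hΓ (F.filter (fun x => ¬ P x)) (by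
    intro x hx
    rw [Finset.mem_filter] at hx
    obtain ⟨k1, k2, k3, k4, k5, k6⟩ := hF' x hx.1
    refine ⟨k1, k2, k3, ?_, k5, k6⟩
    rw [neg_one_mul]
    rcases k4 with h | h
    · exact absurd h hx.2
    · exact h)
  have h3 : (F.card : ℝ) = ((F.filter P).card : ℝ) + ((F.filter (fun x => ¬ P x)).card : ℝ) := by
    rw [← Finset.card_filter_add_card_filter_not (s := F) P]
    push_cast
    ring
  rw [h3]
  have h4 := h1.trans hsum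
  have h5 := h2.trans hsum
  calc _ ≤ 32 * C * (Z : ℝ) ^ ε * (E * ∑ z ∈ Γ, 1 / (z.2 : ℝ) + E / Real.sqrt N * Γ.card) +
      32 * C * (Z : ℝ) ^ ε * (E * ∑ z ∈ Γ, 1 / (z.2 : ℝ) + E / Real.sqrt N * Γ.card) :=
        add_le_add h4 h5
    _ = _ := by ring

end Pool.Agent.T2h80.R5
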