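import Pool.Agent.T2h80.R5.ZAR

/-! Project R5, part ZERR: the tuples with `u₁ = 0` or `u₂ = 0`. -/

set_option autoImplicit false

namespace Pool.Agent.T2h80.R5

open Finset Pool.Agent.T2h80.F5

namespace ZERR

/-- the symmetry -/
theorem REL_symm (D ρ : ℕ) (m a x₁ u₁ x₂ u₂ : ℤ) (h : RELR D ρ m a x₁ u₁ x₂ u₂) :
    RELR D ρ a m x₂ u₂ (-x₁ - thR D * u₁) u₁ := by
  obtain ⟨hρ, hm, ha, hu1, hu2, hc1, hc2, hN1, hN2, hD1, hD2, hD3, hD4⟩ := h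
  have hth := ZAR.thR_sq D
  refine ⟨hρ, ha, hm, hu2, hu1, by rwa [mul_comm a m], ?_, hN2, ?_, ?_, ?_, ?_, ?_⟩
  · rw [Int.gcd_comm, mul_right_comm]
    exact hc2
  · rw [← hN1]
    ring
  · have e : x₂ * u₁ + (-x₁ - thR D * u₁) * u₂ + thR D * u₂ * u₁ = x₂ * u₁ - x₁ * u₂ := by ring
    rw [e]
    exact hD2
  · have e : (-x₁ - thR D * u₁) * u₂ - x₂ * u₁ = -(x₁ * u₂ + x₂ * u₁ + thR D * u₁ * u₂) := by ring
    rw [e, dvd_neg]
    exact hD1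
  · have e : u₂ * (-x₁ - thR D * u₁) ^ 2 - 2 * x₂ * (-x₁ - thR D * u₁) * u₁ - thR D * x₂ * u₁ ^ 2 -
        n0R D * u₂ * u₁ ^ 2 = x₁ ^ 2 * u₂ + 2 * x₁ * x₂ * u₁ + 2 * thR D * x₁ * u₁ * u₂ +
          thR D * x₂ * u₁ ^ 2 + thR D * u₁ ^ 2 * u₂ - n0R D * u₁ ^ 2 * u₂ := by
      linear_combination (u₂ * u₁ ^ 2) * hth
    rw [e]
    exact hD4
  · have e : x₂ ^ 2 * u₁ + 2 * x₂ * (-x₁ - thR D * u₁) * u₂ + 2 * thR D * x₂ * u₂ * u₁ +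
        thR D * (-x₁ - thR D * u₁) * u₂ ^ 2 + thR D * u₂ ^ 2 * u₁ - n0R D * u₂ ^ 2 * u₁ =
        u₁ * x₂ ^ 2 - 2 * x₁ * x₂ * u₂ - thR D * x₁ * u₂ ^ 2 - n0R D * u₁ * u₂ ^ 2 := by
      linear_combination (-(u₁ * u₂ ^ 2)) * hth
    rw [e]
    exact hD3

abbrev Tp := ℕ × ℕ × ℤ × ℤ × ℤ × ℤ × ℤ × ℤ

/-- the symmetry on tuples -/
def tau (x : Tp) : Tp := (x.1, x.2.1, x.2.2.2.1, x.2.2.1, x.2.2.2.2.2.2.1, x.2.2.2.2.2.2.2,
  -x.2.2.2.2.1 - thR x.1 * x.2.2.2.2.2.1, x.2.2.2.2.2.1)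

theorem tau_inj : Function.Injective tau := by
  rintro ⟨d, ρ, m, a, x₁, u₁, x₂, u₂⟩ ⟨d', ρ', m', a', x₁', u₁', x₂', u₂'⟩ h
  simp only [tau, Prod.mk.injEq] at h
  obtain ⟨rfl, rfl, rfl, rfl, rfl, rfl, h1, rfl⟩ := h
  have : x₁ = x₁' := by linarith
  rw [this]

/-- the conditions -/
def Cnd (N : ℕ) (E B X : ℝ) (x : Tp) : Prop :=
  N < x.1 ∧ (x.1 % 4 = 0 ∨ x.1 % 4 = 1) ∧
  RELR x.1 x.2.1 x.2.2.1 x.2.2.2.1 x.2.2.2.2.1 x.2.2.2.2.2.1 x.2.2.2.2.2.2.1 x.2.2.2.2.2.2.2 ∧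
  x.2.2.2.2.2.1 = 0 ∧ x.2.2.2.2.2.2.2 ≠ 0 ∧ |(x.2.2.1 : ℝ)| ≤ X ∧ (x.2.2.2.1 : ℝ) ≤ B ^ 2 ∧
  |2 * (x.2.2.2.2.2.2.1 : ℝ) + ((thR x.1 : ℤ) : ℝ) * (x.2.2.2.2.2.2.2 : ℝ)| ≤ E ∧
  (x.2.2.2.2.2.2.2 : ℝ) * Real.sqrt N ≤ E

/-- the conditions on the image -/
def Im (N : ℕ) (E B X : ℝ) (z : ℕ × ℕ × ℤ × ℕ × ℕ) : Prop :=
  (0 < z.1 ∧ 0 < z.2.1 ∧ (z.1 : ℝ) ≤ B ∧ (z.1 : ℝ) * z.2.1 ≤ X) ∧ 0 < z.2.2.2.1 ∧
  z.2.2.2.1.Coprime (z.1 * z.2.1) ∧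
  (4 * (z.1 : ℤ) ^ 5 = z.2.1 * z.2.2.1 ^ 2 - z.2.2.2.2 * z.2.2.2.1 ^ 2 ∨
    -(4 * (z.1 : ℤ) ^ 5) = z.2.1 * z.2.2.1 ^ 2 - z.2.2.2.2 * z.2.2.2.1 ^ 2) ∧
  (z.2.1 : ℝ) * |(z.2.2.1 : ℝ)| ≤ E ∧ (z.2.2.2.1 : ℝ) * Real.sqrt N ≤ E

/-- the map -/
def Sp (N : ℕ) (E B X : ℝ) (x : Tp) (z : ℕ × ℕ × ℤ × ℕ × ℕ) : Prop :=
  Im N E B X z ∧ x.2.1 = 1 ∧ |x.2.2.1| = z.1 * z.2.1 ∧
  x.2.2.2.1 = (z.1 : ℤ) ^ 2 ∧ x.2.2.2.2.1 ^ 2 = ((z.1 : ℤ) ^ 2 * z.2.1) ^ 2 ∧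
  2 * x.2.2.2.2.2.2.1 + thR x.1 * x.2.2.2.2.2.2.2 = z.2.1 * z.2.2.1 ∧ x.1 = z.2.1 * z.2.2.2.2 ∧
  x.2.2.2.2.2.2.2 = z.2.2.2.1

theorem exists_Sp (hZAR : S_ZAR) (N : ℕ) (E B X : ℝ) (hB0 : 0 < B) (x : Tp)
    (h : Cnd N E B X x) : ∃ z, Sp N E B X x z := by
  obtain ⟨D, ρ, m, a, x₁, u₁, x₂, u₂⟩ := x
  obtain ⟨hN1, hd4, hR, h1, h2, hX, hB, hE1, hE2⟩ := h
  simp only at hN1 hd4 hR h1 h2 hX hB hE1 hE2
  subst h1
  obtain ⟨hρ, b, q, D', y, hb, hq, hm, ha, hx, hy, hd, he, hc⟩ :=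
    hZAR D ρ m a x₁ x₂ u₂ hd4 hR h2
  subst hρ
  have hu2 : 0 ≤ u₂ := hR.2.2.2.2.1
  have hun : (u₂.natAbs : ℤ) = u₂ := Int.natAbs_of_nonneg hu2
  have hunR : ((u₂.natAbs : ℕ) : ℝ) = (u₂ : ℝ) := by
    rw [← Int.cast_natCast, hun]
  have hqz : (q : ℤ) ≠ 0 := by positivity
  refine ⟨(b, q, y, u₂.natAbs, D'), ⟨⟨hb, hq, ?_, ?_⟩, Int.natAbs_pos.2 h2, hc, ?_, ?_, ?_⟩,
    rfl, hm, ha, hx, hy, hd, hun.symm⟩
  · simp only
    have h3 : (b : ℝ) ^ 2 ≤ B ^ 2 := by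
      have : (a : ℝ) = (b : ℝ) ^ 2 := by rw [ha]; push_cast; ring
      rw [← this]; exact hB
    exact (pow_le_pow_iff_left₀ (by positivity) hB0.le two_ne_zero).1 h3
  · simp only
    have h3 : |(m : ℝ)| = (b : ℝ) * q := by
      have := congrArg (Int.cast (R := ℝ)) hm
      push_cast at this
      exact this
    rw [← h3]; exact hX
  · simp only
    rw [hun]
    rcases abs_choice m with hs | hs
    · left
      rw [hs] at hm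
      have h4 : (q : ℤ) * (4 * (b : ℤ) ^ 5) = q * (q * y ^ 2 - D' * u₂ ^ 2) := by
        rw [← he, hm]; ring
      exact mul_left_cancel₀ hqz h4
    · right
      rw [hs] at hm
      have hm' : m = -(b * q : ℤ) := by linarith
      have h4 : (q : ℤ) * (-(4 * (b : ℤ) ^ 5)) = q * (q * y ^ 2 - D' * u₂ ^ 2) := by
        rw [← he, hm']; ring
      exact mul_left_cancel₀ hqz h4
  · simp only
    have h3 : 2 * (x₂ : ℝ) + ((thR D : ℤ) : ℝ) * (u₂ : ℝ) = (q : ℝ) * (y : ℝ) := by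
      have := congrArg (Int.cast (R := ℝ)) hy
      push_cast at this
      exact this
    rw [h3, abs_mul, Nat.abs_cast] at hE1
    exact hE1
  · simp only
    rw [hunR]
    exact hE2

/-- the injection -/
theorem card_le (hZAR : S_ZAR) (N : ℕ) (E B X : ℝ) (hB0 : 0 < B)
    (T : ℝ) (hT : ∀ G : Finset (ℕ × ℕ × ℤ × ℕ × ℕ), (∀ z ∈ G, Im N E B X z) → (G.card : ℝ) ≤ T)
    (F : Finset Tp) (hF : ∀ x ∈ F, Cnd N E B X x) :
    (F.card : ℝ) ≤ 4 * T := by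
  classical
  let Ψ : Tp → ℕ × ℕ × ℤ × ℕ × ℕ := fun x =>
    if h : ∃ z, Sp N E B X x z then h.choose else default
  have hΨ : ∀ x ∈ F, Sp N E B X x (Ψ x) := by
    intro x hx
    have h : ∃ z, Sp N E B X x z := exists_Sp hZAR N E B X hB0 x (hF x hx)
    have e : Ψ x = h.choose := dif_pos h
    rw [e]
    exact h.choose_spec
  have hG := hT (F.image Ψ) (by
    intro z hz
    obtain ⟨x, hx, rfl⟩ := mem_image.1 hz
    exact (hΨ x hx).1)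
  have hmap : ∀ x ∈ F, (fun x : Tp => (Ψ x, decide (0 < x.2.2.2.2.1), decide (0 < x.2.2.1))) x ∈
      (F.image Ψ) ×ˢ (Finset.univ : Finset (Bool × Bool)) := by
    intro x hx
    simp only [mem_product, mem_univ, and_true]
    exact mem_image_of_mem _ hx
  have hinj : Set.InjOn
      (fun x : Tp => (Ψ x, decide (0 < x.2.2.2.2.1), decide (0 < x.2.2.1))) (F : Set Tp) := by
    intro x hx x' hx' hxx
    simp only [Prod.mk.injEq, decide_eq_decide] at hxx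
    have s1 := hΨ x hx
    have s2 := hΨ x' hx'
    have t1 := hF x hx
    have t2 := hF x' hx'
    rw [← hxx.1] at s2
    obtain ⟨d, ρ, m, a, x₁, u₁, x₂, u₂⟩ := x
    obtain ⟨d', ρ', m', a', x₁', u₁', x₂', u₂'⟩ := x'
    obtain ⟨p0, p1, p2, p3, p4, p5, p6, p7⟩ := s1
    obtain ⟨q0, q1, q2, q3, q4, q5, q6, q7⟩ := s2
    have hsg := hxx.2.1
    have hsm := hxx.2.2
    have v1 := t1.2.2.2.1
    have v2 := t2.2.2.2.1
    simp only at p1 p2 p3 p4 p5 p6 p7 q1 q2 q3 q4 q5 q6 q7 hsg hsm v1 v2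
    have g1 : ρ = ρ' := by rw [p1, q1]
    have g2' : |m| = |m'| := by rw [p2, q2]
    have g3 : a = a' := by rw [p3, q3]
    have g4 : d = d' := by rw [p6, q6]
    have g5 : u₂ = u₂' := by rw [p7, q7]
    have g6 : u₁ = u₁' := by rw [v1, v2]
    have hm0 : m ≠ 0 := t1.2.2.1.2.1
    have g2 : m = m' := by
      rcases abs_eq_abs.1 g2' with h | h
      · exact h
      · omega
    subst g1 g2 g3 g4 g5 g6
    have g7 : x₂ = x₂' := by linarith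
    have g8 : x₁ ^ 2 = x₁' ^ 2 := by rw [p4, q4]
    have hne : x₁ ≠ 0 := by
      intro h0
      have h1 := p0.1.1
      have h2 := p0.1.2.1
      have h3 : (0 : ℤ) < x₁ ^ 2 := by rw [p4]; positivity
      rw [h0] at h3
      norm_num at h3
    have g9 : x₁ = x₁' := by
      rcases sq_eq_sq_iff_eq_or_eq_neg.1 g8 with h | h
      · exact h
      · omega
    rw [g7, g9]
  have h := Finset.card_le_card_of_injOn _ hmap hinj
  rw [card_product, Finset.card_univ, Fintype.card_prod, Fintype.card_bool] at h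
  have h' : (F.card : ℝ) ≤ ((F.image Ψ).card : ℝ) * 4 := by exact_mod_cast h
  linarith

/-- the harmonic sum -/
noncomputable def Hs (n : ℕ) : ℝ := ∑ q ∈ Icc 1 n, 1 / (q : ℝ)

theorem Hs_le (n : ℕ) : Hs n ≤ 1 + Real.log n := by
  have h := harmonic_le_one_add_log n
  rw [harmonic_eq_sum_Icc] at h
  push_cast at h
  simpa [Hs, one_div] using h

theorem Hs_nonneg (n : ℕ) : 0 ≤ Hs n := by
  unfold Hs; positivity

theorem Hs_bound (ε : ℝ) (hε : 0 < ε) : ∃ C : ℝ, 0 < C ∧ ∀ N : ℕ, 1 ≤ N → ∀ X : ℝ,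
    X ≤ 10 ^ 30 * N → Hs ⌊X⌋₊ ≤ C * (N : ℝ) ^ ε := by
  obtain ⟨L, hL⟩ : ∃ L : ℝ, L = Real.log (10 ^ 30) := ⟨_, rfl⟩
  have hL0 : 0 < L := by rw [hL]; exact Real.log_pos (by norm_num)
  refine ⟨1 + L + 1 / ε, by positivity, fun N hN X hX => ?_⟩
  have hN1 : (1 : ℝ) ≤ N := by exact_mod_cast hN
  have hNe : (1 : ℝ) ≤ (N : ℝ) ^ ε := Real.one_le_rpow hN1 hε.le
  have h1 : Real.log (⌊X⌋₊ : ℝ) ≤ L + (N : ℝ) ^ ε / ε := by
    rcases Nat.eq_zero_or_pos ⌊X⌋₊ with h0 | h0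
    · rw [h0]; simp only [Nat.cast_zero, Real.log_zero]; positivity
    · have hX0 : 0 ≤ X := by
        by_contra hneg
        push Not at hneg
        rw [Nat.floor_of_nonpos hneg.le] at h0
        exact absurd h0 (lt_irrefl 0)
      have h2 : (⌊X⌋₊ : ℝ) ≤ 10 ^ 30 * N := (Nat.floor_le hX0).trans hX
      have h3 : Real.log (⌊X⌋₊ : ℝ) ≤ Real.log (10 ^ 30 * N) :=
        Real.log_le_log (by exact_mod_cast h0) h2
      rw [Real.log_mul (by norm_num) (by positivity), ← hL] at h3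
      have h4 := Real.log_le_rpow_div (x := (N : ℝ)) (by positivity) hε
      linarith
  have h5 : (1 + L) * 1 ≤ (1 + L) * (N : ℝ) ^ ε := mul_le_mul_of_nonneg_left hNe (by positivity)
  calc Hs ⌊X⌋₊ ≤ 1 + Real.log (⌊X⌋₊ : ℝ) := Hs_le _
    _ ≤ 1 + (L + (N : ℝ) ^ ε / ε) := by linarith
    _ ≤ (1 + L) * (N : ℝ) ^ ε + (N : ℝ) ^ ε / ε := by linarith
    _ = (1 + L + 1 / ε) * (N : ℝ) ^ ε := by ring

/-- the set of the pairs -/
noncomputable def Gam (B X : ℝ) : Finset (ℕ × ℕ) :=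
  ((Icc 1 ⌊B⌋₊) ×ˢ (Icc 1 ⌊X⌋₊)).filter (fun z => (z.1 : ℝ) * z.2 ≤ X)

theorem mem_Gam (B X : ℝ) (b q : ℕ) (hb : 0 < b) (hq : 0 < q) (hbB : (b : ℝ) ≤ B)
    (hbq : (b : ℝ) * q ≤ X) : (b, q) ∈ Gam B X := by
  unfold Gam
  rw [mem_filter, mem_product, mem_Icc, mem_Icc]
  refine ⟨⟨⟨hb, Nat.le_floor hbB⟩, hq, Nat.le_floor ?_⟩, hbq⟩
  have : (q : ℝ) ≤ (b : ℝ) * q := by
    have : (1 : ℝ) ≤ b := by exact_mod_cast hb
    have : (0 : ℝ) ≤ q := by positivity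
    nlinarith
  linarith

theorem sum_Gam (B X : ℝ) (hB : 0 ≤ B) : ∑ z ∈ Gam B X, 1 / (z.2 : ℝ) ≤ B * Hs ⌊X⌋₊ := by
  calc ∑ z ∈ Gam B X, 1 / (z.2 : ℝ) ≤ ∑ z ∈ (Icc 1 ⌊B⌋₊) ×ˢ (Icc 1 ⌊X⌋₊), 1 / (z.2 : ℝ) :=
        sum_le_sum_of_subset_of_nonneg (filter_subset _ _) (fun _ _ _ => by positivity)
    _ = (⌊B⌋₊ : ℝ) * Hs ⌊X⌋₊ := by
        rw [sum_product]
        simp [Hs]
    _ ≤ B * Hs ⌊X⌋₊ := mul_le_mul_of_nonneg_right (Nat.floor_le hB) (Hs_nonneg _)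

theorem card_Gam (B X : ℝ) (hX : 0 ≤ X) : ((Gam B X).card : ℝ) ≤ X * (Hs ⌊B⌋₊ * Hs ⌊X⌋₊) := by
  have h1 : ((Gam B X).card : ℝ) = ∑ z ∈ Gam B X, (1 : ℝ) := by simp
  rw [h1]
  calc ∑ z ∈ Gam B X, (1 : ℝ) ≤ ∑ z ∈ Gam B X, X * ((1 / (z.1 : ℝ)) * (1 / (z.2 : ℝ))) := by
        refine sum_le_sum fun z hz => ?_
        unfold Gam at hz
        rw [mem_filter, mem_product, mem_Icc, mem_Icc] at hz
        have hz1 : (0 : ℝ) < z.1 := by exact_mod_cast hz.1.1.1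
        have hz2 : (0 : ℝ) < z.2 := by exact_mod_cast hz.1.2.1
        have e : X * ((1 / (z.1 : ℝ)) * (1 / (z.2 : ℝ))) = X / (z.1 * z.2) := by
          field_simp
        rw [e, le_div_iff₀ (by positivity)]
        linarith [hz.2]
    _ ≤ ∑ z ∈ (Icc 1 ⌊B⌋₊) ×ˢ (Icc 1 ⌊X⌋₊), X * ((1 / (z.1 : ℝ)) * (1 / (z.2 : ℝ))) :=
        sum_le_sum_of_subset_of_nonneg (filter_subset _ _) (fun _ _ _ => by positivity)
    _ = X * (Hs ⌊B⌋₊ * Hs ⌊X⌋₊) := by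
        rw [← mul_sum, sum_product, Hs, Hs, sum_mul_sum]

/-- the core estimate -/
theorem core (hZAR : S_ZAR) (hZBR : S_ZBR) (ε : ℝ) (hε : 0 < ε) : ∃ C : ℝ, 0 < C ∧
    ∀ N : ℕ, 1 ≤ N → ∀ E B X : ℝ, 1 ≤ E → E ≤ 10 ^ 30 * N → 0 < B → B ≤ 10 ^ 30 * N → 0 < X →
    X ≤ 10 ^ 30 * N → ∀ F : Finset Tp, (∀ x ∈ F, Cnd N E B X x) →
    (F.card : ℝ) ≤ C * (N : ℝ) ^ ε * (E * B + E / Real.sqrt N * X) := by
  obtain ⟨C₁, hC₁, h1⟩ := hZBR (ε / 3) (by positivity)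
  obtain ⟨C₂, hC₂, h2⟩ := Hs_bound (ε / 3) (by positivity)
  refine ⟨4 * (C₁ * ((10 : ℝ) ^ 30) ^ (ε / 3)) * (C₂ + C₂ ^ 2), by positivity,
    fun N hN E B X hE1 hEZ hB0 hB hX0 hX F hF => ?_⟩
  have hN1 : (1 : ℝ) ≤ N := by exact_mod_cast hN
  have hN0 : (0 : ℝ) < N := by linarith
  have hs0 : 0 < Real.sqrt N := Real.sqrt_pos.2 hN0
  set P : ℝ := (N : ℝ) ^ (ε / 3) with hP
  have hP1 : 1 ≤ P := Real.one_le_rpow hN1 (by positivity)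
  have hP3 : P * P * P = (N : ℝ) ^ ε := by
    rw [hP, ← Real.rpow_add hN0, ← Real.rpow_add hN0]
    congr 1
    ring
  have hHX : Hs ⌊X⌋₊ ≤ C₂ * P := h2 N hN X hX
  have hHB : Hs ⌊B⌋₊ ≤ C₂ * P := h2 N hN B hB
  have hT : ∀ G : Finset (ℕ × ℕ × ℤ × ℕ × ℕ), (∀ z ∈ G, Im N E B X z) →
      (G.card : ℝ) ≤ C₁ * ((10 : ℝ) ^ 30) ^ (ε / 3) * P *
        (E * (B * (C₂ * P)) + E / Real.sqrt N * (X * ((C₂ * P) * (C₂ * P)))) := by
    intro G hG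
    have hZ : ((10 ^ 30 * N : ℕ) : ℝ) = 10 ^ 30 * N := by push_cast; ring
    have h3 := h1 N (10 ^ 30 * N) hN (by omega) E hE1 (by rw [hZ]; exact hEZ) (Gam B X)
      (fun z hz => by
        unfold Gam at hz
        rw [mem_filter, mem_product, mem_Icc, mem_Icc] at hz
        exact ⟨hz.1.1.1, hz.1.2.1⟩) G (by
        rintro ⟨b, q, y, u, D'⟩ hz
        obtain ⟨⟨i1, i2, i3, i4⟩, i5, i6, i7, i8, i9⟩ := hG _ hz
        exact ⟨mem_Gam B X b q i1 i2 i3 i4, i5, i6, i7, i8, i9⟩)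
    rw [hZ, Real.mul_rpow (by positivity) (by positivity), ← mul_assoc] at h3
    refine h3.trans ?_
    have h4 : E * ∑ z ∈ Gam B X, 1 / (z.2 : ℝ) ≤ E * (B * (C₂ * P)) := by
      refine mul_le_mul_of_nonneg_left ?_ (by linarith)
      exact (sum_Gam B X hB0.le).trans (mul_le_mul_of_nonneg_left hHX hB0.le)
    have h5 : E / Real.sqrt N * ((Gam B X).card : ℝ) ≤
        E / Real.sqrt N * (X * ((C₂ * P) * (C₂ * P))) := by
      refine mul_le_mul_of_nonneg_left ?_ (by positivity)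
      refine (card_Gam B X hX0.le).trans (mul_le_mul_of_nonneg_left ?_ hX0.le)
      exact mul_le_mul hHB hHX (Hs_nonneg _) (by positivity)
    refine mul_le_mul_of_nonneg_left (by linarith) (by positivity)
  refine (card_le hZAR N E B X hB0 _ hT F hF).trans ?_
  set K : ℝ := C₁ * ((10 : ℝ) ^ 30) ^ (ε / 3) with hK
  have hK0 : 0 < K := by positivity
  have hPP : 0 < P := by linarith
  have e1 : 4 * (K * P * (E * (B * (C₂ * P)) + E / Real.sqrt N * (X * ((C₂ * P) * (C₂ * P))))) =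
      4 * K * (C₂ * (P * P) * (E * B) + C₂ ^ 2 * (P * P * P) * (E / Real.sqrt N * X)) := by ring
  rw [e1, ← hP3]
  have hEB : 0 ≤ E * B := by positivity
  have hEX : 0 ≤ E / Real.sqrt N * X := by positivity
  have h6 : P * P ≤ P * P * P := by nlinarith [mul_pos hPP hPP]
  have h7 : C₂ * (P * P) * (E * B) ≤ C₂ * (P * P * P) * (E * B) := by
    refine mul_le_mul_of_nonneg_right (mul_le_mul_of_nonneg_left h6 hC₂.le) hEB
  have h8 : 0 ≤ C₂ ^ 2 * (P * P * P) * (E * B) := by positivity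
  have h9 : 0 ≤ C₂ * (P * P * P) * (E / Real.sqrt N * X) := by positivity
  calc 4 * K * (C₂ * (P * P) * (E * B) + C₂ ^ 2 * (P * P * P) * (E / Real.sqrt N * X)) ≤
        4 * K * ((C₂ + C₂ ^ 2) * (P * P * P) * (E * B) +
          (C₂ + C₂ ^ 2) * (P * P * P) * (E / Real.sqrt N * X)) := by
        refine mul_le_mul_of_nonneg_left ?_ (by positivity)
        nlinarith
    _ = _ := by ring

theorem sq1 (x : ℤ) (h : x ^ 2 = 1) : x = 1 ∨ x = -1 := by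
  have h1 : (x - 1) * (x + 1) = 0 := by linear_combination h
  rcases mul_eq_zero.1 h1 with h2 | h2
  · left; omega
  · right; omega

/-- the tuples with `u₁ = u₂ = 0` -/
theorem part0 (N : ℕ) (F : Finset Tp)
    (hF : ∀ x ∈ F, (N < x.1 ∧ x.1 ≤ 2 * N) ∧
      RELR x.1 x.2.1 x.2.2.1 x.2.2.2.1 x.2.2.2.2.1 x.2.2.2.2.2.1 x.2.2.2.2.2.2.1 x.2.2.2.2.2.2.2 ∧
      x.2.2.2.2.2.1 = 0 ∧ x.2.2.2.2.2.2.2 = 0) :
    F.card ≤ 4 * N := by
  classical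
  have hsub : F ⊆ (Icc (N + 1) (2 * N)) ×ˢ ({1} : Finset ℕ) ×ˢ ({1} : Finset ℤ) ×ˢ
      ({1} : Finset ℤ) ×ˢ ({1, -1} : Finset ℤ) ×ˢ ({0} : Finset ℤ) ×ˢ ({1, -1} : Finset ℤ) ×ˢ
      ({0} : Finset ℤ) := by
    rintro ⟨d, ρ, m, a, x₁, u₁, x₂, u₂⟩ hx
    obtain ⟨⟨hN1, hN2⟩, hR, h1, h2⟩ := hF _ hx
    simp only at hN1 hN2 hR h1 h2
    subst h1 h2
    obtain ⟨hρ, hm, ha, _, _, hc1, hc2, hN1', hN2', _, _, _, _⟩ := hR
    have h3 : IsUnit ((ρ : ℤ) * m * a) := by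
      have : ((Int.gcd 0 0 : ℕ) : ℤ) = 0 := by simp
      rw [this, isCoprime_zero_right] at hc2
      exact hc2
    have h4 : IsUnit a := isUnit_of_mul_isUnit_right h3
    have h5 : IsUnit m := isUnit_of_mul_isUnit_right (isUnit_of_mul_isUnit_left h3)
    have h6 : IsUnit (ρ : ℤ) := isUnit_of_mul_isUnit_left (isUnit_of_mul_isUnit_left h3)
    have h7 : ρ = 1 := by
      rcases Int.isUnit_iff.1 h6 with h | h
      · exact_mod_cast h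
      · omega
    subst h7
    have ha2 : a ^ 2 = 1 := by
      rcases Int.isUnit_iff.1 h4 with h | h <;> rw [h] <;> norm_num
    have hm2 : m ^ 2 = 1 := by
      rcases Int.isUnit_iff.1 h5 with h | h <;> rw [h] <;> norm_num
    have h8 : x₁ ^ 2 = a := by
      have := hN1'
      rw [hm2] at this
      push_cast at this
      linarith
    have h9 : x₂ ^ 2 = m := by
      have := hN2'
      rw [ha2] at this
      push_cast at this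
      linarith
    have ha1 : a = 1 := by
      rcases Int.isUnit_iff.1 h4 with h | h
      · exact h
      · rw [h] at h8
        nlinarith [sq_nonneg x₁]
    have hm1 : m = 1 := by
      rcases Int.isUnit_iff.1 h5 with h | h
      · exact h
      · rw [h] at h9
        nlinarith [sq_nonneg x₂]
    subst ha1 hm1
    simp only [mem_product, mem_Icc, mem_singleton, mem_insert]
    exact ⟨⟨by omega, hN2⟩, trivial, trivial, trivial, sq1 x₁ h8, trivial, sq1 x₂ h9, trivial⟩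
  have h := card_le_card hsub
  simp only [card_product, card_singleton, Nat.card_Icc] at h
  have h2 : ({1, -1} : Finset ℤ).card = 2 := by decide
  rw [h2] at h
  omega

theorem E_sum (D : ℕ) (x u : ℤ) :
    E1 D x u + E2 D x u = 2 * (x : ℝ) + ((thR D : ℤ) : ℝ) * (u : ℝ) := by
  unfold E1 E2; ring

theorem E_diff (D : ℕ) (x u : ℤ) : E1 D x u - E2 D x u = u * Real.sqrt D := by
  unfold E1 E2; ring

theorem gen (N D : ℕ) (hN : N < D) (ρ : ℕ) (hρ : 0 < ρ) (x u : ℤ) (hu : 0 ≤ u) (A₁ A₂ T : ℝ)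
    (h1 : ρ * |E1 D x u| = A₁) (h2 : ρ * |E2 D x u| = A₂) (h : A₁ + A₂ ≤ T) :
    |2 * (x : ℝ) + ((thR D : ℤ) : ℝ) * (u : ℝ)| ≤ T ∧ (u : ℝ) * Real.sqrt N ≤ T := by
  have hρ1 : (1 : ℝ) ≤ ρ := by exact_mod_cast hρ
  have a1 : |E1 D x u| ≤ A₁ := by
    rw [← h1]; nlinarith [abs_nonneg (E1 D x u)]
  have a2 : |E2 D x u| ≤ A₂ := by
    rw [← h2]; nlinarith [abs_nonneg (E2 D x u)]
  constructor
  · rw [← E_sum]
    exact (abs_add_le _ _).trans (by linarith)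
  · have hu' : (0 : ℝ) ≤ u := by exact_mod_cast hu
    have h3 : Real.sqrt N ≤ Real.sqrt D := Real.sqrt_le_sqrt (by exact_mod_cast hN.le)
    have h4 : (u : ℝ) * Real.sqrt N ≤ u * Real.sqrt D := mul_le_mul_of_nonneg_left h3 hu'
    have h5 := E_diff D x u
    have h6 := le_abs_self (E1 D x u)
    have h7 := neg_abs_le (E2 D x u)
    linarith

/-- the sizes -/
theorem sizes (N : ℕ) (F Y : ℝ) (hF0 : 0 < F) (hY0 : 0 < Y) (D ρ : ℕ) (m a x₁ u₁ x₂ u₂ : ℤ)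
    (h : RelTR N F Y (D, ρ, m, a, x₁, u₁, x₂, u₂)) :
    1 ≤ F ∧ |(m : ℝ)| ≤ F ^ 2 ∧ |(a : ℝ)| ≤ 400 * Y ^ 2 ∧
    (|2 * (x₁ : ℝ) + ((thR D : ℤ) : ℝ) * (u₁ : ℝ)| ≤ kap * (F ^ 2 * Y) ∧
      (u₁ : ℝ) * Real.sqrt N ≤ kap * (F ^ 2 * Y)) ∧
    (|2 * (x₂ : ℝ) + ((thR D : ℤ) : ℝ) * (u₂ : ℝ)| ≤ kap * (F * Y ^ 2) ∧
      (u₂ : ℝ) * Real.sqrt N ≤ kap * (F * Y ^ 2)) := by
  obtain ⟨hN1, hN2, hd4, hR, f₁, f₂, g₁, g₂, ⟨f10, f20, g10, g20, hm, ha, e1, e2, e3, e4⟩,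
    hf1, hf2, _, _, _, hg1, hg2⟩ := h
  obtain ⟨hρ, hm0, ha0, hu1, hu2, _⟩ := hR
  have hρ1 : (1 : ℝ) ≤ ρ := by exact_mod_cast hρ
  have hm1 : (1 : ℝ) ≤ |(m : ℝ)| := by
    have : (1 : ℤ) ≤ |m| := Int.one_le_abs hm0
    exact_mod_cast this
  have hm2 : |(m : ℝ)| ≤ F ^ 2 := by
    calc |(m : ℝ)| ≤ ρ * |(m : ℝ)| := by nlinarith
      _ = f₁ * f₂ := hm.symm
      _ ≤ F * F := mul_le_mul hf1 hf2 f20.le hF0.le
      _ = F ^ 2 := by ring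
  have ha2 : |(a : ℝ)| ≤ 400 * Y ^ 2 := by
    calc |(a : ℝ)| ≤ ρ * |(a : ℝ)| := by nlinarith [abs_nonneg (a : ℝ)]
      _ = g₁ * g₂ := ha.symm
      _ ≤ (20 * Y) * (20 * Y) := mul_le_mul hg1 hg2 g20.le (by positivity)
      _ = 400 * Y ^ 2 := by ring
  have hF1 : 1 ≤ F := by
    by_contra hneg
    push Not at hneg
    nlinarith
  have sf1 : f₁ ^ 2 ≤ F ^ 2 := pow_le_pow_left₀ f10.le hf1 2
  have sf2 : f₂ ^ 2 ≤ F ^ 2 := pow_le_pow_left₀ f20.le hf2 2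
  have sg1 : g₁ ^ 2 ≤ (20 * Y) ^ 2 := pow_le_pow_left₀ g10.le hg1 2
  have sg2 : g₂ ^ 2 ≤ (20 * Y) ^ 2 := pow_le_pow_left₀ g20.le hg2 2
  refine ⟨hF1, hm2, ha2, gen N D hN1 ρ hρ x₁ u₁ hu1 _ _ _ e1 e2 ?_,
    gen N D hN1 ρ hρ x₂ u₂ hu2 _ _ _ e3 e4 ?_⟩
  · have t1 : f₁ ^ 2 * g₂ ≤ F ^ 2 * (20 * Y) := mul_le_mul sf1 hg2 g20.le (by positivity)
    have t2 : f₂ ^ 2 * g₁ ≤ F ^ 2 * (20 * Y) := mul_le_mul sf2 hg1 g10.le (by positivity)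
    have t3 : 0 ≤ F ^ 2 * Y := by positivity
    unfold kap
    nlinarith
  · have t1 : g₁ ^ 2 * f₁ ≤ (20 * Y) ^ 2 * F := mul_le_mul sg1 hf1 f10.le (by positivity)
    have t2 : g₂ ^ 2 * f₂ ≤ (20 * Y) ^ 2 * F := mul_le_mul sg2 hf2 f20.le (by positivity)
    have t3 : 0 ≤ F * Y ^ 2 := by positivity
    unfold kap
    nlinarith

end ZERR

open ZERR in
theorem t_ZERR (hZAR : S_ZAR) (hZBR : S_ZBR) (hDIV : Pool.Agent.T2h80.F5.S_DIV) : S_ZERR := by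
  intro ε hε
  have _ := hDIV
  obtain ⟨C, hC, hcore⟩ := core hZAR hZBR ε hε
  refine ⟨4 * kap + C * (20 * kap ^ 2 + kap ^ 3) + C * (401 * kap ^ 3), ?_,
    fun N F Y hP Fs hFs => ?_⟩
  · unfold kap; positivity
  classical
  obtain ⟨hN, hF0, hY0, p1, p2, p3⟩ := hP
  have hk0 : 0 < kap := by unfold kap; positivity
  have hN1 : (1 : ℝ) ≤ N := by exact_mod_cast hN
  have hN0 : (0 : ℝ) < N := by linarith
  have hNe : (1 : ℝ) ≤ (N : ℝ) ^ ε := Real.one_le_rpow hN1 hε.le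
  obtain ⟨s, hs⟩ : ∃ s : ℝ, s = Real.sqrt N := ⟨_, rfl⟩
  have hs2 : s * s = N := by rw [hs]; exact Real.mul_self_sqrt hN0.le
  have hs1 : 1 ≤ s := by rw [hs]; exact Real.one_le_sqrt.2 hN1
  have hs0 : 0 < s := by linarith
  rw [← hs] at p1 p2 p3 ⊢
  rcases Fs.eq_empty_or_nonempty with he | ⟨x0, hx0⟩
  · rw [he]
    simp only [card_empty, Nat.cast_zero]
    positivity
  have hF1 : 1 ≤ F := by
    obtain ⟨D, ρ, m, a, x₁, u₁, x₂, u₂⟩ := x0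
    exact (sizes N F Y hF0 hY0 D ρ m a x₁ u₁ x₂ u₂ (hFs _ hx0).1).1
  have hFF : F ≤ F ^ 2 := by nlinarith
  have hFs' : F ≤ kap * s := hFF.trans p1
  have hYF : Y ≤ F * Y := by nlinarith
  have hYs : Y ≤ kap * s := hYF.trans p3
  have hFY : F ≤ kap * Y := by
    have h1 : F ^ 2 ≤ (kap * Y) ^ 2 := by
      calc F ^ 2 ≤ kap * s := p1
        _ ≤ kap * (kap * Y ^ 2) := mul_le_mul_of_nonneg_left p2 hk0.le
        _ = (kap * Y) ^ 2 := by ring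
    exact (pow_le_pow_iff_left₀ hF0.le (by positivity) two_ne_zero).1 h1
  have hsN : s ≤ N := by nlinarith
  have hk3 : kap ^ 3 = 10 ^ 30 := by unfold kap; norm_num
  have hkk : kap ≤ 10 ^ 30 := by unfold kap; norm_num
  have hY2 : Y * Y ≤ kap * s * (kap * s) := mul_le_mul hYs hYs hY0.le (by positivity)
  -- the parameters
  have A1 : 1 ≤ kap * (F * Y ^ 2) := by
    have : kap * (F * Y ^ 2) = F * (kap * Y ^ 2) := by ring
    rw [this]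
    have h2 : 1 ≤ kap * Y ^ 2 := hs1.trans p2
    nlinarith
  have A2 : kap * (F * Y ^ 2) ≤ 10 ^ 30 * N := by
    calc kap * (F * Y ^ 2) = kap * ((F * Y) * Y) := by ring
      _ ≤ kap * ((kap * s) * (kap * s)) :=
        mul_le_mul_of_nonneg_left (mul_le_mul p3 hYs hY0.le (by positivity)) hk0.le
      _ = kap ^ 3 * (s * s) := by ring
      _ = 10 ^ 30 * N := by rw [hk3, hs2]
  have A3 : 20 * Y ≤ 10 ^ 30 * N := by
    calc 20 * Y ≤ 20 * (kap * s) := by linarith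
      _ ≤ 10 ^ 30 * s := by
        have : 20 * kap ≤ 10 ^ 30 := by unfold kap; norm_num
        nlinarith
      _ ≤ 10 ^ 30 * N := by nlinarith
  have A4 : F ^ 2 ≤ 10 ^ 30 * N := by
    calc F ^ 2 ≤ kap * s := p1
      _ ≤ 10 ^ 30 * N := mul_le_mul hkk hsN hs0.le (by positivity)
  have B1 : 1 ≤ kap * (F ^ 2 * Y) := by
    have : kap * (F ^ 2 * Y) = F * F * (kap * Y) := by ring
    rw [this]
    have h2 : 1 ≤ kap * Y := hF1.trans hFY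
    have h3 : 1 ≤ F * F := by nlinarith
    nlinarith
  have B2 : kap * (F ^ 2 * Y) ≤ 10 ^ 30 * N := by
    calc kap * (F ^ 2 * Y) = kap * (F * (F * Y)) := by ring
      _ ≤ kap * ((kap * s) * (kap * s)) :=
        mul_le_mul_of_nonneg_left (mul_le_mul hFs' p3 (by positivity) (by positivity)) hk0.le
      _ = kap ^ 3 * (s * s) := by ring
      _ = 10 ^ 30 * N := by rw [hk3, hs2]
  have B3 : F ≤ 10 ^ 30 * N := hFF.trans A4
  have B4 : 400 * Y ^ 2 ≤ 10 ^ 30 * N := by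
    calc 400 * Y ^ 2 = 400 * (Y * Y) := by ring
      _ ≤ 400 * (kap * s * (kap * s)) := by linarith
      _ = 400 * kap ^ 2 * (s * s) := by ring
      _ = 400 * kap ^ 2 * N := by rw [hs2]
      _ ≤ 10 ^ 30 * N := by
        refine mul_le_mul_of_nonneg_right ?_ hN0.le
        unfold kap; norm_num
  set F0 := Fs.filter (fun x => x.2.2.2.2.2.1 = 0 ∧ x.2.2.2.2.2.2.2 = 0) with hF0'
  set FA := Fs.filter (fun x => x.2.2.2.2.2.1 = 0 ∧ x.2.2.2.2.2.2.2 ≠ 0) with hFA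
  set FB := Fs.filter (fun x => x.2.2.2.2.2.1 ≠ 0 ∧ x.2.2.2.2.2.2.2 = 0) with hFB
  have hU : Fs ⊆ F0 ∪ (FA ∪ FB) := by
    intro x hx
    simp only [mem_union, hF0', hFA, hFB, mem_filter]
    have := (hFs x hx).2
    tauto
  have h0 : F0.card ≤ 4 * N := part0 N F0 fun x hx => by
    obtain ⟨h1, h2⟩ := mem_filter.1 hx
    obtain ⟨D, ρ, m, a, x₁, u₁, x₂, u₂⟩ := x
    obtain ⟨q1, q2, q3, q4, q5⟩ := (hFs _ h1).1
    exact ⟨⟨q1, q2⟩, q4, h2⟩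
  have hA := hcore N hN (kap * (F * Y ^ 2)) (20 * Y) (F ^ 2) A1 A2 (by positivity) A3
    (by positivity) A4 FA (fun x hx => by
      obtain ⟨h1, h2⟩ := mem_filter.1 hx
      obtain ⟨D, ρ, m, a, x₁, u₁, x₂, u₂⟩ := x
      have h3 := (hFs _ h1).1
      obtain ⟨_, i2, i3, _, i5⟩ := sizes N F Y hF0 hY0 D ρ m a x₁ u₁ x₂ u₂ h3
      obtain ⟨q1, q2, q3, q4, q5⟩ := h3
      refine ⟨q1, q3, q4, h2.1, h2.2, i2, ?_, i5.1, i5.2⟩
      simp only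
      have := (le_abs_self (a : ℝ)).trans i3
      nlinarith)
  have hB := hcore N hN (kap * (F ^ 2 * Y)) F (400 * Y ^ 2) B1 B2 hF0 B3
    (by positivity) B4 (FB.image tau) (fun x hx => by
      obtain ⟨x', hx', rfl⟩ := mem_image.1 hx
      obtain ⟨h1, h2⟩ := mem_filter.1 hx'
      obtain ⟨D, ρ, m, a, x₁, u₁, x₂, u₂⟩ := x'
      have h3 := (hFs _ h1).1
      obtain ⟨_, i2, i3, i4, _⟩ := sizes N F Y hF0 hY0 D ρ m a x₁ u₁ x₂ u₂ h3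
      obtain ⟨q1, q2, q3, q4, q5⟩ := h3
      refine ⟨q1, q3, REL_symm _ _ _ _ _ _ _ _ q4, h2.2, h2.1, i3, ?_, ?_, i4.2⟩
      · exact (le_abs_self _).trans i2
      · simp only [tau]
        have e : 2 * ((-x₁ - thR D * u₁ : ℤ) : ℝ) + ((thR D : ℤ) : ℝ) * (u₁ : ℝ) =
            -(2 * (x₁ : ℝ) + ((thR D : ℤ) : ℝ) * (u₁ : ℝ)) := by push_cast; ring
        rw [e, abs_neg]
        exact i4.1)
  rw [card_image_of_injective _ tau_inj] at hB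
  rw [← hs] at hA hB
  have hc : Fs.card ≤ F0.card + (FA.card + FB.card) :=
    (card_le_card hU).trans ((card_union_le _ _).trans (Nat.add_le_add_left (card_union_le _ _) _))
  have hc' : (Fs.card : ℝ) ≤ F0.card + (FA.card + FB.card) := by exact_mod_cast hc
  have h0' : (F0.card : ℝ) ≤ 4 * N := by exact_mod_cast h0
  have h0'' : (4 : ℝ) * N ≤ 4 * kap * (N : ℝ) ^ ε * (Y ^ 2 * s) := by
    have t1 : (N : ℝ) ≤ kap * (Y ^ 2 * s) := by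
      calc (N : ℝ) = s * s := hs2.symm
        _ ≤ (kap * Y ^ 2) * s := mul_le_mul_of_nonneg_right p2 hs0.le
        _ = kap * (Y ^ 2 * s) := by ring
    have t2 : 0 ≤ kap * (Y ^ 2 * s) := by positivity
    calc (4 : ℝ) * N ≤ 4 * (kap * (Y ^ 2 * s)) := by linarith
      _ = 4 * (1 * (kap * (Y ^ 2 * s))) := by ring
      _ ≤ 4 * ((N : ℝ) ^ ε * (kap * (Y ^ 2 * s))) := by
        refine mul_le_mul_of_nonneg_left (mul_le_mul_of_nonneg_right hNe t2) (by norm_num)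
      _ = _ := by ring
  have hFs2 : F ^ 2 / s ≤ kap := by
    rw [div_le_iff₀ hs0]; exact p1
  have hAb : kap * (F * Y ^ 2) * (20 * Y) + kap * (F * Y ^ 2) / s * F ^ 2 ≤
      (20 * kap ^ 2 + kap ^ 3) * (Y ^ 2 * s) := by
    have t1 : kap * (F * Y ^ 2) * (20 * Y) ≤ 20 * kap ^ 2 * (Y ^ 2 * s) := by
      calc kap * (F * Y ^ 2) * (20 * Y) = 20 * kap * Y ^ 2 * (F * Y) := by ring
        _ ≤ 20 * kap * Y ^ 2 * (kap * s) := mul_le_mul_of_nonneg_left p3 (by positivity)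
        _ = _ := by ring
    have t2 : kap * (F * Y ^ 2) / s * F ^ 2 ≤ kap ^ 3 * (Y ^ 2 * s) := by
      calc kap * (F * Y ^ 2) / s * F ^ 2 = kap * Y ^ 2 * F * (F ^ 2 / s) := by
            field_simp
        _ ≤ kap * Y ^ 2 * F * kap := mul_le_mul_of_nonneg_left hFs2 (by positivity)
        _ ≤ kap * Y ^ 2 * (kap * s) * kap := by
            refine mul_le_mul_of_nonneg_right ?_ hk0.le
            exact mul_le_mul_of_nonneg_left hFs' (by positivity)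
        _ = _ := by ring
    linarith
  have hBb : kap * (F ^ 2 * Y) * F + kap * (F ^ 2 * Y) / s * (400 * Y ^ 2) ≤
      401 * kap ^ 3 * (Y ^ 2 * s) := by
    have t1 : kap * (F ^ 2 * Y) * F ≤ kap ^ 3 * (Y ^ 2 * s) := by
      calc kap * (F ^ 2 * Y) * F = kap * Y * (F ^ 2 * F) := by ring
        _ ≤ kap * Y * ((kap * s) * (kap * Y)) :=
          mul_le_mul_of_nonneg_left (mul_le_mul p1 hFY hF0.le (by positivity)) (by positivity)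
        _ = _ := by ring
    have t2 : kap * (F ^ 2 * Y) / s * (400 * Y ^ 2) ≤ 400 * kap ^ 3 * (Y ^ 2 * s) := by
      calc kap * (F ^ 2 * Y) / s * (400 * Y ^ 2) = 400 * kap * Y ^ 2 * ((F ^ 2 / s) * Y) := by
            field_simp
        _ ≤ 400 * kap * Y ^ 2 * (kap * (kap * s)) :=
          mul_le_mul_of_nonneg_left (mul_le_mul hFs2 hYs hY0.le hk0.le) (by positivity)
        _ = _ := by ring
    linarith
  have hNe0 : 0 ≤ C * (N : ℝ) ^ ε := by positivity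
  have hA' := hA.trans (mul_le_mul_of_nonneg_left hAb hNe0)
  have hB' := hB.trans (mul_le_mul_of_nonneg_left hBb hNe0)
  calc (Fs.card : ℝ) ≤ 4 * kap * (N : ℝ) ^ ε * (Y ^ 2 * s) +
        (C * (N : ℝ) ^ ε * ((20 * kap ^ 2 + kap ^ 3) * (Y ^ 2 * s)) +
          C * (N : ℝ) ^ ε * (401 * kap ^ 3 * (Y ^ 2 * s))) := by linarith
    _ = _ := by ring

end Pool.Agent.T2h80.R5
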