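import Pool.Agent.T2h80.F5.Top
import Pool.Agent.T2h80.R5.FINR
import Pool.Agent.T2h80.R5.INTR
import Pool.Agent.T2h80.R5.CNTR
import Pool.Agent.T2h80.R5.CNB1
import Pool.Agent.T2h80.R5.CNB2
import Pool.Agent.T2h80.R5.CNX
import Pool.Agent.T2h80.R5.NUB1
import Pool.Agent.T2h80.R5.NUB2
import Pool.Agent.T2h80.R5.BOXR
import Pool.Agent.T2h80.R5.INNR
import Pool.Agent.T2h80.R5.DCR
import Pool.Agent.T2h80.R5.AVGR
import Pool.Agent.T2h80.R5.DEGR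
import Pool.Agent.T2h80.R5.FAM
import Pool.Agent.T2h80.R5.DERR
import Pool.Agent.T2h80.R5.ZAR
import Pool.Agent.T2h80.R5.ZBR
import Pool.Agent.T2h80.R5.ROOT
import Pool.Agent.T2h80.R5.ZERR
import Pool.Agent.T2h80.R5.OMR
import Pool.Agent.T2h80.R5.SPLR
import Pool.Agent.T2h80.R5.COPR
import Pool.Agent.T2h80.R5.MER
import Pool.Agent.T2h80.R5.LAT1
import Pool.Agent.T2h80.R5.LAT2
import Pool.Agent.T2h80.R5.ALGR

set_option autoImplicit false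

namespace Pool.Agent.T2h80.R5

open Pool.Agent.T2h80

theorem top_BOXR : S_BOXR :=
  t_BOXR (t_INNR F5.t_FEJ F5.t_WEY (t_DCR F5.t_DUA))
    (t_AVGR F5.t_RES (F5.t_ROO F5.t_CUB F5.t_SLO) F5.t_CON (F5.t_RAD F5.t_SMO) F5.t_DIV
      (t_DEGR F5.t_DIV) (t_FAM F5.t_DIV F5.t_SMO))

theorem top_CNX : S_CNX := t_CNX top_BOXR

theorem top_CNTR : S_CNTR :=
  t_CNTR (t_CNB1 top_CNX t_NUB1) (t_CNB2 top_CNX t_NUB2) F5.t_SMO

theorem top_ALGR : S_ALGR := t_ALGR t_OMR t_LAT1 t_LAT2 (t_MER t_SPLR t_COPR)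

theorem top_ZERR : S_ZERR := t_ZERR t_ZAR (t_ZBR t_ROOT F5.t_DIV) F5.t_DIV

theorem top : S_FINR := t_FINR top_ALGR (t_INTR t_DERR top_CNTR top_ZERR)

end Pool.Agent.T2h80.R5
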